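import Pool.Agent.Helper15.DE.Defs

/-!
Module DE-VI1 (fair coins).
`coin {b} = 1/2` for both `b`; for a finite set `G` and `e : V d → Bool`,
`coins d {κ | ∀ z ∈ G, κ z = e z} = (1/2)^|G|` (`Measure.infinitePi_pi` with the sets `{e z}`).
`coins_comp`: both sides are probability measures on `V d → Bool`; the finite-dimensional cylinders
`{χ | ∀ x ∈ F, χ x = ε x}` form (with the empty set) a pi-system generating the sigma-algebra, so it
is enough to compare `coins d {κ | ∀ x ∈ F, κ (r x) = ε x}` and the same with `r'`.  If there are
`x, y ∈ F` with `r x = r y` and `ε x ≠ ε y` then both are `0` (by `h`).  Otherwise the first set is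
`{κ | ∀ z ∈ r(F), κ z = e z}` for a suitable `e`, of measure `(1/2)^|r(F)|`, similarly the second, and
`|r(F)| = |r'(F)|` by `h`.
`coins_flip`: the same comparison on cylinders (or `Measure.infinitePi_map_pi` with the maps
`fun i b => if i = z then !b else b`, since `coin.map (!·) = coin`).
-/

open MeasureTheory Filter Topology

namespace Helper15.DE

variable {d : ℕ}

instance : IsProbabilityMeasure coin := by
  unfold coin; infer_instance

instance : IsProbabilityMeasure (coins d) := by
  unfold coins; infer_instance

private theorem coin_single (b : Bool) : coin {b} = 1 / 2 := by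
  unfold coin
  rw [PMF.toMeasure_uniformOfFintype_apply _ (measurableSet_singleton b)]
  simp

private theorem coin_map_not : coin.map (fun b => !b) = coin := by
  refine Measure.ext_of_singleton fun b => ?_
  rw [Measure.map_apply (measurable_of_finite _) (measurableSet_singleton b)]
  have h : (fun b => !b) ⁻¹' {b} = {!b} := by
    ext x
    cases x <;> cases b <;> simp
  rw [h, coin_single, coin_single]

private theorem coins_inj {Q : Type} (j : Q → V d) (hj : Function.Injective j) :
    (coins d).map (fun κ => κ ∘ j) = Measure.infinitePi (fun _ : Q => coin) := by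
  classical
  refine Measure.eq_infinitePi _ fun s t ht => ?_
  have hm : Measurable (fun κ : V d → Bool => κ ∘ j) :=
    measurable_pi_lambda _ fun q => measurable_pi_apply (j q)
  rw [Measure.map_apply hm (.pi s.countable_toSet fun _ _ => ht _)]
  let t' : V d → Set Bool := fun z => if h : ∃ q, j q = z then t h.choose else Set.univ
  have ht' : ∀ q, t' (j q) = t q := by
    intro q
    have h : ∃ q', j q' = j q := ⟨q, rfl⟩
    show (if h : ∃ q', j q' = j q then t h.choose else Set.univ) = t q
    rw [dif_pos h, hj h.choose_spec]
  have e : (fun κ : V d → Bool => κ ∘ j) ⁻¹' ((s : Set Q).pi t) =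
      ((s.map ⟨j, hj⟩ : Finset (V d)) : Set (V d)).pi t' := by
    ext κ
    simp only [Set.mem_preimage, Set.mem_pi, Finset.mem_coe, Finset.mem_map,
      Function.Embedding.coeFn_mk, Function.comp_apply]
    constructor
    · rintro h _ ⟨q, hq, rfl⟩
      rw [ht']
      exact h q hq
    · intro h q hq
      have := h (j q) ⟨q, hq, rfl⟩
      rwa [ht'] at this
  rw [e]
  unfold coins
  rw [Measure.infinitePi_pi _ (fun _ _ => (Set.toFinite _).measurableSet), Finset.prod_map]
  refine Finset.prod_congr rfl fun q _ => ?_
  rw [Function.Embedding.coeFn_mk, ht']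

theorem coins_cyl (G : Finset (V d)) (e : V d → Bool) :
    (coins d) {κ | ∀ z ∈ G, κ z = e z} = (1 / 2) ^ G.card := by
  have h : {κ : V d → Bool | ∀ z ∈ G, κ z = e z} = (G : Set (V d)).pi (fun z => {e z}) := by
    ext κ
    simp [Set.mem_pi]
  rw [h]
  unfold coins
  rw [Measure.infinitePi_pi _ (fun _ _ => measurableSet_singleton _)]
  simp only [coin_single, Finset.prod_const]

theorem coins_comp (r r' : V d → V d) (h : ∀ x y, r x = r y ↔ r' x = r' y) :
    (coins d).map (fun κ => κ ∘ r) = (coins d).map (fun κ => κ ∘ r') := by
  let Q := Quotient (Setoid.ker r)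
  let p : V d → Q := Quotient.mk _
  let j : Q → V d := Quotient.lift r fun _ _ h => h
  let j' : Q → V d := Quotient.lift r' fun x y hxy => (h x y).1 hxy
  have hj : Function.Injective j := by
    intro a b
    refine Quotient.inductionOn₂ a b fun x y hxy => ?_
    exact Quotient.sound hxy
  have hj' : Function.Injective j' := by
    intro a b
    refine Quotient.inductionOn₂ a b fun x y hxy => ?_
    exact Quotient.sound ((h x y).2 hxy)
  have e1 : (fun κ : V d → Bool => κ ∘ r) = (fun f : Q → Bool => f ∘ p) ∘ (fun κ => κ ∘ j) := rfl
  have e2 : (fun κ : V d → Bool => κ ∘ r') = (fun f : Q → Bool => f ∘ p) ∘ (fun κ => κ ∘ j') :=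
    rfl
  have hm : Measurable (fun f : Q → Bool => f ∘ p) :=
    measurable_pi_lambda _ fun x => measurable_pi_apply (p x)
  have hm1 : Measurable (fun κ : V d → Bool => κ ∘ j) :=
    measurable_pi_lambda _ fun q => measurable_pi_apply (j q)
  have hm2 : Measurable (fun κ : V d → Bool => κ ∘ j') :=
    measurable_pi_lambda _ fun q => measurable_pi_apply (j' q)
  rw [e1, e2, ← Measure.map_map hm hm1, ← Measure.map_map hm hm2, coins_inj j hj, coins_inj j' hj']

theorem coins_flip (z : V d) :
    (coins d).map (fun κ => Function.update κ z (!κ z)) = coins d := by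
  classical
  have e : (fun κ : V d → Bool => Function.update κ z (!κ z)) =
      fun κ i => (fun (i : V d) (b : Bool) => if i = z then !b else b) i (κ i) := by
    funext κ i
    by_cases hi : i = z
    · subst hi
      simp
    · simp [hi]
  rw [e]
  unfold coins
  have h1 := Measure.infinitePi_map_pi (μ := fun _ : V d => coin)
    (f := fun (i : V d) (b : Bool) => if i = z then !b else b)
    (fun _ => measurable_of_finite _)
  refine h1.trans ?_
  congr 1
  funext i
  by_cases hi : i = z
  · simp only [hi, if_true]
    exact coin_map_not
  · simp only [hi, if_false]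
    exact Measure.map_id

end Helper15.DE
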