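import Pool.Agent.Helper15.DE.Defs

/-!
Module DE-V3 (the relative permutation: formulas, covariance, bounded steps).
`Cfg` and `Cfg2` are shift invariant: `mv st (shift v ω) x = mv st ω (x + v) - v`, so `mv st (shift v ω)`
is the conjugate of `mv st ω` by a translation.  `ph_spec`: unfold `ph`, `dif_pos`.
`ph_shift`: if `ω ∈ Cfg2 st`, both sides have the same image under the injective map
`mv st (c2 (shift v ω))`; if `ω ∉ Cfg2 st` then also `shift v ω ∉ Cfg2 st` and both permutations are
the identity.  `ph_zpow_shift`: the permutation `ph st (shift v ω)` is the conjugate of `ph st ω` by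
`Equiv.addRight v`; use powers of conjugates (or induction).
`ph_bdd`: take `R` twice the maximum of the `|st a i|`.
-/

open MeasureTheory Filter Topology

namespace Helper15.DE

variable {d : ℕ} {A : Type}

theorem mv_shift (st : A → V d) (v : V d) (ω : V d → A) (x : V d) :
    mv st (shift v ω) x = mv st ω (x + v) - v := by
  unfold mv shift
  abel

/-- the map of a shifted configuration as a conjugate -/
private theorem mv_shift_eq (st : A → V d) (v : V d) (ω : V d → A) :
    mv st (shift v ω) = (Equiv.subRight v) ∘ mv st ω ∘ (Equiv.addRight v) := by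
  funext x
  rw [mv_shift]
  rfl

theorem shift_mem_Cfg (st : A → V d) (v : V d) (ω : V d → A) :
    shift v ω ∈ Cfg st ↔ ω ∈ Cfg st := by
  change Function.Bijective (mv st (shift v ω)) ↔ Function.Bijective (mv st ω)
  rw [mv_shift_eq, Equiv.comp_bijective, Equiv.bijective_comp]

theorem shift_mem_Cfg2 (st : A → V d) (v : V d) (ω : V d → A × A) :
    shift v ω ∈ Cfg2 st ↔ ω ∈ Cfg2 st := by
  have h1 : c1 (shift v ω) = shift v (c1 ω) := rfl
  have h2 : c2 (shift v ω) = shift v (c2 ω) := rfl
  change (c1 (shift v ω) ∈ Cfg st ∧ c2 (shift v ω) ∈ Cfg st) ↔ (c1 ω ∈ Cfg st ∧ c2 ω ∈ Cfg st)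
  rw [h1, h2, shift_mem_Cfg, shift_mem_Cfg]

theorem shift_shift (u v : V d) (ω : V d → A) : shift u (shift v ω) = shift (u + v) ω := by
  funext x
  unfold shift
  rw [add_assoc]

theorem shift_zero (ω : V d → A) : shift 0 ω = ω := by
  funext x
  unfold shift
  rw [add_zero]

theorem ph_spec (st : A → V d) {ω : V d → A × A} (h : ω ∈ Cfg2 st) (x : V d) :
    mv st (c2 ω) (ph st ω x) = mv st (c1 ω) x := by
  unfold ph
  rw [dif_pos h]
  exact (Equiv.ofBijective (mv st (c2 ω)) h.2).apply_symm_apply _

theorem ph_eq_iff (st : A → V d) {ω : V d → A × A} (h : ω ∈ Cfg2 st) (x y : V d) :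
    ph st ω x = y ↔ mv st (c1 ω) x = mv st (c2 ω) y := by
  rw [← ph_spec st h x]
  exact ⟨fun e => by rw [e], fun e => h.2.1 e⟩

theorem ph_off (st : A → V d) {ω : V d → A × A} (h : ω ∉ Cfg2 st) : ph st ω = 1 := by
  unfold ph
  rw [dif_neg h]
  rfl

theorem ph_shift (st : A → V d) (v : V d) (ω : V d → A × A) (x : V d) :
    ph st (shift v ω) x = ph st ω (x + v) - v := by
  by_cases h : ω ∈ Cfg2 st
  · have h' : shift v ω ∈ Cfg2 st := (shift_mem_Cfg2 st v ω).2 h
    rw [ph_eq_iff st h']
    have h1 : c1 (shift v ω) = shift v (c1 ω) := rfl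
    have h2 : c2 (shift v ω) = shift v (c2 ω) := rfl
    rw [h1, h2, mv_shift, mv_shift, sub_add_cancel, ph_spec st h]
  · have h' : shift v ω ∉ Cfg2 st := fun e => h ((shift_mem_Cfg2 st v ω).1 e)
    rw [ph_off st h, ph_off st h', Equiv.Perm.one_apply, Equiv.Perm.one_apply, add_sub_cancel_right]

private theorem ph_npow_shift (st : A → V d) (v : V d) (ω : V d → A × A) (k : ℕ) (x : V d) :
    (ph st (shift v ω) ^ k) x = (ph st ω ^ k) (x + v) - v := by
  induction k generalizing x with
  | zero => rw [pow_zero, pow_zero, Equiv.Perm.one_apply, Equiv.Perm.one_apply, add_sub_cancel_right]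
  | succ k ih =>
    rw [pow_succ, pow_succ, Equiv.Perm.mul_apply, Equiv.Perm.mul_apply, ih, ph_shift,
      sub_add_cancel]

theorem ph_zpow_shift (st : A → V d) (v : V d) (ω : V d → A × A) (k : ℤ) (x : V d) :
    (ph st (shift v ω) ^ k) x = (ph st ω ^ k) (x + v) - v := by
  cases k with
  | ofNat k =>
    rw [Int.ofNat_eq_natCast, zpow_natCast, zpow_natCast]
    exact ph_npow_shift st v ω k x
  | negSucc k =>
    rw [zpow_negSucc, zpow_negSucc]
    rw [Equiv.Perm.inv_eq_iff_eq, ph_npow_shift, sub_add_cancel]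
    have h1 : (ph st ω ^ (k + 1)) ((ph st ω ^ (k + 1))⁻¹ (x + v)) = x + v := by
      rw [← Equiv.Perm.mul_apply, mul_inv_cancel, Equiv.Perm.one_apply]
    rw [h1, add_sub_cancel_right]

theorem infOrb_shift (st : A → V d) (v : V d) (ω : V d → A × A) (x : V d) :
    InfOrb (ph st (shift v ω)) x ↔ InfOrb (ph st ω) (x + v) := by
  unfold InfOrb
  refine forall_congr' fun k => imp_congr_right fun _ => not_congr ?_
  rw [ph_npow_shift, sub_eq_iff_eq_add]

theorem sameCycle_shift (st : A → V d) (v : V d) (ω : V d → A × A) (x y : V d) :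
    (ph st (shift v ω)).SameCycle x y ↔ (ph st ω).SameCycle (x + v) (y + v) := by
  unfold Equiv.Perm.SameCycle
  refine exists_congr fun k => ?_
  rw [ph_zpow_shift, sub_eq_iff_eq_add]

theorem ph_bdd [Finite A] (st : A → V d) : ∃ R : ℤ, 0 ≤ R ∧
    ∀ (ω : V d → A × A) (x : V d) (i : Fin d), |ph st ω x i - x i| ≤ R := by
  classical
  have := Fintype.ofFinite A
  refine ⟨∑ a : A, ∑ i : Fin d, |st a i| + ∑ a : A, ∑ i : Fin d, |st a i|, ?_, ?_⟩
  · positivity
  · have hst : ∀ (a : A) (i : Fin d), |st a i| ≤ ∑ a : A, ∑ i : Fin d, |st a i| := by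
      intro a i
      calc |st a i| ≤ ∑ i : Fin d, |st a i| :=
            Finset.single_le_sum (f := fun i => |st a i|) (fun j _ => abs_nonneg _)
              (Finset.mem_univ i)
        _ ≤ _ := Finset.single_le_sum (f := fun a => ∑ i : Fin d, |st a i|)
              (fun b _ => Finset.sum_nonneg fun j _ => abs_nonneg _) (Finset.mem_univ a)
    intro ω x i
    by_cases h : ω ∈ Cfg2 st
    · have h1 := congrFun (ph_spec st h x) i
      unfold mv at h1
      rw [Pi.add_apply, Pi.add_apply] at h1
      have h2 : ph st ω x i - x i = st (c1 ω x) i - st (c2 ω (ph st ω x)) i := by linarith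
      rw [h2]
      exact (abs_sub _ _).trans (add_le_add (hst _ _) (hst _ _))
    · rw [ph_off st h, Equiv.Perm.one_apply, sub_self, abs_zero]
      positivity

end Helper15.DE
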