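import Pool.Agent.Helper15.DE.Defs
import Pool.Agent.Helper15.DE.PhBasic

/-!
Module DE-V4 (measurability).  `Cfg st` is measurable: it is
`{injective} ∩ {surjective}`, the first is the countable intersection over `x ≠ y` of
`{ω | x + st (ω x) ≠ y + st (ω y)}`, the second the countable intersection over `z` of the countable
union over `x` of `{ω | x + st (ω x) = z}`; each of these sets depends on one or two coordinates
with values in the finite measurable-singleton space `A`.
`{ω | ph st ω x = y}` is `(Cfg2 ∩ {mv st (c1 ω) x = mv st (c2 ω) y}) ∪ (Cfg2ᶜ ∩ {x = y})` by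
`ph_eq_iff`, `ph_off`.  Powers: induction, `{(φ^(k+1)) x = y} = ⋃ z, {φ^k x = z} ∩ {φ z = y}`, and
`{φ⁻¹ x = y} = {φ y = x}`.  `SameCycle` is a countable union over `k : ℤ`, `InfOrb` a countable
intersection.  `rep φ x = y` iff `SameCycle φ x y` and for all `z` with `enumV z < enumV y`,
not `SameCycle φ x z` (`enumV` is injective; `Function.argminOn_mem`, `Function.argminOn_le`).
`rep_eq_iff`: the sets `{y | SameCycle x y}` for `x` and `x'` are equal if `SameCycle x x'`, and the
values of `rep` lie in the cycle.
-/

open MeasureTheory Filter Topology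

namespace Helper15.DE

variable {d : ℕ} {A : Type}

theorem rep_mem (φ : Equiv.Perm (V d)) (x : V d) : φ.SameCycle x (rep φ x) := by
  unfold rep
  exact Function.argminOn_mem enumV {y | φ.SameCycle x y} ⟨x, Equiv.Perm.SameCycle.refl φ x⟩

private theorem rep_le (φ : Equiv.Perm (V d)) (x z : V d) (h : φ.SameCycle x z) :
    enumV (rep φ x) ≤ enumV z := by
  unfold rep
  exact Function.argminOn_le enumV {y | φ.SameCycle x y} h

private theorem rep_eq_char (φ : Equiv.Perm (V d)) (x y : V d) :
    rep φ x = y ↔ φ.SameCycle x y ∧ ∀ z, φ.SameCycle x z → enumV y ≤ enumV z := by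
  constructor
  · rintro rfl
    exact ⟨rep_mem φ x, fun z hz => rep_le φ x z hz⟩
  · rintro ⟨h1, h2⟩
    exact enumV_injective (le_antisymm (rep_le φ x y h1) (h2 _ (rep_mem φ x)))

theorem rep_eq_iff (φ : Equiv.Perm (V d)) (x y : V d) : rep φ x = rep φ y ↔ φ.SameCycle x y := by
  constructor
  · intro h
    have h1 := rep_mem φ x
    have h2 := rep_mem φ y
    rw [← h] at h2
    exact h1.trans h2.symm
  · intro h
    rw [rep_eq_char]
    refine ⟨h.trans (rep_mem φ y), fun z hz => rep_le φ y z (h.symm.trans hz)⟩

variable [Finite A] [MeasurableSpace A] [MeasurableSingletonClass A]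

theorem measurable_shift (v : V d) : Measurable (shift v : (V d → A) → V d → A) := by
  exact measurable_pi_lambda _ fun x => measurable_pi_apply (x + v)

private theorem measurable_mv (st : A → V d) (x : V d) :
    Measurable (fun ω : V d → A => mv st ω x) := by
  have h : Measurable (fun a : A => x + st a) := measurable_of_countable _
  exact h.comp (measurable_pi_apply x)

private theorem measurable_c1 : Measurable (c1 : (V d → A × A) → V d → A) :=
  measurable_pi_lambda _ fun x => measurable_fst.comp (measurable_pi_apply x)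

private theorem measurable_c2 : Measurable (c2 : (V d → A × A) → V d → A) :=
  measurable_pi_lambda _ fun x => measurable_snd.comp (measurable_pi_apply x)

theorem measurableSet_Cfg (st : A → V d) : MeasurableSet (Cfg st) := by
  have h : Cfg st = {ω : V d → A | (∀ x y, mv st ω x = mv st ω y → x = y) ∧
      ∀ z, ∃ x, mv st ω x = z} := rfl
  rw [h, measurableSet_setOfPred]
  refine Measurable.and ?_ ?_
  · refine Measurable.forall fun x => Measurable.forall fun y => Measurable.imp ?_ ?_
    · exact measurableSet_setOfPred.1 (measurableSet_eq_fun (measurable_mv st x) (measurable_mv st y))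
    · exact measurable_const
  · refine Measurable.forall fun z => Measurable.exists fun x => ?_
    exact measurableSet_setOfPred.1 (measurableSet_eq_fun (measurable_mv st x) measurable_const)

theorem measurableSet_Cfg2 (st : A → V d) : MeasurableSet (Cfg2 st) := by
  have h : Cfg2 st = c1 ⁻¹' Cfg st ∩ c2 ⁻¹' Cfg st := rfl
  rw [h]
  exact (measurable_c1 (measurableSet_Cfg st)).inter (measurable_c2 (measurableSet_Cfg st))

theorem measurableSet_ph (st : A → V d) (x y : V d) :
    MeasurableSet {ω : V d → A × A | ph st ω x = y} := by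
  have h : {ω : V d → A × A | ph st ω x = y} =
      (Cfg2 st ∩ {ω | mv st (c1 ω) x = mv st (c2 ω) y}) ∪ ((Cfg2 st)ᶜ ∩ {_ω | x = y}) := by
    ext ω
    by_cases hω : ω ∈ Cfg2 st
    · simp [hω, ph_eq_iff st hω]
    · simp [hω, ph_off st hω]
  rw [h]
  refine ((measurableSet_Cfg2 st).inter ?_).union ((measurableSet_Cfg2 st).compl.inter ?_)
  · exact measurableSet_eq_fun ((measurable_mv st x).comp measurable_c1)
      ((measurable_mv st y).comp measurable_c2)
  · exact MeasurableSet.const _

private theorem measurableSet_ph_npow (st : A → V d) (k : ℕ) (x y : V d) :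
    MeasurableSet {ω : V d → A × A | (ph st ω ^ k) x = y} := by
  induction k generalizing y with
  | zero =>
    simp only [pow_zero, Equiv.Perm.one_apply]
    exact MeasurableSet.const _
  | succ k ih =>
    have h : {ω : V d → A × A | (ph st ω ^ (k + 1)) x = y} =
        ⋃ z : V d, {ω | (ph st ω ^ k) x = z} ∩ {ω | ph st ω z = y} := by
      ext ω
      simp only [Set.mem_ofPred_eq, Set.mem_iUnion, Set.mem_inter_iff, pow_succ',
        Equiv.Perm.mul_apply, exists_eq_left']
    rw [h]
    exact MeasurableSet.iUnion fun z => (ih z).inter (measurableSet_ph st z y)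

theorem measurableSet_ph_zpow (st : A → V d) (k : ℤ) (x y : V d) :
    MeasurableSet {ω : V d → A × A | (ph st ω ^ k) x = y} := by
  cases k with
  | ofNat k =>
    simp only [Int.ofNat_eq_natCast, zpow_natCast]
    exact measurableSet_ph_npow st k x y
  | negSucc k =>
    have h : {ω : V d → A × A | (ph st ω ^ (Int.negSucc k)) x = y} =
        {ω | (ph st ω ^ (k + 1)) y = x} := by
      ext ω
      simp only [Set.mem_ofPred_eq, zpow_negSucc]
      rw [Equiv.Perm.inv_eq_iff_eq]
      exact eq_comm
    rw [h]
    exact measurableSet_ph_npow st (k + 1) y x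

theorem measurableSet_sameCycle (st : A → V d) (x y : V d) :
    MeasurableSet {ω : V d → A × A | (ph st ω).SameCycle x y} := by
  have h : {ω : V d → A × A | (ph st ω).SameCycle x y} =
      ⋃ k : ℤ, {ω | (ph st ω ^ k) x = y} := by
    ext ω
    simp only [Set.mem_ofPred_eq, Set.mem_iUnion]
    rfl
  rw [h]
  exact MeasurableSet.iUnion fun k => measurableSet_ph_zpow st k x y

theorem measurableSet_infOrb (st : A → V d) (x : V d) :
    MeasurableSet {ω : V d → A × A | InfOrb (ph st ω) x} := by
  have h : {ω : V d → A × A | InfOrb (ph st ω) x} =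
      ⋂ k : ℕ, {ω | 0 < k → (ph st ω ^ k) x ≠ x} := by
    ext ω
    simp only [Set.mem_ofPred_eq, Set.mem_iInter]
    rfl
  rw [h]
  refine MeasurableSet.iInter fun k => ?_
  by_cases hk : 0 < k
  · simp only [hk, true_imp_iff]
    exact (measurableSet_ph_npow st k x x).compl
  · simp [hk]

theorem measurableSet_rep (st : A → V d) (x y : V d) :
    MeasurableSet {ω : V d → A × A | rep (ph st ω) x = y} := by
  have h : {ω : V d → A × A | rep (ph st ω) x = y} =
      {ω | (ph st ω).SameCycle x y} ∩
        ⋂ z : V d, {ω | (ph st ω).SameCycle x z → enumV y ≤ enumV z} := by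
    ext ω
    simp only [Set.mem_ofPred_eq, Set.mem_iInter, Set.mem_inter_iff, rep_eq_char]
  rw [h]
  refine (measurableSet_sameCycle st x y).inter (MeasurableSet.iInter fun z => ?_)
  by_cases hz : enumV y ≤ enumV z
  · simp [hz]
  · simp only [hz, imp_false]
    exact (measurableSet_sameCycle st x z).compl

theorem measurable_rev (st : A → V d) (x : V d) :
    Measurable (rev st x : (V d → A × A) → V d → A × A) := by
  classical
  refine measurable_pi_lambda _ fun y => ?_
  unfold rev
  refine Measurable.ite ?_ ?_ (measurable_pi_apply y)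
  · exact (measurableSet_infOrb st x).inter (measurableSet_sameCycle st x y)
  · exact measurable_swap.comp (measurable_pi_apply y)

theorem measurable_flips (st : A → V d) :
    Measurable (fun p : (V d → A × A) × (V d → Bool) => flips st p.1 p.2) := by
  classical
  refine measurable_pi_lambda _ fun x => ?_
  unfold flips
  refine Measurable.ite ?_ ?_ ?_
  · have h : {p : (V d → A × A) × (V d → Bool) | InfOrb (ph st p.1) x ∧
        p.2 (rep (ph st p.1) x) = true} =
        Prod.fst ⁻¹' {ω | InfOrb (ph st ω) x} ∩
          ⋃ y : V d, (Prod.fst ⁻¹' {ω | rep (ph st ω) x = y} ∩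
            Prod.snd ⁻¹' {κ : V d → Bool | κ y = true}) := by
      ext p
      simp only [Set.mem_ofPred_eq, Set.mem_iUnion, Set.mem_inter_iff, Set.mem_preimage,
        exists_eq_left']
    rw [h]
    refine (measurable_fst (measurableSet_infOrb st x)).inter (MeasurableSet.iUnion fun y => ?_)
    refine (measurable_fst (measurableSet_rep st x y)).inter (measurable_snd ?_)
    have h3 : {κ : V d → Bool | κ y = true} = (fun κ : V d → Bool => κ y) ⁻¹' {true} := rfl
    rw [h3]
    exact measurable_pi_apply y (measurableSet_singleton true)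
  · exact measurable_swap.comp ((measurable_pi_apply x).comp measurable_fst)
  · exact (measurable_pi_apply x).comp measurable_fst

private theorem measurable_zpow_div (st : A → V d) (x : V d) (k : ℤ) (n : ℕ) :
    Measurable (fun ω : V d → A × A => fun i : Fin d => (((ph st ω ^ k) x i : ℤ) : ℝ) / n) := by
  have h1 : Measurable (fun ω : V d → A × A => (ph st ω ^ k) x) :=
    measurable_to_countable' fun y => measurableSet_ph_zpow st k x y
  have h2 : Measurable (fun v : V d => fun i : Fin d => ((v i : ℤ) : ℝ) / n) :=
    measurable_of_countable _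
  exact h2.comp h1

theorem measurableSet_hasVel (st : A → V d) (x : V d) (w : Fin d → ℝ) :
    MeasurableSet {ω : V d → A × A | HasVel (ph st ω) x w} := by
  have h : {ω : V d → A × A | HasVel (ph st ω) x w} =
      {ω | Tendsto (fun k : ℕ => fun i => (((ph st ω ^ (k : ℤ)) x i : ℤ) : ℝ) / k) atTop (𝓝 w)} ∩
      {ω | Tendsto (fun k : ℕ => fun i => (((ph st ω ^ (-(k : ℤ))) x i : ℤ) : ℝ) / k) atTop
        (𝓝 (-w))} := by
    ext ω
    simp only [Set.mem_ofPred_eq, Set.mem_inter_iff, HasVel, zpow_neg, zpow_natCast, inv_pow]
  rw [h]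
  exact (measurableSet_tendsto (𝓝 w) fun k : ℕ => measurable_zpow_div st x (k : ℤ) k).inter
    (measurableSet_tendsto (𝓝 (-w)) fun k : ℕ => measurable_zpow_div st x (-(k : ℤ)) k)

end Helper15.DE
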