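import Mathlib

/-!
Module DE-V1 (maximal ergodic inequality).
Proof (Garsia). Let `S n x = ∑ k < n, g (T^[k] x)` and `M N x = max_{0 ≤ n ≤ N} S n x` (so `M N ≥ 0`,
`Finset.sup'` over `range (N+1)` or recursively `M 0 = 0`, `M (N+1) x = max 0 (g x + M N (T x))`,
the recursive form is the most convenient: then `M N ≤ M (N+1)` and `0 < M N x` for some `N` iff
some `S n x > 0`).  On `A N = {0 < M N}` (`N ≥ 1`) we have `M N x ≤ g x + M N (T x)` because
`M N x = g x + M (N-1) (T x)`; hence `∫_{A N} g ≥ ∫_{A N} M N - ∫_{A N} M N ∘ T ≥ ∫ M N - ∫ M N ∘ T = 0`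
(`M N` vanishes off `A N`, `M N ∘ T ≥ 0`).  `A N` increases to `{x | ∃ n, 0 < S n x}`; use dominated
convergence (`|g| ≤ C`).
-/

open MeasureTheory Filter Topology

namespace Helper15.DE

namespace MaxErg

/-- the maximal function -/
noncomputable def mx {X : Type} (T : X → X) (g : X → ℝ) : ℕ → X → ℝ
  | 0 => fun _ => 0
  | n + 1 => fun x => max 0 (g x + mx T g n (T x))

variable {X : Type} {T : X → X} {g : X → ℝ}

theorem mx_nonneg (n : ℕ) (x : X) : 0 ≤ mx T g n x := by
  cases n with
  | zero => exact le_refl _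
  | succ n => exact le_max_left _ _

theorem mx_succ_le (n : ℕ) (x : X) : mx T g n x ≤ mx T g (n + 1) x := by
  induction n generalizing x with
  | zero => exact mx_nonneg 1 x
  | succ n ih =>
    show max 0 (g x + mx T g n (T x)) ≤ max 0 (g x + mx T g (n + 1) (T x))
    exact max_le_max (le_refl _) (by linarith [ih (T x)])

theorem mx_mono (x : X) : Monotone (fun n => mx T g n x) :=
  monotone_nat_of_le_succ (fun n => mx_succ_le n x)

theorem mx_bound {C : ℝ} (hb : ∀ x, |g x| ≤ C) (n : ℕ) (x : X) :
    |mx T g n x| ≤ n * |C| := by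
  rw [abs_of_nonneg (mx_nonneg n x)]
  induction n generalizing x with
  | zero => simp [mx]
  | succ n ih =>
    show max 0 (g x + mx T g n (T x)) ≤ _
    have h1 := ih (T x)
    have h2 : g x ≤ |C| := (le_abs_self _).trans ((hb x).trans (le_abs_self _))
    push_cast
    refine max_le (by positivity) ?_
    linarith

theorem mx_measurable [MeasurableSpace X] (hT : Measurable T) (hg : Measurable g) (n : ℕ) :
    Measurable (mx T g n) := by
  induction n with
  | zero => exact measurable_const
  | succ n ih => exact measurable_const.max (hg.add (ih.comp hT))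

theorem sum_succ (n : ℕ) (x : X) : ∑ k ∈ Finset.range (n + 1), g (T^[k] x)
    = g x + ∑ k ∈ Finset.range n, g (T^[k] (T x)) := by
  rw [Finset.sum_range_succ']
  simp only [Function.iterate_succ_apply, Function.iterate_zero, id_eq]
  ring

theorem mx_eq (n : ℕ) (x : X) : ∃ m, mx T g n x = ∑ k ∈ Finset.range m, g (T^[k] x) := by
  induction n generalizing x with
  | zero => exact ⟨0, by simp [mx]⟩
  | succ n ih =>
    obtain ⟨m, hm⟩ := ih (T x)
    rcases max_choice 0 (g x + mx T g n (T x)) with h | h
    · exact ⟨0, by simpa [mx] using h⟩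
    · refine ⟨m + 1, ?_⟩
      rw [sum_succ, ← hm]
      exact h

theorem sum_le_mx (n : ℕ) (x : X) : ∑ k ∈ Finset.range n, g (T^[k] x) ≤ mx T g n x := by
  induction n generalizing x with
  | zero => simp [mx]
  | succ n ih =>
    rw [sum_succ]
    exact (add_le_add (le_refl _) (ih (T x))).trans (le_max_right _ _)

theorem set_eq : {x | ∃ n : ℕ, 0 < ∑ k ∈ Finset.range n, g (T^[k] x)}
    = ⋃ n, {x | 0 < mx T g n x} := by
  ext x
  simp only [Set.mem_ofPred_eq, Set.mem_iUnion]
  constructor
  · rintro ⟨n, hn⟩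
    exact ⟨n, hn.trans_le (sum_le_mx n x)⟩
  · rintro ⟨n, hn⟩
    obtain ⟨m, hm⟩ := mx_eq (T := T) (g := g) n x
    exact ⟨m, by rwa [← hm]⟩

theorem le_on (n : ℕ) (x : X) (hx : 0 < mx T g n x) :
    mx T g n x ≤ g x + mx T g n (T x) := by
  cases n with
  | zero => exact absurd hx (lt_irrefl _)
  | succ n =>
    have h1 : mx T g (n + 1) x = g x + mx T g n (T x) := by
      rcases max_choice 0 (g x + mx T g n (T x)) with h | h
      · exfalso
        have : mx T g (n + 1) x = 0 := h
        rw [this] at hx
        exact lt_irrefl _ hx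
      · exact h
    rw [h1]
    linarith [mx_succ_le (T := T) (g := g) n (T x)]

theorem step [MeasurableSpace X] {ν : Measure X} [IsProbabilityMeasure ν]
    (hT : MeasurePreserving T ν ν) (hg : Measurable g) {C : ℝ} (hb : ∀ x, |g x| ≤ C) (n : ℕ) :
    0 ≤ ∫ x in {x | 0 < mx T g n x}, g x ∂ν := by
  have hm := mx_measurable hT.measurable hg n
  have hA : MeasurableSet {x | 0 < mx T g n x} := measurableSet_lt measurable_const hm
  have hgi : Integrable g ν :=
    Integrable.of_bound hg.aestronglyMeasurable C (Eventually.of_forall (fun x => hb x))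
  have hmi : Integrable (mx T g n) ν :=
    Integrable.of_bound hm.aestronglyMeasurable (n * |C|)
      (Eventually.of_forall (fun x => mx_bound hb n x))
  have hmTi : Integrable (fun x => mx T g n (T x)) ν :=
    Integrable.of_bound (hm.comp hT.measurable).aestronglyMeasurable (n * |C|)
      (Eventually.of_forall (fun x => mx_bound hb n (T x)))
  have h1 : ∫ x in {x | 0 < mx T g n x}, mx T g n x ∂ν = ∫ x, mx T g n x ∂ν := by
    refine setIntegral_eq_integral_of_forall_compl_eq_zero (fun x hx => ?_)
    have : ¬ 0 < mx T g n x := hx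
    exact le_antisymm (not_lt.mp this) (mx_nonneg n x)
  have h2 : ∫ x in {x | 0 < mx T g n x}, mx T g n (T x) ∂ν ≤ ∫ x, mx T g n (T x) ∂ν :=
    setIntegral_le_integral hmTi (Eventually.of_forall (fun x => mx_nonneg n (T x)))
  have h3 : ∫ x, mx T g n (T x) ∂ν = ∫ x, mx T g n x ∂ν := by
    have := integral_map (μ := ν) (φ := T) hT.measurable.aemeasurable (f := mx T g n)
      (by rw [hT.map_eq]; exact hm.aestronglyMeasurable)
    rw [hT.map_eq] at this
    exact this.symm
  have h4 : ∫ x in {x | 0 < mx T g n x}, mx T g n x ∂ν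
      ≤ ∫ x in {x | 0 < mx T g n x}, (g x + mx T g n (T x)) ∂ν := by
    refine setIntegral_mono_on hmi.integrableOn (hgi.add hmTi).integrableOn hA (fun x hx => ?_)
    exact le_on n x hx
  rw [integral_add hgi.integrableOn hmTi.integrableOn] at h4
  linarith

end MaxErg

/-- the maximal ergodic inequality for bounded functions -/
theorem maxErg {X : Type} [MeasurableSpace X] {ν : Measure X} [IsProbabilityMeasure ν] {T : X → X}
    (hT : MeasurePreserving T ν ν) {g : X → ℝ} (hg : Measurable g) {C : ℝ} (hb : ∀ x, |g x| ≤ C) :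
    0 ≤ ∫ x in {x | ∃ n : ℕ, 0 < ∑ k ∈ Finset.range n, g (T^[k] x)}, g x ∂ν := by
  have hgi : Integrable g ν :=
    Integrable.of_bound hg.aestronglyMeasurable C (Eventually.of_forall (fun x => hb x))
  rw [MaxErg.set_eq]
  have hmono : Monotone (fun n => {x | 0 < MaxErg.mx T g n x}) := by
    intro a b hab x hx
    exact lt_of_lt_of_le hx (MaxErg.mx_mono x hab)
  have ht := tendsto_setIntegral_of_monotone (μ := ν) (f := g)
    (s := fun n => {x | 0 < MaxErg.mx T g n x})
    (fun n => measurableSet_lt measurable_const (MaxErg.mx_measurable hT.measurable hg n)) hmono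
    hgi.integrableOn
  exact ge_of_tendsto' ht (fun n => MaxErg.step hT hg hb n)

end Helper15.DE
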