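import Mathlib
import Pool.Agent.Helper15.DE.MaxErg

/-!
Module DE-V2 (Birkhoff's ergodic theorem for bounded functions).
Proof.  Let `e = ν[f | invariants T]`, a version which is `invariants T`-measurable (so `e ∘ T = e`
everywhere, `MeasureTheory.stronglyMeasurable_condExp`, and a function measurable with respect to
`invariants T` satisfies `e (T x) = e x` for all `x` because the preimages of singletons are
invariant) and bounded by `C` a.e.; truncate it if you want it bounded everywhere.
Claim: for every rational `ε > 0`, a.e. `limsup (A n f) ≤ e + ε`, where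
`A n f x = (∑ k < n, f (T^[k] x)) / n`.
Let `B = {x | limsup_n A n f x > e x + ε}` (or: for infinitely many `n`,
`∑ k < n, (f (T^[k] x) - e x - ε) > 0`, which is easier: `B` is the set of `x` such that for
infinitely many `n` we have `A n f x > e x + ε`; define instead
`B = {x | ∃ δ > 0 rational, ∃ᶠ n in atTop, A n f x > e x + ε + δ}`, it is measurable and `T`-invariant
since `A n f (T x) - A n f x → 0` uniformly, `f` being bounded).  Put `g = (f - e - ε) 1_B`.
For `x ∈ B` some sum `∑ k < n, g (T^[k] x)` is positive, for `x ∉ B` all sums are `0`; so the set in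
`maxErg` is `B` and `0 ≤ ∫_B (f - e - ε) = - ε ν(B)` by `setIntegral_condExp` (`B` is measurable for
`invariants T`).  Hence `ν B = 0`.  Apply this to `f` and to `-f` and to all rational `ε`.
-/

open MeasureTheory Filter Topology

namespace Helper15.DE

/-- if `u - v` tends to zero and `u` is frequently above `c + δ` for some `δ`, so is `v` -/
theorem freq_above_of {u v : ℕ → ℝ} {c : ℝ} (h : Tendsto (fun n => u n - v n) atTop (𝓝 0))
    (hu : ∃ m : ℕ, ∃ᶠ n in atTop, c + 1 / ((m : ℝ) + 1) < u n) :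
    ∃ m : ℕ, ∃ᶠ n in atTop, c + 1 / ((m : ℝ) + 1) < v n := by
  obtain ⟨m, hm⟩ := hu
  refine ⟨2 * m + 1, ?_⟩
  have hpos : (0 : ℝ) < 1 / (2 * ((m : ℝ) + 1)) := by positivity
  have hev : ∀ᶠ n in atTop, u n - v n < 1 / (2 * ((m : ℝ) + 1)) := h.eventually_lt_const hpos
  refine (hm.and_eventually hev).mono ?_
  rintro n ⟨h1, h2⟩
  have e1 : (1 : ℝ) / (((2 * m + 1 : ℕ) : ℝ) + 1) = 1 / (2 * ((m : ℝ) + 1)) := by
    congr 1
    push_cast
    ring
  have e2 : (1 : ℝ) / ((m : ℝ) + 1) = 1 / (2 * ((m : ℝ) + 1)) + 1 / (2 * ((m : ℝ) + 1)) := by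
    have : ((m : ℝ) + 1) ≠ 0 := by positivity
    field_simp
    norm_num
  rw [e1]
  rw [e2] at h1
  linarith

/-- the averages at `T x` and at `x` differ by a null sequence -/
theorem birk_avg_shift {X : Type} {T : X → X} {f : X → ℝ} {C : ℝ} (hb : ∀ x, |f x| ≤ C) (x : X) :
    Tendsto (fun n : ℕ => (∑ k ∈ Finset.range n, f (T^[k] (T x))) / n
      - (∑ k ∈ Finset.range n, f (T^[k] x)) / n) atTop (𝓝 0) := by
  have hC : Tendsto (fun n : ℕ => (2 * C) / (n : ℝ)) atTop (𝓝 0) :=
    tendsto_const_nhds.div_atTop tendsto_natCast_atTop_atTop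
  refine squeeze_zero_norm (fun n => ?_) hC
  have h1 : ∑ k ∈ Finset.range n, f (T^[k] (T x)) - ∑ k ∈ Finset.range n, f (T^[k] x)
      = f (T^[n] x) - f x := by
    have h2 := Finset.sum_range_sub (fun k => f (T^[k] x)) n
    rw [← Finset.sum_sub_distrib]
    simpa [Function.iterate_succ_apply] using h2
  rw [← sub_div, h1, norm_div, Real.norm_eq_abs, Real.norm_natCast]
  have h3 : |f (T^[n] x) - f x| ≤ 2 * C := by
    have h4 := abs_le.1 (hb (T^[n] x))
    have h5 := abs_le.1 (hb x)
    rw [abs_le]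
    constructor <;> linarith [h4.1, h4.2, h5.1, h5.2]
  exact div_le_div_of_nonneg_right h3 (Nat.cast_nonneg n)

/-- the one sided statement -/
theorem birk_one {X : Type} [MeasurableSpace X] {ν : Measure X} [IsProbabilityMeasure ν] {T : X → X}
    (hT : MeasurePreserving T ν ν) {f e : X → ℝ} (hf : Measurable f) {C : ℝ}
    (hb : ∀ x, |f x| ≤ C) (he : Measurable[MeasurableSpace.invariants T] e) (heb : ∀ x, |e x| ≤ C)
    (hint : ∀ s, MeasurableSet[MeasurableSpace.invariants T] s →
      ∫ x in s, f x ∂ν = ∫ x in s, e x ∂ν) {ε : ℝ} (hε : 0 < ε) :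
    ∀ᵐ x ∂ν, ∀ m : ℕ, ∀ᶠ n : ℕ in atTop,
      (∑ k ∈ Finset.range n, f (T^[k] x)) / n ≤ e x + ε + 1 / ((m : ℝ) + 1) := by
  have heT : ∀ x, e (T x) = e x := fun x =>
    congrFun (MeasurableSpace.comp_eq_of_measurable_invariants he) x
  have hem : Measurable e := he.mono (MeasurableSpace.invariants_le T) le_rfl
  set A : ℕ → X → ℝ := fun n x => (∑ k ∈ Finset.range n, f (T^[k] x)) / n with hA
  have hAm : ∀ n, Measurable (A n) := by
    intro n
    refine Measurable.div_const ?_ _
    refine Finset.measurable_sum _ (fun k _ => ?_)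
    exact hf.comp (hT.measurable.iterate k)
  set B : Set X := {x | ∃ m : ℕ, ∃ᶠ n in atTop, e x + ε + 1 / ((m : ℝ) + 1) < A n x} with hB
  have hBm : MeasurableSet B := by
    have h1 : B = ⋃ m : ℕ, ⋂ N : ℕ, ⋃ n : ℕ, {x | N ≤ n ∧ e x + ε + 1 / ((m : ℝ) + 1) < A n x} := by
      ext x
      simp only [hB, Set.mem_ofPred_eq, Set.mem_iUnion, Set.mem_iInter, frequently_atTop]
    rw [h1]
    refine MeasurableSet.iUnion fun m => MeasurableSet.iInter fun N => MeasurableSet.iUnion fun n => ?_
    refine MeasurableSet.inter (MeasurableSet.const _) ?_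
    exact measurableSet_lt ((hem.add_const _).add_const _) (hAm n)
  have hBinv : T ⁻¹' B = B := by
    ext x
    simp only [Set.mem_preimage, hB, Set.mem_ofPred_eq, heT x]
    have h1 : Tendsto (fun n : ℕ => A n (T x) - A n x) atTop (𝓝 0) := birk_avg_shift hb x
    have h2 : Tendsto (fun n : ℕ => A n x - A n (T x)) atTop (𝓝 0) := by
      have := h1.neg
      simpa using this
    exact ⟨fun h => freq_above_of h1 h, fun h => freq_above_of h2 h⟩
  have hBinvT : MeasurableSet[MeasurableSpace.invariants T] B := ⟨hBm, hBinv⟩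
  have hBT : ∀ x, T x ∈ B ↔ x ∈ B := fun x => by
    rw [← Set.mem_preimage, hBinv]
  have hBk : ∀ k x, T^[k] x ∈ B ↔ x ∈ B := by
    intro k
    induction k with
    | zero => intro x; rfl
    | succ k ih => intro x; rw [Function.iterate_succ_apply, ih, hBT]
  have hek : ∀ k x, e (T^[k] x) = e x := by
    intro k
    induction k with
    | zero => intro x; rfl
    | succ k ih => intro x; rw [Function.iterate_succ_apply, ih, heT]
  set g : X → ℝ := B.indicator (fun x => f x - e x - ε) with hg
  have hgm : Measurable g := ((hf.sub hem).sub_const ε).indicator hBm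
  have hgb : ∀ x, |g x| ≤ 2 * C + ε := by
    intro x
    have h4 := abs_le.1 (hb x)
    have h5 := abs_le.1 (heb x)
    by_cases hx : x ∈ B
    · rw [hg, Set.indicator_of_mem hx, abs_le]
      constructor <;> linarith [h4.1, h4.2, h5.1, h5.2]
    · rw [hg, Set.indicator_of_notMem hx, abs_zero]
      linarith [h4.1, h4.2]
  have hsum_in : ∀ x ∈ B, ∀ n, ∑ k ∈ Finset.range n, g (T^[k] x)
      = (∑ k ∈ Finset.range n, f (T^[k] x)) - n * (e x + ε) := by
    intro x hx n
    have h1 : ∀ k ∈ Finset.range n, g (T^[k] x) = f (T^[k] x) - (e x + ε) := by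
      intro k _
      rw [hg, Set.indicator_of_mem ((hBk k x).2 hx), hek k x]
      ring
    rw [Finset.sum_congr rfl h1, Finset.sum_sub_distrib, Finset.sum_const, Finset.card_range,
      nsmul_eq_mul]
  have hsum_out : ∀ x, x ∉ B → ∀ n, ∑ k ∈ Finset.range n, g (T^[k] x) = 0 := by
    intro x hx n
    refine Finset.sum_eq_zero (fun k _ => ?_)
    rw [hg, Set.indicator_of_notMem (fun h => hx ((hBk k x).1 h))]
  have hset : {x | ∃ n : ℕ, 0 < ∑ k ∈ Finset.range n, g (T^[k] x)} = B := by
    ext x
    simp only [Set.mem_ofPred_eq]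
    constructor
    · rintro ⟨n, hn⟩
      by_contra hx
      rw [hsum_out x hx n] at hn
      exact lt_irrefl _ hn
    · intro hx
      obtain ⟨m, hm⟩ := hx
      obtain ⟨n, hn1, hn2⟩ := (frequently_atTop.1 hm) 1
      refine ⟨n, ?_⟩
      rw [hsum_in x ⟨m, hm⟩ n]
      have hn0 : (0 : ℝ) < n := by
        have : 0 < n := hn1
        exact_mod_cast this
      have h1 : e x + ε < (∑ k ∈ Finset.range n, f (T^[k] x)) / n := by
        have h2 : (0 : ℝ) < 1 / ((m : ℝ) + 1) := by positivity
        have h3 : e x + ε + 1 / ((m : ℝ) + 1) < (∑ k ∈ Finset.range n, f (T^[k] x)) / n := hn2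
        linarith
      rw [lt_div_iff₀ hn0] at h1
      linarith [mul_comm (e x + ε) (n : ℝ)]
  have hmax := maxErg hT hgm hgb
  rw [hset] at hmax
  have hfi : Integrable f ν := Integrable.of_bound hf.aestronglyMeasurable C
    (Eventually.of_forall fun x => by simpa using hb x)
  have hei : Integrable e ν := Integrable.of_bound hem.aestronglyMeasurable C
    (Eventually.of_forall fun x => by simpa using heb x)
  have h1 : ∫ x in B, g x ∂ν = ∫ x in B, (f x - e x - ε) ∂ν :=
    setIntegral_congr_fun hBm (fun x hx => by simp only [hg, Set.indicator_of_mem hx])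
  have h2 : ∫ x in B, (f x - e x - ε) ∂ν = - (ε * ν.real B) := by
    have h20 : Integrable (fun x => f x - e x) (ν.restrict B) :=
      (hfi.sub hei).restrict
    have h21 : ∫ x in B, (f x - e x - ε) ∂ν = ∫ x in B, (f x - e x) ∂ν - ∫ _ in B, ε ∂ν :=
      integral_sub h20 (integrable_const _)
    have h22 : ∫ x in B, (f x - e x) ∂ν = ∫ x in B, f x ∂ν - ∫ x in B, e x ∂ν :=
      integral_sub hfi.restrict hei.restrict
    rw [h21, h22, hint B hBinvT, setIntegral_const, smul_eq_mul]
    ring
  rw [h1, h2] at hmax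
  have h3 : ν.real B = 0 := by
    have h4 : 0 ≤ ν.real B := measureReal_nonneg
    nlinarith
  have h5 : ν B = 0 := by
    rwa [measureReal_eq_zero_iff] at h3
  have h6 : ∀ᵐ x ∂ν, x ∉ B := measure_eq_zero_iff_ae_notMem.1 h5
  filter_upwards [h6] with x hx m
  have h7 : ¬ ∃ᶠ n in atTop, e x + ε + 1 / ((m : ℝ) + 1) < A n x := fun h => hx ⟨m, h⟩
  rw [not_frequently] at h7
  filter_upwards [h7] with n hn
  exact not_lt.1 hn

/-- Birkhoff's pointwise ergodic theorem for bounded functions -/
theorem birkhoff {X : Type} [MeasurableSpace X] {ν : Measure X} [IsProbabilityMeasure ν] {T : X → X}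
    (hT : MeasurePreserving T ν ν) {f : X → ℝ} (hf : Measurable f) {C : ℝ} (hb : ∀ x, |f x| ≤ C) :
    ∀ᵐ x ∂ν, Tendsto (fun n : ℕ => (∑ k ∈ Finset.range n, f (T^[k] x)) / n) atTop
      (𝓝 ((ν[f | MeasurableSpace.invariants T]) x)) := by
  have hle : MeasurableSpace.invariants T ≤ ‹MeasurableSpace X› := MeasurableSpace.invariants_le T
  obtain ⟨x0⟩ : Nonempty X := nonempty_of_isProbabilityMeasure ν
  have hC : 0 ≤ C := le_trans (abs_nonneg _) (hb x0)
  have hfi : Integrable f ν := Integrable.of_bound hf.aestronglyMeasurable C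
    (Eventually.of_forall fun x => by simpa using hb x)
  set e0 : X → ℝ := ν[f | MeasurableSpace.invariants T] with he0
  have he0m : Measurable[MeasurableSpace.invariants T] e0 :=
    (stronglyMeasurable_condExp (m := MeasurableSpace.invariants T) (μ := ν) (f := f)).measurable
  have he0b : ∀ᵐ x ∂ν, |e0 x| ≤ C := by
    exact ae_bdd_abs_condExp_of_ae_bdd_abs (m := MeasurableSpace.invariants T) (μ := ν) (f := f)
      (R := C) (Eventually.of_forall hb)
  set e : X → ℝ := fun x => max (-C) (min C (e0 x)) with he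
  have hem : Measurable[MeasurableSpace.invariants T] e := by
    have h1 : Measurable (fun t : ℝ => max (-C) (min C t)) := by fun_prop
    exact h1.comp he0m
  have heb : ∀ x, |e x| ≤ C := by
    intro x
    rw [abs_le]
    refine ⟨le_max_left _ _, max_le (by linarith) (min_le_left _ _)⟩
  have hee : ∀ᵐ x ∂ν, e x = e0 x := by
    filter_upwards [he0b] with x hx
    have h1 := abs_le.1 hx
    simp only [he]
    rw [min_eq_right h1.2, max_eq_right h1.1]
  have hint : ∀ s, MeasurableSet[MeasurableSpace.invariants T] s →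
      ∫ x in s, f x ∂ν = ∫ x in s, e x ∂ν := by
    intro s hs
    rw [← setIntegral_condExp hle hfi hs]
    refine setIntegral_congr_ae (hle s hs) ?_
    filter_upwards [hee] with x hx _
    exact hx.symm
  have hup : ∀ᵐ x ∂ν, ∀ j : ℕ, ∀ m : ℕ, ∀ᶠ n : ℕ in atTop,
      (∑ k ∈ Finset.range n, f (T^[k] x)) / n ≤ e x + 1 / ((j : ℝ) + 1) + 1 / ((m : ℝ) + 1) := by
    rw [ae_all_iff]
    intro j
    exact birk_one hT hf hb hem heb hint (by positivity)
  have hdn : ∀ᵐ x ∂ν, ∀ j : ℕ, ∀ m : ℕ, ∀ᶠ n : ℕ in atTop,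
      (∑ k ∈ Finset.range n, (- f (T^[k] x))) / n
        ≤ - e x + 1 / ((j : ℝ) + 1) + 1 / ((m : ℝ) + 1) := by
    rw [ae_all_iff]
    intro j
    refine birk_one (f := fun x => - f x) (e := fun x => - e x) (C := C) hT hf.neg
      (fun x => by simpa using hb x) hem.neg (fun x => by simpa using heb x) ?_ (by positivity)
    intro s hs
    rw [integral_neg, integral_neg, hint s hs]
  filter_upwards [hup, hdn, hee] with x h1 h2 h3
  rw [← h3]
  rw [Metric.tendsto_nhds]
  intro η hη
  obtain ⟨j, hj⟩ := exists_nat_one_div_lt (half_pos hη)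
  filter_upwards [h1 j j, h2 j j] with n h4 h5
  rw [Real.dist_eq, abs_lt]
  rw [Finset.sum_neg_distrib, neg_div] at h5
  constructor <;> linarith

end Helper15.DE
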