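import Pool.Agent.Helper15.DE.Defs
import Pool.Agent.Helper15.DE.PhBasic
import Pool.Agent.Helper15.DE.PhMeas
import Pool.Agent.Helper15.DE.Birk

/-!
Module DE-X1 (L¹ mean ergodic theorem for the cubes of `ℤ^d`, from Birkhoff).
For `j ≤ d` let `pbox j n = {x | x i ∈ [0,n) for i < j, x i = 0 for i ≥ j}` and
`S j n ω = (∑ x ∈ pbox j n, f (shift x ω)) / n^j`.  Claim by induction on `j`: there is a measurable `g j`,
`|g j| ≤ C`, with `∫ |S j n - g j| → 0`.  `j = 0`: `g 0 = f`.  Step: with `T = shift (e_j)` (measure
preserving, `T^[k] = shift (k e_j)`), `S (j+1) n = (1/n) ∑_{k<n} S j n ∘ T^[k]` (`n ≥ 1`), so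
`∫ |S (j+1) n - (1/n) ∑_{k<n} g j ∘ T^[k]| ≤ ∫ |S j n - g j| → 0`, and
`(1/n) ∑_{k<n} g j ∘ T^[k] → μ[g j | invariants T]` almost everywhere (`birkhoff`) and boundedly, hence in
mean; `g (j+1)` = a measurable version of the conditional expectation, truncated to `[-C, C]`.
Finally `pbox d n = box d n`.
-/

open MeasureTheory Filter Topology

namespace Helper15.DE

variable {d : ℕ} {A : Type} [Finite A] [MeasurableSpace A] [MeasurableSingletonClass A]

/-- the box with side `n` in the first `j` directions -/
private noncomputable def pbox (d j n : ℕ) : Finset (V d) :=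
  Fintype.piFinset fun i => if (i : ℕ) < j then Finset.Ico (0 : ℤ) n else {0}

private theorem mem_pbox {j n : ℕ} {x : V d} :
    x ∈ pbox d j n ↔ ∀ i : Fin d, ((i : ℕ) < j → 0 ≤ x i ∧ x i < n) ∧ (¬ (i : ℕ) < j → x i = 0) := by
  unfold pbox
  rw [Fintype.mem_piFinset]
  refine forall_congr' fun i => ?_
  by_cases h : (i : ℕ) < j
  · simp [h]
  · simp [h]

private theorem pbox_zero (n : ℕ) : pbox d 0 n = {0} := by
  ext x
  rw [mem_pbox, Finset.mem_singleton, funext_iff]
  refine forall_congr' fun i => ?_
  simp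

private theorem pbox_full (n : ℕ) : pbox d d n = box d n := by
  ext x
  rw [mem_pbox]
  unfold box
  rw [Fintype.mem_piFinset]
  refine forall_congr' fun i => ?_
  simp [i.2]

private theorem sum_pbox_succ (j n : ℕ) (hj : j < d) (F : V d → ℝ) :
    ∑ x ∈ pbox d (j + 1) n, F x
      = ∑ k ∈ Finset.range n, ∑ x ∈ pbox d j n, F (x + Pi.single (⟨j, hj⟩ : Fin d) (k : ℤ)) := by
  rw [← Finset.sum_product']
  symm
  refine Finset.sum_nbij' (fun p => p.2 + Pi.single (⟨j, hj⟩ : Fin d) (p.1 : ℤ))
    (fun y => ((y ⟨j, hj⟩).toNat, Function.update y ⟨j, hj⟩ 0)) ?_ ?_ ?_ ?_ ?_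
  · intro p hp
    rw [Finset.mem_product, Finset.mem_range, mem_pbox] at hp
    obtain ⟨h1, h2⟩ := hp
    rw [mem_pbox]
    intro i
    by_cases hi : i = ⟨j, hj⟩
    · subst hi
      have h3 : p.2 (⟨j, hj⟩ : Fin d) = 0 := (h2 ⟨j, hj⟩).2 (by simp)
      simp only [Pi.add_apply, Pi.single_eq_same, h3, zero_add]
      exact ⟨fun _ => ⟨by positivity, by exact_mod_cast h1⟩, fun h => absurd (by simp) h⟩
    · have hi' : (i : ℕ) ≠ j := fun h => hi (Fin.ext h)
      simp only [Pi.add_apply, Pi.single_eq_of_ne hi, add_zero]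
      exact ⟨fun h => (h2 i).1 (by omega), fun h => (h2 i).2 (by omega)⟩
  · intro y hy
    rw [mem_pbox] at hy
    rw [Finset.mem_product, Finset.mem_range, mem_pbox]
    have h3 := (hy ⟨j, hj⟩).1 (by simp)
    refine ⟨by simp only; omega, fun i => ?_⟩
    by_cases hi : i = ⟨j, hj⟩
    · subst hi
      simp
    · have hi' : (i : ℕ) ≠ j := fun h => hi (Fin.ext h)
      simp only [Function.update_of_ne hi]
      exact ⟨fun h => (hy i).1 (by omega), fun h => (hy i).2 (by omega)⟩
  · intro p hp
    rw [Finset.mem_product, Finset.mem_range, mem_pbox] at hp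
    obtain ⟨h1, h2⟩ := hp
    have h3 : p.2 (⟨j, hj⟩ : Fin d) = 0 := (h2 ⟨j, hj⟩).2 (by simp)
    refine Prod.ext ?_ ?_
    · simp [h3]
    · funext i
      by_cases hi : i = ⟨j, hj⟩
      · subst hi
        simp [h3]
      · simp [hi]
  · intro y hy
    rw [mem_pbox] at hy
    have h3 := (hy ⟨j, hj⟩).1 (by simp)
    funext i
    by_cases hi : i = ⟨j, hj⟩
    · subst hi
      simp [h3.1]
    · simp [hi]
  · intro p hp
    rfl

private theorem shift_iter (v : V d) (ω : V d → A) (k : ℕ) :
    (shift v)^[k] ω = shift ((k : ℤ) • v) ω := by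
  induction k with
  | zero => simp [shift_zero]
  | succ k ih =>
    rw [Function.iterate_succ_apply', ih, shift_shift]
    congr 1
    push_cast
    rw [add_smul, one_smul, add_comm]

private theorem avg_step {μ : Measure (V d → A)} [IsProbabilityMeasure μ]
    (hμ : ∀ v, μ.map (shift v) = μ) {f : (V d → A) → ℝ} (hf : Measurable f) {C : ℝ}
    (hb : ∀ ω, |f ω| ≤ C) (j : ℕ) (hj : j ≤ d) :
    ∃ g : (V d → A) → ℝ, Measurable g ∧ (∀ ω, |g ω| ≤ C) ∧
      Tendsto (fun n : ℕ => ∫ ω, |(∑ x ∈ pbox d j n, f (shift x ω)) / (n : ℝ) ^ j - g ω| ∂μ)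
        atTop (𝓝 0) := by
  induction j with
  | zero =>
    refine ⟨f, hf, hb, ?_⟩
    refine tendsto_const_nhds.congr fun n => ?_
    simp [pbox_zero, shift_zero]
  | succ j ih =>
    obtain ⟨g, hg, hgb, hlim⟩ := ih (by omega)
    have hjd : j < d := by omega
    set e : V d := Pi.single (⟨j, hjd⟩ : Fin d) 1 with he
    set T : (V d → A) → V d → A := shift e with hT
    have mpT : MeasurePreserving T μ μ := ⟨measurable_shift e, hμ e⟩
    have hC : 0 ≤ C := by
      obtain ⟨ω⟩ : Nonempty (V d → A) := by
        by_contra hne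
        rw [not_nonempty_iff] at hne
        have h0 : μ Set.univ = 0 := by
          rw [Set.univ_eq_empty_iff.2 hne]
          exact measure_empty
        rw [measure_univ] at h0
        exact one_ne_zero h0
      exact (abs_nonneg _).trans (hb ω)
    -- the averages of `g`
    set B : ℕ → (V d → A) → ℝ := fun n ω => (∑ k ∈ Finset.range n, g (T^[k] ω)) / n with hB
    set S : ℕ → (V d → A) → ℝ := fun n ω => (∑ x ∈ pbox d j n, f (shift x ω)) / (n : ℝ) ^ j
      with hS
    have hBm : ∀ n, Measurable (B n) := fun n =>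
      (Finset.measurable_sum _ fun k _ => hg.comp (mpT.iterate k).measurable).div_const _
    have hSm : ∀ n, Measurable (S n) := fun n =>
      (Finset.measurable_sum _ fun x _ => hf.comp (measurable_shift x)).div_const _
    have hBb : ∀ n ω, |B n ω| ≤ C := by
      intro n ω
      rcases Nat.eq_zero_or_pos n with rfl | hn
      · simpa [hB] using hC
      · have hn' : (0 : ℝ) < n := by exact_mod_cast hn
        simp only [hB]
        rw [abs_div, abs_of_pos hn', div_le_iff₀ hn']
        calc |∑ k ∈ Finset.range n, g (T^[k] ω)|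
            ≤ ∑ k ∈ Finset.range n, |g (T^[k] ω)| := Finset.abs_sum_le_sum_abs _ _
          _ ≤ ∑ k ∈ Finset.range n, C := Finset.sum_le_sum fun k _ => hgb _
          _ = C * n := by rw [Finset.sum_const, Finset.card_range, nsmul_eq_mul, mul_comm]
    have hbk := birkhoff mpT hg hgb
    set E : (V d → A) → ℝ := μ[g | MeasurableSpace.invariants T] with hE
    have hEm : Measurable E :=
      (stronglyMeasurable_condExp.mono (MeasurableSpace.invariants_le T)).measurable
    have hEb : ∀ᵐ ω ∂μ, |E ω| ≤ C := by
      filter_upwards [hbk] with ω hω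
      exact le_of_tendsto hω.abs (Eventually.of_forall fun n => hBb n ω)
    refine ⟨fun ω => max (-C) (min C (E ω)), measurable_const.max (measurable_const.min hEm),
      fun ω => ?_, ?_⟩
    · rw [abs_le]
      exact ⟨le_max_left _ _, max_le (by linarith) (min_le_left _ _)⟩
    · have hgE : ∀ᵐ ω ∂μ, max (-C) (min C (E ω)) = E ω := by
        filter_upwards [hEb] with ω hω
        rw [abs_le] at hω
        rw [min_eq_right hω.2, max_eq_right hω.1]
      -- second part
      have h2 : Tendsto (fun n => ∫ ω, |B n ω - E ω| ∂μ) atTop (𝓝 0) := by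
        have h3 : Tendsto (fun n => ∫ ω, |B n ω - E ω| ∂μ) atTop
            (𝓝 (∫ _ω : V d → A, (0 : ℝ) ∂μ)) := by
          refine tendsto_integral_of_dominated_convergence (fun _ => 2 * C) ?_ ?_ ?_ ?_
          · intro n
            exact ((hBm n).sub hEm).abs.aestronglyMeasurable
          · exact integrable_const _
          · intro n
            filter_upwards [hEb] with ω hω
            rw [Real.norm_eq_abs, abs_abs]
            calc |B n ω - E ω| ≤ |B n ω| + |E ω| := abs_sub _ _
              _ ≤ 2 * C := by linarith [hBb n ω]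
          · filter_upwards [hbk] with ω hω
            have h4 : Tendsto (fun n => B n ω - E ω) atTop (𝓝 (E ω - E ω)) :=
              hω.sub tendsto_const_nhds
            rw [sub_self] at h4
            have h5 := h4.abs
            rw [abs_zero] at h5
            exact h5
        rwa [integral_zero] at h3
      -- first part
      have hSB : ∀ n, Integrable (fun ω => |S n ω - g ω|) μ := by
        intro n
        have h6 : ∀ ω, |S n ω| ≤ ∑ x ∈ pbox d j n, C / (n : ℝ) ^ j := by
          intro ω
          simp only [hS]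
          rw [Finset.sum_div]
          refine (Finset.abs_sum_le_sum_abs _ _).trans (Finset.sum_le_sum fun x _ => ?_)
          rw [abs_div, abs_of_nonneg (by positivity : (0 : ℝ) ≤ (n : ℝ) ^ j)]
          exact div_le_div_of_nonneg_right (hb _) (by positivity)
        refine Integrable.of_bound ((hSm n).sub hg).abs.aestronglyMeasurable
          (∑ x ∈ pbox d j n, C / (n : ℝ) ^ j + C) (Eventually.of_forall fun ω => ?_)
        rw [Real.norm_eq_abs, abs_abs]
        exact (abs_sub _ _).trans (add_le_add (h6 ω) (hgb ω))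
      have hcomp : ∀ n k, Integrable (fun ω => |S n (T^[k] ω) - g (T^[k] ω)|) μ := fun n k =>
        (mpT.iterate k).integrable_comp_of_integrable (hSB n)
      have hint : ∀ n k, ∫ ω, |S n (T^[k] ω) - g (T^[k] ω)| ∂μ = ∫ ω, |S n ω - g ω| ∂μ := by
        intro n k
        have h7 := integral_map (μ := μ) (φ := T^[k]) (f := fun ω => |S n ω - g ω|)
          (mpT.iterate k).measurable.aemeasurable
          (by rw [(mpT.iterate k).map_eq]; exact (hSB n).aestronglyMeasurable)
        rw [(mpT.iterate k).map_eq] at h7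
        exact h7.symm
      have hdec : ∀ n ω, (∑ x ∈ pbox d (j + 1) n, f (shift x ω)) / (n : ℝ) ^ (j + 1)
          = (∑ k ∈ Finset.range n, S n (T^[k] ω)) / n := by
        intro n ω
        rw [sum_pbox_succ j n hjd, pow_succ, ← div_div]
        congr 1
        rw [Finset.sum_div]
        refine Finset.sum_congr rfl fun k _ => ?_
        simp only [hS]
        congr 1
        refine Finset.sum_congr rfl fun x _ => ?_
        rw [hT, shift_iter, shift_shift]
        congr 3
        funext i
        by_cases hi : i = ⟨j, hjd⟩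
        · subst hi
          simp [he]
        · simp [he, hi]
      refine squeeze_zero (g := fun n => ∫ ω, |S n ω - g ω| ∂μ + ∫ ω, |B n ω - E ω| ∂μ)
        (fun n => integral_nonneg fun ω => abs_nonneg _) ?_ ?_
      · intro n
        have hI1 : Integrable (fun ω => (∑ k ∈ Finset.range n,
            |S n (T^[k] ω) - g (T^[k] ω)|) / n) μ :=
          (integrable_finsetSum _ fun k _ => hcomp n k).div_const _
        have hI2 : Integrable (fun ω => |B n ω - E ω|) μ := by
          refine Integrable.of_bound ((hBm n).sub hEm).abs.aestronglyMeasurable (2 * C) ?_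
          filter_upwards [hEb] with ω hω
          rw [Real.norm_eq_abs, abs_abs]
          calc |B n ω - E ω| ≤ |B n ω| + |E ω| := abs_sub _ _
            _ ≤ 2 * C := by linarith [hBb n ω]
        have hle : ∫ ω, |(∑ x ∈ pbox d (j + 1) n, f (shift x ω)) / (n : ℝ) ^ (j + 1) -
              max (-C) (min C (E ω))| ∂μ
            ≤ ∫ ω, ((∑ k ∈ Finset.range n, |S n (T^[k] ω) - g (T^[k] ω)|) / n
              + |B n ω - E ω|) ∂μ := by
          refine integral_mono_of_nonneg (Eventually.of_forall fun ω => abs_nonneg _)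
            (hI1.add hI2) ?_
          filter_upwards [hgE] with ω hω
          rw [hω, hdec n ω]
          have h8 : |(∑ k ∈ Finset.range n, S n (T^[k] ω)) / (n : ℝ) - B n ω|
              ≤ (∑ k ∈ Finset.range n, |S n (T^[k] ω) - g (T^[k] ω)|) / n := by
            simp only [hB]
            rw [← sub_div, ← Finset.sum_sub_distrib, abs_div,
              abs_of_nonneg (by positivity : (0 : ℝ) ≤ (n : ℝ))]
            exact div_le_div_of_nonneg_right (Finset.abs_sum_le_sum_abs _ _) (by positivity)
          calc |(∑ k ∈ Finset.range n, S n (T^[k] ω)) / (n : ℝ) - E ω|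
              ≤ |(∑ k ∈ Finset.range n, S n (T^[k] ω)) / (n : ℝ) - B n ω| + |B n ω - E ω| :=
                abs_sub_le _ _ _
            _ ≤ _ := add_le_add h8 le_rfl
        refine hle.trans ?_
        rw [integral_add hI1 hI2, integral_div, integral_finsetSum _ fun k _ => hcomp n k]
        simp only [hint]
        refine add_le_add ?_ le_rfl
        rw [Finset.sum_const, Finset.card_range, nsmul_eq_mul]
        rcases Nat.eq_zero_or_pos n with rfl | hn
        · simpa using integral_nonneg (μ := μ) fun ω => abs_nonneg (S 0 ω - g ω)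
        · have hn' : (n : ℝ) ≠ 0 := by exact_mod_cast hn.ne'
          rw [mul_div_cancel_left₀ _ hn']
      · have := hlim.add h2
        rwa [add_zero] at this

theorem avg_l1 {μ : Measure (V d → A)} [IsProbabilityMeasure μ]
    (hμ : ∀ v, μ.map (shift v) = μ) {f : (V d → A) → ℝ} (hf : Measurable f) {C : ℝ}
    (hb : ∀ ω, |f ω| ≤ C) :
    ∃ g : (V d → A) → ℝ, Measurable g ∧ (∀ ω, |g ω| ≤ C) ∧
      Tendsto (fun n : ℕ => ∫ ω, |(∑ x ∈ box d n, f (shift x ω)) / (n : ℝ) ^ d - g ω| ∂μ)
        atTop (𝓝 0) := by
  have h := avg_step hμ hf hb d le_rfl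
  simp only [pbox_full] at h
  exact h

end Helper15.DE
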