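import Pool.Agent.Helper15.DE.Defs
import Pool.Agent.Helper15.DE.PhBasic
import Pool.Agent.Helper10.DE.Geo.CDefs

/-!
Module DE-VII0 (bridge between configurations over `A × A` and pairs of permutations `_root_.DE.Pr d`).
`pr st ω` is the pair `(mv st (c1 ω), mv st (c2 ω))` of permutations.  `F_pr`: both sides are the
permutation `f2⁻¹ * f1`.  `exists_cfg`: `f.1 a - a ∈ stepSet st` gives a letter.  `pr_inj`: `st` is
injective.  `gen_stepSet`: every `Pi.single i 1` is a finite sum of elements `u`, `-u` with `u = v - v'`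
(`AddSubgroup.closure`, the set of differences is symmetric); take `L` = the maximum of the lengths.
`intPt_stepSet`: `p v = p' a` for `v = st a` (`st` injective).
`hasVel_iff`: divide `x` by `n`: `(G^n x - x)/n` and `(G^n x)/n` have the same limit; backwards
`(x - G⁻¹^n x)/n → V` iff `(G⁻¹^n x)/n → -V`.
-/

open MeasureTheory Filter Topology

namespace Helper15.DE

variable {d : ℕ} {A : Type}

open Classical in
/-- the pair of permutations of an admissible pair configuration (identities otherwise) -/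
noncomputable def pr (st : A → V d) (ω : V d → A × A) : _root_.DE.Pr d :=
  if h : ω ∈ Cfg2 st then
    (Equiv.ofBijective (mv st (c1 ω)) h.1, Equiv.ofBijective (mv st (c2 ω)) h.2)
  else (1, 1)

/-- the set of steps -/
noncomputable def stepSet [Fintype A] (st : A → V d) : Finset (V d) := Finset.univ.image st

theorem pr_apply (st : A → V d) {ω : V d → A × A} (h : ω ∈ Cfg2 st) (a : V d) :
    (pr st ω).1 a = mv st (c1 ω) a ∧ (pr st ω).2 a = mv st (c2 ω) a := by
  unfold pr
  rw [dif_pos h]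
  exact ⟨rfl, rfl⟩

theorem F_pr (st : A → V d) (ω : V d → A × A) : _root_.DE.F (pr st ω) = ph st ω := by
  unfold pr ph
  by_cases h : ω ∈ Cfg2 st
  · rw [dif_pos h, dif_pos h]
    rfl
  · rw [dif_neg h, dif_neg h]
    rfl

theorem pr_inj (st : A → V d) (hinj : Function.Injective st) {ω ω' : V d → A × A}
    (h : ω ∈ Cfg2 st) (h' : ω' ∈ Cfg2 st) (he : pr st ω = pr st ω') : ω = ω' := by
  have key : ∀ u u' : A, ∀ a : V d, a + st u = a + st u' → u = u' :=
    fun u u' a e => hinj (add_left_cancel e)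
  funext a
  have h1 : mv st (c1 ω) a = mv st (c1 ω') a := by
    rw [← (pr_apply st h a).1, ← (pr_apply st h' a).1, he]
  have h2 : mv st (c2 ω) a = mv st (c2 ω') a := by
    rw [← (pr_apply st h a).2, ← (pr_apply st h' a).2, he]
  exact Prod.ext (key _ _ a h1) (key _ _ a h2)

private theorem vel_aux (u : ℕ → V d) (x : V d) (w : Fin d → ℝ) :
    Tendsto (fun k : ℕ => fun i => ((u k i : ℤ) : ℝ) / k) atTop (𝓝 w) ↔
      Tendsto (fun n : ℕ => (n : ℝ)⁻¹ • _root_.DE.rv (u n - x)) atTop (𝓝 w) := by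
  have h0 : ∀ i, Tendsto (fun n : ℕ => (x i : ℝ) / (n : ℝ)) atTop (𝓝 0) :=
    fun i => tendsto_const_div_atTop_nhds_zero_nat _
  have e : ∀ (n : ℕ) (i : Fin d), ((n : ℝ)⁻¹ • _root_.DE.rv (u n - x)) i
      = ((u n i : ℤ) : ℝ) / n - (x i : ℝ) / n := by
    intro n i
    simp only [Pi.smul_apply, _root_.DE.rv, smul_eq_mul, Pi.sub_apply, Int.cast_sub]
    ring
  rw [tendsto_pi_nhds, tendsto_pi_nhds]
  refine forall_congr' fun i => ?_
  constructor
  · intro h
    have h2 := h.sub (h0 i)
    rw [sub_zero] at h2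
    exact h2.congr fun n => (e n i).symm
  · intro h
    have h2 := h.add (h0 i)
    rw [add_zero] at h2
    refine h2.congr fun n => ?_
    rw [e n i]
    ring

theorem hasVel_iff (G : Equiv.Perm (V d)) (x : V d) (w : Fin d → ℝ) :
    HasVel G x w ↔ _root_.DE.VOut G x w ∧ _root_.DE.VIn G x w := by
  unfold HasVel _root_.DE.VOut _root_.DE.VIn
  rw [vel_aux (fun k => (G ^ k) x) x w, vel_aux (fun k => (G⁻¹ ^ k) x) x (-w)]
  refine and_congr Iff.rfl ?_
  have e : ∀ n : ℕ, (n : ℝ)⁻¹ • _root_.DE.rv (x - (G⁻¹ ^ n) x)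
      = -((n : ℝ)⁻¹ • _root_.DE.rv ((G⁻¹ ^ n) x - x)) := by
    intro n
    funext i
    simp only [Pi.smul_apply, _root_.DE.rv, smul_eq_mul, Pi.sub_apply, Int.cast_sub, Pi.neg_apply]
    ring
  constructor
  · intro h
    have h2 := h.neg
    rw [neg_neg] at h2
    exact h2.congr fun n => (e n).symm
  · intro h
    have h2 := h.neg
    refine h2.congr fun n => ?_
    rw [e n, neg_neg]

theorem isInf_pr (st : A → V d) (ω : V d → A × A) (x : V d) :
    _root_.DE.IsInf (pr st ω) x ↔ InfOrb (ph st ω) x := by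
  unfold _root_.DE.IsInf InfOrb
  rw [F_pr]

theorem sc_pr (st : A → V d) (ω : V d → A × A) (x y : V d) :
    _root_.DE.SC (pr st ω) x y ↔ (ph st ω).SameCycle x y := by
  unfold _root_.DE.SC
  rw [F_pr]

variable [Fintype A]

theorem isD_pr (st : A → V d) {ω : V d → A × A} (h : ω ∈ Cfg2 st) :
    _root_.DE.IsD (stepSet st) (pr st ω).1 ∧ _root_.DE.IsD (stepSet st) (pr st ω).2 := by
  unfold _root_.DE.IsD stepSet
  constructor
  · intro a
    rw [(pr_apply st h a).1]
    unfold mv
    rw [add_sub_cancel_left]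
    exact Finset.mem_image_of_mem _ (Finset.mem_univ _)
  · intro a
    rw [(pr_apply st h a).2]
    unfold mv
    rw [add_sub_cancel_left]
    exact Finset.mem_image_of_mem _ (Finset.mem_univ _)

theorem exists_cfg (st : A → V d) (f : _root_.DE.Pr d) (h1 : _root_.DE.IsD (stepSet st) f.1)
    (h2 : _root_.DE.IsD (stepSet st) f.2) : ∃ ω ∈ Cfg2 st, pr st ω = f := by
  have e1 : ∀ a, ∃ b : A, st b = f.1 a - a := fun a => by
    obtain ⟨b, _, hb⟩ := Finset.mem_image.1 (h1 a)
    exact ⟨b, hb⟩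
  have e2 : ∀ a, ∃ b : A, st b = f.2 a - a := fun a => by
    obtain ⟨b, _, hb⟩ := Finset.mem_image.1 (h2 a)
    exact ⟨b, hb⟩
  choose b1 hb1 using e1
  choose b2 hb2 using e2
  have m1 : ∀ a, mv st b1 a = f.1 a := fun a => by
    unfold mv
    rw [hb1, add_sub_cancel]
  have m2 : ∀ a, mv st b2 a = f.2 a := fun a => by
    unfold mv
    rw [hb2, add_sub_cancel]
  have hω : (fun a => (b1 a, b2 a)) ∈ Cfg2 st := by
    refine ⟨?_, ?_⟩
    · show Function.Bijective (mv st b1)
      rw [show mv st b1 = f.1 from funext m1]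
      exact f.1.bijective
    · show Function.Bijective (mv st b2)
      rw [show mv st b2 = f.2 from funext m2]
      exact f.2.bijective
  refine ⟨fun a => (b1 a, b2 a), hω, Prod.ext (Equiv.ext fun a => ?_) (Equiv.ext fun a => ?_)⟩
  · rw [(pr_apply st hω a).1]
    exact m1 a
  · rw [(pr_apply st hω a).2]
    exact m2 a

theorem gen_stepSet (st : A → V d) (hgen : Gen st) : ∃ L : ℕ, _root_.DE.Gen (stepSet st) L := by
  have hm : ∀ a : A, st a ∈ stepSet st := fun a => Finset.mem_image_of_mem _ (Finset.mem_univ _)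
  have gen : ∀ x ∈ AddSubgroup.closure {v | ∃ a b, v = st a - st b}, ∃ l : List (V d),
      (∀ u ∈ l, ∃ v ∈ stepSet st, ∃ v' ∈ stepSet st, u = v - v') ∧ l.sum = x := by
    intro x hx
    induction hx using AddSubgroup.closure_induction with
    | mem x hx =>
      obtain ⟨a, b, hab⟩ := hx
      refine ⟨[x], fun u hu => ?_, by simp⟩
      rw [List.mem_singleton.1 hu]
      exact ⟨st a, hm a, st b, hm b, hab⟩
    | zero => exact ⟨[], fun u hu => absurd hu (by simp), rfl⟩
    | add x y _ _ ihx ihy =>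
      obtain ⟨l1, h1, s1⟩ := ihx
      obtain ⟨l2, h2, s2⟩ := ihy
      refine ⟨l1 ++ l2, fun u hu => ?_, by rw [List.sum_append, s1, s2]⟩
      rcases List.mem_append.1 hu with h | h
      · exact h1 u h
      · exact h2 u h
    | neg x _ ih =>
      obtain ⟨l1, h1, s1⟩ := ih
      refine ⟨l1.map fun u => -u, fun u hu => ?_, ?_⟩
      · obtain ⟨w, hw, rfl⟩ := List.mem_map.1 hu
        obtain ⟨v, hv, v', hv', e⟩ := h1 w hw
        exact ⟨v', hv', v, hv, by rw [e, neg_sub]⟩
      · rw [← s1]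
        exact (List.sum_neg l1).symm
  have key : ∀ i : Fin d, ∃ l : List (V d),
      (∀ u ∈ l, ∃ v ∈ stepSet st, ∃ v' ∈ stepSet st, u = v - v') ∧ l.sum = _root_.DE.ev i := by
    intro i
    refine gen _ ?_
    have h := hgen
    unfold Gen at h
    rw [h]
    exact AddSubgroup.mem_top _
  choose l hl hs using key
  exact ⟨Finset.univ.sup fun i => (l i).length, fun i =>
    ⟨l i, Finset.le_sup (f := fun i => (l i).length) (Finset.mem_univ i), hl i, hs i⟩⟩

theorem bdK_stepSet (st : A → V d) : ∃ K : ℕ, _root_.DE.BdK (stepSet st) K := by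
  refine ⟨1 + ∑ a : A, ∑ i : Fin d, (st a i).natAbs, by omega, fun v hv i => ?_⟩
  obtain ⟨a, _, rfl⟩ := Finset.mem_image.1 hv
  have h1 : (st a i).natAbs ≤ ∑ i : Fin d, (st a i).natAbs :=
    Finset.single_le_sum (f := fun i => (st a i).natAbs) (fun j _ => Nat.zero_le _)
      (Finset.mem_univ i)
  have h2 : ∑ i : Fin d, (st a i).natAbs ≤ ∑ a : A, ∑ i : Fin d, (st a i).natAbs :=
    Finset.single_le_sum (f := fun a => ∑ i : Fin d, (st a i).natAbs) (fun b _ => Nat.zero_le _)
      (Finset.mem_univ a)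
  have h3 : |st a i| = ((st a i).natAbs : ℤ) := Int.abs_eq_natAbs _
  rw [h3]
  have h4 : (st a i).natAbs ≤ 1 + ∑ a : A, ∑ i : Fin d, (st a i).natAbs := by omega
  exact_mod_cast h4

theorem intPt_stepSet (st : A → V d) (hinj : Function.Injective st) {s : Fin d → ℝ}
    (h : IntPt st s) : _root_.DE.IntPt (stepSet st) s := by
  obtain ⟨p, hp, hp1, hps⟩ := h
  have hap : ∀ a, Function.extend st p (fun _ => 0) (st a) = p a := fun a => hinj.extend_apply _ _ _
  refine ⟨Function.extend st p fun _ => 0, ?_, ?_, ?_⟩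
  · intro v hv
    obtain ⟨a, _, rfl⟩ := Finset.mem_image.1 hv
    rw [hap]
    exact hp a
  · unfold stepSet
    rw [Finset.sum_image hinj.injOn, ← hp1]
    exact Finset.sum_congr rfl fun a _ => hap a
  · unfold stepSet
    rw [Finset.sum_image hinj.injOn]
    funext i
    rw [Finset.sum_apply, ← hps i]
    refine Finset.sum_congr rfl fun a _ => ?_
    rw [hap]
    rfl

end Helper15.DE
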