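import Pool.Agent.Helper15.DE.Cl
import Pool.Agent.Helper10.DE.Geo.StubsCC

/-!
Module DE-IX3 (a near path and a far path give a simple cycle of components).  Stub used: `min_path`.
Notation: `e z z' = SC f z z'` (an equivalence relation).  For a finite set `Q` of sites let
`rQ z z' = ∃ p ∈ Q, ∃ p' ∈ Q, SC f z p ∧ DU D f.1 f.2 p p' ∧ SC f p' z'`; it is stable under `e` on
both sides, and `ConnIn Q D f.1 f.2 p q` implies `p = q` or `ReflTransGen rQ p q` (each step is a step
of `rQ`).
Put `A = {z | SC f z a}` and `B = {z | ¬ SC f z a ∧ ReflTransGen rW z a}` (closed under `e`).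
`b ∈ B`: `ReflTransGen rW b' a'` and `b' ≠ a'` up to `e`, and the first and last step can be moved along
`e`.  Near: `min_path` for `rN`, `e`, `A`, `B`, from `a` to `b`: `z 0 ∈ A`, `z k ∈ B`, `k ≥ 1` (since
`z 0 ∉ B`), all `z i` pairwise non-equivalent, `z i ∉ B` for `i < k`.
Far: `min_path` for `rW` from `z k` to `a` with `A' = {z | SC f z (z k)}`, `B' = {z | SC f z a}`:
`z' 0 ∈ A'`, `z' l ∈ B'`, pairwise non-equivalent, `l ≥ 1`, and for `0 < i < l`: `z' i ∉ B'` and
`ReflTransGen rW (z' i) (z' l)`, hence `z' i ∈ B`, so `z' i` is not equivalent to any `z i'`, `i' < k`,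
and it is not equivalent to `z k` (it is not in `A'`).
Cycle of length `n = k + l`: components of `z 0, ..., z k, z' 1, ..., z' (l-1)`.  For each step
`r (z i) (z (i+1))` choose `p, p'` as in the definition: the edge `DU` says `f.1 p - p' ∈ D` or
`f.2 p - p' ∈ D`; the odd exit is `y i = f.1 p` or `f.2 p`, the entry is `x (i+1) = p'`; the entry of
component `0` is the `p'` of the last (far) step.  `f.1⁻¹ (f.1 p) = p` and
`f.1⁻¹ (f.2 p) = (F f)⁻¹ p` are in the component of `p`.
-/

open Filter Topology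

namespace DE

variable {d : ℕ}

/-- the step relation between components, with both end points in `Q` -/
private def bcR (Q D : Finset (Site d)) (f : Pr d) (z z' : Site d) : Prop :=
  ∃ p ∈ Q, ∃ p' ∈ Q, SC f z p ∧ DU D f.1 f.2 p p' ∧ SC f p' z'

private theorem bc_refl (f : Pr d) (a : Site d) : SC f a a := Equiv.Perm.SameCycle.refl _ _

private theorem bc_symm {f : Pr d} {a b : Site d} (h : SC f a b) : SC f b a :=
  Equiv.Perm.SameCycle.symm h

private theorem bc_trans {f : Pr d} {a b c : Site d} (h : SC f a b) (h' : SC f b c) : SC f a c :=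
  Equiv.Perm.SameCycle.trans h h'

private theorem bcR_left {Q D : Finset (Site d)} {f : Pr d} {a a' b : Site d} (h : SC f a a')
    (h' : bcR Q D f a' b) : bcR Q D f a b := by
  obtain ⟨p, hp, p', hp', h1, h2, h3⟩ := h'
  exact ⟨p, hp, p', hp', bc_trans h h1, h2, h3⟩

private theorem bcR_right {Q D : Finset (Site d)} {f : Pr d} {a b b' : Site d}
    (h' : bcR Q D f a b) (h : SC f b b') : bcR Q D f a b' := by
  obtain ⟨p, hp, p', hp', h1, h2, h3⟩ := h'
  exact ⟨p, hp, p', hp', h1, h2, bc_trans h3 h⟩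

private theorem bcT_left {Q D : Finset (Site d)} {f : Pr d} {a a' b : Site d} (h : SC f a a')
    (h' : Relation.TransGen (bcR Q D f) a' b) : Relation.TransGen (bcR Q D f) a b := by
  rw [Relation.TransGen.head'_iff] at h' ⊢
  obtain ⟨c, h1, h2⟩ := h'
  exact ⟨c, bcR_left h h1, h2⟩

private theorem bcT_right {Q D : Finset (Site d)} {f : Pr d} {a b b' : Site d}
    (h' : Relation.TransGen (bcR Q D f) a b) (h : SC f b b') :
    Relation.TransGen (bcR Q D f) a b' := by
  rw [Relation.TransGen.tail'_iff] at h' ⊢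
  obtain ⟨c, h1, h2⟩ := h'
  exact ⟨c, h1, bcR_right h2 h⟩

private theorem bcT_of_refl {Q D : Finset (Site d)} {f : Pr d} {a b : Site d}
    (h : Relation.ReflTransGen (bcR Q D f) a b) (hne : a ≠ b) :
    Relation.TransGen (bcR Q D f) a b := by
  rcases Relation.reflTransGen_iff_eq_or_transGen.mp h with h1 | h1
  · exact absurd h1.symm hne
  · exact h1

private theorem bc_conn {Q D : Finset (Site d)} {f : Pr d} {a b : Site d}
    (h : ConnIn Q D f.1 f.2 a b) : Relation.ReflTransGen (bcR Q D f) a b := by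
  unfold ConnIn at h
  induction h with
  | refl => exact Relation.ReflTransGen.refl
  | tail _ huv ih =>
    exact ih.tail ⟨_, huv.2.1, _, huv.2.2, bc_refl f _, huv.1, bc_refl f _⟩

private theorem bc_path {r : Site d → Site d → Prop} {z : ℕ → Site d} {l : ℕ}
    (h : ∀ i < l, r (z i) (z (i + 1))) (i : ℕ) :
    ∀ m, i + m ≤ l → Relation.ReflTransGen r (z i) (z (i + m)) := by
  intro m
  induction m with
  | zero => intro _; exact Relation.ReflTransGen.refl
  | succ m ih =>
    intro hm
    exact (ih (by omega)).tail (h (i + m) (by omega))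

private theorem bc_exit {D : Finset (Site d)} {f : Pr d} {p p' : Site d}
    (h : DU D f.1 f.2 p p') :
    ∃ y, (y = f.1 p ∨ y = f.2 p) ∧ y - p' ∈ D ∧ SC f p (f.1⁻¹ y) := by
  rcases h with h | h
  · refine ⟨f.1 p, Or.inl rfl, h, ?_⟩
    have h2 : f.1⁻¹ (f.1 p) = p := f.1.symm_apply_apply p
    rw [h2]
    exact bc_refl f p
  · refine ⟨f.2 p, Or.inr rfl, h, ?_⟩
    refine ⟨-1, ?_⟩
    rw [zpow_neg_one]
    unfold F
    rw [mul_inv_rev, inv_inv, Equiv.Perm.mul_apply]

theorem build_cycle (D : Finset (Site d)) (f : Pr d) (N W : Finset (Site d)) (a b a' b' : Site d)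
    (haa : SC f a a') (hbb : SC f b b') (hab : ¬ SC f a b)
    (hnear : ConnIn N D f.1 f.2 a b) (hfar : ConnIn W D f.1 f.2 b' a') :
    ∃ (n : ℕ) (x y : ℕ → Site d) (k : ℕ), Cyc D f n x y ∧ 0 < k ∧ k < n ∧
      SC f (x 0) a ∧ x 0 ∈ W ∧ (∃ p ∈ N, y 0 = f.1 p ∨ y 0 = f.2 p) ∧
      x k ∈ N ∧ (∃ p ∈ W, y k = f.1 p ∨ y k = f.2 p) := by
  classical
  -- the set `B`
  set B : Set (Site d) := {z | ¬ SC f z a ∧ Relation.ReflTransGen (bcR W D f) z a} with hBdef
  have hBcl : ∀ u u', SC f u u' → u' ∈ B → u ∈ B := by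
    intro u u' huu' hu'
    obtain ⟨h1, h2⟩ := hu'
    have hne : u' ≠ a := by
      intro h; apply h1; rw [h]; exact bc_refl f a
    refine ⟨fun h => h1 (bc_trans (bc_symm huu') h), ?_⟩
    exact (bcT_left huu' (bcT_of_refl h2 hne)).to_reflTransGen
  have hbB : b ∈ B := by
    refine ⟨fun h => hab (bc_symm h), ?_⟩
    have hne : b' ≠ a' := by
      intro h
      apply hab
      rw [h] at hbb
      exact bc_trans haa (bc_symm hbb)
    exact (bcT_left hbb (bcT_right (bcT_of_refl (bc_conn hfar) hne)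
      (bc_symm haa))).to_reflTransGen
  -- near path
  obtain ⟨k, z, hz0, hzk, hzr, -, hzB, hzne⟩ := min_path (bcR N D f) (SC f)
    (fun u u' v huu' h => bcR_left huu' h) {z | SC f z a} B hBcl a b (bc_refl f a) hbB
    (bc_conn hnear)
  have hz0' : SC f (z 0) a := hz0
  have hk : 0 < k := by
    rcases Nat.eq_zero_or_pos k with h | h
    · rw [h] at hzk
      exact absurd hz0' hzk.1
    · exact h
  -- far path
  obtain ⟨l, z', hy0, hyl, hyr, hyA, hyB, hyne⟩ := min_path (bcR W D f) (SC f)
    (fun u u' v huu' h => bcR_left huu' h) {w | SC f w (z k)} {w | SC f w a}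
    (fun u u' huu' hu' => bc_trans huu' hu') (z k) a (bc_refl f _) (bc_refl f a) hzk.2
  have hy0' : SC f (z' 0) (z k) := hy0
  have hyl' : SC f (z' l) a := hyl
  have hl : 0 < l := by
    rcases Nat.eq_zero_or_pos l with h | h
    · rw [h] at hyl'
      exact absurd (bc_trans (bc_symm hy0') hyl') hzk.1
    · exact h
  have hmid : ∀ i, 0 < i → i < l → z' i ∈ B := by
    intro i hi0 hil
    refine ⟨hyB i hil, ?_⟩
    have h1 := bc_path hyr i (l - i) (by omega)
    have h2 : i + (l - i) = l := by omega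
    rw [h2] at h1
    have hne : z' i ≠ z' l := by
      intro h
      apply hyne i hil.le l le_rfl hil
      rw [h]
      exact bc_refl f _
    exact (bcT_right (bcT_of_refl h1 hne) hyl').to_reflTransGen
  -- the components
  set n := k + l with hn
  set c : ℕ → Site d := fun i => if i ≤ k then z i else z' (i - k) with hc
  have hc1 : ∀ i, i ≤ k → c i = z i := fun i hi => by simp only [hc]; rw [if_pos hi]
  have hc2 : ∀ i, k < i → c i = z' (i - k) := fun i hi => by
    simp only [hc]; rw [if_neg (by omega)]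
  have hcne : ∀ i i', i < i' → i' < n → ¬ SC f (c i) (c i') := by
    intro i i' hii hi'
    by_cases h1 : i' ≤ k
    · rw [hc1 i (by omega), hc1 i' h1]
      exact hzne i (by omega) i' h1 hii
    · push Not at h1
      rw [hc2 i' h1]
      have hm : z' (i' - k) ∈ B := hmid (i' - k) (by omega) (by omega)
      rcases lt_trichotomy i k with h2 | h2 | h2
      · rw [hc1 i h2.le]
        intro h
        exact hzB i h2 (hBcl _ _ h hm)
      · rw [hc1 i h2.le, h2]
        intro h
        exact hyA (i' - k) (by omega) (by omega) (bc_symm h)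
      · rw [hc2 i h2]
        exact hyne (i - k) (by omega) (i' - k) (by omega) (by omega)
  have hstep : ∀ i, i < n → ∃ p p' y : Site d, SC f (c i) p ∧ (y = f.1 p ∨ y = f.2 p) ∧
      y - p' ∈ D ∧ SC f p (f.1⁻¹ y) ∧ SC f p' (c ((i + 1) % n)) ∧ (i < k → p ∈ N ∧ p' ∈ N) ∧
      (k ≤ i → p ∈ W ∧ p' ∈ W) := by
    intro i hi
    by_cases hik : i < k
    · obtain ⟨p, hp, p', hp', h1, h2, h3⟩ := hzr i hik
      obtain ⟨y, hy1, hy2, hy3⟩ := bc_exit h2
      refine ⟨p, p', y, ?_, hy1, hy2, hy3, ?_, fun _ => ⟨hp, hp'⟩, fun h => by omega⟩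
      · rw [hc1 i hik.le]; exact h1
      · rw [Nat.mod_eq_of_lt (by omega), hc1 (i + 1) (by omega)]; exact h3
    · push Not at hik
      obtain ⟨p, hp, p', hp', h1, h2, h3⟩ := hyr (i - k) (by omega)
      obtain ⟨y, hy1, hy2, hy3⟩ := bc_exit h2
      refine ⟨p, p', y, ?_, hy1, hy2, hy3, ?_, fun h => by omega, fun _ => ⟨hp, hp'⟩⟩
      · rcases eq_or_lt_of_le hik with h | h
        · rw [hc1 i h.symm.le, ← h]
          rw [← h, Nat.sub_self] at h1
          exact bc_trans (bc_symm hy0') h1
        · rw [hc2 i h]; exact h1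
      · rcases eq_or_lt_of_le (Nat.succ_le_of_lt hi) with h | h
        · have h' : i + 1 = n := h
          rw [h', Nat.mod_self, hc1 0 (Nat.zero_le _)]
          have h4 : i - k + 1 = l := by omega
          rw [h4] at h3
          exact bc_trans h3 (bc_trans hyl' (bc_symm hz0'))
        · have h' : i + 1 < n := h
          rw [Nat.mod_eq_of_lt h', hc2 (i + 1) (by omega)]
          have h4 : i - k + 1 = i + 1 - k := by omega
          rw [h4] at h3
          exact h3
  choose! P P' Y hP hY hE hO hT hPN hPW using hstep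
  set x : ℕ → Site d := fun i => if i = 0 then P' (n - 1) else P' (i - 1) with hx
  have hx0 : x 0 = P' (n - 1) := by simp only [hx, if_true]
  have hxs : ∀ i, x (i + 1) = P' i := fun i => by
    simp only [hx]; rw [if_neg (by omega), Nat.add_sub_cancel]
  have hxc : ∀ i < n, SC f (x i) (c i) := by
    intro i hi
    cases i with
    | zero =>
      have h := hT (n - 1) (by omega)
      have h' : n - 1 + 1 = n := by omega
      rw [h', Nat.mod_self] at h
      rw [hx0]; exact h
    | succ i =>
      have h := hT i (by omega)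
      rw [Nat.mod_eq_of_lt hi] at h
      rw [hxs]; exact h
  refine ⟨n, x, Y, k, ⟨by omega, ?_, ?_, ?_⟩, hk, by omega, ?_, ?_, ?_, ?_, ?_⟩
  · intro i hi i' hi' hne h
    have h1 := bc_trans (bc_symm (hxc i hi)) (bc_trans h (hxc i' hi'))
    rcases lt_or_gt_of_ne hne with h2 | h2
    · exact hcne i i' h2 hi' h1
    · exact hcne i' i h2 hi (bc_symm h1)
  · intro i hi
    exact bc_trans (hxc i hi) (bc_trans (hP i hi) (hO i hi))
  · intro i hi
    rcases eq_or_lt_of_le (Nat.succ_le_of_lt hi) with h | h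
    · have h' : i + 1 = n := h
      rw [h', Nat.mod_self, hx0]
      have h4 : n - 1 = i := by omega
      rw [h4]
      exact hE i hi
    · have h' : i + 1 < n := h
      rw [Nat.mod_eq_of_lt h', hxs]
      exact hE i hi
  · exact bc_trans (hxc 0 (by omega)) (by rw [hc1 0 (Nat.zero_le _)]; exact hz0')
  · rw [hx0]
    exact (hPW (n - 1) (by omega) (by omega)).2
  · exact ⟨P 0, (hPN 0 (by omega) hk).1, hY 0 (by omega)⟩
  · obtain ⟨k', hk'⟩ : ∃ k', k = k' + 1 := ⟨k - 1, by omega⟩
    have h := (hPN k' (by omega) (by omega)).2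
    rw [hk', hxs]
    exact h
  · exact ⟨P k, (hPW k (by omega) le_rfl).1, hY k (by omega)⟩

end DE
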