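import Pool.Agent.Helper10.DE.Geo.CDefs

/-!
Module DE-IX0: the class of pairs closed under finite modifications and under the reversal of an
infinite component, all members good.  (Definition only.)
-/

open Filter Topology

namespace DE

variable {d : ℕ}

/-- A class of pairs closed under finite modifications and under reversing an infinite component,
all members good. -/
structure Cl (D : Finset (Site d)) (C : Set (Pr d)) : Prop where
  isD : ∀ f ∈ C, IsD D f.1 ∧ IsD D f.2
  fin : ∀ f ∈ C, ∀ g : Pr d, IsD D g.1 → IsD D g.2 →
    {a | g.1 a ≠ f.1 a ∨ g.2 a ≠ f.2 a}.Finite → g ∈ C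
  rev : ∀ f ∈ C, ∀ x, IsInf f x → ∀ g, IsSwap f g {a | SC f x a} → g ∈ C
  good : ∀ f ∈ C, Good f

end DE
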