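import Pool.Agent.Helper15.DE.Defs
import Pool.Agent.Helper15.DE.PhBasic
import Pool.Agent.Helper15.DE.PhMeas

/-!
Module DE-VI2 (swapping the two components on an invariant set of sites; deterministic).
`swapOn A ω` exchanges the components at the sites of `A`.  Let `φ = ph st ω`, `ω ∈ Cfg2 st` and `A`
be `φ`-invariant.  Write `f1 = mv st (c1 ω)`, `f2 = mv st (c2 ω)`, `f2 (φ x) = f1 x` (`ph_spec`).
New maps: `g1 = f2` on `A`, `f1` off `A`; `g2 = f1` on `A`, `f2` off `A`.  Since `f2 '' A = f1 '' A`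
(`f1 x = f2 (φ x)` and `φ '' A = A`), `g1` and `g2` are again bijections.  For `x ∈ A`:
`g1 x = f2 x = f1 (φ⁻¹ x) = g2 (φ⁻¹ x)`, so the new relative permutation maps `x` to `φ⁻¹ x`
(`ph_eq_iff`); off `A`: `g1 x = f1 x = f2 (φ x) = g2 (φ x)`.
`zpow_swapOn`: induction.  `sameCycle`, `infOrb`: from `zpow_swapOn` (if `a ∈ A` use `-n`).
`hasVel_swapOn_zero`: on `A` the forward and backward limits are exchanged up to sign.
`rep_congr`: `rep` only depends on the relation `SameCycle`.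
-/

open MeasureTheory Filter Topology

namespace Helper15.DE

variable {d : ℕ} {A : Type}

open Classical in
/-- exchange the two components at the sites of `s` -/
noncomputable def swapOn (s : Set (V d)) (ω : V d → A × A) : V d → A × A :=
  fun x => if x ∈ s then (ω x).swap else ω x

private theorem app_inv (φ : Equiv.Perm (V d)) (a : V d) : φ (φ⁻¹ a) = a := by
  rw [← Equiv.Perm.mul_apply, mul_inv_cancel, Equiv.Perm.one_apply]

private theorem mv_c1_in (st : A → V d) (s : Set (V d)) (ω : V d → A × A) {x : V d} (hx : x ∈ s) :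
    mv st (c1 (swapOn s ω)) x = mv st (c2 ω) x := by
  simp [mv, c1, c2, swapOn, hx]

private theorem mv_c1_out (st : A → V d) (s : Set (V d)) (ω : V d → A × A) {x : V d} (hx : x ∉ s) :
    mv st (c1 (swapOn s ω)) x = mv st (c1 ω) x := by
  simp [mv, c1, swapOn, hx]

private theorem mv_c2_in (st : A → V d) (s : Set (V d)) (ω : V d → A × A) {x : V d} (hx : x ∈ s) :
    mv st (c2 (swapOn s ω)) x = mv st (c1 ω) x := by
  simp [mv, c1, c2, swapOn, hx]

private theorem mv_c2_out (st : A → V d) (s : Set (V d)) (ω : V d → A × A) {x : V d} (hx : x ∉ s) :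
    mv st (c2 (swapOn s ω)) x = mv st (c2 ω) x := by
  simp [mv, c2, swapOn, hx]

private theorem inv_mem (st : A → V d) (s : Set (V d)) {ω : V d → A × A}
    (hs : ∀ a, ph st ω a ∈ s ↔ a ∈ s) (a : V d) : (ph st ω)⁻¹ a ∈ s ↔ a ∈ s := by
  rw [← hs ((ph st ω)⁻¹ a), app_inv]

/-- a point of `s` and a point outside `s` never share an image -/
private theorem sep (st : A → V d) (s : Set (V d)) {ω : V d → A × A} (h : ω ∈ Cfg2 st)
    (hs : ∀ a, ph st ω a ∈ s ↔ a ∈ s) {x y : V d} (e : mv st (c1 ω) x = mv st (c2 ω) y) :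
    x ∈ s ↔ y ∈ s := by
  have h1 := (ph_eq_iff st h x y).2 e
  rw [← h1]
  exact (hs x).symm

theorem swapOn_mem (st : A → V d) (s : Set (V d)) {ω : V d → A × A} (h : ω ∈ Cfg2 st)
    (hs : ∀ a, ph st ω a ∈ s ↔ a ∈ s) : swapOn s ω ∈ Cfg2 st := by
  refine ⟨⟨?_, ?_⟩, ⟨?_, ?_⟩⟩
  · intro x y e
    by_cases hx : x ∈ s <;> by_cases hy : y ∈ s
    · rw [mv_c1_in st s ω hx, mv_c1_in st s ω hy] at e
      exact h.2.1 e
    · rw [mv_c1_in st s ω hx, mv_c1_out st s ω hy] at e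
      exact absurd ((sep st s h hs e.symm).2 hx) hy
    · rw [mv_c1_out st s ω hx, mv_c1_in st s ω hy] at e
      exact absurd ((sep st s h hs e).2 hy) hx
    · rw [mv_c1_out st s ω hx, mv_c1_out st s ω hy] at e
      exact h.1.1 e
  · intro z
    obtain ⟨x, hx⟩ := h.1.2 z
    by_cases hxs : x ∈ s
    · refine ⟨ph st ω x, ?_⟩
      rw [mv_c1_in st s ω ((hs x).2 hxs), ph_spec st h, hx]
    · exact ⟨x, by rw [mv_c1_out st s ω hxs, hx]⟩
  · intro x y e
    by_cases hx : x ∈ s <;> by_cases hy : y ∈ s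
    · rw [mv_c2_in st s ω hx, mv_c2_in st s ω hy] at e
      exact h.1.1 e
    · rw [mv_c2_in st s ω hx, mv_c2_out st s ω hy] at e
      exact absurd ((sep st s h hs e).1 hx) hy
    · rw [mv_c2_out st s ω hx, mv_c2_in st s ω hy] at e
      exact absurd ((sep st s h hs e.symm).1 hy) hx
    · rw [mv_c2_out st s ω hx, mv_c2_out st s ω hy] at e
      exact h.2.1 e
  · intro z
    obtain ⟨x, hx⟩ := h.2.2 z
    by_cases hxs : x ∈ s
    · refine ⟨(ph st ω)⁻¹ x, ?_⟩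
      rw [mv_c2_in st s ω ((inv_mem st s hs x).2 hxs), ← ph_spec st h,
        app_inv, hx]
    · exact ⟨x, by rw [mv_c2_out st s ω hxs, hx]⟩

theorem ph_swapOn (st : A → V d) (s : Set (V d)) {ω : V d → A × A} (h : ω ∈ Cfg2 st)
    (hs : ∀ a, ph st ω a ∈ s ↔ a ∈ s) :
    (∀ a ∈ s, ph st (swapOn s ω) a = (ph st ω)⁻¹ a) ∧
    (∀ a, a ∉ s → ph st (swapOn s ω) a = ph st ω a) := by
  have hm := swapOn_mem st s h hs
  refine ⟨fun a ha => ?_, fun a ha => ?_⟩
  · rw [ph_eq_iff st hm, mv_c1_in st s ω ha, mv_c2_in st s ω ((inv_mem st s hs a).2 ha),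
      ← ph_spec st h, app_inv]
  · rw [ph_eq_iff st hm, mv_c1_out st s ω ha, mv_c2_out st s ω (fun e => ha ((hs a).1 e)),
      ph_spec st h]

private theorem npow_mem (φ : Equiv.Perm (V d)) (s : Set (V d)) (hs : ∀ a, φ a ∈ s ↔ a ∈ s)
    (n : ℕ) (a : V d) : (φ ^ n) a ∈ s ↔ a ∈ s := by
  induction n with
  | zero => rw [pow_zero, Equiv.Perm.one_apply]
  | succ n ih => rw [pow_succ', Equiv.Perm.mul_apply, hs, ih]

private theorem npow_agree (φ ψ : Equiv.Perm (V d)) (s : Set (V d)) (hs : ∀ a, φ a ∈ s ↔ a ∈ s)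
    (h : ∀ a ∈ s, ψ a = φ a) (n : ℕ) (a : V d) (ha : a ∈ s) : (ψ ^ n) a = (φ ^ n) a := by
  induction n with
  | zero => rfl
  | succ n ih =>
    rw [pow_succ', pow_succ', Equiv.Perm.mul_apply, Equiv.Perm.mul_apply, ih,
      h _ ((npow_mem φ s hs n a).2 ha)]

private theorem inv_agree (φ ψ : Equiv.Perm (V d)) (s : Set (V d)) (hs : ∀ a, φ a ∈ s ↔ a ∈ s)
    (h : ∀ a ∈ s, ψ a = φ a) (a : V d) (ha : a ∈ s) : ψ⁻¹ a = φ⁻¹ a := by
  rw [Equiv.Perm.inv_eq_iff_eq]
  have h1 : φ⁻¹ a ∈ s := by rw [← hs, app_inv]; exact ha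
  rw [h _ h1, app_inv]

private theorem zpow_agree (φ ψ : Equiv.Perm (V d)) (s : Set (V d)) (hs : ∀ a, φ a ∈ s ↔ a ∈ s)
    (h : ∀ a ∈ s, ψ a = φ a) (n : ℤ) (a : V d) (ha : a ∈ s) : (ψ ^ n) a = (φ ^ n) a := by
  cases n with
  | ofNat k =>
    rw [Int.ofNat_eq_natCast, zpow_natCast, zpow_natCast]
    exact npow_agree φ ψ s hs h k a ha
  | negSucc k =>
    rw [zpow_negSucc, zpow_negSucc, ← inv_pow, ← inv_pow]
    refine npow_agree φ⁻¹ ψ⁻¹ s ?_ (inv_agree φ ψ s hs h) (k + 1) a ha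
    intro b
    rw [← hs (φ⁻¹ b), app_inv]

theorem zpow_swapOn (st : A → V d) (s : Set (V d)) {ω : V d → A × A} (h : ω ∈ Cfg2 st)
    (hs : ∀ a, ph st ω a ∈ s ↔ a ∈ s) (n : ℤ) :
    (∀ a ∈ s, (ph st (swapOn s ω) ^ n) a = (ph st ω ^ (-n)) a) ∧
    (∀ a, a ∉ s → (ph st (swapOn s ω) ^ n) a = (ph st ω ^ n) a) := by
  obtain ⟨h1, h2⟩ := ph_swapOn st s h hs
  refine ⟨fun a ha => ?_, fun a ha => ?_⟩
  · rw [zpow_neg, ← inv_zpow]
    exact zpow_agree (ph st ω)⁻¹ (ph st (swapOn s ω)) s (inv_mem st s hs) h1 n a ha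
  · exact zpow_agree (ph st ω) (ph st (swapOn s ω)) sᶜ (fun b => not_congr (hs b)) h2 n a ha

theorem sameCycle_swapOn (st : A → V d) (s : Set (V d)) {ω : V d → A × A} (h : ω ∈ Cfg2 st)
    (hs : ∀ a, ph st ω a ∈ s ↔ a ∈ s) (a b : V d) :
    (ph st (swapOn s ω)).SameCycle a b ↔ (ph st ω).SameCycle a b := by
  unfold Equiv.Perm.SameCycle
  by_cases ha : a ∈ s
  · constructor
    · rintro ⟨n, hn⟩
      exact ⟨-n, by rw [← (zpow_swapOn st s h hs n).1 a ha, hn]⟩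
    · rintro ⟨n, hn⟩
      exact ⟨-n, by rw [(zpow_swapOn st s h hs (-n)).1 a ha, neg_neg, hn]⟩
  · refine exists_congr fun n => ?_
    rw [(zpow_swapOn st s h hs n).2 a ha]

theorem infOrb_swapOn (st : A → V d) (s : Set (V d)) {ω : V d → A × A} (h : ω ∈ Cfg2 st)
    (hs : ∀ a, ph st ω a ∈ s ↔ a ∈ s) (a : V d) :
    InfOrb (ph st (swapOn s ω)) a ↔ InfOrb (ph st ω) a := by
  unfold InfOrb
  refine forall_congr' fun k => imp_congr_right fun _ => not_congr ?_
  by_cases ha : a ∈ s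
  · have e := (zpow_swapOn st s h hs (k : ℤ)).1 a ha
    rw [zpow_natCast] at e
    rw [e, zpow_neg, zpow_natCast, Equiv.Perm.inv_eq_iff_eq]
    exact eq_comm
  · have e := (zpow_swapOn st s h hs (k : ℤ)).2 a ha
    rw [zpow_natCast, zpow_natCast] at e
    rw [e]

theorem hasVel_swapOn_zero (st : A → V d) (s : Set (V d)) {ω : V d → A × A} (h : ω ∈ Cfg2 st)
    (hs : ∀ a, ph st ω a ∈ s ↔ a ∈ s) (a : V d) :
    HasVel (ph st (swapOn s ω)) a 0 ↔ HasVel (ph st ω) a 0 := by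
  unfold HasVel
  rw [neg_zero]
  by_cases ha : a ∈ s
  · have e1 : ∀ k : ℕ, (ph st (swapOn s ω) ^ k) a = ((ph st ω)⁻¹ ^ k) a := by
      intro k
      have e := (zpow_swapOn st s h hs (k : ℤ)).1 a ha
      rw [zpow_natCast, zpow_neg, zpow_natCast, ← inv_pow] at e
      exact e
    have e2 : ∀ k : ℕ, ((ph st (swapOn s ω))⁻¹ ^ k) a = (ph st ω ^ k) a := by
      intro k
      have e := (zpow_swapOn st s h hs (-(k : ℤ))).1 a ha
      rw [neg_neg, zpow_natCast, zpow_neg, zpow_natCast, ← inv_pow] at e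
      exact e
    simp only [e1, e2]
    exact and_comm
  · have e1 : ∀ k : ℕ, (ph st (swapOn s ω) ^ k) a = (ph st ω ^ k) a := by
      intro k
      have e := (zpow_swapOn st s h hs (k : ℤ)).2 a ha
      rw [zpow_natCast, zpow_natCast] at e
      exact e
    have e2 : ∀ k : ℕ, ((ph st (swapOn s ω))⁻¹ ^ k) a = ((ph st ω)⁻¹ ^ k) a := by
      intro k
      have e := (zpow_swapOn st s h hs (-(k : ℤ))).2 a ha
      rw [zpow_neg, zpow_natCast, ← inv_pow, zpow_neg, zpow_natCast, ← inv_pow] at e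
      exact e
    simp only [e1, e2]

theorem rep_congr (φ ψ : Equiv.Perm (V d)) (h : ∀ x y, φ.SameCycle x y ↔ ψ.SameCycle x y) :
    rep φ = rep ψ := by
  funext x
  unfold rep
  have e : {y | φ.SameCycle x y} = {y | ψ.SameCycle x y} := Set.ext fun y => h x y
  simp only [e]

end Helper15.DE
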