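import Pool.Agent.Helper15.DE.Defs
import Pool.Agent.Helper15.DE.PhBasic
import Pool.Agent.Helper15.DE.PhMeas
import Pool.Agent.Helper15.DE.SwapDet

/-!
Module DE-VI3 (the coin swaps and the reversals; deterministic).
`flips st ω κ = swapOn {x | InfOrb φ x ∧ κ (rep φ x) = true} ω` and
`rev st x ω = swapOn {y | InfOrb φ x ∧ SameCycle φ x y} ω` (`φ = ph st ω`), both sets are `φ`-invariant.
If `ω ∉ Cfg2 st` then `φ = 1`, no orbit is infinite and nothing changes.
`rev_flips`: by `infOrb_swapOn`, `sameCycle_swapOn` the orbits of `ph st (flips st ω κ)` are those of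
`φ`.  If `InfOrb φ x`, the site `y` is swapped (relative to `ω`) in `rev st x (flips st ω κ)` iff
`InfOrb φ y ∧ (κ (rep φ y) = true xor SameCycle φ x y)`, and `SameCycle φ x y ↔ rep φ y = rep φ x`
(`rep_eq_iff`); this is the right side.  If not `InfOrb φ x`, then `rev` does nothing and on the right
side the coin at `rep φ x` is not used by any infinite orbit.
`shift_flips`: by `infOrb_shift`.
-/

open MeasureTheory Filter Topology

namespace Helper15.DE

variable {d : ℕ} {A : Type}

/-- the set of sites swapped by the coins -/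
private def fs (φ : Equiv.Perm (V d)) (κ : V d → Bool) : Set (V d) :=
  {x | InfOrb φ x ∧ κ (rep φ x) = true}

/-- the set of sites swapped by a reversal -/
private def rs (φ : Equiv.Perm (V d)) (x : V d) : Set (V d) :=
  {y | InfOrb φ x ∧ φ.SameCycle x y}

private theorem flips_eq (st : A → V d) (ω : V d → A × A) (κ : V d → Bool) :
    flips st ω κ = swapOn (fs (ph st ω) κ) ω := by
  funext x
  by_cases h : InfOrb (ph st ω) x ∧ κ (rep (ph st ω) x) = true
  · have h' : x ∈ fs (ph st ω) κ := h
    unfold flips swapOn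
    rw [if_pos h, if_pos h']
  · have h' : x ∉ fs (ph st ω) κ := h
    unfold flips swapOn
    rw [if_neg h, if_neg h']

private theorem rev_eq (st : A → V d) (x : V d) (ω : V d → A × A) :
    rev st x ω = swapOn (rs (ph st ω) x) ω := by
  funext y
  by_cases h : InfOrb (ph st ω) x ∧ (ph st ω).SameCycle x y
  · have h' : y ∈ rs (ph st ω) x := h
    unfold rev swapOn
    rw [if_pos h, if_pos h']
  · have h' : y ∉ rs (ph st ω) x := h
    unfold rev swapOn
    rw [if_neg h, if_neg h']

private theorem infOrb_same (φ : Equiv.Perm (V d)) {x y : V d} (h : φ.SameCycle x y) :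
    InfOrb φ y ↔ InfOrb φ x := by
  obtain ⟨n, rfl⟩ := h
  unfold InfOrb
  refine forall_congr' fun k => imp_congr_right fun _ => not_congr ?_
  have h1 : (φ ^ k) ((φ ^ n) x) = (φ ^ n) ((φ ^ k) x) := by
    rw [← Equiv.Perm.mul_apply, ← Equiv.Perm.mul_apply, ← zpow_natCast, ← zpow_add, ← zpow_add,
      add_comm]
  rw [h1]
  exact (φ ^ n).injective.eq_iff

private theorem same_app (φ : Equiv.Perm (V d)) (x : V d) : φ.SameCycle x (φ x) := by
  rw [Equiv.Perm.sameCycle_apply_right]

private theorem fs_inv (φ : Equiv.Perm (V d)) (κ : V d → Bool) (a : V d) :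
    φ a ∈ fs φ κ ↔ a ∈ fs φ κ := by
  change (InfOrb φ (φ a) ∧ κ (rep φ (φ a)) = true) ↔ (InfOrb φ a ∧ κ (rep φ a) = true)
  rw [infOrb_same φ (same_app φ a), (rep_eq_iff φ a (φ a)).2 (same_app φ a)]

private theorem rs_inv (φ : Equiv.Perm (V d)) (x a : V d) : φ a ∈ rs φ x ↔ a ∈ rs φ x := by
  change (InfOrb φ x ∧ φ.SameCycle x (φ a)) ↔ (InfOrb φ x ∧ φ.SameCycle x a)
  rw [Equiv.Perm.sameCycle_apply_right]

private theorem not_infOrb_off (st : A → V d) {ω : V d → A × A} (h : ω ∉ Cfg2 st) (x : V d) :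
    ¬ InfOrb (ph st ω) x := by
  intro h1
  apply h1 1 one_pos
  rw [ph_off st h, one_pow, Equiv.Perm.one_apply]

private theorem flips_off (st : A → V d) {ω : V d → A × A} (h : ω ∉ Cfg2 st) (κ : V d → Bool) :
    flips st ω κ = ω := by
  funext x
  unfold flips
  rw [if_neg fun h1 => not_infOrb_off st h x h1.1]

theorem flips_mem (st : A → V d) {ω : V d → A × A} (h : ω ∈ Cfg2 st) (κ : V d → Bool) :
    flips st ω κ ∈ Cfg2 st := by
  rw [flips_eq]
  exact swapOn_mem st _ h (fs_inv _ _)

theorem rev_mem (st : A → V d) (x : V d) {ω : V d → A × A} (h : ω ∈ Cfg2 st) :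
    rev st x ω ∈ Cfg2 st := by
  rw [rev_eq]
  exact swapOn_mem st _ h (rs_inv _ _)

theorem infOrb_flips (st : A → V d) (ω : V d → A × A) (κ : V d → Bool) (x : V d) :
    InfOrb (ph st (flips st ω κ)) x ↔ InfOrb (ph st ω) x := by
  by_cases h : ω ∈ Cfg2 st
  · rw [flips_eq]
    exact infOrb_swapOn st _ h (fs_inv _ _) x
  · rw [flips_off st h]

theorem sameCycle_flips (st : A → V d) (ω : V d → A × A) (κ : V d → Bool) (x y : V d) :
    (ph st (flips st ω κ)).SameCycle x y ↔ (ph st ω).SameCycle x y := by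
  by_cases h : ω ∈ Cfg2 st
  · rw [flips_eq]
    exact sameCycle_swapOn st _ h (fs_inv _ _) x y
  · rw [flips_off st h]

theorem hasVel_flips_zero (st : A → V d) (ω : V d → A × A) (κ : V d → Bool) (x : V d) :
    HasVel (ph st (flips st ω κ)) x 0 ↔ HasVel (ph st ω) x 0 := by
  by_cases h : ω ∈ Cfg2 st
  · rw [flips_eq]
    exact hasVel_swapOn_zero st _ h (fs_inv _ _) x
  · rw [flips_off st h]

theorem rev_flips (st : A → V d) (x : V d) (ω : V d → A × A) (κ : V d → Bool) :
    rev st x (flips st ω κ) =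
      flips st ω (Function.update κ (rep (ph st ω) x) (!κ (rep (ph st ω) x))) := by
  funext y
  have hl : rev st x (flips st ω κ) y =
      swapOn (rs (ph st (flips st ω κ)) x) (flips st ω κ) y := by
    rw [rev_eq]
  have hm : y ∈ rs (ph st (flips st ω κ)) x ↔ InfOrb (ph st ω) x ∧ (ph st ω).SameCycle x y := by
    change (InfOrb (ph st (flips st ω κ)) x ∧ (ph st (flips st ω κ)).SameCycle x y) ↔ _
    rw [infOrb_flips, sameCycle_flips]
  rw [hl]
  unfold swapOn
  by_cases hI : InfOrb (ph st ω) x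
  · by_cases hS : (ph st ω).SameCycle x y
    · rw [if_pos (hm.2 ⟨hI, hS⟩)]
      have hr : rep (ph st ω) y = rep (ph st ω) x := ((rep_eq_iff _ _ _).2 hS).symm
      have hIy : InfOrb (ph st ω) y := (infOrb_same _ hS).2 hI
      unfold flips
      rw [hr, Function.update_self]
      cases hk : κ (rep (ph st ω) x)
      · rw [if_neg (by simp), if_pos ⟨hIy, by simp⟩]
      · rw [if_pos ⟨hIy, rfl⟩, if_neg (by simp), Prod.swap_swap]
    · rw [if_neg (fun h => hS (hm.1 h).2)]
      have hr : rep (ph st ω) y ≠ rep (ph st ω) x := fun h => hS ((rep_eq_iff _ _ _).1 h.symm)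
      unfold flips
      rw [Function.update_of_ne hr]
  · rw [if_neg (fun h => hI (hm.1 h).1)]
    by_cases hr : rep (ph st ω) y = rep (ph st ω) x
    · have hS : (ph st ω).SameCycle x y := (rep_eq_iff _ _ _).1 hr.symm
      have hIy : ¬ InfOrb (ph st ω) y := fun h => hI ((infOrb_same _ hS).1 h)
      unfold flips
      rw [if_neg (fun h => hIy h.1), if_neg (fun h => hIy h.1)]
    · unfold flips
      rw [Function.update_of_ne hr]

open Classical in
theorem shift_flips (st : A → V d) (v : V d) (ω : V d → A × A) (κ : V d → Bool) :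
    shift v (flips st ω κ) = fun x =>
      if InfOrb (ph st (shift v ω)) x ∧ (κ ∘ fun y => rep (ph st ω) (y + v)) x = true
      then (shift v ω x).swap else shift v ω x := by
  funext x
  have h1 : shift v (flips st ω κ) x = flips st ω κ (x + v) := rfl
  rw [h1]
  unfold flips
  by_cases h : InfOrb (ph st ω) (x + v) ∧ κ (rep (ph st ω) (x + v)) = true
  · rw [if_pos h, if_pos ⟨(infOrb_shift st v ω x).2 h.1, h.2⟩]
    rfl
  · rw [if_neg h, if_neg (fun h' => h ⟨(infOrb_shift st v ω x).1 h'.1, h'.2⟩)]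
    rfl

theorem chg2_flips (st : A → V d) (ω : V d → A × A) (κ : V d → Bool) (x : V d) :
    chg2 st (flips st ω κ x) = chg2 st (ω x) := by
  unfold flips
  split_ifs
  · funext i
    unfold chg2
    rw [Prod.fst_swap, Prod.snd_swap, add_comm]
  · rfl

end Helper15.DE
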