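import Pool.Agent.Helper15.DE.Defs
import Pool.Agent.Helper15.DE.PhBasic
import Pool.Agent.Helper15.DE.PhMeas

/-!
Module DE-V5 (the shift along the orbit preserves invariant measures).
`Th st ω = shift (ph st ω 0) ω`, `Thi st ω = shift ((ph st ω)⁻¹ 0) ω`.
`Th_iter` by induction on `k`: with `z = (φ^k) 0`, `Th (shift z ω) = shift (ph (shift z ω) 0) (shift z ω)
= shift (φ z - z + z) ω` by `ph_shift` and `shift_shift`.
`mp_Th`: `Th st` is measurable (countable decomposition by the value of `ph st ω 0`).  For measurable `B`: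
`μ (Th⁻¹ B) = ∑' v, μ ({ph ω 0 = v} ∩ shift v ⁻¹ B)`.  Since `μ` is invariant under `shift (-v)`, the
`v`-th term equals `μ (shift (-v) ⁻¹ ({ph ω 0 = v} ∩ shift v ⁻¹ B)) = μ ({ph (shift (-v) ω) 0 = v} ∩ B)
= μ ({ω | ph ω (-v) = 0} ∩ B)` (`ph (shift (-v) ω) 0 = ph ω (-v) + v`).  The sets
`{ω | ph ω (-v) = 0}`, `v ∈ V d`, partition the space (`ph ω` is a bijection), so the sum is `μ B`.
`mp_Thi`: the same with `ph⁻¹` (`{(ph ω)⁻¹ (-v) = 0} = {ph ω 0 = -v}`), or from `Thi` being the inverse
of `Th`.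
-/

open MeasureTheory Filter Topology

namespace Helper15.DE

variable {d : ℕ} {A : Type}

/-- shift along the orbit of the origin, forwards -/
noncomputable def Th (st : A → V d) (ω : V d → A × A) : V d → A × A := shift (ph st ω 0) ω

/-- shift along the orbit of the origin, backwards -/
noncomputable def Thi (st : A → V d) (ω : V d → A × A) : V d → A × A := shift ((ph st ω)⁻¹ 0) ω

private theorem ph_inv_shift (st : A → V d) (v : V d) (ω : V d → A × A) (x : V d) :
    (ph st (shift v ω))⁻¹ x = (ph st ω)⁻¹ (x + v) - v := by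
  have h := ph_zpow_shift st v ω (-1) x
  rwa [zpow_neg_one, zpow_neg_one] at h

private theorem ph_inv_apply (st : A → V d) (ω : V d → A × A) (x : V d) :
    (ph st ω)⁻¹ (ph st ω x) = x := by
  rw [← Equiv.Perm.mul_apply, inv_mul_cancel, Equiv.Perm.one_apply]

private theorem ph_apply_inv (st : A → V d) (ω : V d → A × A) (x : V d) :
    ph st ω ((ph st ω)⁻¹ x) = x := by
  rw [← Equiv.Perm.mul_apply, mul_inv_cancel, Equiv.Perm.one_apply]

theorem Thi_Th (st : A → V d) (ω : V d → A × A) : Thi st (Th st ω) = ω := by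
  unfold Thi Th
  rw [ph_inv_shift, zero_add, ph_inv_apply, shift_shift, sub_add_cancel, shift_zero]

theorem Th_Thi (st : A → V d) (ω : V d → A × A) : Th st (Thi st ω) = ω := by
  unfold Thi Th
  rw [ph_shift, zero_add, ph_apply_inv, shift_shift, sub_add_cancel, shift_zero]

theorem Th_iter (st : A → V d) (ω : V d → A × A) (k : ℕ) :
    (Th st)^[k] ω = shift ((ph st ω ^ k) 0) ω := by
  induction k with
  | zero => rw [Function.iterate_zero, pow_zero, Equiv.Perm.one_apply, shift_zero]; rfl
  | succ k ih =>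
    rw [Function.iterate_succ_apply', ih, pow_succ', Equiv.Perm.mul_apply]
    unfold Th
    rw [ph_shift, zero_add, shift_shift, sub_add_cancel]

theorem Thi_iter (st : A → V d) (ω : V d → A × A) (k : ℕ) :
    (Thi st)^[k] ω = shift (((ph st ω)⁻¹ ^ k) 0) ω := by
  induction k with
  | zero => rw [Function.iterate_zero, pow_zero, Equiv.Perm.one_apply, shift_zero]; rfl
  | succ k ih =>
    rw [Function.iterate_succ_apply', ih, pow_succ', Equiv.Perm.mul_apply]
    unfold Thi
    rw [ph_inv_shift, zero_add, shift_shift, sub_add_cancel]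

variable [Finite A] [MeasurableSpace A] [MeasurableSingletonClass A]

private theorem meas_aux (f : (V d → A × A) → V d) (hf : ∀ v, MeasurableSet {ω | f ω = v}) :
    Measurable (fun ω => shift (f ω) ω) := by
  intro B hB
  have h1 : (fun ω => shift (f ω) ω) ⁻¹' B = ⋃ v, ({ω | f ω = v} ∩ (shift v) ⁻¹' B) := by
    ext ω
    simp only [Set.mem_preimage, Set.mem_iUnion, Set.mem_inter_iff, Set.mem_setOf_eq]
    constructor
    · intro h
      exact ⟨f ω, rfl, h⟩
    · rintro ⟨v, rfl, h⟩
      exact h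
  rw [h1]
  exact MeasurableSet.iUnion fun v => (hf v).inter (measurable_shift v hB)

private theorem meas_Th (st : A → V d) : Measurable (Th st) :=
  meas_aux _ (fun v => measurableSet_ph st 0 v)

private theorem meas_Thi (st : A → V d) : Measurable (Thi st) := by
  refine meas_aux _ (fun v => ?_)
  have h1 : {ω : V d → A × A | (ph st ω)⁻¹ 0 = v} = {ω : V d → A × A | ph st ω v = 0} := by
    ext ω
    simp only [Set.mem_setOf_eq]
    rw [Equiv.Perm.inv_eq_iff_eq]
    exact eq_comm
  rw [h1]
  exact measurableSet_ph st v 0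

theorem mp_Th (st : A → V d) {μ : Measure (V d → A × A)} [IsProbabilityMeasure μ]
    (hμ : ∀ v, μ.map (shift v) = μ) : MeasurePreserving (Th st) μ μ := by
  refine ⟨meas_Th st, ?_⟩
  refine Measure.ext fun B hB => ?_
  rw [Measure.map_apply (meas_Th st) hB]
  have h1 : Th st ⁻¹' B = ⋃ v, ({ω | ph st ω 0 = v} ∩ (shift v) ⁻¹' B) := by
    ext ω
    simp only [Set.mem_preimage, Set.mem_iUnion, Set.mem_inter_iff, Set.mem_setOf_eq]
    constructor
    · intro h
      exact ⟨ph st ω 0, rfl, h⟩
    · rintro ⟨v, rfl, h⟩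
      exact h
  have h2 : B = ⋃ v, ({ω | ph st ω (-v) = 0} ∩ B) := by
    ext ω
    simp only [Set.mem_iUnion, Set.mem_inter_iff, Set.mem_setOf_eq]
    constructor
    · intro h
      refine ⟨-((ph st ω)⁻¹ 0), ?_, h⟩
      rw [neg_neg, ph_apply_inv]
    · rintro ⟨v, -, h⟩
      exact h
  have hm1 : ∀ v : V d, MeasurableSet ({ω : V d → A × A | ph st ω 0 = v} ∩ (shift v) ⁻¹' B) :=
    fun v => (measurableSet_ph st 0 v).inter (measurable_shift v hB)
  have hm2 : ∀ v : V d, MeasurableSet ({ω : V d → A × A | ph st ω (-v) = 0} ∩ B) :=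
    fun v => (measurableSet_ph st (-v) 0).inter hB
  have hd1 : Pairwise (Function.onFun Disjoint
      fun v : V d => ({ω : V d → A × A | ph st ω 0 = v} ∩ (shift v) ⁻¹' B)) := by
    intro v w hvw
    rw [Function.onFun, Set.disjoint_left]
    rintro ω ⟨ha, -⟩ ⟨hb, -⟩
    exact hvw (ha.symm.trans hb)
  have hd2 : Pairwise (Function.onFun Disjoint
      fun v : V d => ({ω : V d → A × A | ph st ω (-v) = 0} ∩ B)) := by
    intro v w hvw
    rw [Function.onFun, Set.disjoint_left]
    rintro ω ⟨ha, -⟩ ⟨hb, -⟩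
    exact hvw (neg_injective ((ph st ω).injective (ha.trans hb.symm)))
  rw [h1, measure_iUnion hd1 hm1]
  conv_rhs => rw [h2, measure_iUnion hd2 hm2]
  refine tsum_congr fun v => ?_
  conv_lhs => rw [← hμ (-v)]
  rw [Measure.map_apply (measurable_shift (-v)) (hm1 v)]
  congr 1
  ext ω
  simp only [Set.mem_preimage, Set.mem_inter_iff, Set.mem_setOf_eq]
  rw [ph_shift, shift_shift, add_neg_cancel, shift_zero, zero_add, sub_neg_eq_add,
    add_eq_right]

theorem mp_Thi (st : A → V d) {μ : Measure (V d → A × A)} [IsProbabilityMeasure μ]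
    (hμ : ∀ v, μ.map (shift v) = μ) : MeasurePreserving (Thi st) μ μ := by
  refine ⟨meas_Thi st, ?_⟩
  have h1 := (mp_Th st hμ).map_eq
  conv_lhs => rw [← h1]
  rw [Measure.map_map (meas_Thi st) (meas_Th st)]
  have h2 : Thi st ∘ Th st = id := by
    funext ω
    exact Thi_Th st ω
  rw [h2, Measure.map_id]

end Helper15.DE
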