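import Pool.Agent.Helper15.DE.Defs
import Pool.Agent.Helper15.DE.PhBasic
import Pool.Agent.Helper15.DE.PhMeas
import Pool.Agent.Helper15.DE.Theta
import Pool.Agent.Helper15.DE.Birk

/-!
Module DE-V6 (velocities exist almost surely, the same in both directions).
Fix a coordinate `i` and `f ω = (ph st ω 0 i : ℝ)` (bounded by `ph_bdd`, measurable).  By `Th_iter` and
`ph_shift`, `f ((Th st)^[k] ω) = (φ^(k+1)) 0 i - (φ^k) 0 i` with `φ = ph st ω`, so
`∑ k < n, f ((Th st)^[k] ω) = (φ^n) 0 i`.  Birkhoff (`birkhoff`) for `Th st` gives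
`(φ^n) 0 i / n → E i := μ[f | invariants Th]`.  Backwards: with `f' ω = ((ph st ω)⁻¹ 0 i : ℝ)` we have
`f' = - f ∘ Thi` (`ph st (Thi st ω) 0 = ph st ω ((ph st ω)⁻¹ 0) - (ph st ω)⁻¹ 0 = -(ph st ω)⁻¹ 0`), and
`∑ k < n, f' ((Thi st)^[k] ω) = (φ⁻¹^n) 0 i`.  By Birkhoff for `Thi st`,
`(φ⁻¹^n) 0 i / n → μ[f' | invariants Thi]`.  `invariants Thi = invariants Th` (mutually inverse maps)
and `μ[f' | inv] = - μ[f | inv]` a.e.: for `B` invariant, `∫_B f' = - ∫_B f ∘ Thi = - ∫_B f`
because `Thi` preserves `μ` and `B` (`ae_eq_condExp_of_forall_setIntegral_eq`).  So a.s. `HasVel φ 0 w`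
with `w i = μ[f | inv] ω`.
For the other sites: `ph_zpow_shift` gives `HasVel (ph st ω) x w ↔ HasVel (ph st (shift x ω)) 0 w`
(the difference of the positions is the constant `x`), `μ` is invariant under `shift x`, countably many `x`.
`vel_nonzero`: if a.s. `HasVel φ 0 0`, then by bounded convergence `∫ (φ^n) 0 i / n → 0`; but
`∫ (φ^n) 0 i = n ∫ f` (`Th` preserves `μ`), so `∫ f = 0`.  On `Cfg2`, `ph_spec` at `0` says
`φ 0 = st (ω 0).1 - st (ω (φ 0)).2`, and `ω (φ 0) = (Th st ω) 0`, so
`0 = ∫ f = ∫ st (ω 0).1 i - ∫ st ((Th st ω) 0).2 i = ∫ st (ω 0).1 i - ∫ st (ω 0).2 i`.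
-/

open MeasureTheory Filter Topology

namespace Helper15.DE

variable {d : ℕ} {A : Type} [Finite A] [MeasurableSpace A] [MeasurableSingletonClass A]

/-- the displacement of the first step of the orbit of the origin -/
private noncomputable def gf (st : A → V d) (i : Fin d) (ω : V d → A × A) : ℝ :=
  ((ph st ω 0 i : ℤ) : ℝ)

/-- the displacement of the first backward step of the orbit of the origin -/
private noncomputable def gb (st : A → V d) (i : Fin d) (ω : V d → A × A) : ℝ :=
  (((ph st ω)⁻¹ 0 i : ℤ) : ℝ)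

omit [Finite A] [MeasurableSpace A] [MeasurableSingletonClass A] in
private theorem inv_shift (st : A → V d) (v : V d) (ω : V d → A × A) (x : V d) :
    (ph st (shift v ω))⁻¹ x = (ph st ω)⁻¹ (x + v) - v := by
  have h := ph_zpow_shift st v ω (-1) x
  rwa [zpow_neg_one, zpow_neg_one] at h

omit [Finite A] [MeasurableSpace A] [MeasurableSingletonClass A] in
private theorem gb_eq (st : A → V d) (i : Fin d) (ω : V d → A × A) :
    gb st i ω = -gf st i (Thi st ω) := by
  unfold gb gf Thi
  have h1 : ph st ω ((ph st ω)⁻¹ 0) = 0 := by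
    rw [← Equiv.Perm.mul_apply, mul_inv_cancel, Equiv.Perm.one_apply]
  rw [ph_shift, zero_add, h1, zero_sub, Pi.neg_apply]
  push_cast
  ring

private theorem gf_meas (st : A → V d) (i : Fin d) : Measurable (gf st i) := by
  have h1 : Measurable (fun ω : V d → A × A => ph st ω 0) :=
    measurable_to_countable' fun y => measurableSet_ph st 0 y
  have h2 : Measurable (fun y : V d => ((y i : ℤ) : ℝ)) := measurable_of_countable _
  exact h2.comp h1

private theorem gb_meas (st : A → V d) (i : Fin d) : Measurable (gb st i) := by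
  have h1 : Measurable (fun ω : V d → A × A => (ph st ω)⁻¹ 0) := by
    refine measurable_to_countable' fun y => ?_
    have h := measurableSet_ph_zpow st (-1) 0 y
    have e : {ω : V d → A × A | (ph st ω ^ (-1 : ℤ)) 0 = y}
        = (fun ω : V d → A × A => (ph st ω)⁻¹ 0) ⁻¹' {y} := by
      ext ω
      simp only [Set.mem_ofPred_eq, Set.mem_preimage, Set.mem_singleton_iff, zpow_neg_one]
    rwa [e] at h
  have h2 : Measurable (fun y : V d => ((y i : ℤ) : ℝ)) := measurable_of_countable _
  exact h2.comp h1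

omit [MeasurableSpace A] [MeasurableSingletonClass A] in
private theorem gf_bdd (st : A → V d) : ∃ C : ℝ, 0 ≤ C ∧
    (∀ i ω, |gf st i ω| ≤ C) ∧ (∀ i ω, |gb st i ω| ≤ C) := by
  obtain ⟨R, hR, h⟩ := ph_bdd st
  refine ⟨R, by exact_mod_cast hR, ?_, ?_⟩
  · intro i ω
    have h1 := h ω 0 i
    rw [Pi.zero_apply, sub_zero] at h1
    unfold gf
    exact_mod_cast h1
  · intro i ω
    have h1 := h ω ((ph st ω)⁻¹ 0) i
    have h2 : ph st ω ((ph st ω)⁻¹ 0) = 0 := by
      rw [← Equiv.Perm.mul_apply, mul_inv_cancel, Equiv.Perm.one_apply]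
    rw [h2, Pi.zero_apply, zero_sub, abs_neg] at h1
    unfold gb
    exact_mod_cast h1

omit [Finite A] [MeasurableSpace A] [MeasurableSingletonClass A] in
private theorem gf_sum (st : A → V d) (i : Fin d) (ω : V d → A × A) (n : ℕ) :
    ∑ k ∈ Finset.range n, gf st i ((Th st)^[k] ω) = (((ph st ω ^ n) 0 i : ℤ) : ℝ) := by
  induction n with
  | zero => simp
  | succ n ih =>
    rw [Finset.sum_range_succ, ih, Th_iter]
    unfold gf
    rw [ph_shift, zero_add, pow_succ', Equiv.Perm.mul_apply, Pi.sub_apply]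
    push_cast
    ring

omit [Finite A] [MeasurableSpace A] [MeasurableSingletonClass A] in
private theorem gb_sum (st : A → V d) (i : Fin d) (ω : V d → A × A) (n : ℕ) :
    ∑ k ∈ Finset.range n, gb st i ((Thi st)^[k] ω) = ((((ph st ω)⁻¹ ^ n) 0 i : ℤ) : ℝ) := by
  induction n with
  | zero => simp
  | succ n ih =>
    rw [Finset.sum_range_succ, ih, Thi_iter]
    unfold gb
    rw [inv_shift, zero_add, pow_succ', Equiv.Perm.mul_apply, Pi.sub_apply]
    push_cast
    ring

omit [Finite A] [MeasurableSingletonClass A] in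
private theorem inv_eq (st : A → V d) :
    MeasurableSpace.invariants (Thi st : (V d → A × A) → V d → A × A)
      = MeasurableSpace.invariants (Th st) := by
  refine MeasurableSpace.ext fun s => ?_
  rw [MeasurableSpace.measurableSet_invariants, MeasurableSpace.measurableSet_invariants]
  refine and_congr_right fun _ => ⟨fun h => ?_, fun h => ?_⟩
  · conv_lhs => rw [← h]
    ext ω
    rw [Set.mem_preimage, Set.mem_preimage, Thi_Th]
  · conv_lhs => rw [← h]
    ext ω
    rw [Set.mem_preimage, Set.mem_preimage, Th_Thi]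

private theorem gf_int (st : A → V d) (i : Fin d) {μ : Measure (V d → A × A)}
    [IsProbabilityMeasure μ] : Integrable (gf st i) μ := by
  obtain ⟨C, -, h, -⟩ := gf_bdd st
  exact Integrable.of_bound (gf_meas st i).aestronglyMeasurable C
    (Eventually.of_forall fun ω => h i ω)

private theorem gb_int (st : A → V d) (i : Fin d) {μ : Measure (V d → A × A)}
    [IsProbabilityMeasure μ] : Integrable (gb st i) μ := by
  obtain ⟨C, -, -, h⟩ := gf_bdd st
  exact Integrable.of_bound (gb_meas st i).aestronglyMeasurable C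
    (Eventually.of_forall fun ω => h i ω)

private theorem cond_gb (st : A → V d) (i : Fin d) {μ : Measure (V d → A × A)}
    [IsProbabilityMeasure μ] (hμ : ∀ v, μ.map (shift v) = μ) :
    ∀ᵐ ω ∂μ, (μ[gb st i | MeasurableSpace.invariants (Thi st)]) ω
      = -(μ[gf st i | MeasurableSpace.invariants (Th st)]) ω := by
  rw [inv_eq]
  have hm : MeasurableSpace.invariants (Th st : (V d → A × A) → V d → A × A)
      ≤ (inferInstance : MeasurableSpace (V d → A × A)) := MeasurableSpace.invariants_le _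
  have hT := mp_Thi st hμ
  have key := ae_eq_condExp_of_forall_setIntegral_eq hm (f := gb st i)
    (g := fun ω => -(μ[gf st i | MeasurableSpace.invariants (Th st)]) ω) (gb_int st i)
    (fun s _ _ => integrable_condExp.neg.integrableOn)
    (fun s hs _ => by
      have hs1 : MeasurableSet s := hm s hs
      have hs2 : Thi st ⁻¹' s = s := by
        have hs' := hs
        rw [← inv_eq] at hs'
        exact (MeasurableSpace.measurableSet_invariants.1 hs').2
      rw [integral_neg, setIntegral_condExp hm (gf_int st i) hs]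
      have h1 : ∫ ω in s, gf st i ω ∂μ = ∫ ω in s, gf st i (Thi st ω) ∂μ := by
        have h2 := setIntegral_map (μ := μ) (g := Thi st) (f := gf st i) hs1
          (by rw [hT.map_eq]; exact (gf_meas st i).aestronglyMeasurable)
          hT.measurable.aemeasurable
        rw [hT.map_eq, hs2] at h2
        exact h2
      rw [h1, ← integral_neg]
      exact integral_congr_ae (Eventually.of_forall fun ω => (gb_eq st i ω).symm))
    (stronglyMeasurable_condExp.neg.aestronglyMeasurable)
  filter_upwards [key] with ω hω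
  exact hω.symm

/-- the velocities of the orbit of the origin -/
private theorem vel_origin (st : A → V d) {μ : Measure (V d → A × A)}
    [IsProbabilityMeasure μ] (hμ : ∀ v, μ.map (shift v) = μ) :
    ∀ᵐ ω ∂μ, ∃ w, HasVel (ph st ω) 0 w := by
  obtain ⟨C, -, h1, h2⟩ := gf_bdd st
  have hf : ∀ᵐ ω ∂μ, ∀ i, Tendsto
      (fun n : ℕ => (∑ k ∈ Finset.range n, gf st i ((Th st)^[k] ω)) / n) atTop
      (𝓝 ((μ[gf st i | MeasurableSpace.invariants (Th st)]) ω)) :=
    ae_all_iff.2 fun i => birkhoff (mp_Th st hμ) (gf_meas st i) (h1 i)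
  have hb : ∀ᵐ ω ∂μ, ∀ i, Tendsto
      (fun n : ℕ => (∑ k ∈ Finset.range n, gb st i ((Thi st)^[k] ω)) / n) atTop
      (𝓝 ((μ[gb st i | MeasurableSpace.invariants (Thi st)]) ω)) :=
    ae_all_iff.2 fun i => birkhoff (mp_Thi st hμ) (gb_meas st i) (h2 i)
  have hc : ∀ᵐ ω ∂μ, ∀ i, (μ[gb st i | MeasurableSpace.invariants (Thi st)]) ω
      = -(μ[gf st i | MeasurableSpace.invariants (Th st)]) ω :=
    ae_all_iff.2 fun i => cond_gb st i hμ
  filter_upwards [hf, hb, hc] with ω hω1 hω2 hω3
  refine ⟨fun i => (μ[gf st i | MeasurableSpace.invariants (Th st)]) ω, ?_, ?_⟩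
  · rw [tendsto_pi_nhds]
    intro i
    have h := hω1 i
    simp only [gf_sum] at h
    exact h
  · rw [tendsto_pi_nhds]
    intro i
    have h := hω2 i
    simp only [gb_sum] at h
    rw [hω3 i] at h
    exact h

omit [Finite A] [MeasurableSpace A] [MeasurableSingletonClass A] in
private theorem tend_add_const (a : ℕ → ℝ) (c l : ℝ)
    (h : Tendsto (fun k : ℕ => a k / k) atTop (𝓝 l)) :
    Tendsto (fun k : ℕ => (a k + c) / k) atTop (𝓝 l) := by
  have h1 : Tendsto (fun k : ℕ => c / (k : ℝ)) atTop (𝓝 0) :=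
    tendsto_const_div_atTop_nhds_zero_nat c
  have h2 := h.add h1
  rw [add_zero] at h2
  refine h2.congr fun k => ?_
  rw [add_div]

omit [Finite A] [MeasurableSpace A] [MeasurableSingletonClass A] in
private theorem hasVel_of_shift (st : A → V d) (ω : V d → A × A) (x : V d) (w : Fin d → ℝ)
    (h : HasVel (ph st (shift x ω)) 0 w) : HasVel (ph st ω) x w := by
  have hp : ∀ k : ℕ, (ph st ω ^ k) x = (ph st (shift x ω) ^ k) 0 + x := by
    intro k
    have h1 := ph_zpow_shift st x ω k 0
    rw [zpow_natCast, zpow_natCast, zero_add] at h1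
    rw [h1, sub_add_cancel]
  have hn : ∀ k : ℕ, ((ph st ω)⁻¹ ^ k) x = ((ph st (shift x ω))⁻¹ ^ k) 0 + x := by
    intro k
    have h1 := ph_zpow_shift st x ω (-(k : ℤ)) 0
    rw [zpow_neg, zpow_neg, zpow_natCast, zpow_natCast, ← inv_pow, ← inv_pow, zero_add] at h1
    rw [h1, sub_add_cancel]
  refine ⟨?_, ?_⟩
  · rw [tendsto_pi_nhds]
    intro i
    have h1 := (tendsto_pi_nhds.1 h.1) i
    refine (tend_add_const _ (x i : ℝ) _ h1).congr fun k => ?_
    rw [hp k, Pi.add_apply]
    push_cast
    ring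
  · rw [tendsto_pi_nhds]
    intro i
    have h1 := (tendsto_pi_nhds.1 h.2) i
    refine (tend_add_const _ (x i : ℝ) _ h1).congr fun k => ?_
    rw [hn k, Pi.add_apply]
    push_cast
    ring

theorem good_ae (st : A → V d) {μ : Measure (V d → A × A)} (hμ : Inv (Cfg2 st) μ) :
    ∀ᵐ ω ∂μ, GoodPerm (ph st ω) := by
  have := hμ.prob
  unfold GoodPerm
  rw [ae_all_iff]
  intro x
  have h0 := vel_origin st hμ.map
  rw [← hμ.map x] at h0
  have h1 := ae_of_ae_map (measurable_shift x).aemeasurable h0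
  filter_upwards [h1] with ω hω
  obtain ⟨w, hw⟩ := hω
  exact ⟨w, hasVel_of_shift st ω x w hw⟩

private theorem int_letter (c : A × A → ℝ) {μ : Measure (V d → A × A)}
    [IsProbabilityMeasure μ] {T : (V d → A × A) → V d → A × A} (hT : Measurable T) :
    Integrable (fun ω => c (T ω 0)) μ := by
  obtain ⟨C, hC⟩ := Finite.exists_le (fun a : A × A => |c a|)
  have h1 : Measurable c := measurable_of_countable _
  refine Integrable.of_bound ?_ C (Eventually.of_forall fun ω => hC (T ω 0))
  exact (h1.comp ((measurable_pi_apply 0).comp hT)).aestronglyMeasurable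

private theorem int_gf_zero (st : A → V d) {μ : Measure (V d → A × A)}
    [IsProbabilityMeasure μ] (hμ : ∀ v, μ.map (shift v) = μ)
    (h : ∀ᵐ ω ∂μ, HasVel (ph st ω) 0 0) (i : Fin d) : ∫ ω, gf st i ω ∂μ = 0 := by
  obtain ⟨C, hC0, hC, -⟩ := gf_bdd st
  have hT := mp_Th st hμ
  have hTk : ∀ k : ℕ, MeasurePreserving ((Th st)^[k]) μ μ := fun k => hT.iterate k
  have hik : ∀ k : ℕ, Integrable (fun ω => gf st i ((Th st)^[k] ω)) μ := by
    intro k
    exact Integrable.of_bound
      ((gf_meas st i).comp (hTk k).measurable).aestronglyMeasurable C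
      (Eventually.of_forall fun ω => hC i _)
  have hek : ∀ k : ℕ, ∫ ω, gf st i ((Th st)^[k] ω) ∂μ = ∫ ω, gf st i ω ∂μ := by
    intro k
    have h2 := integral_map (μ := μ) (φ := (Th st)^[k]) (f := gf st i)
      (hTk k).measurable.aemeasurable
      (by rw [(hTk k).map_eq]; exact (gf_meas st i).aestronglyMeasurable)
    rw [(hTk k).map_eq] at h2
    exact h2.symm
  have hlim : Tendsto (fun n : ℕ => ∫ ω, (∑ k ∈ Finset.range n, gf st i ((Th st)^[k] ω)) / n ∂μ)
      atTop (𝓝 (∫ _ω : V d → A × A, (0 : ℝ) ∂μ)) := by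
    refine tendsto_integral_of_dominated_convergence (fun _ => C) ?_ ?_ ?_ ?_
    · intro n
      exact ((integrable_finsetSum _ fun k _ => hik k).div_const _).aestronglyMeasurable
    · exact integrable_const C
    · intro n
      refine Eventually.of_forall fun ω => ?_
      rcases Nat.eq_zero_or_pos n with rfl | hn
      · simpa using hC0
      · have hn' : (0 : ℝ) < n := by exact_mod_cast hn
        rw [Real.norm_eq_abs, abs_div, abs_of_pos hn', div_le_iff₀ hn']
        calc |∑ k ∈ Finset.range n, gf st i ((Th st)^[k] ω)|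
            ≤ ∑ k ∈ Finset.range n, |gf st i ((Th st)^[k] ω)| := Finset.abs_sum_le_sum_abs _ _
          _ ≤ ∑ k ∈ Finset.range n, C := Finset.sum_le_sum fun k _ => hC i _
          _ = C * n := by rw [Finset.sum_const, Finset.card_range, nsmul_eq_mul, mul_comm]
    · filter_upwards [h] with ω hω
      have h1 := (tendsto_pi_nhds.1 hω.1) i
      simp only [gf_sum]
      exact h1
  rw [integral_zero] at hlim
  refine tendsto_nhds_unique ?_ hlim
  refine (tendsto_const_nhds (x := ∫ ω, gf st i ω ∂μ)).congr' ?_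
  filter_upwards [eventually_gt_atTop 0] with n hn
  have hn' : (n : ℝ) ≠ 0 := by exact_mod_cast hn.ne'
  rw [integral_div, integral_finsetSum _ fun k _ => hik k]
  simp only [hek]
  rw [Finset.sum_const, Finset.card_range, nsmul_eq_mul, mul_div_cancel_left₀ _ hn']

theorem vel_nonzero (st : A → V d) {μ : Measure (V d → A × A)} (hμ : Inv (Cfg2 st) μ)
    (hne : mean (fun a : A × A => chg st a.1) μ ≠ mean (fun a : A × A => chg st a.2) μ) :
    ¬ ∀ᵐ ω ∂μ, HasVel (ph st ω) 0 0 := by
  have := hμ.prob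
  intro h
  apply hne
  funext i
  have h0 := int_gf_zero st hμ.map h i
  have hT := mp_Th st hμ.map
  unfold mean chg
  have i1 : Integrable (fun ω : V d → A × A => (st (ω 0).1 i : ℝ)) μ :=
    int_letter (fun a => (st a.1 i : ℝ)) measurable_id
  have i2 : Integrable (fun ω : V d → A × A => (st (Th st ω 0).2 i : ℝ)) μ :=
    int_letter (fun a => (st a.2 i : ℝ)) hT.measurable
  have i3 : Integrable (fun ω : V d → A × A => (st (ω 0).2 i : ℝ)) μ :=
    int_letter (fun a => (st a.2 i : ℝ)) measurable_id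
  have e1 : ∫ ω, gf st i ω ∂μ = ∫ ω, ((st (ω 0).1 i : ℝ) - (st (Th st ω 0).2 i : ℝ)) ∂μ := by
    refine integral_congr_ae ?_
    filter_upwards [hμ.supp] with ω hω
    have h1 := congrFun (ph_spec st hω 0) i
    unfold mv c1 c2 at h1
    rw [Pi.add_apply, Pi.add_apply, Pi.zero_apply, zero_add] at h1
    have h2 : Th st ω 0 = ω (ph st ω 0) := by
      unfold Th shift
      rw [zero_add]
    unfold gf
    rw [h2, ← h1]
    push_cast
    ring
  have e2 : ∫ ω, (st (Th st ω 0).2 i : ℝ) ∂μ = ∫ ω, (st (ω 0).2 i : ℝ) ∂μ := by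
    have h2 := integral_map (μ := μ) (φ := Th st)
      (f := fun ω : V d → A × A => (st (ω 0).2 i : ℝ)) hT.measurable.aemeasurable
      (by rw [hT.map_eq]; exact i3.aestronglyMeasurable)
    rw [hT.map_eq] at h2
    exact h2.symm
  rw [e1, integral_sub i1 i2, e2] at h0
  linarith

end Helper15.DE
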