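import Pool.Agent.Helper15.DE.Defs
import Pool.Agent.Helper15.DE.PhBasic
import Pool.Agent.Helper15.DE.PhMeas
import Pool.Agent.Helper15.DE.SwapDet
import Pool.Agent.Helper15.DE.FlipsDet
import Pool.Agent.Helper15.DE.Bridge
import Pool.Agent.Helper15.DE.Cl
import Pool.Agent.Helper15.DE.GoodAE
import Pool.Agent.Helper10.DE.ET.Defs

/-!
Module DE-VII2 (the class, almost surely).
Move `ω → ω'` (both in `Cfg2 st`): either `{x | ω x ≠ ω' x}` is finite, or `ω' = rev st x ω` for some `x`.
(1) If `N` is a null set then `{ω ∈ Cfg2 st | ∃ ω' ∈ N, move ω → ω'}` is a null set (outer measure).  It is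
contained in the countable union of the sets `(rev st x)⁻¹ N` (null by `hrev`; enlarge `N` to a
measurable null set, `toMeasurable`) and of `(pswap F a b)⁻¹ N` for finite `F` and patterns `a, b` which
are a fixed default letter off `F` (countably many) with `Same` for both components: if
`ω, ω' ∈ Cfg2 st` differ only on `F`, let `a, b` be their patterns on `F`; then `pswap F a b ω = ω'` and
`Same st F (c1 a) (c1 b)` because `mv st (c1 ω)` and `mv st (c1 ω')` are bijections that agree off `F`.
(For `Same` only the values on `F` matter: `Set.InjOn` on `F` and `F.image`.)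
(2) So the set `N∞` of the `ω ∈ Cfg2 st` from which a finite sequence of moves leads to a configuration with
`¬ GoodPerm (ph st ω')` is null (`good_ae`, induction on the length).
(3) For `ω ∈ Cfg2 st`, `ω ∉ N∞`, let `C` be the set of the `pr st ω'`, `ω'` reachable from `ω` by finitely
many moves.  `Cl (stepSet st) C`: `isD` by `isD_pr`; `fin`: `g` is `pr st η` (`exists_cfg`), `η` differs from
`ω'` only at finitely many sites (`st` injective: if `g` and `pr st ω'` agree at `a`, so do the letters);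
`rev`: `rev st x ω'` has `pr st (rev st x ω') = g` (`g` is determined by `IsSwap`; `sc_pr`, `isInf_pr`);
`good`: `hasVel_iff`, `F_pr`.
-/

open MeasureTheory Filter Topology

namespace Helper15.DE

variable {d : ℕ} {A : Type} [Fintype A] [MeasurableSpace A] [MeasurableSingletonClass A]

omit [Fintype A] [MeasurableSpace A] [MeasurableSingletonClass A] in
private theorem mv_congr (st : A → V d) {a b : V d → A} {x : V d} (h : a x = b x) :
    mv st a x = mv st b x := by
  unfold mv
  rw [h]

omit [Fintype A] [MeasurableSpace A] [MeasurableSingletonClass A] in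
private theorem image_sub (st : A → V d) (F : Finset (V d)) (α β a b : V d → A)
    (hα : α ∈ Cfg st) (hβ : β ∈ Cfg st) (hoff : ∀ x, x ∉ F → α x = β x)
    (ha : ∀ x ∈ F, a x = α x) (hb : ∀ x ∈ F, b x = β x) :
    F.image (mv st a) ⊆ F.image (mv st b) := by
  intro y hy
  obtain ⟨x, hx, rfl⟩ := Finset.mem_image.1 hy
  have hα' : Function.Bijective (mv st α) := hα
  have hβ' : Function.Bijective (mv st β) := hβ
  obtain ⟨z, hz⟩ := hβ'.2 (mv st a x)
  have hzF : z ∈ F := by
    by_contra hn
    rw [← mv_congr st (hoff z hn), mv_congr st (ha x hx)] at hz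
    exact hn (hα'.1 hz ▸ hx)
  exact Finset.mem_image.2 ⟨z, hzF, by rw [mv_congr st (hb z hzF), hz]⟩

omit [Fintype A] [MeasurableSpace A] [MeasurableSingletonClass A] in
private theorem same_of (st : A → V d) (F : Finset (V d)) (α β a b : V d → A)
    (hα : α ∈ Cfg st) (hβ : β ∈ Cfg st) (hoff : ∀ x, x ∉ F → α x = β x)
    (ha : ∀ x ∈ F, a x = α x) (hb : ∀ x ∈ F, b x = β x) : Same st F a b := by
  have hα' : Function.Bijective (mv st α) := hα
  have hβ' : Function.Bijective (mv st β) := hβ
  refine ⟨?_, ?_, ?_⟩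
  · intro x hx y hy hxy
    rw [mv_congr st (ha x hx), mv_congr st (ha y hy)] at hxy
    exact hα'.1 hxy
  · intro x hx y hy hxy
    rw [mv_congr st (hb x hx), mv_congr st (hb y hy)] at hxy
    exact hβ'.1 hxy
  · exact Finset.Subset.antisymm (image_sub st F α β a b hα hβ hoff ha hb)
      (image_sub st F β α b a hβ hα (fun x hx => (hoff x hx).symm) hb ha)

/-- the moves -/
private def Mv (st : A → V d) (ω ω' : V d → A × A) : Prop :=
  ω ∈ Cfg2 st ∧ ω' ∈ Cfg2 st ∧ ({x | ω x ≠ ω' x}.Finite ∨ ∃ x, ω' = rev st x ω)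

open Classical in
/-- extension of a pattern by a default letter -/
private noncomputable def extp (F : Finset (V d)) (p : F → A × A) (c : A × A) : V d → A × A :=
  fun x => if h : x ∈ F then p ⟨x, h⟩ else c

omit [Fintype A] [MeasurableSpace A] [MeasurableSingletonClass A] in
private theorem extp_mem (F : Finset (V d)) (ω : V d → A × A) (c : A × A) {x : V d}
    (h : x ∈ F) : extp F (fun y => ω y) c x = ω x := by
  unfold extp
  rw [dif_pos h]

omit [Fintype A] [MeasurableSingletonClass A] in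
private theorem null_pre {μ : Measure (V d → A × A)} {f : (V d → A × A) → V d → A × A}
    (hf : μ.map f = μ) {N : Set (V d → A × A)} (hN : MeasurableSet N) (h0 : μ N = 0) :
    μ (f ⁻¹' N) = 0 := by
  by_cases h : AEMeasurable f μ
  · rw [← Measure.map_apply_of_aemeasurable h hN, hf, h0]
  · rw [Measure.map_of_not_aemeasurable h] at hf
    rw [← hf]
    rfl

private theorem null_move (st : A → V d) {μ : Measure (V d → A × A)}
    (hrev : ∀ x, μ.map (rev st x) = μ)
    (hvp : ∀ (F : Finset (V d)) (a b : V d → A × A), Same st F (c1 a) (c1 b) →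
      Same st F (c2 a) (c2 b) → μ.map (pswap F a b) = μ) {N : Set (V d → A × A)}
    (h0 : μ N = 0) : μ {ω | ∃ ω' ∈ N, Mv st ω ω'} = 0 := by
  classical
  set N' := toMeasurable μ N with hN'
  have hm : MeasurableSet N' := measurableSet_toMeasurable μ N
  have h0' : μ N' = 0 := by rw [hN', measure_toMeasurable, h0]
  have hsub : N ⊆ N' := subset_toMeasurable μ N
  let I := Σ F : Finset (V d), (F → A × A) × (F → A × A) × (A × A)
  let S : I → Set (V d → A × A) := fun i =>
    {ω | (Same st i.1 (c1 (extp i.1 i.2.1 i.2.2.2)) (c1 (extp i.1 i.2.2.1 i.2.2.2)) ∧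
      Same st i.1 (c2 (extp i.1 i.2.1 i.2.2.2)) (c2 (extp i.1 i.2.2.1 i.2.2.2))) ∧
      pswap i.1 (extp i.1 i.2.1 i.2.2.2) (extp i.1 i.2.2.1 i.2.2.2) ω ∈ N'}
  have hS : ∀ i, μ (S i) = 0 := by
    intro i
    by_cases h : Same st i.1 (c1 (extp i.1 i.2.1 i.2.2.2)) (c1 (extp i.1 i.2.2.1 i.2.2.2)) ∧
      Same st i.1 (c2 (extp i.1 i.2.1 i.2.2.2)) (c2 (extp i.1 i.2.2.1 i.2.2.2))
    · refine measure_mono_null ?_ (null_pre (hvp _ _ _ h.1 h.2) hm h0')
      intro ω hω
      exact hω.2
    · refine measure_mono_null ?_ (measure_empty (μ := μ))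
      intro ω hω
      exact absurd hω.1 h
  have hR : ∀ x, μ (rev st x ⁻¹' N') = 0 := fun x => null_pre (hrev x) hm h0'
  have hU : μ ((⋃ x, rev st x ⁻¹' N') ∪ ⋃ i, S i) = 0 :=
    measure_union_null (measure_iUnion_null hR) (measure_iUnion_null hS)
  refine measure_mono_null ?_ hU
  rintro ω ⟨ω', hω'N, hω, hω', hfin | ⟨x, rfl⟩⟩
  · right
    rw [Set.mem_iUnion]
    have hF : ∀ x, x ∉ hfin.toFinset → ω x = ω' x := by
      intro x hx
      rw [Set.Finite.mem_toFinset] at hx
      by_contra hne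
      exact hx hne
    have hsame1 : Same st hfin.toFinset
        (c1 (extp hfin.toFinset (fun y => ω y) (ω 0)))
        (c1 (extp hfin.toFinset (fun y => ω' y) (ω 0))) := by
      refine same_of st _ (c1 ω) (c1 ω') _ _ hω.1 hω'.1 ?_ ?_ ?_
      · intro x hx
        unfold c1
        rw [hF x hx]
      · intro x hx
        unfold c1
        rw [extp_mem _ _ _ hx]
      · intro x hx
        unfold c1
        rw [extp_mem _ _ _ hx]
    have hsame2 : Same st hfin.toFinset
        (c2 (extp hfin.toFinset (fun y => ω y) (ω 0)))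
        (c2 (extp hfin.toFinset (fun y => ω' y) (ω 0))) := by
      refine same_of st _ (c2 ω) (c2 ω') _ _ hω.2 hω'.2 ?_ ?_ ?_
      · intro x hx
        unfold c2
        rw [hF x hx]
      · intro x hx
        unfold c2
        rw [extp_mem _ _ _ hx]
      · intro x hx
        unfold c2
        rw [extp_mem _ _ _ hx]
    have hps : pswap hfin.toFinset (extp hfin.toFinset (fun y => ω y) (ω 0))
        (extp hfin.toFinset (fun y => ω' y) (ω 0)) ω = ω' := by
      unfold pswap
      rw [if_pos (fun x hx => (extp_mem _ _ _ hx).symm)]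
      funext x
      by_cases hx : x ∈ hfin.toFinset
      · rw [if_pos hx, extp_mem _ _ _ hx]
      · rw [if_neg hx, hF x hx]
    refine ⟨⟨hfin.toFinset, fun y => ω y, fun y => ω' y, ω 0⟩, ⟨hsame1, hsame2⟩, ?_⟩
    change pswap hfin.toFinset (extp hfin.toFinset (fun y => ω y) (ω 0))
        (extp hfin.toFinset (fun y => ω' y) (ω 0)) ω ∈ N'
    rw [hps]
    exact hsub hω'N
  · left
    rw [Set.mem_iUnion]
    exact ⟨x, hsub hω'N⟩

/-- the configurations from which `k` moves lead into `N` -/
private def bad (st : A → V d) (N : Set (V d → A × A)) : ℕ → Set (V d → A × A)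
  | 0 => N
  | k + 1 => {ω | ∃ ω' ∈ bad st N k, Mv st ω ω'}

private theorem null_bad (st : A → V d) {μ : Measure (V d → A × A)}
    (hrev : ∀ x, μ.map (rev st x) = μ)
    (hvp : ∀ (F : Finset (V d)) (a b : V d → A × A), Same st F (c1 a) (c1 b) →
      Same st F (c2 a) (c2 b) → μ.map (pswap F a b) = μ) {N : Set (V d → A × A)}
    (h0 : μ N = 0) (k : ℕ) : μ (bad st N k) = 0 := by
  induction k with
  | zero => exact h0
  | succ k ih => exact null_move st hrev hvp ih

omit [Fintype A] [MeasurableSpace A] [MeasurableSingletonClass A] in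
private theorem reach_bad (st : A → V d) (N : Set (V d → A × A)) {ω ω' : V d → A × A}
    (h : Relation.ReflTransGen (Mv st) ω ω') (hN : ω' ∈ N) : ∃ k, ω ∈ bad st N k := by
  induction h using Relation.ReflTransGen.head_induction_on with
  | refl => exact ⟨0, hN⟩
  | head h1 _ ih =>
    obtain ⟨k, hk⟩ := ih
    exact ⟨k + 1, _, hk, h1⟩

omit [Fintype A] [MeasurableSpace A] [MeasurableSingletonClass A] in
private theorem reach_cfg (st : A → V d) {ω ω' : V d → A × A} (hω : ω ∈ Cfg2 st)
    (h : Relation.ReflTransGen (Mv st) ω ω') : ω' ∈ Cfg2 st := by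
  induction h with
  | refl => exact hω
  | tail _ h1 _ => exact h1.2.1

theorem cl_ae (st : A → V d) (hinj : Function.Injective st) {μ : Measure (V d → A × A)}
    (hμ : Inv (Cfg2 st) μ) (hrev : ∀ x, μ.map (rev st x) = μ)
    (hvp : ∀ (F : Finset (V d)) (a b : V d → A × A), Same st F (c1 a) (c1 b) →
      Same st F (c2 a) (c2 b) → μ.map (pswap F a b) = μ) :
    ∀ᵐ ω ∂μ, ∃ C : Set (_root_.DE.Pr d), _root_.DE.Cl (stepSet st) C ∧ pr st ω ∈ C := by
  have h0 : μ {ω | ¬ GoodPerm (ph st ω)} = 0 := good_ae st hμ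
  have h1 : μ (⋃ k, bad st {ω | ¬ GoodPerm (ph st ω)} k) = 0 :=
    measure_iUnion_null (fun k => null_bad st hrev hvp h0 k)
  have h2 : ∀ᵐ ω ∂μ, ω ∉ ⋃ k, bad st {ω | ¬ GoodPerm (ph st ω)} k := measure_eq_zero_iff_ae_notMem.1 h1
  filter_upwards [hμ.supp, h2] with ω hω hnb
  have hgood : ∀ ω', Relation.ReflTransGen (Mv st) ω ω' → GoodPerm (ph st ω') := by
    intro ω' hr
    by_contra hn
    obtain ⟨k, hk⟩ := reach_bad st {ω | ¬ GoodPerm (ph st ω)} hr hn
    exact hnb (Set.mem_iUnion.2 ⟨k, hk⟩)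
  refine ⟨{f | ∃ ω', Relation.ReflTransGen (Mv st) ω ω' ∧ pr st ω' = f}, ⟨?_, ?_, ?_, ?_⟩,
    ⟨ω, Relation.ReflTransGen.refl, rfl⟩⟩
  · rintro f ⟨ω', hr, rfl⟩
    exact isD_pr st (reach_cfg st hω hr)
  · rintro f ⟨ω', hr, rfl⟩ g hg1 hg2 hfin
    have hω' := reach_cfg st hω hr
    obtain ⟨η, hη, rfl⟩ := exists_cfg st g hg1 hg2
    refine ⟨η, hr.tail ⟨hω', hη, Or.inl (hfin.subset ?_)⟩, rfl⟩
    intro a ha
    by_contra hn
    rw [Set.mem_ofPred_eq, not_or, not_not, not_not] at hn
    apply ha
    have e1 := hn.1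
    have e2 := hn.2
    rw [(pr_apply st hη a).1, (pr_apply st hω' a).1] at e1
    rw [(pr_apply st hη a).2, (pr_apply st hω' a).2] at e2
    unfold mv at e1 e2
    have e3 : c1 η a = c1 ω' a := hinj (add_left_cancel e1)
    have e4 : c2 η a = c2 ω' a := hinj (add_left_cancel e2)
    exact Prod.ext e3.symm e4.symm
  · rintro f ⟨ω', hr, rfl⟩ x hx g hg
    have hω' := reach_cfg st hω hr
    have hrm := rev_mem st x hω'
    refine ⟨rev st x ω', hr.tail ⟨hω', hrm, Or.inr ⟨x, rfl⟩⟩, ?_⟩
    have hinf := (isInf_pr st ω' x).1 hx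
    have key : ∀ a, (pr st (rev st x ω')).1 a = g.1 a ∧ (pr st (rev st x ω')).2 a = g.2 a := by
      intro a
      rw [(pr_apply st hrm a).1, (pr_apply st hrm a).2]
      by_cases ha : _root_.DE.SC (pr st ω') x a
      · have hc := (sc_pr st ω' x a).1 ha
        obtain ⟨g1, g2⟩ := hg.1 a ha
        rw [g1, g2, (pr_apply st hω' a).1, (pr_apply st hω' a).2]
        have e : rev st x ω' a = (ω' a).swap := by
          unfold rev
          rw [if_pos ⟨hinf, hc⟩]
        unfold mv c1 c2
        rw [e]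
        exact ⟨rfl, rfl⟩
      · have hc : ¬ (ph st ω').SameCycle x a := fun h => ha ((sc_pr st ω' x a).2 h)
        obtain ⟨g1, g2⟩ := hg.2 a ha
        rw [g1, g2, (pr_apply st hω' a).1, (pr_apply st hω' a).2]
        have e : rev st x ω' a = ω' a := by
          unfold rev
          rw [if_neg (fun h => hc h.2)]
        unfold mv c1 c2
        rw [e]
        exact ⟨rfl, rfl⟩
    exact Prod.ext (Equiv.ext fun a => (key a).1) (Equiv.ext fun a => (key a).2)
  · rintro f ⟨ω', hr, rfl⟩ a _
    obtain ⟨w, hw⟩ := hgood ω' hr a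
    rw [F_pr]
    exact ⟨w, (hasVel_iff _ _ _).1 hw⟩

end Helper15.DE
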