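import Pool.Agent.Helper15.DE.Cl
import Pool.Agent.Helper10.DE.Geo.StubsCC

/-!
Module DE-IX2 (cycle lemma).  Stubs used: `flip_exists`, `flip_rays`, `flip_fin`, `vout_pow`,
`vout_unique`, `vout_congr`, `vout_inv` (helper10's StubsCC).
Let `h` be the flip of `g` along the cycle (`flip_exists`), `h ∈ C` by `Cl.fin`, so `h` is good.
Let `x i` be infinite, `VOut (F g) (x i) V`.  Claim: if `m ≥ 1`, `x ((i + m) % n)` is infinite and
all `x ((i + k) % n)`, `0 < k < m`, are finite, then `VOut (F g) (x ((i + m) % n)) V`.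
Put `u = (F g ^ (j i + 1)) (x i)`.  By `flip_rays` the forward orbit of `u` under `F h` is the forward
orbit of `u` under `F g`, so `VOut (F h) u V` (`vout_pow`, `vout_congr`), and
`F h (x ((i + 1) % n)) = u` (`flip_F`), so `u` and `x ((i + 1) % n)` are in the same component of `h`.
By `flip_fin` for the finite ones, `x ((i + m) % n)` is in the same component of `h` as
`x ((i + 1) % n)`, hence as `u`.  So `VOut (F h) (x ((i + m) % n)) V` (`vout_pow` with an integer
exponent).  The component is infinite in `h`: by `flip_rays` for the index `(i + m) % n` the backward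
orbit under `F h` of `x ((i + m) % n)` is its backward orbit under `F g`, which is injective.  `h` is
good, so `VIn (F h) (x ((i + m) % n)) V'` with `V' = V` by `vout_unique`; by `flip_rays` again
`VIn (F g) (x ((i + m) % n)) V`.  `g` is good, so `VOut (F g) (x ((i + m) % n)) V''` and `VIn` with the
same `V''`, and `V'' = V` (uniqueness of limits).
The theorem follows by induction along the cycle: every index is `(i + m) % n` for some `m < n`;
strong induction on `m` (take the last infinite index before it).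
-/

open Filter Topology

namespace DE

variable {d : ℕ}

private theorem cl_step (D : Finset (Site d)) (C : Set (Pr d)) (hC : Cl D C) (g h : Pr d)
    (hg : g ∈ C) (hhC : h ∈ C) (n : ℕ) (x : ℕ → Site d) (j : ℕ → ℕ) (hc : OCyc D g n x j)
    (hh : IsFlip g h n x j) (i m : ℕ) (hi : i < n) (hinf : IsInf g (x i)) (hm : 1 ≤ m)
    (hfin : ∀ k, 0 < k → k < m → ¬ IsInf g (x ((i + k) % n)))
    (hinf' : IsInf g (x ((i + m) % n))) (V : Fin d → ℝ) (hV : VOut (F g) (x i) V) :
    VOut (F g) (x ((i + m) % n)) V := by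
  have hn : 0 < n := hc.pos
  obtain ⟨hr1, -⟩ := flip_rays D g h n x j hc hh i hi hinf
  obtain ⟨-, hr2⟩ := flip_rays D g h n x j hc hh ((i + m) % n) (Nat.mod_lt _ hn) hinf'
  have hu : VOut (F h) ((F g ^ (j i + 1)) (x i)) V := by
    have h1 : ∀ t : ℕ, (F h ^ t) ((F g ^ (j i + 1)) (x i)) =
        (F g ^ t) ((F g ^ (j i + 1)) (x i)) := by
      intro t
      rw [hr1 t, ← Equiv.Perm.mul_apply, ← pow_add, add_comm]
    rw [vout_congr (F g) (F h) _ V h1]
    have h2 := vout_pow (F g) (x i) V ((j i + 1 : ℕ) : ℤ)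
    rw [zpow_natCast] at h2
    exact h2.mpr hV
  have hsc : ∀ k, k < m → SC h (x ((i + (k + 1)) % n)) ((F g ^ (j i + 1)) (x i)) := by
    intro k
    induction k with
    | zero =>
      intro _
      refine ⟨1, ?_⟩
      rw [zpow_one]
      exact (flip_F D g h n x j hc hh).1 i hi
    | succ k ih =>
      intro hk
      have h1 := (flip_fin D g h n x j hc hh ((i + (k + 1)) % n) (Nat.mod_lt _ hn)
        (hfin (k + 1) (by omega) hk)).1
      rw [Nat.mod_add_mod] at h1
      exact h1.trans (ih (by omega))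
  have hsm : SC h ((F g ^ (j i + 1)) (x i)) (x ((i + m) % n)) := by
    have h1 := hsc (m - 1) (by omega)
    have h2 : m - 1 + 1 = m := by omega
    rw [h2] at h1
    exact h1.symm
  have hV1 : VOut (F h) (x ((i + m) % n)) V := by
    obtain ⟨k, hk⟩ := hsm
    have h1 := vout_pow (F h) ((F g ^ (j i + 1)) (x i)) V k
    rw [hk] at h1
    exact h1.mpr hu
  have hinfh : IsInf h (x ((i + m) % n)) := by
    intro t ht he
    apply hinf' t ht
    have h1 : ((F h)⁻¹ ^ t) (x ((i + m) % n)) = x ((i + m) % n) := by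
      rw [inv_pow, Equiv.Perm.inv_eq_iff_eq]
      exact he.symm
    rw [hr2 t, inv_pow, Equiv.Perm.inv_eq_iff_eq] at h1
    exact h1.symm
  obtain ⟨V', h1, h2⟩ := hC.good h hhC _ hinfh
  have hVV : V' = V := vout_unique _ _ _ _ h1 hV1
  rw [hVV, vin_congr (F g) (F h) _ V hr2] at h2
  obtain ⟨V'', h3, h4⟩ := hC.good g hg _ hinf'
  have hVV' : V'' = V := vin_unique _ _ _ _ h4 h2
  rwa [hVV'] at h3

theorem cycle_lemma' (D : Finset (Site d)) (C : Set (Pr d)) (hC : Cl D C) (g : Pr d)
    (hg : g ∈ C) (n : ℕ) (x : ℕ → Site d) (j : ℕ → ℕ) (hc : OCyc D g n x j) (i i' : ℕ)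
    (hi : i < n) (hi' : i' < n) (hinf : IsInf g (x i)) (hinf' : IsInf g (x i'))
    (V : Fin d → ℝ) (hV : VOut (F g) (x i) V) : VOut (F g) (x i') V := by
  have hn : 0 < n := hc.pos
  obtain ⟨h, hh, hd1, hd2, hfin⟩ := flip_exists D g (hC.isD g hg).1 (hC.isD g hg).2 n x j hc
  have hhC : h ∈ C := hC.fin g hg h hd1 hd2 hfin
  have key : ∀ m : ℕ, ∃ k0 ≤ m, IsInf g (x ((i + k0) % n)) ∧ VOut (F g) (x ((i + k0) % n)) V ∧
      ∀ k, k0 < k → k ≤ m → ¬ IsInf g (x ((i + k) % n)) := by
    intro m
    induction m with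
    | zero =>
      refine ⟨0, le_rfl, ?_, ?_, ?_⟩
      · rw [Nat.add_zero, Nat.mod_eq_of_lt hi]
        exact hinf
      · rw [Nat.add_zero, Nat.mod_eq_of_lt hi]
        exact hV
      · intro k h1 h2
        omega
    | succ m ih =>
      obtain ⟨k0, hk0, h1, h2, h3⟩ := ih
      by_cases h4 : IsInf g (x ((i + (m + 1)) % n))
      · refine ⟨m + 1, le_rfl, h4, ?_, ?_⟩
        · have e : ∀ k, ((i + k0) % n + k) % n = (i + (k0 + k)) % n := by
            intro k
            rw [Nat.mod_add_mod, Nat.add_assoc]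
          have e1 : k0 + (m + 1 - k0) = m + 1 := by omega
          have h5 := cl_step D C hC g h hg hhC n x j hc hh ((i + k0) % n) (m + 1 - k0)
            (Nat.mod_lt _ hn) h1 (by omega) (by
              intro k hk1 hk2
              rw [e]
              exact h3 (k0 + k) (by omega) (by omega)) (by
              rw [e, e1]
              exact h4) V h2
          rw [e, e1] at h5
          exact h5
        · intro k h5 h6
          omega
      · refine ⟨k0, by omega, h1, h2, ?_⟩
        intro k h5 h6
        rcases Nat.lt_or_ge m k with h7 | h7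
        · have : k = m + 1 := by omega
          rw [this]
          exact h4
        · exact h3 k h5 h7
  obtain ⟨k0, hk0, -, h2, h3⟩ := key (i' + n - i)
  have e : (i + (i' + n - i)) % n = i' := by
    have : i + (i' + n - i) = i' + n := by omega
    rw [this, Nat.add_mod_right, Nat.mod_eq_of_lt hi']
  rcases Nat.lt_or_ge k0 (i' + n - i) with h4 | h4
  · exact absurd (by rw [e]; exact hinf') (h3 (i' + n - i) h4 le_rfl)
  · have : k0 = i' + n - i := le_antisymm hk0 h4
    rw [this, e] at h2
    exact h2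

end DE
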