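import Pool.Agent.Helper15.DE.Defs
import Pool.Agent.Helper15.DE.PhBasic
import Pool.Agent.Helper15.DE.PhMeas
import Pool.Agent.Helper15.DE.AvgL1

/-!
Module DE-X2 (constant conditional means give constant averages).
Fix `i`, `f ω = c (ω 0) i - a i` (bounded), `A n = (∑ x ∈ box d n, f (shift x ω)) / n^d`, and `g` from
`avg_l1`.  Convergence in mean: some subsequence `A (n k)` converges to `g` a.e.
(`TendstoInMeasure.exists_seq_tendsto_ae`).  Let `G ω = limsup_k A (n k) ω` (a bounded sequence): it is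
measurable, `G = g` a.e., and `G (shift v ω) = G ω` for ALL `ω`, because
`|A n (shift v ω) - A n ω| ≤ 2 C |box Δ (box + v)| / n^d → 0`.  For a measurable `B` with
`shift v ⁻¹' B = B` for all `v`: `∫_B A n = ∫_B f = 0` (invariance of `μ` and `B`, hypothesis), so
`∫_B g = 0`.  Apply it to `B = {G > 0}` and `B = {G < 0}`: `G = 0` a.e.  So `∫ |A n| → 0`, which is `DC`
(`(∑ x ∈ box d n, c (ω x) i) / n^d - a i = A n ω` for `n ≥ 1`, `|box d n| = n^d`).
`dc_mean`: `∫ (∑ x ∈ box d n, c (ω x) i) / n^d = mean c μ i` by invariance, so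
`|mean c μ i - a i| ≤ ∫ |...| → 0`.
`dc_pair`: triangle inequality; the laws of the components are `μ` and `ν` (for any measure `m` on pairs
with these marginals).
-/

open MeasureTheory Filter Topology

namespace Helper15.DE

variable {d : ℕ} {A : Type} [Finite A] [MeasurableSpace A] [MeasurableSingletonClass A]

/-- the averages over the cubes -/
private noncomputable def dciA (f : (V d → A) → ℝ) (n : ℕ) (ω : V d → A) : ℝ :=
  (∑ x ∈ box d n, f (shift x ω)) / (n : ℝ) ^ d

omit [Finite A] [MeasurableSpace A] [MeasurableSingletonClass A] in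
private theorem dci_card (n : ℕ) : (box d n).card = n ^ d := by
  unfold box
  rw [Fintype.card_piFinset]
  simp

omit [Finite A] [MeasurableSingletonClass A] in
private theorem dci_meas {f : (V d → A) → ℝ} (hf : Measurable f) (n : ℕ) :
    Measurable (dciA f n) := by
  unfold dciA
  refine Measurable.div_const ?_ _
  refine Finset.measurable_fun_sum _ fun x _ => ?_
  exact hf.comp (measurable_pi_lambda _ fun y => measurable_pi_apply (y + x))

omit [Finite A] [MeasurableSpace A] [MeasurableSingletonClass A] in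
private theorem dci_bdd {f : (V d → A) → ℝ} {C : ℝ} (hC : 0 ≤ C) (hb : ∀ ω, |f ω| ≤ C) (n : ℕ)
    (ω : V d → A) : |dciA f n ω| ≤ C := by
  unfold dciA
  rw [abs_div, abs_of_nonneg (by positivity : (0 : ℝ) ≤ (n : ℝ) ^ d)]
  refine div_le_of_le_mul₀ (by positivity) hC ?_
  calc |∑ x ∈ box d n, f (shift x ω)| ≤ ∑ x ∈ box d n, |f (shift x ω)| :=
        Finset.abs_sum_le_sum_abs _ _
    _ ≤ ∑ x ∈ box d n, C := Finset.sum_le_sum fun x _ => hb _
    _ = C * (n : ℝ) ^ d := by
        rw [Finset.sum_const, dci_card, nsmul_eq_mul]; push_cast; ring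

private theorem dci_int {μ : Measure (V d → A)} [IsProbabilityMeasure μ] {h : (V d → A) → ℝ}
    (hm : Measurable h) {C : ℝ} (hb : ∀ ω, |h ω| ≤ C) : Integrable h μ :=
  Integrable.of_bound hm.aestronglyMeasurable C (Eventually.of_forall fun ω => hb ω)

/-- invariance of the integral -/
private theorem dci_comp {μ : Measure (V d → A)} (hμ : ∀ v, μ.map (shift v) = μ)
    {h : (V d → A) → ℝ} (hm : Measurable h) (v : V d) :
    ∫ ω, h (shift v ω) ∂μ = ∫ ω, h ω ∂μ := by
  have h1 := integral_map (μ := μ) (φ := shift v) (measurable_shift v).aemeasurable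
    (f := h) hm.aestronglyMeasurable
  rw [hμ v] at h1
  exact h1.symm

/-- invariance of the integral over an invariant set -/
private theorem dci_compOn {μ : Measure (V d → A)} (hμ : ∀ v, μ.map (shift v) = μ)
    {h : (V d → A) → ℝ} (hm : Measurable h) {B : Set (V d → A)} (hB : MeasurableSet B)
    (hBi : ∀ v, shift v ⁻¹' B = B) (v : V d) :
    ∫ ω in B, h (shift v ω) ∂μ = ∫ ω in B, h ω ∂μ := by
  have h1 := setIntegral_map (μ := μ) (g := shift v) (f := h) hB hm.aestronglyMeasurable
    (measurable_shift v).aemeasurable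
  rw [hμ v, hBi v] at h1
  exact h1.symm

omit [Finite A] [MeasurableSpace A] [MeasurableSingletonClass A] in
/-- the averages over a translated cube are close -/
private theorem dci_diff {f : (V d → A) → ℝ} {C : ℝ} (hC : 0 ≤ C) (hb : ∀ ω, |f ω| ≤ C)
    (v : V d) (K : ℕ) (hK : ∀ i, |v i| ≤ K) (n : ℕ) (hn : 2 * K ≤ n) (hn0 : 0 < n)
    (ω : V d → A) :
    |dciA f n (shift v ω) - dciA f n ω| ≤ 2 * C * (1 - (((n : ℝ) - 2 * K) / n) ^ d) := by
  classical
  set I : Finset (V d) := Fintype.piFinset fun _ => Finset.Ico (K : ℤ) ((n : ℤ) - K) with hI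
  set T : Finset (V d) := (box d n).map (Equiv.addRight v).toEmbedding with hT
  set G : V d → ℝ := fun y => f (shift y ω) with hG
  have hIB : I ⊆ box d n := by
    intro y hy
    rw [hI, Fintype.mem_piFinset] at hy
    unfold box
    rw [Fintype.mem_piFinset]
    intro i
    have h1 := Finset.mem_Ico.1 (hy i)
    exact Finset.mem_Ico.2 ⟨by omega, by omega⟩
  have hIT : I ⊆ T := by
    intro y hy
    rw [hI, Fintype.mem_piFinset] at hy
    rw [hT, Finset.mem_map]
    refine ⟨y - v, ?_, ?_⟩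
    · unfold box
      rw [Fintype.mem_piFinset]
      intro i
      have h1 := Finset.mem_Ico.1 (hy i)
      have h2 := abs_le.1 (hK i)
      rw [Pi.sub_apply]
      exact Finset.mem_Ico.2 ⟨by omega, by omega⟩
    · simp
  have hIc : I.card = (n - 2 * K) ^ d := by
    rw [hI, Fintype.card_piFinset]
    simp only [Int.card_Ico, Finset.prod_const, Finset.card_univ, Fintype.card_fin]
    congr 1
    omega
  have hTc : T.card = n ^ d := by rw [hT, Finset.card_map, dci_card]
  have e1 : ∑ x ∈ box d n, f (shift x (shift v ω)) = ∑ y ∈ T, G y := by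
    rw [hT, Finset.sum_map]
    refine Finset.sum_congr rfl fun x _ => ?_
    simp only [hG, shift_shift, Equiv.coe_toEmbedding, Equiv.coe_addRight]
  have hGb : ∀ y, |G y| ≤ C := fun y => hb _
  have e2 : ∑ y ∈ T, G y = ∑ y ∈ T \ I, G y + ∑ y ∈ I, G y := (Finset.sum_sdiff hIT).symm
  have e3 : ∑ y ∈ box d n, G y = ∑ y ∈ box d n \ I, G y + ∑ y ∈ I, G y :=
    (Finset.sum_sdiff hIB).symm
  have b1 : |∑ y ∈ T \ I, G y| ≤ C * ((n : ℝ) ^ d - ((n : ℝ) - 2 * K) ^ d) := by
    calc |∑ y ∈ T \ I, G y| ≤ ∑ y ∈ T \ I, |G y| := Finset.abs_sum_le_sum_abs _ _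
      _ ≤ ∑ y ∈ T \ I, C := Finset.sum_le_sum fun y _ => hGb y
      _ = C * ((n : ℝ) ^ d - ((n : ℝ) - 2 * K) ^ d) := by
          rw [Finset.sum_const, Finset.card_sdiff_of_subset hIT, hTc, hIc, nsmul_eq_mul,
            Nat.cast_sub (Nat.pow_le_pow_left (Nat.sub_le _ _) _), Nat.cast_pow, Nat.cast_pow,
            Nat.cast_sub hn]
          push_cast
          ring
  have b2 : |∑ y ∈ box d n \ I, G y| ≤ C * ((n : ℝ) ^ d - ((n : ℝ) - 2 * K) ^ d) := by
    calc |∑ y ∈ box d n \ I, G y| ≤ ∑ y ∈ box d n \ I, |G y| := Finset.abs_sum_le_sum_abs _ _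
      _ ≤ ∑ y ∈ box d n \ I, C := Finset.sum_le_sum fun y _ => hGb y
      _ = C * ((n : ℝ) ^ d - ((n : ℝ) - 2 * K) ^ d) := by
          rw [Finset.sum_const, Finset.card_sdiff_of_subset hIB, dci_card, hIc, nsmul_eq_mul,
            Nat.cast_sub (Nat.pow_le_pow_left (Nat.sub_le _ _) _), Nat.cast_pow, Nat.cast_pow,
            Nat.cast_sub hn]
          push_cast
          ring
  have hn' : (0 : ℝ) < n := by exact_mod_cast hn0
  have hnd : (0 : ℝ) < (n : ℝ) ^ d := by positivity
  have e4 : dciA f n (shift v ω) - dciA f n ω =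
      (∑ y ∈ T \ I, G y - ∑ y ∈ box d n \ I, G y) / (n : ℝ) ^ d := by
    unfold dciA
    rw [e1, e2, ← sub_div]
    have e5 : ∑ x ∈ box d n, f (shift x ω) = ∑ y ∈ box d n, G y := rfl
    rw [e5, e3]
    congr 1
    ring
  rw [e4, abs_div, abs_of_pos hnd, div_le_iff₀ hnd]
  have e6 : 2 * C * (1 - (((n : ℝ) - 2 * K) / n) ^ d) * (n : ℝ) ^ d =
      2 * C * ((n : ℝ) ^ d - ((n : ℝ) - 2 * K) ^ d) := by
    rw [div_pow]
    field_simp
  rw [e6]
  have h7 := abs_sub (∑ y ∈ T \ I, G y) (∑ y ∈ box d n \ I, G y)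
  linarith

/-- the limit of the averages is invariant -/
private theorem dci_inv {μ : Measure (V d → A)} [IsProbabilityMeasure μ]
    (hμ : ∀ v, μ.map (shift v) = μ) {f g : (V d → A) → ℝ} (hf : Measurable f)
    (hg : Measurable g) {C : ℝ} (hC : 0 ≤ C) (hfb : ∀ ω, |f ω| ≤ C) (hgb : ∀ ω, |g ω| ≤ C)
    (hlim : Tendsto (fun n : ℕ => ∫ ω, |dciA f n ω - g ω| ∂μ) atTop (𝓝 0)) (v : V d) :
    ∀ᵐ ω ∂μ, g (shift v ω) = g ω := by
  obtain ⟨K, hK⟩ : ∃ K : ℕ, ∀ i, |v i| ≤ K := by
    refine ⟨∑ i, (v i).natAbs, fun i => ?_⟩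
    rw [Int.abs_eq_natAbs]
    exact_mod_cast Finset.single_le_sum (f := fun i => (v i).natAbs)
      (fun _ _ => Nat.zero_le _) (Finset.mem_univ i)
  have hAm := fun n => dci_meas (d := d) hf n
  have hgs : Measurable fun ω => g (shift v ω) := hg.comp (measurable_shift v)
  have hAs : ∀ n, Measurable fun ω => dciA f n (shift v ω) := fun n =>
    (hAm n).comp (measurable_shift v)
  have hbd : ∀ n : ℕ, 2 * K ≤ n → 0 < n → ∫ ω, |g (shift v ω) - g ω| ∂μ ≤
      2 * ∫ ω, |dciA f n ω - g ω| ∂μ + 2 * C * (1 - (((n : ℝ) - 2 * K) / n) ^ d) := by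
    intro n hn hn0
    have i1 : Integrable (fun ω => |dciA f n ω - g ω|) μ :=
      dci_int ((hAm n).sub hg).abs (C := 2 * C) fun ω => by
        rw [abs_abs]
        have := abs_sub (dciA f n ω) (g ω)
        have := dci_bdd hC hfb n ω
        have := hgb ω
        linarith
    have i2 : Integrable (fun ω => |dciA f n (shift v ω) - g (shift v ω)|) μ :=
      dci_int ((hAs n).sub hgs).abs (C := 2 * C) fun ω => by
        rw [abs_abs]
        have := abs_sub (dciA f n (shift v ω)) (g (shift v ω))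
        have := dci_bdd hC hfb n (shift v ω)
        have := hgb (shift v ω)
        linarith
    have i3 : Integrable (fun ω => |g (shift v ω) - g ω|) μ :=
      dci_int (hgs.sub hg).abs (C := 2 * C) fun ω => by
        rw [abs_abs]
        have := abs_sub (g (shift v ω)) (g ω)
        have := hgb (shift v ω)
        have := hgb ω
        linarith
    have e1 : ∫ ω, |dciA f n (shift v ω) - g (shift v ω)| ∂μ = ∫ ω, |dciA f n ω - g ω| ∂μ :=
      dci_comp hμ (h := fun ω => |dciA f n ω - g ω|) ((hAm n).sub hg).abs v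
    have e2 : ∫ ω, |g (shift v ω) - g ω| ∂μ ≤
        ∫ ω, (|dciA f n (shift v ω) - g (shift v ω)| + |dciA f n ω - g ω| +
          2 * C * (1 - (((n : ℝ) - 2 * K) / n) ^ d)) ∂μ := by
      refine integral_mono i3 ((i2.add i1).add (integrable_const _)) fun ω => ?_
      have h1 := dci_diff hC hfb v K hK n hn hn0 ω
      have h2 : g (shift v ω) - g ω = -(dciA f n (shift v ω) - g (shift v ω)) +
          (dciA f n ω - g ω) + (dciA f n (shift v ω) - dciA f n ω) := by ring
      show |g (shift v ω) - g ω| ≤ |dciA f n (shift v ω) - g (shift v ω)| +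
          |dciA f n ω - g ω| + 2 * C * (1 - (((n : ℝ) - 2 * K) / n) ^ d)
      rw [h2]
      refine (abs_add_three _ _ _).trans ?_
      rw [abs_neg]
      linarith
    have e3 : ∫ ω, (|dciA f n (shift v ω) - g (shift v ω)| + |dciA f n ω - g ω| +
          2 * C * (1 - (((n : ℝ) - 2 * K) / n) ^ d)) ∂μ =
        ∫ ω, (|dciA f n (shift v ω) - g (shift v ω)| + |dciA f n ω - g ω|) ∂μ +
          ∫ _ω : V d → A, 2 * C * (1 - (((n : ℝ) - 2 * K) / n) ^ d) ∂μ :=
      integral_add (i2.add i1) (integrable_const _)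
    rw [e3, integral_add i2 i1, e1, integral_const, probReal_univ, one_smul] at e2
    linarith
  have hlim2 : Tendsto (fun n : ℕ => 2 * ∫ ω, |dciA f n ω - g ω| ∂μ +
      2 * C * (1 - (((n : ℝ) - 2 * K) / n) ^ d)) atTop (𝓝 0) := by
    have h1 : Tendsto (fun n : ℕ => ((n : ℝ) - 2 * K) / n) atTop (𝓝 1) := by
      have h2 : Tendsto (fun n : ℕ => 1 - (2 * K : ℝ) / (n : ℝ)) atTop (𝓝 (1 - 0)) :=
        (tendsto_const_nhds).sub (tendsto_const_div_atTop_nhds_zero_nat _)
      rw [sub_zero] at h2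
      refine h2.congr' ?_
      filter_upwards [eventually_gt_atTop 0] with n hn
      have hn' : (0 : ℝ) < n := by exact_mod_cast hn
      field_simp
    have h3 := (hlim.const_mul 2).add (((h1.pow d).const_sub 1).const_mul (2 * C))
    simpa using h3
  have h0 : ∫ ω, |g (shift v ω) - g ω| ∂μ ≤ 0 := by
    refine ge_of_tendsto hlim2 ?_
    filter_upwards [eventually_ge_atTop (2 * K), eventually_gt_atTop 0] with n hn hn0
    exact hbd n hn hn0
  have h00 : ∫ ω, |g (shift v ω) - g ω| ∂μ = 0 :=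
    le_antisymm h0 (integral_nonneg fun ω => abs_nonneg _)
  have i3 : Integrable (fun ω => |g (shift v ω) - g ω|) μ :=
    dci_int (hgs.sub hg).abs (C := 2 * C) fun ω => by
      rw [abs_abs]
      have := abs_sub (g (shift v ω)) (g ω)
      have := hgb (shift v ω)
      have := hgb ω
      linarith
  have h5 := (integral_eq_zero_iff_of_nonneg (fun ω => abs_nonneg _) i3).1 h00
  filter_upwards [h5] with ω hω
  have h6 : |g (shift v ω) - g ω| = 0 := hω
  exact sub_eq_zero.1 (abs_eq_zero.1 h6)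

/-- one sided bound for the limit -/
private theorem dci_nonpos {μ : Measure (V d → A)} [IsProbabilityMeasure μ]
    (hμ : ∀ v, μ.map (shift v) = μ) {f g : (V d → A) → ℝ} (hf : Measurable f)
    (hg : Measurable g) {C : ℝ} (hC : 0 ≤ C) (hfb : ∀ ω, |f ω| ≤ C) (hgb : ∀ ω, |g ω| ≤ C)
    (hlim : Tendsto (fun n : ℕ => ∫ ω, |dciA f n ω - g ω| ∂μ) atTop (𝓝 0))
    (h : ∀ B : Set (V d → A), MeasurableSet B → (∀ v, shift v ⁻¹' B = B) →
      ∫ ω in B, f ω ∂μ = 0) : ∀ᵐ ω ∂μ, g ω ≤ 0 := by
  have hAm := fun n => dci_meas (d := d) hf n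
  set B : Set (V d → A) := {ω | ∀ v, 0 < g (shift v ω)} with hBdef
  have hBm : MeasurableSet B := by
    have : B = ⋂ v, {ω | 0 < g (shift v ω)} := by
      ext ω; simp [hBdef]
    rw [this]
    exact MeasurableSet.iInter fun v =>
      measurableSet_lt measurable_const (hg.comp (measurable_shift v))
  have hBi : ∀ u, shift u ⁻¹' B = B := by
    intro u
    ext ω
    constructor
    · intro hω v
      have h1 : 0 < g (shift (v - u) (shift u ω)) := hω (v - u)
      rwa [shift_shift, sub_add_cancel] at h1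
    · intro hω v
      have h1 : 0 < g (shift (v + u) ω) := hω (v + u)
      show 0 < g (shift v (shift u ω))
      rwa [shift_shift]
  have hf0 := h B hBm hBi
  have hA0 : ∀ n, ∫ ω in B, dciA f n ω ∂μ = 0 := by
    intro n
    unfold dciA
    rw [integral_div, integral_finset_sum]
    · have : ∀ x ∈ box d n, ∫ ω in B, f (shift x ω) ∂μ = 0 := fun x _ => by
        rw [dci_compOn hμ hf hBm hBi x]; exact hf0
      rw [Finset.sum_eq_zero this, zero_div]
    · intro x _
      exact (dci_int (hf.comp (measurable_shift x)) fun ω => hfb _).integrableOn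
  have hgi : Integrable g μ := dci_int hg hgb
  have hAi : ∀ n, Integrable (dciA f n) μ := fun n => dci_int (hAm n) (dci_bdd hC hfb n)
  have hi1 : ∀ n, Integrable (fun ω => |dciA f n ω - g ω|) μ := fun n =>
    ((hAi n).sub hgi).abs
  have hle : ∀ n, |∫ ω in B, g ω ∂μ| ≤ ∫ ω, |dciA f n ω - g ω| ∂μ := by
    intro n
    have e1 : ∫ ω in B, g ω ∂μ = -∫ ω in B, (dciA f n ω - g ω) ∂μ := by
      rw [integral_sub (hAi n).integrableOn hgi.integrableOn, hA0 n]; ring
    rw [e1, abs_neg]
    refine (abs_integral_le_integral_abs).trans ?_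
    exact setIntegral_le_integral (hi1 n) (Eventually.of_forall fun ω => abs_nonneg _)
  have h0 : |∫ ω in B, g ω ∂μ| ≤ 0 := ge_of_tendsto' hlim hle
  have h00 : ∫ ω in B, g ω ∂μ = 0 := abs_eq_zero.1 (le_antisymm h0 (abs_nonneg _))
  have hpos : ∀ ω ∈ B, 0 < g ω := by
    intro ω hω
    have := hω 0
    rwa [shift_zero] at this
  have hnn : 0 ≤ᵐ[μ.restrict B] g := by
    rw [Filter.EventuallyLE, ae_restrict_iff' hBm]
    exact Eventually.of_forall fun ω hω => (hpos ω hω).le
  have h1 := (integral_eq_zero_iff_of_nonneg_ae hnn hgi.integrableOn).1 h00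
  rw [Filter.EventuallyEq, ae_restrict_iff' hBm] at h1
  have h2 : ∀ᵐ ω ∂μ, ∀ v, g (shift v ω) = g ω :=
    ae_all_iff.2 fun v => dci_inv hμ hf hg hC hfb hgb hlim v
  filter_upwards [h1, h2] with ω hω1 hω2
  by_contra hcon
  push Not at hcon
  have hωB : ω ∈ B := fun v => by rw [hω2 v]; exact hcon
  have h3 : g ω = 0 := hω1 hωB
  linarith

theorem dc_of_inv_sets {k : ℕ} (c : A → Fin k → ℝ) {μ : Measure (V d → A)}
    [IsProbabilityMeasure μ] (hμ : ∀ v, μ.map (shift v) = μ) (a : Fin k → ℝ)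
    (h : ∀ B : Set (V d → A), MeasurableSet B → (∀ v, shift v ⁻¹' B = B) →
      ∀ i, ∫ ω in B, c (ω 0) i ∂μ = μ.real B * a i) : DC c μ a := by
  intro i
  have hcm : Measurable fun x : A => c x i - a i := measurable_of_countable _
  have hc0 : Measurable fun ω : V d → A => c (ω 0) i :=
    (measurable_of_countable fun x : A => c x i).comp (measurable_pi_apply 0)
  set f : (V d → A) → ℝ := fun ω => c (ω 0) i - a i with hfdef
  have hf : Measurable f := hcm.comp (measurable_pi_apply 0)
  obtain ⟨C, hCb⟩ : ∃ C : ℝ, ∀ x : A, |c x i - a i| ≤ C := by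
    obtain ⟨C, hC⟩ := (Set.finite_range fun x : A => |c x i - a i|).bddAbove
    exact ⟨C, fun x => hC ⟨x, rfl⟩⟩
  obtain ⟨C', hCb'⟩ : ∃ C : ℝ, ∀ x : A, |c x i| ≤ C := by
    obtain ⟨C, hC⟩ := (Set.finite_range fun x : A => |c x i|).bddAbove
    exact ⟨C, fun x => hC ⟨x, rfl⟩⟩
  have hfb : ∀ ω, |f ω| ≤ max C 0 := fun ω => (hCb _).trans (le_max_left _ _)
  obtain ⟨g, hg, hgb, hlim⟩ := avg_l1 hμ hf hfb
  have hlim' : Tendsto (fun n : ℕ => ∫ ω, |dciA f n ω - g ω| ∂μ) atTop (𝓝 0) := hlim
  have hinv : ∀ B : Set (V d → A), MeasurableSet B → (∀ v, shift v ⁻¹' B = B) →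
      ∫ ω in B, f ω ∂μ = 0 := by
    intro B hB hBi
    have h1 := h B hB hBi i
    have hci : Integrable (fun ω : V d → A => c (ω 0) i) μ := dci_int hc0 fun ω => hCb' _
    rw [hfdef, integral_sub hci.integrableOn (integrable_const _), h1, setIntegral_const,
      smul_eq_mul]
    ring
  have hle : ∀ᵐ ω ∂μ, g ω ≤ 0 :=
    dci_nonpos hμ hf hg (le_max_right _ _) hfb hgb hlim' hinv
  have hge : ∀ᵐ ω ∂μ, -g ω ≤ 0 := by
    refine dci_nonpos hμ (f := fun ω => -f ω) (g := fun ω => -g ω) hf.neg hg.neg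
      (le_max_right C 0) (fun ω => by rw [abs_neg]; exact hfb ω)
      (fun ω => by rw [abs_neg]; exact hgb ω) ?_ ?_
    · refine hlim'.congr fun n => ?_
      refine integral_congr_ae (Eventually.of_forall fun ω => ?_)
      have e1 : dciA (fun ω => -f ω) n ω = -dciA f n ω := by
        unfold dciA
        rw [Finset.sum_neg_distrib, neg_div]
      show |dciA f n ω - g ω| = |dciA (fun ω => -f ω) n ω - -g ω|
      rw [e1, ← abs_neg]
      congr 1
      ring
    · intro B hB hBi
      rw [integral_neg, hinv B hB hBi, neg_zero]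
  have hg0 : ∀ᵐ ω ∂μ, g ω = 0 := by
    filter_upwards [hle, hge] with ω h1 h2
    linarith
  refine hlim'.congr' ?_
  filter_upwards [eventually_gt_atTop 0] with n hn
  refine integral_congr_ae ?_
  filter_upwards [hg0] with ω hω
  rw [hω, sub_zero]
  congr 1
  unfold dciA
  have hn' : (0 : ℝ) < (n : ℝ) ^ d := by positivity
  have e1 : ∑ x ∈ box d n, f (shift x ω) = ∑ x ∈ box d n, c (ω x) i - (n : ℝ) ^ d * a i := by
    have e2 : ∀ x ∈ box d n, f (shift x ω) = c (ω x) i - a i := fun x _ => by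
      simp only [hfdef, shift, zero_add]
    rw [Finset.sum_congr rfl e2, Finset.sum_sub_distrib, Finset.sum_const, dci_card,
      nsmul_eq_mul]
    push_cast
    ring
  rw [e1, sub_div]
  congr 1
  field_simp

theorem dc_mean {k : ℕ} (c : A → Fin k → ℝ) {μ : Measure (V d → A)} [IsProbabilityMeasure μ]
    (hμ : ∀ v, μ.map (shift v) = μ) (a : Fin k → ℝ) (h : DC c μ a) : mean c μ = a := by
  funext i
  obtain ⟨C', hCb'⟩ : ∃ C : ℝ, ∀ x : A, |c x i| ≤ C := by
    obtain ⟨C, hC⟩ := (Set.finite_range fun x : A => |c x i|).bddAbove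
    exact ⟨C, fun x => hC ⟨x, rfl⟩⟩
  have hcm : ∀ x : V d, Measurable fun ω : V d → A => c (ω x) i := fun x =>
    (measurable_of_countable fun y : A => c y i).comp (measurable_pi_apply x)
  have hci : ∀ x : V d, Integrable (fun ω : V d → A => c (ω x) i) μ := fun x =>
    dci_int (hcm x) fun ω => hCb' _
  have hx : ∀ x : V d, ∫ ω, c (ω x) i ∂μ = mean c μ i := by
    intro x
    have h1 := dci_comp hμ (h := fun ω : V d → A => c (ω 0) i) (hcm 0) x
    simp only [shift, zero_add] at h1
    exact h1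
  have hn : ∀ n : ℕ, 0 < n → |mean c μ i - a i| ≤
      ∫ ω, |(∑ x ∈ box d n, c (ω x) i) / (n : ℝ) ^ d - a i| ∂μ := by
    intro n hn
    have hn' : (0 : ℝ) < (n : ℝ) ^ d := by positivity
    have hsi : Integrable (fun ω : V d → A => (∑ x ∈ box d n, c (ω x) i) / (n : ℝ) ^ d) μ :=
      (integrable_finset_sum _ fun x _ => hci x).div_const _
    have e1 : ∫ ω, ((∑ x ∈ box d n, c (ω x) i) / (n : ℝ) ^ d - a i) ∂μ = mean c μ i - a i := by
      rw [integral_sub hsi (integrable_const _), integral_div, integral_finset_sum _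
        (fun x _ => hci x), integral_const, probReal_univ, one_smul]
      rw [Finset.sum_congr rfl fun x _ => hx x, Finset.sum_const, dci_card, nsmul_eq_mul]
      push_cast
      field_simp
    rw [← e1]
    exact abs_integral_le_integral_abs
  have h0 : |mean c μ i - a i| ≤ 0 := by
    refine ge_of_tendsto (h i) ?_
    filter_upwards [eventually_gt_atTop 0] with n hn'
    exact hn n hn'
  exact sub_eq_zero.1 (abs_eq_zero.1 (le_antisymm h0 (abs_nonneg _)))

theorem dc_pair (st : A → V d) {m : Measure (V d → A × A)} [IsProbabilityMeasure m]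
    (a b : Fin d → ℝ) (h1 : DC (chg st) (m.map c1) a) (h2 : DC (chg st) (m.map c2) b) :
    DC (chg2 st) m (fun i => a i + b i) := by
  intro i
  have mc1 : Measurable (c1 : (V d → A × A) → V d → A) :=
    measurable_pi_lambda _ fun x => measurable_fst.comp (measurable_pi_apply x)
  have mc2 : Measurable (c2 : (V d → A × A) → V d → A) :=
    measurable_pi_lambda _ fun x => measurable_snd.comp (measurable_pi_apply x)
  obtain ⟨C, hCb⟩ : ∃ C : ℝ, ∀ x : A, |chg st x i| ≤ C := by
    obtain ⟨C, hC⟩ := (Set.finite_range fun x : A => |chg st x i|).bddAbove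
    exact ⟨C, fun x => hC ⟨x, rfl⟩⟩
  have hcm : ∀ x : V d, Measurable fun ω : V d → A => chg st (ω x) i := fun x =>
    (measurable_of_countable fun y : A => chg st y i).comp (measurable_pi_apply x)
  have hF : ∀ (n : ℕ) (r : ℝ), Measurable fun ω : V d → A =>
      |(∑ x ∈ box d n, chg st (ω x) i) / (n : ℝ) ^ d - r| := fun n r =>
    (((Finset.measurable_fun_sum _ fun x _ => hcm x).div_const _).sub_const _).abs
  have hi : ∀ (n : ℕ) (r : ℝ) (π : (V d → A × A) → V d → A), Measurable π →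
      Integrable (fun ω => |(∑ x ∈ box d n, chg st (π ω x) i) / (n : ℝ) ^ d - r|) m := by
    intro n r π hπ
    refine ((Integrable.div_const (integrable_finset_sum _ fun x _ => ?_) _).sub
      (integrable_const _)).abs
    exact Integrable.of_bound ((hcm x).comp hπ).aestronglyMeasurable C
      (Eventually.of_forall fun ω => hCb _)
  have hadd := (h1 i).add (h2 i)
  rw [add_zero] at hadd
  refine squeeze_zero (fun n => integral_nonneg fun ω => abs_nonneg _) (fun n => ?_) hadd
  rw [integral_map mc1.aemeasurable (hF n (a i)).aestronglyMeasurable,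
    integral_map mc2.aemeasurable (hF n (b i)).aestronglyMeasurable,
    ← integral_add (hi n (a i) c1 mc1) (hi n (b i) c2 mc2)]
  refine integral_mono_of_nonneg (Eventually.of_forall fun ω => abs_nonneg _)
    ((hi n (a i) c1 mc1).add (hi n (b i) c2 mc2)) (Eventually.of_forall fun ω => ?_)
  show |(∑ x ∈ box d n, chg2 st (ω x) i) / (n : ℝ) ^ d - (a i + b i)| ≤
    |(∑ x ∈ box d n, chg st (c1 ω x) i) / (n : ℝ) ^ d - a i| +
      |(∑ x ∈ box d n, chg st (c2 ω x) i) / (n : ℝ) ^ d - b i|
  have e1 : (∑ x ∈ box d n, chg2 st (ω x) i) / (n : ℝ) ^ d - (a i + b i) =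
      ((∑ x ∈ box d n, chg st (c1 ω x) i) / (n : ℝ) ^ d - a i) +
        ((∑ x ∈ box d n, chg st (c2 ω x) i) / (n : ℝ) ^ d - b i) := by
    have e2 : ∑ x ∈ box d n, chg2 st (ω x) i =
        ∑ x ∈ box d n, chg st (c1 ω x) i + ∑ x ∈ box d n, chg st (c2 ω x) i := by
      rw [← Finset.sum_add_distrib]
      rfl
    rw [e2, add_div]
    ring
  rw [e1]
  exact abs_add_le _ _

end Helper15.DE
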