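import Mathlib

/-!
Project DE (MP_835ab5_pr): common definitions.

`V d` is the lattice `ℤ^d`, `A` a finite alphabet, `st : A → V d` the step of a letter.
A configuration is a map `ω : V d → A`; it is admissible (`Cfg st`) when `x ↦ x + st (ω x)` is a
bijection.  All measures live on the full shift `V d → A` (or `V d → A × A` for pairs).
-/

open MeasureTheory Filter Topology

namespace Helper15.DE

/-- the lattice `ℤ^d` -/
abbrev V (d : ℕ) := Fin d → ℤ

section conf

variable {d : ℕ} {A : Type}

/-- the shift of a configuration: `(shift v ω) x = ω (x + v)` -/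
def shift (v : V d) (ω : V d → A) : V d → A := fun x => ω (x + v)

/-- the map `x ↦ x + st (ω x)` of a configuration -/
def mv (st : A → V d) (ω : V d → A) (x : V d) : V d := x + st (ω x)

/-- configurations whose map is a bijection of the lattice -/
def Cfg (st : A → V d) : Set (V d → A) := {ω | Function.Bijective (mv st ω)}

/-- first component of a pair configuration -/
def c1 (ω : V d → A × A) : V d → A := fun x => (ω x).1

/-- second component of a pair configuration -/
def c2 (ω : V d → A × A) : V d → A := fun x => (ω x).2

/-- pairs of admissible configurations, as configurations over `A × A` -/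
def Cfg2 (st : A → V d) : Set (V d → A × A) := {ω | c1 ω ∈ Cfg st ∧ c2 ω ∈ Cfg st}

/-- the cube `[0,n)^d` -/
noncomputable def box (d n : ℕ) : Finset (V d) := Fintype.piFinset fun _ => Finset.Ico (0 : ℤ) n

/-- the cube with centre `z` and radius `r` (side `2 r + 1`) -/
noncomputable def cb (z : V d) (r : ℤ) : Finset (V d) := Fintype.piFinset fun i => Finset.Icc (z i - r) (z i + r)

/-- the differences of the steps generate the lattice -/
def Gen (st : A → V d) : Prop := AddSubgroup.closure {v | ∃ a b, v = st a - st b} = ⊤

/-- the step vector as a real vector -/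
def chg (st : A → V d) (a : A) : Fin d → ℝ := fun i => (st a i : ℝ)

/-- the sum of the two step vectors of a pair, as a real vector -/
def chg2 (st : A → V d) (a : A × A) : Fin d → ℝ := fun i => (st a.1 i : ℝ) + (st a.2 i : ℝ)

/-- real points with positive weights on all steps -/
def IntPt [Fintype A] (st : A → V d) (s : Fin d → ℝ) : Prop :=
  ∃ p : A → ℝ, (∀ a, 0 < p a) ∧ ∑ a, p a = 1 ∧ ∀ i, ∑ a, p a * (st a i : ℝ) = s i

end conf

section ent

variable {d : ℕ} {A : Type} [MeasurableSpace A]

/-- shift invariant probability measures carried by the set `C` -/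
structure Inv (C : Set (V d → A)) (μ : Measure (V d → A)) : Prop where
  prob : IsProbabilityMeasure μ
  map : ∀ v, μ.map (shift v) = μ
  supp : ∀ᵐ ω ∂μ, ω ∈ C

/-- mean of the charge `c` at the origin -/
noncomputable def mean {k : ℕ} (c : A → Fin k → ℝ) (μ : Measure (V d → A)) : Fin k → ℝ :=
  fun i => ∫ ω, c (ω 0) i ∂μ

/-- the averages of the charge over the cubes `[0,n)^d` converge to `s` in mean -/
def DC {k : ℕ} (c : A → Fin k → ℝ) (μ : Measure (V d → A)) (s : Fin k → ℝ) : Prop :=
  ∀ i, Tendsto (fun n : ℕ => ∫ ω, |(∑ x ∈ box d n, c (ω x) i) / (n : ℝ) ^ d - s i| ∂μ) atTop (𝓝 0)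

variable [Fintype A]

/-- Shannon entropy (in nats) of the pattern on the finite set `F` -/
noncomputable def HF (μ : Measure (V d → A)) (F : Finset (V d)) : ℝ :=
  ∑ a : (F → A), Real.negMulLog (μ.real {ω | ∀ x : F, ω x = a x})

/-- specific entropy -/
noncomputable def hent (μ : Measure (V d → A)) : ℝ :=
  ⨅ n : ℕ, HF μ (box d (n + 1)) / ((n : ℝ) + 1) ^ d

/-- maximal specific entropy of invariant measures on `Cfg st` with mean step `s` -/
noncomputable def Emax (st : A → V d) (s : Fin d → ℝ) : ℝ :=
  sSup {h | ∃ μ, Inv (Cfg st) μ ∧ mean (chg st) μ = s ∧ hent μ = h}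

end ent

section perm

variable {d : ℕ} {A : Type}

open Classical in
/-- the relative permutation `f2⁻¹ ∘ f1` of a pair of configurations (identity off `Cfg2`) -/
noncomputable def ph (st : A → V d) (ω : V d → A × A) : Equiv.Perm (V d) :=
  if h : ω ∈ Cfg2 st then
    (Equiv.ofBijective (mv st (c1 ω)) h.1).trans (Equiv.ofBijective (mv st (c2 ω)) h.2).symm
  else Equiv.refl _

/-- the orbit of `x` under `φ` has velocity `w` forwards and `w` backwards -/
def HasVel (φ : Equiv.Perm (V d)) (x : V d) (w : Fin d → ℝ) : Prop :=
  Tendsto (fun k : ℕ => fun i => (((φ ^ k) x i : ℤ) : ℝ) / k) atTop (𝓝 w) ∧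
  Tendsto (fun k : ℕ => fun i => (((φ⁻¹ ^ k) x i : ℤ) : ℝ) / k) atTop (𝓝 (-w))

/-- every orbit has a two-sided velocity -/
def GoodPerm (φ : Equiv.Perm (V d)) : Prop := ∀ x, ∃ w, HasVel φ x w

/-- the orbit of `x` is infinite -/
def InfOrb (φ : Equiv.Perm (V d)) (x : V d) : Prop := ∀ k : ℕ, 0 < k → (φ ^ k) x ≠ x

/-- an injective enumeration of the lattice -/
noncomputable def enumV : V d → ℕ := Classical.choose (exists_injective_nat (V d))

theorem enumV_injective : Function.Injective (enumV : V d → ℕ) :=
  Classical.choose_spec (exists_injective_nat (V d))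

/-- the first point (in the enumeration) of the orbit of `x` -/
noncomputable def rep (φ : Equiv.Perm (V d)) (x : V d) : V d :=
  Function.argminOn enumV {y | φ.SameCycle x y} ⟨x, Equiv.Perm.SameCycle.refl φ x⟩

open Classical in
/-- swap the two components along every infinite orbit whose coin shows `true` -/
noncomputable def flips (st : A → V d) (ω : V d → A × A) (κ : V d → Bool) : V d → A × A :=
  fun x => if InfOrb (ph st ω) x ∧ κ (rep (ph st ω) x) = true then (ω x).swap else ω x

open Classical in
/-- reverse the orbit of `x` if it is infinite -/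
noncomputable def rev (st : A → V d) (x : V d) (ω : V d → A × A) : V d → A × A :=
  fun y => if InfOrb (ph st ω) x ∧ (ph st ω).SameCycle x y then (ω y).swap else ω y

/-- the fair coin -/
noncomputable def coin : Measure Bool := (PMF.uniformOfFintype Bool).toMeasure

/-- independent fair coins on the lattice -/
noncomputable def coins (d : ℕ) : Measure (V d → Bool) := Measure.infinitePi fun _ : V d => coin

/-- the law of the pair after swapping all infinite orbits with independent fair coins -/
noncomputable def swLaw [MeasurableSpace A] (st : A → V d) (m : Measure (V d → A × A)) :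
    Measure (V d → A × A) :=
  (m.prod (coins d)).map fun p => flips st p.1 p.2

end perm

section local_swaps

variable {d : ℕ} {A : Type}

open Classical in
/-- exchange the patterns `a` and `b` on the window `F` -/
noncomputable def pswap (F : Finset (V d)) (a b : V d → A) (ω : V d → A) : V d → A :=
  if ∀ x ∈ F, ω x = a x then fun x => if x ∈ F then b x else ω x
  else if ∀ x ∈ F, ω x = b x then fun x => if x ∈ F then a x else ω x
  else ω

end local_swaps

end Helper15.DE
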