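import Pool.Agent.Helper15.DE.Cl
import Pool.Agent.Helper10.DE.Geo.StubsCC

/-!
Module DE-IX1 (orientation of a simple cycle of components).  Stubs used: CC1 (`swap_exists`,
`swap_F`, `swap_pow`, `swap_SC`, `swap_inf`, `swap_odd`, `swap_isD`).
For `i < n` write `f.1⁻¹ (y i) = (F f ^ t i) (x i)` with `t i : ℤ` (`Cyc.out`).
Let `I` be the set of the `i < n` with `IsInf f (x i)` and `t i < 0` and let `A` be the union of the
components of the `x i`, `i ∈ I`; it is `F f`-invariant; `g` = the swap of `f` on `A` (`swap_exists`).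
`g ∈ C`: reverse the components one after the other (induction on a finite set of pairwise different
infinite components, each step is `Cl.rev`: the pair obtained after some reversals has the same
components by `swap_SC`, `swap_inf`, and the swap on one more component of it is the swap of `f` on
the bigger union).
The exponents `j i`: (a) `i ∈ I`: on the component `F g = (F f)⁻¹`, `g.1 = f.2`, and
`y i = f.1 ((F f ^ t) (x i)) = f.2 ((F f ^ (t + 1)) (x i)) = g.1 ((F g ^ (-(t + 1))) (x i))`; take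
`j i = -(t + 1) ≥ 0`; (b) `IsInf f (x i)` and `t i ≥ 0`: `g` agrees with `f` on the component,
`j i = t i`; (c) finite component: take `j i` = the least `k : ℕ` with
`(F f ^ k) (x i) = f.1⁻¹ (y i)` (it exists because the orbit is finite); minimality gives `simple`
(if `(F f ^ k) (x i) = x i` with `0 < k ≤ j i` then `j i - k` would be smaller).  In the infinite
cases `simple` is `IsInf`.  `ne` and `edge` are inherited.
-/

open Filter Topology

namespace DE

variable {d : ℕ}

private theorem or_app_inv (e : Equiv.Perm (Site d)) (a : Site d) : e (e⁻¹ a) = a :=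
  e.apply_symm_apply a

private theorem or_inv (f : Pr d) (x : ℕ → Site d) (I : Finset ℕ) (a : Site d) :
    F f a ∈ {a | ∃ i ∈ I, SC f (x i) a} ↔ a ∈ {a | ∃ i ∈ I, SC f (x i) a} := by
  simp only [Set.mem_ofPred_eq, SC, Equiv.Perm.sameCycle_apply_right]

private theorem or_inv_zpow (f : Pr d) (x : ℕ → Site d) (I : Finset ℕ) (a : Site d) (k : ℤ) :
    (F f ^ k) a ∈ {a | ∃ i ∈ I, SC f (x i) a} ↔ a ∈ {a | ∃ i ∈ I, SC f (x i) a} := by
  simp only [Set.mem_ofPred_eq, SC, Equiv.Perm.sameCycle_zpow_right]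

/-- the components of the `x i`, `i ∈ I`, are reversed one after the other -/
private theorem or_swap (D : Finset (Site d)) (C : Set (Pr d)) (hC : Cl D C) (f : Pr d)
    (hf : f ∈ C) (x : ℕ → Site d) (I : Finset ℕ) (hI : ∀ i ∈ I, IsInf f (x i))
    (hne : ∀ i ∈ I, ∀ i' ∈ I, i ≠ i' → ¬ SC f (x i) (x i')) :
    ∃ g ∈ C, IsSwap f g {a | ∃ i ∈ I, SC f (x i) a} := by
  classical
  induction I using Finset.induction_on with
  | empty =>
    refine ⟨f, hf, ?_, fun a _ => ⟨rfl, rfl⟩⟩
    rintro a ⟨i, hi, -⟩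
    exact absurd hi (Finset.notMem_empty i)
  | insert i₀ I hi₀ ih =>
    obtain ⟨g', hg', hs'⟩ := ih (fun i hi => hI i (Finset.mem_insert_of_mem hi))
      (fun i hi i' hi' => hne i (Finset.mem_insert_of_mem hi) i' (Finset.mem_insert_of_mem hi'))
    have hA' : ∀ a, F f a ∈ {a | ∃ i ∈ I, SC f (x i) a} ↔ a ∈ {a | ∃ i ∈ I, SC f (x i) a} :=
      or_inv f x I
    have hsc := swap_SC f g' _ hA' hs'
    have hinf : IsInf g' (x i₀) :=
      (swap_inf f g' _ hA' hs' (x i₀)).2 (hI i₀ (Finset.mem_insert_self _ _))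
    obtain ⟨g, hs⟩ := swap_exists g' {a | SC g' (x i₀) a}
      (fun a => by simp only [Set.mem_ofPred_eq, SC, Equiv.Perm.sameCycle_apply_right])
    refine ⟨g, hC.rev g' hg' (x i₀) hinf g hs, ?_, ?_⟩
    · rintro a ⟨i, hi, ha⟩
      rcases Finset.mem_insert.1 hi with h1 | h1
      · subst h1
        have h2 : a ∉ {a | ∃ i ∈ I, SC f (x i) a} := by
          rintro ⟨i', hi', ha'⟩
          have h3 : i ≠ i' := fun h => hi₀ (h ▸ hi')
          exact hne i (Finset.mem_insert_self _ _) i' (Finset.mem_insert_of_mem hi') h3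
            (Equiv.Perm.SameCycle.trans ha (Equiv.Perm.SameCycle.symm ha'))
        have h4 := hs.1 a ((hsc _ _).2 ha)
        have h5 := hs'.2 a h2
        exact ⟨h4.1.trans h5.2, h4.2.trans h5.1⟩
      · have h2 : a ∉ {a | SC g' (x i₀) a} := by
          intro h3
          have h4 : SC f (x i₀) a := (hsc _ _).1 h3
          have h5 : i ≠ i₀ := fun h => hi₀ (h ▸ h1)
          exact hne i hi i₀ (Finset.mem_insert_self _ _) h5
            (Equiv.Perm.SameCycle.trans ha (Equiv.Perm.SameCycle.symm h4))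
        have h4 := hs.2 a h2
        have h5 := hs'.1 a ⟨i, h1, ha⟩
        exact ⟨h4.1.trans h5.1, h4.2.trans h5.2⟩
    · intro a ha
      have h2 : a ∉ {a | ∃ i ∈ I, SC f (x i) a} := by
        rintro ⟨i, hi, h3⟩
        exact ha ⟨i, Finset.mem_insert_of_mem hi, h3⟩
      have h3 : a ∉ {a | SC g' (x i₀) a} := by
        intro h3
        exact ha ⟨i₀, Finset.mem_insert_self _ _, (hsc _ _).1 h3⟩
      have h4 := hs.2 a h3
      have h5 := hs'.2 a h2
      exact ⟨h4.1.trans h5.1, h4.2.trans h5.2⟩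

/-- on a finite orbit the exponent can be taken to be a natural number, and minimal -/
private theorem or_fin (G : Equiv.Perm (Site d)) (a b : Site d) (t : ℤ) (ht : (G ^ t) a = b)
    (hn : ¬ ∀ m : ℕ, 0 < m → (G ^ m) a ≠ a) :
    ∃ k : ℕ, (G ^ k) a = b ∧ ∀ k', 0 < k' → k' ≤ k → (G ^ k') a ≠ a := by
  classical
  push Not at hn
  obtain ⟨m, hm, hma⟩ := hn
  have hm' : (G ^ (m : ℤ)) a = a := by rw [zpow_natCast]; exact hma
  have hmq : ∀ q : ℤ, (G ^ ((m : ℤ) * q)) a = a := by
    intro q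
    rw [zpow_mul]
    exact Equiv.Perm.zpow_apply_eq_self_of_apply_eq_self hm' q
  have hex : ∃ k : ℕ, (G ^ k) a = b := by
    refine ⟨(t % m).toNat, ?_⟩
    have h1 : ((t % m).toNat : ℤ) = t % m := Int.toNat_of_nonneg (Int.emod_nonneg _ (by omega))
    rw [← zpow_natCast, h1]
    have h2 : t = t % m + m * (t / m) := (Int.emod_add_mul_ediv t m).symm
    rw [← ht]
    conv_rhs => rw [h2, zpow_add, Equiv.Perm.mul_apply, hmq]
  refine ⟨Nat.find hex, Nat.find_spec hex, ?_⟩
  intro k' hk' hk'' heq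
  have h1 : (G ^ (Nat.find hex - k')) a = b := by
    have h2 : Nat.find hex = (Nat.find hex - k') + k' := by omega
    have h3 := Nat.find_spec hex
    rw [h2, pow_add, Equiv.Perm.mul_apply, heq] at h3
    exact h3
  exact Nat.find_min hex (by omega) h1

theorem orient' (D : Finset (Site d)) (C : Set (Pr d)) (hC : Cl D C) (f : Pr d) (hf : f ∈ C)
    (n : ℕ) (x y : ℕ → Site d) (hc : Cyc D f n x y) :
    ∃ g ∈ C, ∃ A : Set (Site d), (∀ a, F f a ∈ A ↔ a ∈ A) ∧ IsSwap f g A ∧
      ∃ j : ℕ → ℕ, OCyc D g n x j ∧ ∀ i < n, y i = g.1 ((F g ^ j i) (x i)) := by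
  classical
  have ht : ∀ i, ∃ t : ℤ, i < n → (F f ^ t) (x i) = f.1⁻¹ (y i) := by
    intro i
    by_cases hi : i < n
    · obtain ⟨t, ht⟩ := hc.out i hi
      exact ⟨t, fun _ => ht⟩
    · exact ⟨0, fun h => absurd h hi⟩
  choose t ht using ht
  have hy : ∀ i < n, y i = f.1 ((F f ^ t i) (x i)) := by
    intro i hi
    rw [ht i hi, or_app_inv]
  set I : Finset ℕ := (Finset.range n).filter (fun i => IsInf f (x i) ∧ t i < 0) with hI
  have hmem : ∀ i, i ∈ I ↔ i < n ∧ IsInf f (x i) ∧ t i < 0 := by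
    intro i
    simp [hI]
  obtain ⟨g, hg, hs⟩ := or_swap D C hC f hf x I (fun i hi => ((hmem i).1 hi).2.1)
    (fun i hi i' hi' h => hc.ne i ((hmem i).1 hi).1 i' ((hmem i').1 hi').1 h)
  set A : Set (Site d) := {a | ∃ i ∈ I, SC f (x i) a} with hA
  have hinv : ∀ a, F f a ∈ A ↔ a ∈ A := or_inv f x I
  have hinvz : ∀ (k : ℤ) a, (F f ^ k) a ∈ A ↔ a ∈ A := fun k a => or_inv_zpow f x I a k
  have hpow := swap_pow f g A hinv hs
  have hstep : ∀ a, f.2 (F f a) = f.1 a := by
    intro a
    unfold F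
    rw [Equiv.Perm.mul_apply, or_app_inv]
  have hnot : ∀ i < n, i ∉ I → x i ∉ A := by
    rintro i hi hiI ⟨i', hi', h⟩
    have h1 : i' ≠ i := fun h => hiI (h ▸ hi')
    exact hc.ne i' ((hmem i').1 hi').1 i hi h1 h
  have key : ∀ i, ∃ k : ℕ, i < n → y i = g.1 ((F g ^ k) (x i)) ∧
      ∀ k', 0 < k' → k' ≤ k → (F g ^ k') (x i) ≠ x i := by
    intro i
    by_cases hi : i < n
    · by_cases hiI : i ∈ I
      · -- reversed component
        obtain ⟨-, h2, h3⟩ := (hmem i).1 hiI
        have hxA : x i ∈ A := ⟨i, hiI, Equiv.Perm.SameCycle.refl _ _⟩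
        refine ⟨(-(t i + 1)).toNat, fun _ => ⟨?_, ?_⟩⟩
        · have h4 : ((-(t i + 1)).toNat : ℤ) = -(t i + 1) := Int.toNat_of_nonneg (by omega)
          have h5 : (F g ^ (-(t i + 1)).toNat) (x i) = (F f ^ (t i + 1)) (x i) := by
            rw [← zpow_natCast, h4, (hpow (-(t i + 1))).1 _ hxA, neg_neg]
          have h6 : (F f ^ (t i + 1)) (x i) ∈ A := (hinvz _ _).2 hxA
          rw [h5, (hs.1 _ h6).1, hy i hi, ← hstep, add_comm, zpow_add, zpow_one,
            Equiv.Perm.mul_apply]
        · intro k' hk' _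
          exact (swap_inf f g A hinv hs (x i)).2 h2 k' hk'
      · have hxA := hnot i hi hiI
        have hgf : ∀ k : ℕ, (F g ^ k) (x i) = (F f ^ k) (x i) := by
          intro k
          have := (hpow (k : ℤ)).2 _ hxA
          rwa [zpow_natCast, zpow_natCast] at this
        have hg1 : ∀ k : ℕ, g.1 ((F f ^ k) (x i)) = f.1 ((F f ^ k) (x i)) := by
          intro k
          refine (hs.2 _ ?_).1
          rw [← zpow_natCast, hinvz]
          exact hxA
        by_cases h2 : IsInf f (x i)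
        · have h3 : 0 ≤ t i := by
            by_contra hcon
            exact hiI ((hmem i).2 ⟨hi, h2, by omega⟩)
          refine ⟨(t i).toNat, fun _ => ⟨?_, ?_⟩⟩
          · rw [hgf, hg1, ← zpow_natCast, Int.toNat_of_nonneg h3]
            exact hy i hi
          · intro k' hk' _
            rw [hgf]
            exact h2 k' hk'
        · obtain ⟨k, hk1, hk2⟩ := or_fin (F f) (x i) _ (t i) rfl h2
          refine ⟨k, fun _ => ⟨?_, ?_⟩⟩
          · rw [hgf, hg1, hk1]
            exact hy i hi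
          · intro k' hk' hk''
            rw [hgf]
            exact hk2 k' hk' hk''
    · exact ⟨0, fun h => absurd h hi⟩
  choose j hj using key
  refine ⟨g, hg, A, hinv, hs, j, ⟨hc.pos, ?_, ?_, ?_⟩, fun i hi => (hj i hi).1⟩
  · intro i hi i' hi' h h1
    exact hc.ne i hi i' hi' h ((swap_SC f g A hinv hs _ _).1 h1)
  · intro i hi
    exact (hj i hi).2
  · intro i hi
    rw [← (hj i hi).1]
    exact hc.edge i hi

end DE
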