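import Pool.Agent.Helper15.DE.Cl
import Pool.Agent.Helper15.DE.Orient
import Pool.Agent.Helper15.DE.CycleLemma
import Pool.Agent.Helper15.DE.BuildCycle
import Pool.Agent.Helper10.DE.Geo.StubsCC

/-!
Module DE-IX4 (the end of the deterministic part).  Stubs: `orient'`, `cycle_lemma'`, `build_cycle`,
CC1, CC2.
`w ≠ 0`; choose `i0` with `|w i0| = ‖w‖` (sup norm) and the sign `σ` of `w i0`; then
`σ * Va i0 ≥ ‖w‖ - ‖w‖ / (8 K) > 0`.
(1) Near box: `RCprop` with velocity `0`, `η = 1`, `R₀` large (so that `a, b ∈ bx 0 n`, `n ≥ R / 2`),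
`c = 0`: `ConnIn N D f.1 f.2 a b` with `N = bx 0 (K * n)`.  `N` is now fixed.
(2) Constants: `T0` such that `(F f ^ t) a ∈ N` implies `|t| ≤ T0` (`t : ℤ`; injectivity of
`t ↦ (F f ^ t) a`, `N` finite).  `C1` such that `σ * ((F f ^ t) a) i0 ≥ - C1` for all `t ≥ -T0 - 1`
(`ray_lower`).  `C2` such that for every `z ∈ N`, for `G = F f` and `G = (F f)⁻¹`, if `VOut G z Va` then
`σ * ((G ^ t) z) i0 ≥ - C2` for all `t : ℕ`.  `T` = the finite union of the finite components meeting `N`.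
(3) Far box: `RCprop` with velocity `w`, `η = ‖w‖ / (2 K)`, `R ≥ R₀` huge, `c0` = rounding of `- R w`:
`n ≤ η R ≤ 2 n`, `W = bx c0 (K * n)`: every `z ∈ W` has `σ * z i0 ≤ - R ‖w‖ + 1 + K η R = 1 - R ‖w‖ / 2`.
`a' = ((F f)⁻¹ ^ R) a` satisfies `VIn (F f) a Va` (good and uniqueness), so `|a' + R Va| ≤ R ‖w‖ / (16 K)`
for `R` large, `|a' - c0| ≤ R ‖w‖ (1/8 + 1/16) / K + 1 ≤ R ‖w‖ / (4 K) ≤ n`; the same for `b'`.  So
`ConnIn W D f.1 f.2 b' a'`.  For `R` large `W` is disjoint from `T`.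
(4) `build_cycle`, then `orient'`: `g ∈ C`, `j`, `y i = g.1 ((F g ^ j i) (x i))`.
Component `0`: `x 0 = (F f ^ t) a ∈ W`; by (2), (3) `t < -T0 - 1`.  The exit point
`u = (F g ^ j 0) (x 0)` satisfies `g.1 u = y 0`, and `y 0 = f.1 p` or `f.2 p` with `p ∈ N`,
`g.1 u = f.1 u` or `f.2 u`, so `u` is `p`, `F f p` or `(F f)⁻¹ p`, so `u = (F f ^ t') a` with
`|t'| ≤ T0 + 1`.  If the component of `a` were reversed in `g`, then `u = (F f ^ (t - j 0)) a`, so
`t - j 0 = t' ≥ -T0 - 1 > t`, impossible.  So `F g = F f` on it and `VOut (F g) (x 0) Va`.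
Component `k`: it contains `x k ∈ N` and the point `p ∈ W` (or a neighbour of it in the orbit; `p`
itself lies in the component of `f.1⁻¹ (y k)`), so it is not finite (`W` is disjoint from `T`).  By
`cycle_lemma'` `VOut (F g) (x k) Va`; `F g` is `F f` or `(F f)⁻¹` on this component, so by (2)
`σ * ((F g ^ j k) (x k)) i0 ≥ - C2`.  But this exit point is `p`, `F f p` or `(F f)⁻¹ p`, at distance at
most a constant (depending on `D`) from `p ∈ W`, so `σ * (...) i0 ≤ 1 - R ‖w‖ / 2 + const`: contradiction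
for `R` large.
-/

open Filter Topology

namespace DE

variable {d : ℕ}

private theorem invApp (G : Equiv.Perm (Site d)) (x : Site d) : G⁻¹ (G x) = x :=
  G.symm_apply_apply x

private theorem appInv (G : Equiv.Perm (Site d)) (x : Site d) : G (G⁻¹ x) = x :=
  G.apply_symm_apply x

private theorem exit_pt (f g : Pr d) (A : Set (Site d)) (h : IsSwap f g A) (u p : Site d)
    (hy : g.1 u = f.1 p ∨ g.1 u = f.2 p) : u = p ∨ u = F f p ∨ u = (F f)⁻¹ p := by
  have h1 : g.1 u = f.1 u ∨ g.1 u = f.2 u := by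
    by_cases hu : u ∈ A
    · right
      exact (h.1 u hu).1
    · left
      exact (h.2 u hu).1
  have hF : F f p = f.2⁻¹ (f.1 p) := rfl
  have hFi : (F f)⁻¹ p = f.1⁻¹ (f.2 p) := by
    unfold F
    rw [mul_inv_rev, inv_inv]
    rfl
  rcases h1 with h1 | h1 <;> rcases hy with hy | hy
  · left
    exact f.1.injective (h1.symm.trans hy)
  · right
    right
    rw [hFi, ← h1.symm.trans hy]
    exact (invApp _ _).symm
  · right
    left
    rw [hF, ← h1.symm.trans hy]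
    exact (invApp _ _).symm
  · left
    exact f.2.injective (h1.symm.trans hy)

private theorem zinj {f : Pr d} {a : Site d} (h : IsInf f a) (t s : ℤ)
    (hts : (F f ^ t) a = (F f ^ s) a) : t = s := by
  have key : ∀ m : ℤ, (F f ^ m) a = a → m = 0 := by
    intro m hm
    by_contra hm0
    apply h m.natAbs (Int.natAbs_pos.2 hm0)
    rcases Int.natAbs_eq m with he | he
    · rw [he, zpow_natCast] at hm
      exact hm
    · rw [he, zpow_neg, zpow_natCast, Equiv.Perm.inv_eq_iff_eq] at hm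
      exact hm.symm
  have h1 : (F f ^ (t - s)) a = a := by
    rw [sub_eq_neg_add, zpow_add, Equiv.Perm.mul_apply, hts, ← Equiv.Perm.mul_apply, ← zpow_add]
    simp
  have h2 := key _ h1
  omega

private theorem inf_zpow {f : Pr d} {a : Site d} (h : IsInf f a) (t : ℤ) :
    IsInf f ((F f ^ t) a) := by
  intro n hn he
  rw [← zpow_natCast, ← Equiv.Perm.mul_apply, ← zpow_add] at he
  have := zinj h _ _ he
  omega

theorem ray_lower (G : Equiv.Perm (Site d)) (z : Site d) (V : Fin d → ℝ) (h : VOut G z V)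
    (i0 : Fin d) (σ : ℝ) (hσ : 0 < σ * V i0) :
    ∃ c : ℝ, ∀ t : ℕ, - c ≤ σ * (((G ^ t) z i0 : ℤ) : ℝ) := by
  have h2 := (tendsto_pi_nhds.1 h) i0
  have h3 := (h2.const_mul σ).eventually (lt_mem_nhds hσ)
  obtain ⟨n0, hn0⟩ := eventually_atTop.1 h3
  refine ⟨|σ * (z i0 : ℝ)| + ∑ t ∈ Finset.range (n0 + 1), |σ * (((G ^ t) z i0 : ℤ) : ℝ)|, ?_⟩
  intro t
  have hs : 0 ≤ ∑ t ∈ Finset.range (n0 + 1), |σ * (((G ^ t) z i0 : ℤ) : ℝ)| :=
    Finset.sum_nonneg fun _ _ => abs_nonneg _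
  have ha : 0 ≤ |σ * (z i0 : ℝ)| := abs_nonneg _
  by_cases ht : t < n0 + 1
  · have h4 := Finset.single_le_sum (f := fun t => |σ * (((G ^ t) z i0 : ℤ) : ℝ)|)
      (fun _ _ => abs_nonneg _) (Finset.mem_range.2 ht)
    have h5 := neg_abs_le (σ * (((G ^ t) z i0 : ℤ) : ℝ))
    linarith
  · have h4 := hn0 t (by omega)
    have ht0 : (0 : ℝ) < t := by exact_mod_cast (by omega : 0 < t)
    have h5 : 0 < (t : ℝ)⁻¹ := inv_pos.2 ht0
    simp only [Pi.smul_apply, smul_eq_mul, rv, Pi.sub_apply, Int.cast_sub] at h4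
    have h6 : 0 < (t : ℝ)⁻¹ * (σ * ((((G ^ t) z i0 : ℤ) : ℝ) - (z i0 : ℝ))) := by
      calc 0 < σ * ((t : ℝ)⁻¹ * ((((G ^ t) z i0 : ℤ) : ℝ) - (z i0 : ℝ))) := h4
        _ = _ := by ring
    have h7 := (mul_pos_iff_of_pos_left h5).1 h6
    have h8 := neg_abs_le (σ * (z i0 : ℝ))
    linarith

private theorem mem_bx_real {c a : Site d} {n : ℕ} (h : ∀ i, |(a i : ℝ) - (c i : ℝ)| ≤ n) :
    a ∈ bx c n := by
  unfold bx
  rw [Fintype.mem_piFinset]
  intro i
  rw [Finset.mem_Icc]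
  have h1 := abs_le.1 (h i)
  constructor
  · have : ((c i - n : ℤ) : ℝ) ≤ (a i : ℝ) := by
      push_cast
      linarith [h1.1]
    exact_mod_cast this
  · have : (a i : ℝ) ≤ ((c i + n : ℤ) : ℝ) := by
      push_cast
      linarith [h1.2]
    exact_mod_cast this

private theorem bx_real {c a : Site d} {n : ℕ} (h : a ∈ bx c n) (i : Fin d) :
    |(a i : ℝ) - (c i : ℝ)| ≤ n := by
  unfold bx at h
  rw [Fintype.mem_piFinset] at h
  have h1 := Finset.mem_Icc.1 (h i)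
  rw [abs_le]
  constructor
  · have : ((c i - n : ℤ) : ℝ) ≤ (a i : ℝ) := by exact_mod_cast h1.1
    push_cast at this
    linarith
  · have : (a i : ℝ) ≤ ((c i + n : ℤ) : ℝ) := by exact_mod_cast h1.2
    push_cast at this
    linarith

/-- far back points -/
private theorem far_back (f : Pr d) (K : ℕ) (hK : 1 ≤ K) (w : Fin d → ℝ) (hw : w ≠ 0)
    (a : Site d) (Va : Fin d → ℝ) (hV : VIn (F f) a Va) (h1 : ‖Va - w‖ ≤ ‖w‖ / (8 * K)) :
    ∀ᶠ R : ℕ in atTop, ∀ (n : ℕ) (c : Site d), ‖w‖ / (2 * K) * R ≤ 2 * n →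
      (∀ i, |(c i : ℝ) + R * w i| ≤ 1) → ((F f)⁻¹ ^ R) a ∈ bx c n := by
  have hw0 : 0 < ‖w‖ := norm_pos_iff.2 hw
  have hKR : (0 : ℝ) < K := by exact_mod_cast hK
  set ε : ℝ := ‖w‖ / (32 * K) with hε
  have hε0 : 0 < ε := by positivity
  have e1 := (Metric.tendsto_nhds.1 hV) ε hε0
  have e2 : ∀ᶠ R : ℕ in atTop, ‖rv a‖ / ε ≤ (R : ℝ) :=
    tendsto_natCast_atTop_atTop.eventually_ge_atTop _
  have e3 : ∀ᶠ R : ℕ in atTop, 1 / (2 * ε) ≤ (R : ℝ) :=
    tendsto_natCast_atTop_atTop.eventually_ge_atTop _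
  filter_upwards [e1, e2, e3, eventually_gt_atTop 0] with R h2 h3 h4 h5
  intro n c hn hc
  have hR : (0 : ℝ) < R := by exact_mod_cast h5
  apply mem_bx_real
  intro i
  set a' := ((F f)⁻¹ ^ R) a with ha'
  rw [dist_eq_norm] at h2
  have h6 : |(R : ℝ)⁻¹ * ((a i : ℝ) - (a' i : ℝ)) - Va i| ≤ ε := by
    have h7 := (norm_le_pi_norm ((R : ℝ)⁻¹ • rv (a - a') - Va) i).trans h2.le
    simpa [rv, Real.norm_eq_abs] using h7
  have h8 : |(a i : ℝ) - (a' i : ℝ) - R * Va i| ≤ R * ε := by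
    have h9 : (a i : ℝ) - (a' i : ℝ) - R * Va i =
        R * ((R : ℝ)⁻¹ * ((a i : ℝ) - (a' i : ℝ)) - Va i) := by
      field_simp
    rw [h9, abs_mul, abs_of_pos hR]
    exact mul_le_mul_of_nonneg_left h6 hR.le
  have h10 : |(a i : ℝ)| ≤ R * ε := by
    have h11 := norm_le_pi_norm (rv a) i
    rw [div_le_iff₀ hε0] at h3
    simp only [rv, Real.norm_eq_abs] at h11
    exact h11.trans h3
  have h12 : |Va i - w i| ≤ 4 * ε := by
    have h13 := (norm_le_pi_norm (Va - w) i).trans h1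
    have h14 : ‖w‖ / (8 * K) = 4 * ε := by
      rw [hε]
      field_simp
      ring
    rw [h14] at h13
    simpa [Real.norm_eq_abs] using h13
  have h15 : |(R : ℝ) * (Va i - w i)| ≤ R * (4 * ε) := by
    rw [abs_mul, abs_of_pos hR]
    exact mul_le_mul_of_nonneg_left h12 hR.le
  have h16 : (1 : ℝ) ≤ 2 * (R * ε) := by
    rw [div_le_iff₀ (by positivity)] at h4
    linarith
  have h17 : 8 * (R * ε) ≤ (n : ℝ) := by
    have h18 : ‖w‖ / (2 * K) * R = 16 * (R * ε) := by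
      rw [hε]
      field_simp
      ring
    rw [h18] at hn
    linarith
  have h19 := hc i
  rw [abs_le] at h8 h10 h15 h19 ⊢
  constructor
  · nlinarith [h8.1, h8.2, h10.1, h10.2, h15.1, h15.2, h19.1, h19.2]
  · nlinarith [h8.1, h8.2, h10.1, h10.2, h15.1, h15.2, h19.1, h19.2]

/-- uniform lower bound over a finite set -/
private theorem unif_lower (N : Finset (Site d)) (P : Site d → ℝ → Prop)
    (hP : ∀ z ∈ N, ∃ c, P z c) (hmono : ∀ z c c', c ≤ c' → P z c → P z c') :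
    ∃ C, ∀ z ∈ N, P z C := by
  classical
  have h : ∀ z, ∃ c, z ∈ N → P z c := by
    intro z
    by_cases hz : z ∈ N
    · obtain ⟨c, hc⟩ := hP z hz
      exact ⟨c, fun _ => hc⟩
    · exact ⟨0, fun h => absurd h hz⟩
  choose c hc using h
  refine ⟨∑ z ∈ N, |c z|, ?_⟩
  intro z hz
  apply hmono z (c z) _ _ (hc z hz)
  exact (le_abs_self _).trans (Finset.single_le_sum (f := fun z => |c z|)
    (fun _ _ => abs_nonneg _) hz)

private theorem fin_comp (f : Pr d) (z : Site d) (hz : ¬ IsInf f z) (i0 : Fin d) (σ : ℝ) :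
    ∃ c : ℝ, ∀ z', SC f z z' → - c ≤ σ * ((z' i0 : ℤ) : ℝ) := by
  unfold IsInf at hz
  push Not at hz
  obtain ⟨m, hm, hmz⟩ := hz
  refine ⟨∑ t ∈ Finset.range m, |σ * (((F f ^ t) z i0 : ℤ) : ℝ)|, ?_⟩
  rintro z' ⟨i, hi⟩
  have hm' : (0 : ℤ) < m := by exact_mod_cast hm
  have h1 : (F f ^ ((i % m).toNat)) z = z' := by
    have h2 : 0 ≤ i % m := Int.emod_nonneg _ hm'.ne'
    rw [← zpow_natCast, Int.toNat_of_nonneg h2]
    have h3 : i = i % m + m * (i / m) := (Int.emod_add_mul_ediv i m).symm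
    rw [h3, zpow_add, Equiv.Perm.mul_apply, zpow_mul, zpow_natCast,
      Equiv.Perm.zpow_apply_eq_self_of_apply_eq_self hmz] at hi
    exact hi
  have h4 : (i % m).toNat < m := by
    have := Int.emod_lt_of_pos i hm'
    have h2 : 0 ≤ i % m := Int.emod_nonneg _ hm'.ne'
    omega
  have h5 := Finset.single_le_sum (f := fun t => |σ * (((F f ^ t) z i0 : ℤ) : ℝ)|)
      (fun _ _ => abs_nonneg _) (Finset.mem_range.2 h4)
  simp only [h1] at h5
  have h6 := neg_abs_le (σ * ((z' i0 : ℤ) : ℝ))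
  linarith

private theorem step_bound (D : Finset (Site d)) (f : Pr d) (h1 : IsD D f.1) (h2 : IsD D f.2)
    (i0 : Fin d) (p : Site d) :
    |((F f p i0 : ℤ) : ℝ) - ((p i0 : ℤ) : ℝ)| ≤ 2 * ∑ v ∈ D, |((v i0 : ℤ) : ℝ)| ∧
      |(((F f)⁻¹ p i0 : ℤ) : ℝ) - ((p i0 : ℤ) : ℝ)| ≤ 2 * ∑ v ∈ D, |((v i0 : ℤ) : ℝ)| := by
  have hD : ∀ v ∈ D, |((v i0 : ℤ) : ℝ)| ≤ ∑ v ∈ D, |((v i0 : ℤ) : ℝ)| := fun v hv =>
    Finset.single_le_sum (f := fun v : Site d => |((v i0 : ℤ) : ℝ)|)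
      (fun _ _ => abs_nonneg _) hv
  have key : ∀ p : Site d, |((F f p i0 : ℤ) : ℝ) - ((p i0 : ℤ) : ℝ)| ≤
      2 * ∑ v ∈ D, |((v i0 : ℤ) : ℝ)| := by
    intro p
    have h3 : f.2 (F f p) = f.1 p := by
      show f.2 (f.2⁻¹ (f.1 p)) = f.1 p
      exact appInv _ _
    have h4 := hD _ (h1 p)
    have h5 := hD _ (h2 (F f p))
    rw [h3] at h5
    simp only [Pi.sub_apply, Int.cast_sub] at h4 h5
    rw [abs_le] at h4 h5 ⊢
    constructor <;> linarith [h4.1, h4.2, h5.1, h5.2]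
  refine ⟨key p, ?_⟩
  have h6 := key ((F f)⁻¹ p)
  rw [appInv] at h6
  rw [abs_sub_comm]
  exact h6

theorem end_lemma (D : Finset (Site d)) (K : ℕ) (hK : 1 ≤ K) (C : Set (Pr d)) (hC : Cl D C)
    (f : Pr d) (hf : f ∈ C) (hRC : RCprop D K f.1 f.2) (w : Fin d → ℝ) (hw : w ≠ 0)
    (a b : Site d) (ha : IsInf f a) (hb : IsInf f b) (hab : ¬ SC f a b)
    (Va Vb : Fin d → ℝ) (hVa : VOut (F f) a Va) (hVb : VOut (F f) b Vb)
    (h1 : ‖Va - w‖ ≤ ‖w‖ / (8 * K)) (h2 : ‖Vb - w‖ ≤ ‖w‖ / (8 * K)) : False := by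
  have hw0 : 0 < ‖w‖ := norm_pos_iff.2 hw
  have hKR : (1 : ℝ) ≤ K := by exact_mod_cast hK
  obtain ⟨hD1, hD2⟩ := hC.isD f hf
  -- direction
  obtain ⟨i0, hi0⟩ : ∃ i0, ‖w‖ ≤ |w i0| := by
    by_contra hcon
    push Not at hcon
    exact lt_irrefl _ ((pi_norm_lt_iff hw0).2 (fun i => by
      rw [Real.norm_eq_abs]
      exact hcon i))
  obtain ⟨σ, hσ1, hσw⟩ : ∃ σ : ℝ, |σ| = 1 ∧ σ * w i0 = |w i0| := by
    rcases le_total 0 (w i0) with h | h
    · exact ⟨1, abs_one, by rw [one_mul, abs_of_nonneg h]⟩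
    · exact ⟨-1, by rw [abs_neg, abs_one], by rw [abs_of_nonpos h]; ring⟩
  have hσabs : ∀ x y : ℝ, |x - y| ≤ ‖w‖ / 8 → σ * y - ‖w‖ / 8 ≤ σ * x := by
    intro x y hxy
    have h3 : |σ * (x - y)| ≤ ‖w‖ / 8 := by
      rw [abs_mul, hσ1, one_mul]
      exact hxy
    have := (abs_le.1 h3).1
    linarith
  have hσV : 0 < σ * Va i0 := by
    have h3 : |Va i0 - w i0| ≤ ‖w‖ / 8 := by
      have h4 := (norm_le_pi_norm (Va - w) i0).trans h1
      have h5 : ‖w‖ / (8 * K) ≤ ‖w‖ / 8 := by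
        apply div_le_div_of_nonneg_left hw0.le (by norm_num)
        linarith
      simpa [Real.norm_eq_abs] using h4.trans h5
    have h6 := hσabs _ _ h3
    rw [hσw] at h6
    linarith
  -- near box
  obtain ⟨N, hnear⟩ : ∃ N : Finset (Site d), ConnIn N D f.1 f.2 a b := by
    obtain ⟨M, hM⟩ := exists_nat_ge (‖rv a‖ + ‖rv b‖)
    obtain ⟨R, hR, n, hn1, hn2, hc⟩ := hRC 0 1 one_pos (2 * M)
    refine ⟨bx 0 (K * n), hc 0 (by intro i; simp) a ?_ b ?_⟩
    · apply mem_bx_real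
      intro i
      have h3 := norm_le_pi_norm (rv a) i
      have h4 : (2 * M : ℝ) ≤ R := by exact_mod_cast hR
      have h5 := norm_nonneg (rv b)
      simp only [rv, Real.norm_eq_abs] at h3
      simp only [Pi.zero_apply, Int.cast_zero, sub_zero]
      linarith
    · apply mem_bx_real
      intro i
      have h3 := norm_le_pi_norm (rv b) i
      have h4 : (2 * M : ℝ) ≤ R := by exact_mod_cast hR
      have h5 := norm_nonneg (rv a)
      simp only [rv, Real.norm_eq_abs] at h3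
      simp only [Pi.zero_apply, Int.cast_zero, sub_zero]
      linarith
  -- times in the near box
  obtain ⟨T0, hT0⟩ : ∃ T0 : ℕ, ∀ t : ℤ, (F f ^ t) a ∈ N → t.natAbs ≤ T0 := by
    have hfin : {t : ℤ | (F f ^ t) a ∈ N}.Finite := by
      apply Set.Finite.preimage (f := fun t : ℤ => (F f ^ t) a) _ N.finite_toSet
      intro t _ s _ hts
      exact zinj ha t s hts
    obtain ⟨T0, hT0⟩ := (hfin.image Int.natAbs).bddAbove
    exact ⟨T0, fun t ht => hT0 ⟨t, ht, rfl⟩⟩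
  -- constants
  obtain ⟨C1, hC1⟩ : ∃ C1 : ℝ, ∀ t : ℤ, -(T0 : ℤ) - 1 ≤ t →
      - C1 ≤ σ * (((F f ^ t) a i0 : ℤ) : ℝ) := by
    obtain ⟨c, hc⟩ := ray_lower (F f) ((F f ^ (-(T0 : ℤ) - 1)) a) Va
      ((vout_pow _ _ _ _).2 hVa) i0 σ hσV
    refine ⟨c, fun t ht => ?_⟩
    have h3 := hc (t - (-(T0 : ℤ) - 1)).toNat
    rw [← zpow_natCast, Int.toNat_of_nonneg (by omega), ← Equiv.Perm.mul_apply, ← zpow_add,
      sub_add_cancel] at h3
    exact h3
  obtain ⟨C2, hC2⟩ : ∃ C2 : ℝ, ∀ z ∈ N, (VOut (F f) z Va →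
      ∀ t : ℕ, - C2 ≤ σ * (((F f ^ t) z i0 : ℤ) : ℝ)) ∧ (VOut (F f)⁻¹ z Va →
      ∀ t : ℕ, - C2 ≤ σ * ((((F f)⁻¹ ^ t) z i0 : ℤ) : ℝ)) := by
    apply unif_lower N (fun z C2 => (VOut (F f) z Va →
      ∀ t : ℕ, - C2 ≤ σ * (((F f ^ t) z i0 : ℤ) : ℝ)) ∧ (VOut (F f)⁻¹ z Va →
      ∀ t : ℕ, - C2 ≤ σ * ((((F f)⁻¹ ^ t) z i0 : ℤ) : ℝ)))
    · intro z _
      have key : ∀ G : Equiv.Perm (Site d), ∃ c : ℝ, VOut G z Va →
          ∀ t : ℕ, - c ≤ σ * (((G ^ t) z i0 : ℤ) : ℝ) := by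
        intro G
        by_cases hG : VOut G z Va
        · obtain ⟨c, hc⟩ := ray_lower G z Va hG i0 σ hσV
          exact ⟨c, fun _ => hc⟩
        · exact ⟨0, fun h => absurd h hG⟩
      obtain ⟨c1, hc1⟩ := key (F f)
      obtain ⟨c2, hc2⟩ := key (F f)⁻¹
      refine ⟨max c1 c2, fun h t => ?_, fun h t => ?_⟩
      · exact (neg_le_neg (le_max_left c1 c2)).trans (hc1 h t)
      · exact (neg_le_neg (le_max_right c1 c2)).trans (hc2 h t)
    · intro z c c' hcc' hP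
      exact ⟨fun h t => (neg_le_neg hcc').trans (hP.1 h t),
        fun h t => (neg_le_neg hcc').trans (hP.2 h t)⟩
  obtain ⟨C3, hC3⟩ : ∃ C3 : ℝ, ∀ z ∈ N, ¬ IsInf f z → ∀ z', SC f z z' →
      - C3 ≤ σ * ((z' i0 : ℤ) : ℝ) := by
    apply unif_lower N (fun z C3 => ¬ IsInf f z → ∀ z', SC f z z' →
      - C3 ≤ σ * ((z' i0 : ℤ) : ℝ))
    · intro z _
      by_cases hz : IsInf f z
      · exact ⟨0, fun h => absurd hz h⟩
      · obtain ⟨c, hc⟩ := fin_comp f z hz i0 σ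
        exact ⟨c, fun _ => hc⟩
    · intro z c c' hcc' hP hz z' hz'
      exact (neg_le_neg hcc').trans (hP hz z' hz')
  set B0 : ℝ := ∑ v ∈ D, |((v i0 : ℤ) : ℝ)| with hB0
  have hB00 : 0 ≤ B0 := Finset.sum_nonneg fun _ _ => abs_nonneg _
  -- backward velocities
  have hVIn : ∀ (z : Site d) (V : Fin d → ℝ), IsInf f z → VOut (F f) z V → VIn (F f) z V := by
    intro z V hz hV
    obtain ⟨V', hV1, hV2⟩ := hC.good f hf z hz
    rw [vout_unique _ _ _ _ hV hV1]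
    exact hV2
  have ea := far_back f K hK w hw a Va (hVIn a Va ha hVa) h1
  have eb := far_back f K hK w hw b Vb (hVIn b Vb hb hVb) h2
  have ec : ∀ᶠ R : ℕ in atTop, |C1| + |C2| + |C3| + 2 * B0 + 2 ≤ ‖w‖ / 2 * (R : ℝ) :=
    (Tendsto.const_mul_atTop (by positivity)
      tendsto_natCast_atTop_atTop).eventually_ge_atTop _
  obtain ⟨R0, hR0⟩ := eventually_atTop.1 (ea.and (eb.and ec))
  obtain ⟨R, hR, n, hn1, hn2, hc⟩ := hRC w (‖w‖ / (2 * K)) (by positivity) R0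
  obtain ⟨hRa, hRb, hRc⟩ := hR0 R hR
  set c0 : Site d := fun i => ⌊-((R : ℝ) * w i)⌋ with hc0
  have hc0w : ∀ i, |(c0 i : ℝ) + R * w i| ≤ 1 := by
    intro i
    have h3 := Int.floor_le (-((R : ℝ) * w i))
    have h4 := Int.lt_floor_add_one (-((R : ℝ) * w i))
    rw [abs_le]
    simp only [hc0]
    constructor <;> linarith
  set W := bx c0 (K * n) with hW
  have hfar := hc c0 hc0w _ (hRb n c0 hn2 hc0w) _ (hRa n c0 hn2 hc0w)
  have hWσ : ∀ z ∈ W, σ * ((z i0 : ℤ) : ℝ) ≤ 1 - ‖w‖ / 2 * R := by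
    intro z hz
    have h3 := bx_real hz i0
    have h4 : ((K * n : ℕ) : ℝ) ≤ ‖w‖ / 2 * R := by
      push_cast
      calc (K : ℝ) * n ≤ K * (‖w‖ / (2 * K) * R) := by gcongr
        _ = ‖w‖ / 2 * R := by
          field_simp
    have h5 : |σ * ((z i0 : ℝ) - (c0 i0 : ℝ))| ≤ ‖w‖ / 2 * R := by
      rw [abs_mul, hσ1, one_mul]
      exact h3.trans h4
    have h6 : |σ * ((c0 i0 : ℝ) + R * w i0)| ≤ 1 := by
      rw [abs_mul, hσ1, one_mul]
      exact hc0w i0
    have h7 : ‖w‖ * R ≤ σ * (R * w i0) := by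
      have : σ * (R * w i0) = |w i0| * R := by rw [← hσw]; ring
      rw [this]
      gcongr
    have h8 := (abs_le.1 h5).2
    have h9 := (abs_le.1 h6).2
    linarith
  -- the cycle
  have haa : SC f a (((F f)⁻¹ ^ R) a) := by
    refine ⟨-(R : ℤ), ?_⟩
    rw [zpow_neg, zpow_natCast, inv_pow]
  have hbb : SC f b (((F f)⁻¹ ^ R) b) := by
    refine ⟨-(R : ℤ), ?_⟩
    rw [zpow_neg, zpow_natCast, inv_pow]
  obtain ⟨n', x, y, k, hcyc, hk0, hkn, hx0a, hx0W, ⟨p, hpN, hyp⟩, hxk, ⟨q, hqW, hyq⟩⟩ :=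
    build_cycle D f N W a b _ _ haa hbb hab hnear hfar
  obtain ⟨g, hg, A, hA, hsw, j, hoc, hyj⟩ := orient' D C hC f hf n' x y hcyc
  -- component 0
  obtain ⟨t, ht⟩ : ∃ t : ℤ, (F f ^ t) a = x 0 := hx0a.symm
  have htlow : t < -(T0 : ℤ) - 1 := by
    by_contra hcon
    have h3 := hC1 t (not_lt.1 hcon)
    rw [ht] at h3
    have h4 := hWσ _ hx0W
    have h5 := neg_abs_le C1
    have h6 := le_abs_self C1
    have h7 := abs_nonneg C2
    have h8 := abs_nonneg C3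
    linarith
  have hu := hyj 0 hcyc.pos
  have hexit : ∀ u p' : Site d, (u = p' ∨ u = F f p' ∨ u = (F f)⁻¹ p') →
      ∃ e : ℤ, -1 ≤ e ∧ e ≤ 1 ∧ u = (F f ^ e) p' := by
    rintro u p' (h | h | h)
    · exact ⟨0, by norm_num, by norm_num, by simpa using h⟩
    · exact ⟨1, by norm_num, by norm_num, by simpa using h⟩
    · exact ⟨-1, by norm_num, by norm_num, by simpa using h⟩
  have hx0A : x 0 ∉ A := by
    intro hxA
    obtain ⟨e, he1, he2, hue⟩ := hexit _ _ (exit_pt f g A hsw ((F g ^ j 0) (x 0)) p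
      (by rw [← hu]; exact hyp))
    have h3 : (F g ^ j 0) (x 0) = (F f ^ (t - j 0)) a := by
      have h4 := (swap_pow f g A hA hsw (j 0)).1 _ hxA
      rw [zpow_natCast] at h4
      rw [h4, ← ht, ← Equiv.Perm.mul_apply, ← zpow_add]
      congr 2
      ring
    have h5 : p = (F f ^ (t - j 0 - e)) a := by
      rw [h3] at hue
      have h6 : (F f ^ (-e)) ((F f ^ (t - j 0)) a) = p := by
        rw [hue, ← Equiv.Perm.mul_apply, ← zpow_add]
        simp
      rw [← h6, ← Equiv.Perm.mul_apply, ← zpow_add]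
      congr 2
      ring
    have h7 := hT0 (t - j 0 - e) (by rw [← h5]; exact hpN)
    omega
  have hVg0 : VOut (F g) (x 0) Va := by
    rw [vout_congr (F f) (F g) (x 0) Va (fun m => by
      have := (swap_pow f g A hA hsw m).2 _ hx0A
      simpa using this), ← ht]
    exact (vout_pow _ _ _ _).2 hVa
  have hinf0 : IsInf g (x 0) := by
    rw [swap_inf f g A hA hsw, ← ht]
    exact inf_zpow ha t
  -- component k
  have hSCq : SC f (x k) q := by
    have h3 := hcyc.out k hkn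
    have h4 : SC f (f.1⁻¹ (y k)) q := by
      rcases hyq with h | h
      · rw [h, invApp]
        exact Equiv.Perm.SameCycle.refl _ _
      · have h5 : f.1⁻¹ (y k) = (F f)⁻¹ q := by
          rw [h]
          unfold F
          rw [mul_inv_rev, inv_inv]
          rfl
        rw [h5]
        exact ⟨1, by simp⟩
    exact Equiv.Perm.SameCycle.trans h3 h4
  have hinfk : IsInf f (x k) := by
    by_contra hcon
    have h3 := hC3 (x k) hxk hcon q hSCq
    have h4 := hWσ _ hqW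
    have h5 := le_abs_self C3
    have h7 := abs_nonneg C2
    have h8 := abs_nonneg C1
    linarith
  have hVk : VOut (F g) (x k) Va := cycle_lemma' D C hC g hg n' x j hoc 0 k hcyc.pos hkn hinf0
    ((swap_inf f g A hA hsw _).2 hinfk) Va hVg0
  have hlow : - C2 ≤ σ * (((F g ^ j k) (x k) i0 : ℤ) : ℝ) := by
    by_cases hkA : x k ∈ A
    · have h3 : ∀ m : ℕ, (F g ^ m) (x k) = ((F f)⁻¹ ^ m) (x k) := by
        intro m
        have := (swap_pow f g A hA hsw m).1 _ hkA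
        rw [zpow_natCast, zpow_neg, zpow_natCast, ← inv_pow] at this
        exact this
      rw [h3]
      exact (hC2 (x k) hxk).2 ((vout_congr (F f)⁻¹ (F g) (x k) Va h3).1 hVk) _
    · have h3 : ∀ m : ℕ, (F g ^ m) (x k) = (F f ^ m) (x k) := by
        intro m
        have := (swap_pow f g A hA hsw m).2 _ hkA
        rw [zpow_natCast, zpow_natCast] at this
        exact this
      rw [h3]
      exact (hC2 (x k) hxk).1 ((vout_congr (F f) (F g) (x k) Va h3).1 hVk) _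
  have huk := hyj k hkn
  have hup : σ * (((F g ^ j k) (x k) i0 : ℤ) : ℝ) ≤ 1 - ‖w‖ / 2 * R + 2 * B0 := by
    have h3 := hWσ _ hqW
    have h4 : |(((F g ^ j k) (x k) i0 : ℤ) : ℝ) - ((q i0 : ℤ) : ℝ)| ≤ 2 * B0 := by
      obtain ⟨s1, s2⟩ := step_bound D f hD1 hD2 i0 q
      rcases exit_pt f g A hsw ((F g ^ j k) (x k)) q (by rw [← huk]; exact hyq) with h | h | h
      · rw [h, sub_self, abs_zero]
        positivity
      · rw [h]
        exact s1
      · rw [h]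
        exact s2
    have h5 : |σ * ((((F g ^ j k) (x k) i0 : ℤ) : ℝ) - ((q i0 : ℤ) : ℝ))| ≤ 2 * B0 := by
      rw [abs_mul, hσ1, one_mul]
      exact h4
    have h6 := (abs_le.1 h5).2
    linarith
  have h5 := le_abs_self C2
  have h7 := abs_nonneg C1
  have h8 := abs_nonneg C3
  linarith

end DE
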