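import Pool.Agent.Helper15.DimerDefs

/-!
# The entropy of dimer tilings of `ℤ³` (definitions for MP_835ab5_pr)

Tilings, translations, Gibbs measures, mean current, specific entropy and the function `dimerEnt`.
-/

open MeasureTheory Filter Topology

namespace Helper15.Dimer

/-- the lattice `ℤ³` -/
abbrev Z3 := Fin 3 → ℤ

/-- nearest neighbours of `ℤ³` -/
def Adj (x y : Z3) : Prop := |x 0 - y 0| + |x 1 - y 1| + |x 2 - y 2| = 1

/-- Dimer tilings (perfect matchings) of `ℤ³`: `τ x` is the vertex matched to `x`. -/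
abbrev Tiling := {τ : Z3 → Z3 // ∀ x, Adj x (τ x) ∧ τ (τ x) = x}

/-- even vectors (and even vertices) -/
def IsEven (v : Z3) : Prop := Even (v 0 + v 1 + v 2)

/-- the tiling `τ` translated by `v` -/
def translateBy (v : Z3) (τ : Tiling) : Tiling :=
  ⟨fun x => τ.1 (x - v) + v, fun x => by
    obtain ⟨h1, h2⟩ := τ.2 (x - v)
    refine ⟨?_, ?_⟩
    · unfold Adj at *
      simp only [Pi.sub_apply, Pi.add_apply] at *
      have e0 : x 0 - (τ.1 (x - v) 0 + v 0) = x 0 - v 0 - τ.1 (x - v) 0 := by ring
      have e1 : x 1 - (τ.1 (x - v) 1 + v 1) = x 1 - v 1 - τ.1 (x - v) 1 := by ring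
      have e2 : x 2 - (τ.1 (x - v) 2 + v 2) = x 2 - v 2 - τ.1 (x - v) 2 := by ring
      rw [e0, e1, e2]
      exact h1
    · simp only [add_sub_cancel_right, h2, sub_add_cancel]⟩

/-- the cube `{0, …, n - 1}³` -/
noncomputable def latticeCube (n : ℕ) : Finset Z3 := Fintype.piFinset fun _ => Finset.Ico (0 : ℤ) n

/-- the tilings that agree with `τ` outside the finite set `Λ` (the compatible completions) -/
def Completions (Λ : Finset Z3) (τ : Tiling) : Set Tiling := {σ | ∀ x, x ∉ Λ → σ.1 x = τ.1 x}

open Classical in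
/-- the probability of the pattern of `σ` on `Λ` under the uniform law on the completions of the
restriction of `τ` to the complement of `Λ` -/
noncomputable def uniformCompletion (Λ : Finset Z3) (σ τ : Tiling) : ENNReal :=
  if ∃ ρ ∈ Completions Λ τ, ∀ x ∈ Λ, ρ.1 x = σ.1 x then (Nat.card (Completions Λ τ) : ENNReal)⁻¹
  else 0

/-- Gibbs measures: given the tiling outside a finite set `Λ`, the conditional law of the tiling on
`Λ` is uniform over the compatible completions.  (`B` runs over the events that only depend on the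
tiling outside `Λ`.) -/
def IsGibbs (μ : Measure Tiling) : Prop :=
  ∀ (Λ : Finset Z3) (σ : Tiling) (B : Set Tiling), MeasurableSet B →
    (∀ τ τ' : Tiling, (∀ x, x ∉ Λ → τ.1 x = τ'.1 x) → (τ ∈ B ↔ τ' ∈ B)) →
    μ (B ∩ {τ | ∀ x ∈ Λ, τ.1 x = σ.1 x}) = ∫⁻ τ in B, uniformCompletion Λ σ τ ∂μ

/-- invariance under the translations by even vectors -/
def IsEvenInvariant (μ : Measure Tiling) : Prop :=
  ∀ v : Z3, IsEven v → μ.map (translateBy v) = μ

/-- ergodicity under the translations by even vectors -/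
def IsEvenErgodic (μ : Measure Tiling) : Prop :=
  ∀ B : Set Tiling, MeasurableSet B → (∀ v : Z3, IsEven v → translateBy v ⁻¹' B = B) →
    μ B = 0 ∨ μ B = 1

/-- the mean current of `μ` is `s`: the expectation of `τ 0` -/
def HasCurrent (μ : Measure Tiling) (s : E3) : Prop :=
  ∀ i : Fin 3, ∫ τ, ((τ.1 0 i : ℤ) : ℝ) ∂μ = s i

/-- Shannon entropy of the restriction of the tiling to the finite set `Λ` -/
noncomputable def shannon (μ : Measure Tiling) (Λ : Finset Z3) : ℝ :=
  ∑' a : Λ → Z3, Real.negMulLog (μ.real {τ | ∀ x : Λ, τ.1 x = a x})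

/-- the specific entropy of `μ` is `h` -/
def HasEntropy (μ : Measure Tiling) (h : ℝ) : Prop :=
  Tendsto (fun n : ℕ => shannon μ (latticeCube n) / (n : ℝ) ^ 3) atTop (𝓝 h)

/-- the entropy function `ent` of the three-dimensional dimer model: the maximal specific entropy
of an ergodic Gibbs measure with mean current `s` -/
noncomputable def dimerEnt (s : E3) : ℝ :=
  sSup {h | ∃ μ : Measure Tiling, IsProbabilityMeasure μ ∧ IsGibbs μ ∧ IsEvenInvariant μ ∧
    IsEvenErgodic μ ∧ HasCurrent μ s ∧ HasEntropy μ h}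

end Helper15.Dimer
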