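import Pool.Agent.Helper15.DE.Defs
import Pool.Agent.Helper15.DE.PhBasic
import Pool.Agent.Helper15.DE.PhMeas
import Pool.Agent.Helper15.DE.Tiling
import Pool.Agent.Helper10.DE.X.Defs

/-!
Module DE-XI2 (tilings of `ℤ³` and admissible configurations of `st3`).
`bmap u = (-u0 - u1 - u2, u0 - u1, u2)` is the basis map of the even sublattice (basis `e2 - e1`,
`-e2 - e1`, `e3 - e1`); `dir a` is the unit vector of the letter `a` (`0:+e1, 1:-e1, 2:+e2, 3:-e2,
4:+e3, 5:-e3`); `bmap (st3 a) = dir a - e1`.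
`toCfg τ u` is the letter `a` with `τ (bmap u) = bmap u + dir a` (exists and is unique by `Adj`).
`fromCfg ω` for `ω ∈ Cfg st3`: on an even vertex `x = bmap u` it is `x + dir (ω u)`; on an odd vertex `y`
it is the unique even `bmap u` with `bmap u + dir (ω u) = y`, i.e. `y = bmap (mv st3 ω u) + e1`
(bijectivity of `mv st3 ω`; `y - e1` is even).  Off `Cfg st3` it is a fixed tiling
(`x ↦ x + e1` for `x` even, `x - e1` for `x` odd).
`toCfg_mem`: `bmap (mv st3 (toCfg τ) u) = τ (bmap u) - e1`; `τ` restricts to a bijection from the even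
onto the odd vertices.  `toCfg_shift`: with `v = bmap w`, the letter of `translateBy v τ` at `u` is the letter
of `τ` at `u - w`.
Measurability: `{τ | toCfg τ u = a} = {τ | τ (bmap u) = bmap u + dir a}`; for `fromCfg` the events
`{ω | (fromCfg ω).1 x = y}` are, on `Cfg st3`, one-coordinate events if `x` is even, and for odd `x` the
event `{(fromCfg ω).1 y = x}`.
`card_ev`: among the `n^3` points of the cube the number of even points is at least
`(n^3 - 1)/2` and at most `(n^3 + 1)/2`; one only needs `|pre n| / n^3 → 1/2`.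
-/

open MeasureTheory Filter Topology Helper15.Dimer

namespace Helper15.DE

/-- coordinates on the even sublattice of `ℤ³` -/
def bmap : V 3 →+ V 3 where
  toFun u := ![- u 0 - u 1 - u 2, u 0 - u 1, u 2]
  map_zero' := by ext i; fin_cases i <;> simp
  map_add' u v := by ext i; fin_cases i <;> simp <;> ring

/-- the unit vectors -/
def dir : Fin 6 → V 3 :=
  ![![1, 0, 0], ![-1, 0, 0], ![0, 1, 0], ![0, -1, 0], ![0, 0, 1], ![0, 0, -1]]

private theorem bmap_0 (u : V 3) : bmap u 0 = - u 0 - u 1 - u 2 := rfl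

private theorem bmap_1 (u : V 3) : bmap u 1 = u 0 - u 1 := rfl

private theorem bmap_2 (u : V 3) : bmap u 2 = u 2 := rfl

private theorem ext3 {u v : V 3} (h0 : u 0 = v 0) (h1 : u 1 = v 1) (h2 : u 2 = v 2) : u = v := by
  funext i
  fin_cases i
  · exact h0
  · exact h1
  · exact h2

theorem bmap_inj : Function.Injective bmap := by
  intro u v h
  have h0 : bmap u 0 = bmap v 0 := by rw [h]
  have h1 : bmap u 1 = bmap v 1 := by rw [h]
  have h2 : bmap u 2 = bmap v 2 := by rw [h]
  rw [bmap_0, bmap_0] at h0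
  rw [bmap_1, bmap_1] at h1
  rw [bmap_2, bmap_2] at h2
  exact ext3 (by omega) (by omega) h2

/-- inverse of `bmap` on the even sublattice -/
private def binv (v : V 3) : V 3 :=
  ![(v 0 + v 1 + v 2) / 2 - v 0 - v 2, (v 0 + v 1 + v 2) / 2 - v 0 - v 2 - v 1, v 2]

private theorem bmap_binv {v : V 3} (h : IsEven v) : bmap (binv v) = v := by
  obtain ⟨k, hk⟩ := h
  have b0 : binv v 0 = (v 0 + v 1 + v 2) / 2 - v 0 - v 2 := rfl
  have b1 : binv v 1 = (v 0 + v 1 + v 2) / 2 - v 0 - v 2 - v 1 := rfl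
  have b2 : binv v 2 = v 2 := rfl
  refine ext3 ?_ ?_ ?_
  · rw [bmap_0, b0, b1, b2]
    omega
  · rw [bmap_1, b0, b1]
    omega
  · rw [bmap_2, b2]

private theorem even_bmap (u : V 3) : IsEven (bmap u) := by
  refine ⟨-u 1, ?_⟩
  rw [bmap_0, bmap_1, bmap_2]
  ring

private theorem binv_bmap (u : V 3) : binv (bmap u) = u :=
  bmap_inj (bmap_binv (even_bmap u))

private theorem dir_inj : Function.Injective dir := by
  intro a b
  revert a b
  decide

private theorem adj_dir (x : V 3) (a : Fin 6) : Adj x (x + dir a) := by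
  have h : |dir a 0| + |dir a 1| + |dir a 2| = 1 := by
    revert a
    decide
  unfold Adj
  simp only [Pi.add_apply]
  have e0 : x 0 - (x 0 + dir a 0) = -dir a 0 := by ring
  have e1 : x 1 - (x 1 + dir a 1) = -dir a 1 := by ring
  have e2 : x 2 - (x 2 + dir a 2) = -dir a 2 := by ring
  rw [e0, e1, e2, abs_neg, abs_neg, abs_neg]
  exact h

private theorem adj_symm' {x y : V 3} (h : Adj x y) : Adj y x := by
  unfold Adj at *
  rw [abs_sub_comm (y 0), abs_sub_comm (y 1), abs_sub_comm (y 2)]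
  exact h

private theorem dir_of_adj {x y : V 3} (h : Adj x y) : ∃ a, y = x + dir a := by
  unfold Adj at h
  have h0 := abs_nonneg (x 0 - y 0)
  have h1 := abs_nonneg (x 1 - y 1)
  have h2 := abs_nonneg (x 2 - y 2)
  have hc : (x 0 - y 0 = 1 ∨ x 0 - y 0 = -1) ∧ x 1 - y 1 = 0 ∧ x 2 - y 2 = 0 ∨
      x 0 - y 0 = 0 ∧ (x 1 - y 1 = 1 ∨ x 1 - y 1 = -1) ∧ x 2 - y 2 = 0 ∨
      x 0 - y 0 = 0 ∧ x 1 - y 1 = 0 ∧ (x 2 - y 2 = 1 ∨ x 2 - y 2 = -1) := by
    rcases abs_cases (x 0 - y 0) with a0 | a0 <;> rcases abs_cases (x 1 - y 1) with a1 | a1 <;>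
      rcases abs_cases (x 2 - y 2) with a2 | a2 <;> omega
  have d00 : dir 0 0 = 1 := rfl
  have d01 : dir 0 1 = 0 := rfl
  have d02 : dir 0 2 = 0 := rfl
  have d10 : dir 1 0 = -1 := rfl
  have d11 : dir 1 1 = 0 := rfl
  have d12 : dir 1 2 = 0 := rfl
  have d20 : dir 2 0 = 0 := rfl
  have d21 : dir 2 1 = 1 := rfl
  have d22 : dir 2 2 = 0 := rfl
  have d30 : dir 3 0 = 0 := rfl
  have d31 : dir 3 1 = -1 := rfl
  have d32 : dir 3 2 = 0 := rfl
  have d40 : dir 4 0 = 0 := rfl
  have d41 : dir 4 1 = 0 := rfl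
  have d42 : dir 4 2 = 1 := rfl
  have d50 : dir 5 0 = 0 := rfl
  have d51 : dir 5 1 = 0 := rfl
  have d52 : dir 5 2 = -1 := rfl
  rcases hc with ⟨h5 | h5, h6, h7⟩ | ⟨h5, h6 | h6, h7⟩ | ⟨h5, h6, h7 | h7⟩
  · exact ⟨1, ext3 (by rw [Pi.add_apply, d10]; omega) (by rw [Pi.add_apply, d11]; omega)
      (by rw [Pi.add_apply, d12]; omega)⟩
  · exact ⟨0, ext3 (by rw [Pi.add_apply, d00]; omega) (by rw [Pi.add_apply, d01]; omega)
      (by rw [Pi.add_apply, d02]; omega)⟩
  · exact ⟨3, ext3 (by rw [Pi.add_apply, d30]; omega) (by rw [Pi.add_apply, d31]; omega)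
      (by rw [Pi.add_apply, d32]; omega)⟩
  · exact ⟨2, ext3 (by rw [Pi.add_apply, d20]; omega) (by rw [Pi.add_apply, d21]; omega)
      (by rw [Pi.add_apply, d22]; omega)⟩
  · exact ⟨5, ext3 (by rw [Pi.add_apply, d50]; omega) (by rw [Pi.add_apply, d51]; omega)
      (by rw [Pi.add_apply, d52]; omega)⟩
  · exact ⟨4, ext3 (by rw [Pi.add_apply, d40]; omega) (by rw [Pi.add_apply, d41]; omega)
      (by rw [Pi.add_apply, d42]; omega)⟩

private theorem even_dir (x : V 3) (a : Fin 6) : IsEven (x + dir a) ↔ ¬ IsEven x := by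
  have h : dir a 0 + dir a 1 + dir a 2 = 1 ∨ dir a 0 + dir a 1 + dir a 2 = -1 := by
    revert a
    decide
  unfold IsEven
  simp only [Pi.add_apply]
  rw [Int.even_iff, Int.even_iff]
  omega

private theorem even_adj {x y : V 3} (h : Adj x y) : IsEven y ↔ ¬ IsEven x := by
  obtain ⟨a, rfl⟩ := dir_of_adj h
  exact even_dir x a

/-- the first unit vector -/
private def e1 : V 3 := ![1, 0, 0]

private theorem even_sub_e1 {x : V 3} (h : ¬ IsEven x) : IsEven (x - e1) := by
  have h2 := even_dir (x - e1) 0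
  have h3 : x - e1 + dir 0 = x := by
    change x - dir 0 + dir 0 = x
    exact sub_add_cancel x _
  rw [h3] at h2
  by_contra h4
  exact h (h2.2 h4)

theorem even_iff (v : V 3) : IsEven v ↔ ∃ u, bmap u = v := by
  constructor
  · intro h
    exact ⟨binv v, bmap_binv h⟩
  · rintro ⟨u, rfl⟩
    exact even_bmap u

theorem bmap_st3 (a : Fin 6) : bmap (st3 a) = dir a - ![1, 0, 0] := by
  revert a
  decide

theorem exists_letter (τ : Tiling) (u : V 3) : ∃ a : Fin 6, τ.1 (bmap u) = bmap u + dir a :=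
  dir_of_adj (τ.2 (bmap u)).1

/-- the configuration of a tiling -/
noncomputable def toCfg (τ : Tiling) : V 3 → Fin 6 := fun u => (exists_letter τ u).choose

theorem toCfg_spec (τ : Tiling) (u : V 3) (a : Fin 6) :
    toCfg τ u = a ↔ τ.1 (bmap u) = bmap u + dir a := by
  have h := (exists_letter τ u).choose_spec
  constructor
  · rintro rfl
    exact h
  · intro h2
    rw [h] at h2
    exact dir_inj (add_left_cancel h2)

private theorem toCfg_val (τ : Tiling) (u : V 3) : τ.1 (bmap u) = bmap u + dir (toCfg τ u) :=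
  (toCfg_spec τ u _).1 rfl

private theorem bmap_mv (ω : V 3 → Fin 6) (u : V 3) :
    bmap (mv st3 ω u) = bmap u + dir (ω u) - e1 := by
  unfold mv
  rw [map_add, bmap_st3, ← add_sub_assoc]
  rfl

theorem toCfg_mem (τ : Tiling) : toCfg τ ∈ Cfg st3 := by
  have hmv : ∀ u, bmap (mv st3 (toCfg τ) u) = τ.1 (bmap u) - e1 := by
    intro u
    rw [bmap_mv, ← toCfg_val]
  refine ⟨fun u v h => ?_, fun z => ?_⟩
  · have h1 : τ.1 (bmap u) - e1 = τ.1 (bmap v) - e1 := by rw [← hmv, ← hmv, h]
    have h2 : τ.1 (bmap u) = τ.1 (bmap v) := sub_left_injective h1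
    have h3 : τ.1 (τ.1 (bmap u)) = τ.1 (τ.1 (bmap v)) := by rw [h2]
    rw [(τ.2 _).2, (τ.2 _).2] at h3
    exact bmap_inj h3
  · have ho : ¬ IsEven (bmap z + e1) := fun h => (even_dir (bmap z) 0).1 h (even_bmap z)
    have he : IsEven (τ.1 (bmap z + e1)) := (even_adj (τ.2 _).1).2 ho
    obtain ⟨u, hu⟩ := (even_iff _).1 he
    refine ⟨u, bmap_inj ?_⟩
    rw [hmv, hu, (τ.2 _).2, add_sub_cancel_right]

theorem exists_fromCfg (ω : V 3 → Fin 6) (h : ω ∈ Cfg st3) : ∃ τ : Tiling, toCfg τ = ω := by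
  classical
  let g : V 3 → V 3 := (Equiv.ofBijective (mv st3 ω) h).symm
  have hg1 : ∀ z, mv st3 ω (g z) = z := fun z => (Equiv.ofBijective (mv st3 ω) h).apply_symm_apply z
  have hg2 : ∀ u, g (mv st3 ω u) = u := fun u => (Equiv.ofBijective (mv st3 ω) h).symm_apply_apply u
  let t : V 3 → V 3 := fun x =>
    if IsEven x then x + dir (ω (binv x)) else bmap (g (binv (x - e1)))
  have te : ∀ u, t (bmap u) = bmap u + dir (ω u) := by
    intro u
    simp only [t, if_pos (even_bmap u), binv_bmap]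
  have tod : ∀ x, ¬ IsEven x → ∃ u, x = bmap u + dir (ω u) ∧ t x = bmap u := by
    intro x hx
    refine ⟨g (binv (x - e1)), ?_, ?_⟩
    · have h1 := bmap_mv ω (g (binv (x - e1)))
      rw [hg1, bmap_binv (even_sub_e1 hx)] at h1
      exact sub_left_injective h1
    · simp only [t, if_neg hx]
  have tod2 : ∀ u, t (bmap u + dir (ω u)) = bmap u := by
    intro u
    have hx : ¬ IsEven (bmap u + dir (ω u)) := fun hh => (even_dir _ _).1 hh (even_bmap u)
    simp only [t, if_neg hx]
    rw [← bmap_mv, binv_bmap, hg2]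
  have ht : ∀ x, Adj x (t x) ∧ t (t x) = x := by
    intro x
    by_cases hx : IsEven x
    · obtain ⟨u, rfl⟩ := (even_iff x).1 hx
      rw [te]
      exact ⟨adj_dir _ _, tod2 u⟩
    · obtain ⟨u, hu, htu⟩ := tod x hx
      rw [htu, te]
      refine ⟨?_, hu.symm⟩
      rw [hu]
      exact adj_symm' (adj_dir _ _)
  refine ⟨⟨t, ht⟩, ?_⟩
  funext u
  rw [toCfg_spec]
  exact te u

theorem toCfg_inj : Function.Injective toCfg := by
  intro τ τ' h
  have he : ∀ x, IsEven x → τ.1 x = τ'.1 x := by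
    intro x hx
    obtain ⟨u, rfl⟩ := (even_iff x).1 hx
    rw [toCfg_val, toCfg_val, h]
  refine Subtype.ext (funext fun x => ?_)
  by_cases hx : IsEven x
  · exact he x hx
  · have h1 : IsEven (τ.1 x) := (even_adj (τ.2 x).1).2 hx
    have h2 := he _ h1
    rw [(τ.2 x).2] at h2
    have h3 : τ'.1 x = τ'.1 (τ'.1 (τ.1 x)) := by rw [← h2]
    rw [h3, (τ'.2 _).2]

theorem exists_tiling : Nonempty Tiling := by
  have h : (fun _ => 0 : V 3 → Fin 6) ∈ Cfg st3 := by
    change Function.Bijective fun x : V 3 => x + st3 0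
    exact (Equiv.addRight (st3 0)).bijective
  obtain ⟨τ, -⟩ := exists_fromCfg _ h
  exact ⟨τ⟩

open Classical in
/-- the tiling of a configuration (a fixed tiling for configurations that are not admissible) -/
noncomputable def fromCfg (ω : V 3 → Fin 6) : Tiling :=
  if h : ω ∈ Cfg st3 then (exists_fromCfg ω h).choose else Classical.choice exists_tiling

theorem toCfg_fromCfg {ω : V 3 → Fin 6} (h : ω ∈ Cfg st3) : toCfg (fromCfg ω) = ω := by
  unfold fromCfg
  rw [dif_pos h]
  exact (exists_fromCfg ω h).choose_spec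

theorem fromCfg_toCfg (τ : Tiling) : fromCfg (toCfg τ) = τ :=
  toCfg_inj (toCfg_fromCfg (toCfg_mem τ))

private theorem meas_eval (x y : V 3) : MeasurableSet {τ : Tiling | τ.1 x = y} := by
  have h : Measurable fun τ : Tiling => τ.1 x := (measurable_pi_apply x).comp measurable_subtype_coe
  exact h (measurableSet_singleton y)

theorem measurable_toCfg : Measurable toCfg := by
  refine measurable_pi_iff.2 fun u => measurable_to_countable' fun a => ?_
  have h : (fun τ : Tiling => toCfg τ u) ⁻¹' {a} = {τ : Tiling | τ.1 (bmap u) = bmap u + dir a} := by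
    ext τ
    exact toCfg_spec τ u a
  rw [h]
  exact meas_eval _ _

theorem measurable_fromCfg : Measurable fromCfg := by
  classical
  have hE : ∀ x y : V 3, ∃ E : Set (V 3 → Fin 6), MeasurableSet E ∧
      ∀ ω ∈ Cfg st3, ((fromCfg ω).1 x = y ↔ ω ∈ E) := by
    have hev : ∀ u y : V 3, ∃ E : Set (V 3 → Fin 6), MeasurableSet E ∧
        ∀ ω ∈ Cfg st3, ((fromCfg ω).1 (bmap u) = y ↔ ω ∈ E) := by
      intro u y
      refine ⟨(fun ω : V 3 → Fin 6 => ω u) ⁻¹' {a | bmap u + dir a = y}, ?_, fun ω hω => ?_⟩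
      · exact (measurable_pi_apply u) (Set.to_countable _).measurableSet
      · rw [toCfg_val, toCfg_fromCfg hω]
        rfl
    intro x y
    by_cases hx : IsEven x
    · obtain ⟨u, rfl⟩ := (even_iff x).1 hx
      exact hev u y
    · by_cases hy : IsEven y
      · obtain ⟨u, rfl⟩ := (even_iff y).1 hy
        obtain ⟨E, hE1, hE2⟩ := hev u x
        refine ⟨E, hE1, fun ω hω => ?_⟩
        rw [← hE2 ω hω]
        constructor
        · intro h
          rw [← h, ((fromCfg ω).2 x).2]
        · intro h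
          rw [← h, ((fromCfg ω).2 _).2]
      · refine ⟨∅, MeasurableSet.empty, fun ω hω => ?_⟩
        refine ⟨fun h => ?_, fun h => absurd h (Set.notMem_empty _)⟩
        exfalso
        have h1 := even_adj ((fromCfg ω).2 x).1
        rw [h] at h1
        exact hy (h1.2 hx)
  have h0 : ∃ τ0 : Tiling, ∀ ω, ω ∉ Cfg st3 → fromCfg ω = τ0 := by
    refine ⟨Classical.choice exists_tiling, fun ω hω => ?_⟩
    unfold fromCfg
    rw [dif_neg hω]
  obtain ⟨τ0, h0⟩ := h0
  have hm : Measurable fun ω => (fromCfg ω).1 := by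
    refine measurable_pi_iff.2 fun x => measurable_to_countable' fun y => ?_
    obtain ⟨E, hE1, hE2⟩ := hE x y
    have hC := measurableSet_Cfg st3
    have h : (fun ω => (fromCfg ω).1 x) ⁻¹' {y} =
        (Cfg st3 ∩ E) ∪ ((Cfg st3)ᶜ ∩ {_ω : V 3 → Fin 6 | τ0.1 x = y}) := by
      ext ω
      rw [Set.mem_preimage, Set.mem_singleton_iff, Set.mem_union, Set.mem_inter_iff,
        Set.mem_inter_iff, Set.mem_compl_iff, Set.mem_ofPred_eq]
      by_cases hω : ω ∈ Cfg st3
      · rw [hE2 ω hω]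
        tauto
      · rw [h0 ω hω]
        tauto
    rw [h]
    exact (hC.inter hE1).union (hC.compl.inter (MeasurableSet.const _))
  exact Measurable.subtype_mk hm

theorem measurable_translate (v : V 3) : Measurable (translateBy v) := by
  have hm : Measurable fun τ : Tiling => (translateBy v τ).1 := by
    refine measurable_pi_iff.2 fun x => ?_
    have h : Measurable fun τ : Tiling => τ.1 (x - v) :=
      (measurable_pi_apply (x - v)).comp measurable_subtype_coe
    exact (measurable_of_countable fun y : V 3 => y + v).comp h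
  exact Measurable.subtype_mk hm

theorem toCfg_translate (w : V 3) (τ : Tiling) :
    toCfg (translateBy (bmap w) τ) = shift (-w) (toCfg τ) := by
  funext u
  rw [toCfg_spec]
  change τ.1 (bmap u - bmap w) + bmap w = bmap u + dir (toCfg τ (u + -w))
  rw [← map_sub, toCfg_val, map_sub, ← sub_eq_add_neg]
  abel

end Helper15.DE
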