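import Pool.Agent.Helper15.DE.Defs
import Pool.Agent.Helper15.DE.PhBasic
import Pool.Agent.Helper15.DE.PhMeas
import Pool.Agent.Helper15.DE.Tiling
import Pool.Agent.Helper15.DE.TCfg
import Pool.Agent.Helper10.DE.X.Defs

/-!
Module DE-XI3 (transfer of invariance, ergodicity and current).
`μ ↦ μ.map toCfg` and `m ↦ m.map fromCfg` are mutually inverse between probability measures on
tilings and probability measures carried by `Cfg st3`.
`inv_toCfg`: `(μ.map toCfg).map (shift v) = μ.map (shift v ∘ toCfg) = μ.map (toCfg ∘ translateBy (bmap (-v)))`.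
`inv_fromCfg`: `translateBy (bmap w) ∘ fromCfg = fromCfg ∘ shift (-w)` on `Cfg st3`; every even vector is
a `bmap w`.
`erg_fromCfg`: if `B` is a measurable set of tilings invariant under even translations then
`B' = (fromCfg ⁻¹' B) ∩ Cfg st3` satisfies `shift v ⁻¹' B' = B'` and `(m.map fromCfg) B = m B'`.
`current_toCfg`: `τ 0 = dir (toCfg τ 0)`, `bmap (st3 a) = dir a - e1`; so with `ω = toCfg τ`, the
mean `m` of `chg st3 (ω 0)` satisfies `(- m0 - m1 - m2 + 1, m0 - m1, m2) = E[τ 0]`; compare with `toV`.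
-/

open MeasureTheory Filter Topology Helper15.Dimer

namespace Helper15.DE

private theorem fromCfg_shift {ω : V 3 → Fin 6} (h : ω ∈ Cfg st3) (w : V 3) :
    translateBy (bmap w) (fromCfg ω) = fromCfg (shift (-w) ω) := by
  apply toCfg_inj
  rw [toCfg_translate, toCfg_fromCfg h, toCfg_fromCfg ((shift_mem_Cfg st3 (-w) ω).2 h)]

theorem inv_toCfg {μ : Measure Tiling} [IsProbabilityMeasure μ] (h : IsEvenInvariant μ) :
    Inv (Cfg st3) (μ.map toCfg) := by
  refine ⟨Measure.isProbabilityMeasure_map measurable_toCfg.aemeasurable, fun v => ?_, ?_⟩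
  · rw [Measure.map_map (measurable_shift v) measurable_toCfg]
    have h1 : (shift v : (V 3 → Fin 6) → V 3 → Fin 6) ∘ toCfg =
        toCfg ∘ translateBy (bmap (-v)) := by
      funext τ
      have h2 := toCfg_translate (-v) τ
      rw [neg_neg] at h2
      exact h2.symm
    rw [h1, ← Measure.map_map measurable_toCfg (measurable_translate _),
      h _ ((even_iff _).2 ⟨-v, rfl⟩)]
  · exact (ae_map_iff measurable_toCfg.aemeasurable (measurableSet_Cfg st3)).2
      (ae_of_all _ toCfg_mem)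

theorem fromCfg_map {m : Measure (V 3 → Fin 6)} (h : Inv (Cfg st3) m) :
    IsProbabilityMeasure (m.map fromCfg) ∧ (m.map fromCfg).map toCfg = m := by
  have := h.prob
  refine ⟨Measure.isProbabilityMeasure_map measurable_fromCfg.aemeasurable, ?_⟩
  rw [Measure.map_map measurable_toCfg measurable_fromCfg]
  have h1 : toCfg ∘ fromCfg =ᵐ[m] id := by
    filter_upwards [h.supp] with ω hω
    exact toCfg_fromCfg hω
  rw [Measure.map_congr h1, Measure.map_id]

theorem inv_fromCfg {m : Measure (V 3 → Fin 6)} (h : Inv (Cfg st3) m) :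
    IsEvenInvariant (m.map fromCfg) := by
  have := h.prob
  intro v hv
  obtain ⟨w, rfl⟩ := (even_iff v).1 hv
  rw [Measure.map_map (measurable_translate _) measurable_fromCfg]
  have h1 : translateBy (bmap w) ∘ fromCfg =ᵐ[m] fromCfg ∘ shift (-w) := by
    filter_upwards [h.supp] with ω hω
    exact fromCfg_shift hω w
  rw [Measure.map_congr h1, ← Measure.map_map measurable_fromCfg (measurable_shift _), h.map]

theorem erg_fromCfg {m : Measure (V 3 → Fin 6)} (h : Inv (Cfg st3) m)
    (herg : ∀ B : Set (V 3 → Fin 6), MeasurableSet B → (∀ v, shift v ⁻¹' B = B) →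
      m B = 0 ∨ m B = 1) : IsEvenErgodic (m.map fromCfg) := by
  have := h.prob
  intro B hB hinv
  have hM : MeasurableSet ((fromCfg ⁻¹' B) ∩ Cfg st3) :=
    (measurable_fromCfg hB).inter (measurableSet_Cfg st3)
  have h1 : ∀ v, shift v ⁻¹' ((fromCfg ⁻¹' B) ∩ Cfg st3) = (fromCfg ⁻¹' B) ∩ Cfg st3 := by
    intro v
    ext ω
    simp only [Set.mem_preimage, Set.mem_inter_iff]
    rw [shift_mem_Cfg]
    refine and_congr_left fun hω => ?_
    have h2 := fromCfg_shift hω (-v)
    rw [neg_neg] at h2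
    rw [← h2]
    have h3 := hinv (bmap (-v)) ((even_iff _).2 ⟨-v, rfl⟩)
    conv_rhs => rw [← h3]
    rfl
  have h2 : (m.map fromCfg) B = m ((fromCfg ⁻¹' B) ∩ Cfg st3) := by
    rw [Measure.map_apply measurable_fromCfg hB]
    refine measure_congr ?_
    filter_upwards [h.supp] with ω hω
    exact propext ⟨fun h3 => ⟨h3, hω⟩, fun h3 => h3.1⟩
  rw [h2]
  exact herg _ hM h1

theorem current_toCfg {μ : Measure Tiling} [IsProbabilityMeasure μ] (s : E3) :
    HasCurrent μ s ↔ mean (chg st3) (μ.map toCfg) = toV (fun i => s i) := by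
  have hev : ∀ f : Fin 6 → ℝ, Measurable (fun τ : Tiling => f (toCfg τ 0)) := by
    intro f
    have hf : Measurable (fun ω : V 3 → Fin 6 => f (ω 0)) :=
      (measurable_of_countable f).comp (measurable_pi_apply 0)
    exact hf.comp measurable_toCfg
  have hint : ∀ f : Fin 6 → ℝ, Integrable (fun τ : Tiling => f (toCfg τ 0)) μ := by
    intro f
    refine Integrable.of_bound (hev f).aestronglyMeasurable (∑ a, ‖f a‖) ?_
    filter_upwards with τ
    exact Finset.single_le_sum (f := fun a => ‖f a‖) (fun a _ => norm_nonneg _)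
      (Finset.mem_univ (toCfg τ 0))
  set M : Fin 3 → ℝ := fun i => ∫ τ, (st3 (toCfg τ 0) i : ℝ) ∂μ with hM
  have hmean : mean (chg st3) (μ.map toCfg) = M := by
    funext i
    have hf : Measurable fun ω : V 3 → Fin 6 => chg st3 (ω 0) i :=
      (measurable_of_countable fun a : Fin 6 => chg st3 a i).comp (measurable_pi_apply 0)
    unfold mean
    rw [integral_map measurable_toCfg.aemeasurable hf.aestronglyMeasurable]
    rfl
  have hval : ∀ τ : Tiling, τ.1 0 = bmap (st3 (toCfg τ 0)) + ![1, 0, 0] := by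
    intro τ
    have h1 := (toCfg_spec τ 0 (toCfg τ 0)).1 rfl
    rw [map_zero, zero_add] at h1
    rw [bmap_st3, sub_add_cancel, h1]
  have h0 : ∀ τ : Tiling, ((τ.1 0 0 : ℤ) : ℝ) = 1 - (st3 (toCfg τ 0) 0 : ℝ) -
      (st3 (toCfg τ 0) 1 : ℝ) - (st3 (toCfg τ 0) 2 : ℝ) := by
    intro τ
    have h1 := congrFun (hval τ) 0
    rw [h1]
    simp [bmap]
    ring
  have h1 : ∀ τ : Tiling, ((τ.1 0 1 : ℤ) : ℝ) = (st3 (toCfg τ 0) 0 : ℝ) -
      (st3 (toCfg τ 0) 1 : ℝ) := by
    intro τ
    have h1 := congrFun (hval τ) 1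
    rw [h1]
    simp [bmap]
  have h2 : ∀ τ : Tiling, ((τ.1 0 2 : ℤ) : ℝ) = (st3 (toCfg τ 0) 2 : ℝ) := by
    intro τ
    have h1 := congrFun (hval τ) 2
    rw [h1]
    simp [bmap]
  have c0 : ∫ τ : Tiling, ((τ.1 0 0 : ℤ) : ℝ) ∂μ = 1 - M 0 - M 1 - M 2 := by
    simp_rw [h0]
    rw [integral_sub, integral_sub, integral_sub]
    · simp [hM]
    · exact integrable_const _
    · exact hint fun a => (st3 a 0 : ℝ)
    · exact (integrable_const _).sub (hint fun a => (st3 a 0 : ℝ))
    · exact hint fun a => (st3 a 1 : ℝ)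
    · exact ((integrable_const _).sub (hint fun a => (st3 a 0 : ℝ))).sub
        (hint fun a => (st3 a 1 : ℝ))
    · exact hint fun a => (st3 a 2 : ℝ)
  have c1 : ∫ τ : Tiling, ((τ.1 0 1 : ℤ) : ℝ) ∂μ = M 0 - M 1 := by
    simp_rw [h1]
    rw [integral_sub]
    · exact hint fun a => (st3 a 0 : ℝ)
    · exact hint fun a => (st3 a 1 : ℝ)
  have c2 : ∫ τ : Tiling, ((τ.1 0 2 : ℤ) : ℝ) ∂μ = M 2 := by
    simp_rw [h2]
    rfl
  rw [hmean]
  constructor
  · intro h
    have e0 := h 0
    have e1 := h 1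
    have e2 := h 2
    rw [c0] at e0
    rw [c1] at e1
    rw [c2] at e2
    funext i
    fin_cases i
    · simp only [toV]
      change M 0 = (1 - s 0 - s 2 + s 1) / 2
      linarith
    · simp only [toV]
      change M 1 = (1 - s 0 - s 2 - s 1) / 2
      linarith
    · simp only [toV]
      change M 2 = s 2
      linarith
  · intro h
    have e0 : M 0 = (1 - s 0 - s 2 + s 1) / 2 := congrFun h 0
    have e1 : M 1 = (1 - s 0 - s 2 - s 1) / 2 := congrFun h 1
    have e2 : M 2 = s 2 := congrFun h 2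
    intro i
    fin_cases i
    · change ∫ τ : Tiling, ((τ.1 0 0 : ℤ) : ℝ) ∂μ = s 0
      rw [c0]
      linarith
    · change ∫ τ : Tiling, ((τ.1 0 1 : ℤ) : ℝ) ∂μ = s 1
      rw [c1]
      linarith
    · change ∫ τ : Tiling, ((τ.1 0 2 : ℤ) : ℝ) ∂μ = s 2
      rw [c2]
      linarith

end Helper15.DE
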