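import Pool.Agent.Helper15.DE.Defs
import Pool.Agent.Helper15.DE.PhBasic
import Pool.Agent.Helper15.DE.PhMeas
import Pool.Agent.Helper15.DE.Tiling
import Pool.Agent.Helper15.DE.TCfg
import Pool.Agent.Helper15.DE.TInv
import Pool.Agent.Helper10.DE.X.Defs
import Pool.Agent.Helper10.DE.X.Shape
import Pool.Agent.Helper10.DE.ET.Ent
import Pool.Agent.Helper10.DE.ET.HFBasic
import Pool.Agent.Helper10.DE.ET.Hent

/-!
Module DE-XI4 (the specific entropy of tilings).  Let `m = μ.map toCfg`, `P n = pre bmap bmap_inj n`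
(the `u` with `bmap u ∈ box 3 n`, i.e. the even points of the cube `latticeCube n = box 3 n`).
(1) `shannon μ Λ = ent μ X` for any finite valued coding `X` of the restriction of `τ` to `Λ` (only finitely
many patterns `a : Λ → Z3` have nonzero probability: `a x ∈ {x + dir _}`); so `shannon μ Λ` is monotone and
is at most the entropy of any finite valued function that determines `τ` on `Λ`.
(2) `HF m (P n) ≤ shannon μ (latticeCube n)`: the letters at `P n` are determined by `τ` on the even points.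
(3) `shannon μ (latticeCube n) ≤ HF m (P' n)` where `P' n` is the set of the `u` with
`bmap u ∈ [-2, n + 2)^3`: for an odd `x` in the cube, `τ x` is the even neighbour `y` of `x` with
`τ y = x`, determined by the letters at the even neighbours of `x`.  `P' n = P (n+4) - w` with
`bmap w = (2,2,2)`, so `HF m (P' n) = HF m (P (n + 4))` by invariance (`HF_shift`).
(4) `shape` with `B = bmap`, `e = 2`, `d = 3`: `HF m (P n) / |P n| → hent m`, and
`|P n| / n^3 → 1/2` (the number of even points of the cube; pair `x` with its neighbour in direction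
`e1` inside the cube: `2 |P n|` differs from `n^3` by at most `n^2`).  So both bounds divided by `n^3` tend
to `hent m / 2`.
-/

open MeasureTheory Filter Topology Helper15.Dimer

namespace Helper15.DE

open ShapeAux

namespace TEntAux

theorem adj_dir {x y : Z3} (h : Adj x y) : ∃ a : Fin 6, y = x + dir a := by
  unfold Adj at h
  have h0 := abs_nonneg (x 0 - y 0)
  have h1 := abs_nonneg (x 1 - y 1)
  have h2 := abs_nonneg (x 2 - y 2)
  have key : (y 0 = x 0 + 1 ∧ y 1 = x 1 ∧ y 2 = x 2) ∨ (y 0 = x 0 - 1 ∧ y 1 = x 1 ∧ y 2 = x 2) ∨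
      (y 0 = x 0 ∧ y 1 = x 1 + 1 ∧ y 2 = x 2) ∨ (y 0 = x 0 ∧ y 1 = x 1 - 1 ∧ y 2 = x 2) ∨
      (y 0 = x 0 ∧ y 1 = x 1 ∧ y 2 = x 2 + 1) ∨ (y 0 = x 0 ∧ y 1 = x 1 ∧ y 2 = x 2 - 1) := by
    rcases abs_cases (x 0 - y 0) with ⟨e0, _⟩ | ⟨e0, _⟩ <;>
    rcases abs_cases (x 1 - y 1) with ⟨e1, _⟩ | ⟨e1, _⟩ <;>
    rcases abs_cases (x 2 - y 2) with ⟨e2, _⟩ | ⟨e2, _⟩ <;>
    rw [e0] at h h0 <;> rw [e1] at h h1 <;> rw [e2] at h h2 <;> omega
  rcases key with ⟨a0, a1, a2⟩ | ⟨a0, a1, a2⟩ | ⟨a0, a1, a2⟩ | ⟨a0, a1, a2⟩ | ⟨a0, a1, a2⟩ |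
    ⟨a0, a1, a2⟩
  · exact ⟨0, by funext i; fin_cases i <;> simp [dir, a0, a1, a2]⟩
  · exact ⟨1, by funext i; fin_cases i <;> simp [dir, a0, a1, a2] <;> ring⟩
  · exact ⟨2, by funext i; fin_cases i <;> simp [dir, a0, a1, a2]⟩
  · exact ⟨3, by funext i; fin_cases i <;> simp [dir, a0, a1, a2] <;> ring⟩
  · exact ⟨4, by funext i; fin_cases i <;> simp [dir, a0, a1, a2]⟩
  · exact ⟨5, by funext i; fin_cases i <;> simp [dir, a0, a1, a2] <;> ring⟩

theorem dir_inj : Function.Injective dir := by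
  intro a b h
  have h0 := congrFun h 0
  have h1 := congrFun h 1
  have h2 := congrFun h 2
  revert h0 h1 h2
  clear h
  revert a b
  decide

/-- the letter of a tiling at any vertex -/
noncomputable def lt (τ : Tiling) (x : Z3) : Fin 6 := (adj_dir (τ.2 x).1).choose

theorem lt_spec (τ : Tiling) (x : Z3) : τ.1 x = x + dir (lt τ x) := (adj_dir (τ.2 x).1).choose_spec

theorem lt_eq_iff (τ : Tiling) (x : Z3) (a : Fin 6) : lt τ x = a ↔ τ.1 x = x + dir a := by
  rw [lt_spec τ x]
  constructor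
  · rintro rfl; rfl
  · intro h; exact dir_inj (add_left_cancel h)

/-- the letters on a finite set -/
noncomputable def Y (Λ : Finset Z3) (τ : Tiling) : Λ → Fin 6 := fun x => lt τ x

theorem measurable_Y (Λ : Finset Z3) : Measurable (Y Λ) := by
  refine measurable_pi_lambda _ fun x => measurable_to_countable' fun a => ?_
  have h1 : (fun τ : Tiling => Y Λ τ x) ⁻¹' {a} = {τ : Tiling | τ.1 x = x + dir a} := by
    ext τ
    simp only [Set.mem_preimage, Set.mem_singleton_iff, Set.mem_setOf_eq]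
    exact lt_eq_iff τ x a
  rw [h1]
  have h2 : Measurable fun τ : Tiling => τ.1 x := (measurable_pi_apply _).comp measurable_subtype_coe
  exact h2 (measurableSet_singleton _)

theorem shannon_eq (μ : Measure Tiling) (Λ : Finset Z3) : shannon μ Λ = ent μ (Y Λ) := by
  unfold shannon ent
  have hinj : Function.Injective (fun (b : Λ → Fin 6) (x : Λ) => ((x : Z3) + dir (b x) : Z3)) := by
    intro b c h
    funext x
    have := congrFun h x
    exact dir_inj (add_left_cancel this)
  rw [← hinj.tsum_eq, tsum_fintype]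
  · refine Finset.sum_congr rfl fun b _ => ?_
    congr 2
    ext τ
    simp only [Set.mem_setOf_eq, Set.mem_preimage, Set.mem_singleton_iff]
    constructor
    · intro h
      funext x
      exact (lt_eq_iff τ x _).2 (h x)
    · rintro rfl x
      exact lt_spec τ x
  · intro a ha
    rw [Function.mem_support] at ha
    have h1 : {τ : Tiling | ∀ x : Λ, τ.1 x = a x}.Nonempty := by
      rw [Set.nonempty_iff_ne_empty]
      intro h
      rw [h] at ha
      simp at ha
    obtain ⟨τ, hτ⟩ := h1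
    refine ⟨Y Λ τ, ?_⟩
    funext x
    rw [← hτ x]
    exact (lt_spec τ x).symm

theorem ent_le_of_det {Ω α β : Type*} [MeasurableSpace Ω]
    [Fintype α] [MeasurableSpace α] [MeasurableSingletonClass α]
    [Fintype β] [MeasurableSpace β] [MeasurableSingletonClass β]
    (P : Measure Ω) [IsProbabilityMeasure P] (X : Ω → α) (hX : Measurable X) (Z : Ω → β)
    (h : ∀ ω ω', X ω = X ω' → Z ω = Z ω') : ent P Z ≤ ent P X := by
  obtain ⟨ω0⟩ : Nonempty Ω := nonempty_of_isProbabilityMeasure P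
  have h1 : Z = (Function.extend X Z fun _ => Z ω0) ∘ X := by
    funext ω
    have hf : Function.FactorsThrough Z X := fun a b hab => h a b hab
    exact (hf.extend_apply (fun _ => Z ω0) ω).symm
  rw [h1]
  exact ent_comp_le P X hX _

theorem HF_toCfg (μ : Measure Tiling) (F : Finset (V 3)) :
    HF (μ.map toCfg) F = ent μ (fun (τ : Tiling) (u : F) => toCfg τ u) := by
  rw [HF_eq_ent, ent_map μ toCfg measurable_toCfg _ (measurable_restr F)]
  rfl

theorem measurable_cfgR (F : Finset (V 3)) :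
    Measurable (fun (τ : Tiling) (u : F) => toCfg τ u) :=
  (measurable_restr F).comp measurable_toCfg

theorem toCfg_eq_lt (τ : Tiling) (u : V 3) : toCfg τ u = lt τ (bmap u) :=
  (toCfg_spec τ u _).2 (lt_spec τ (bmap u))

theorem mem_pre (n : ℕ) (u : V 3) : u ∈ pre bmap bmap_inj n ↔ bmap u ∈ box 3 n :=
  mem_preS bmap bmap_inj (box 3 n) u

theorem cube_eq (n : ℕ) : latticeCube n = box 3 n := rfl

theorem lower (μ : Measure Tiling) [IsProbabilityMeasure μ] (n : ℕ) :
    HF (μ.map toCfg) (pre bmap bmap_inj n) ≤ shannon μ (latticeCube n) := by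
  rw [shannon_eq, HF_toCfg]
  refine ent_le_of_det μ _ (measurable_Y _) _ fun τ τ' h => ?_
  funext u
  have hu : bmap u.1 ∈ latticeCube n := (mem_pre n u.1).1 u.2
  have h1 := congrFun h ⟨_, hu⟩
  rw [toCfg_eq_lt, toCfg_eq_lt]
  exact h1

theorem even_or (v : Z3) {w : Z3} (h : Adj v w) (hv : ¬ IsEven v) : IsEven w := by
  obtain ⟨a, rfl⟩ := adj_dir h
  unfold IsEven at *
  rw [Int.not_even_iff_odd] at hv
  simp only [Pi.add_apply]
  have h3 : Odd (dir a 0 + dir a 1 + dir a 2) := by
    clear h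
    revert a
    decide
  have h4 := hv.add_odd h3
  have h5 : v 0 + dir a 0 + (v 1 + dir a 1) + (v 2 + dir a 2) =
      v 0 + v 1 + v 2 + (dir a 0 + dir a 1 + dir a 2) := by ring
  rw [h5]
  exact h4

theorem upper' (μ : Measure Tiling) [IsProbabilityMeasure μ] (F : Finset (V 3)) (n : ℕ)
    (hF : ∀ u, (∀ i, (-2 : ℤ) ≤ bmap u i ∧ bmap u i < n + 2) → u ∈ F) :
    shannon μ (latticeCube n) ≤ HF (μ.map toCfg) F := by
  rw [shannon_eq, HF_toCfg]
  refine ent_le_of_det μ _ (measurable_cfgR F) _ fun τ τ' h => ?_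
  have hlt : ∀ y : Z3, IsEven y → (∀ i, (-2 : ℤ) ≤ y i ∧ y i < n + 2) → lt τ y = lt τ' y := by
    intro y hy hb
    obtain ⟨u, rfl⟩ := (even_iff y).1 hy
    have h1 := congrFun h ⟨u, hF u hb⟩
    simp only at h1
    rwa [toCfg_eq_lt, toCfg_eq_lt] at h1
  funext x
  have hx : (x : Z3) ∈ box 3 n := x.2
  rw [mem_box] at hx
  change lt τ x = lt τ' x
  by_cases hev : IsEven x.1
  · refine hlt x hev fun i => ?_
    have := hx i
    constructor <;> omega
  · have hadj := (τ.2 x).1
    have hev' := even_or _ hadj hev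
    have hb : ∀ i, (-2 : ℤ) ≤ τ.1 x i ∧ τ.1 x i < n + 2 := by
      intro i
      have h1 := hx i
      have h2 : |x.1 i - τ.1 x i| ≤ 1 := by
        unfold Adj at hadj
        have h0 := abs_nonneg (x.1 0 - τ.1 x 0)
        have h1 := abs_nonneg (x.1 1 - τ.1 x 1)
        have h2 := abs_nonneg (x.1 2 - τ.1 x 2)
        fin_cases i
        · simp only [Fin.zero_eta]; omega
        · simp only [Fin.mk_one]; omega
        · simp only [Fin.reduceFinMk]; omega
      rw [abs_le] at h2
      constructor <;> omega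
    have h1 := hlt _ hev' hb
    have h2 : τ'.1 (τ.1 x) = x := by
      rw [lt_spec τ' (τ.1 x), ← h1, ← lt_spec τ (τ.1 x)]
      exact (τ.2 x).2
    have h3 : τ'.1 x = τ.1 x := by
      have h4 := (τ'.2 (τ.1 x)).2
      rw [h2] at h4
      exact h4
    rw [lt_eq_iff, ← h3]
    exact lt_spec τ' x

theorem upper (μ : Measure Tiling) [IsProbabilityMeasure μ] (h : IsEvenInvariant μ) (n : ℕ) :
    shannon μ (latticeCube n) ≤ HF (μ.map toCfg) (pre bmap bmap_inj (n + 4)) := by
  classical
  obtain ⟨w, hw⟩ : ∃ w, bmap w = (fun _ => 2 : V 3) := (even_iff _).1 (by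
    unfold IsEven
    exact ⟨3, by norm_num⟩)
  have hinv := inv_toCfg h
  have h1 := HF_shift (μ.map toCfg) (-w) (pre bmap bmap_inj (n + 4))
  rw [hinv.map] at h1
  rw [h1]
  refine upper' μ _ n fun u hu => ?_
  rw [Finset.mem_image]
  refine ⟨u + w, ?_, by abel⟩
  rw [mem_pre, mem_box]
  intro i
  rw [map_add, hw]
  have := hu i
  simp only [Pi.add_apply]
  push_cast
  constructor <;> omega

theorem card_even (n : ℕ) : 2 * (n : ℤ) ^ 3 ≤ 2 * ((pre bmap bmap_inj n).card : ℤ) + (n + 1) ^ 3 ∧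
    2 * ((pre bmap bmap_inj n).card : ℤ) ≤ (n + 1) ^ 3 := by
  classical
  have hE : ∀ n, (pre bmap bmap_inj n).card = ((box 3 n).filter fun x => IsEven x).card := by
    intro n
    rw [← Finset.card_image_of_injective _ bmap_inj]
    congr 1
    ext x
    rw [Finset.mem_image, Finset.mem_filter]
    constructor
    · rintro ⟨u, hu, rfl⟩
      exact ⟨(mem_pre n u).1 hu, (even_iff _).2 ⟨u, rfl⟩⟩
    · rintro ⟨hx, hev⟩
      obtain ⟨u, rfl⟩ := (even_iff x).1 hev
      exact ⟨u, (mem_pre n u).2 hx, rfl⟩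
  have htot : ∀ n, ((box 3 n).filter fun x => IsEven x).card +
      ((box 3 n).filter fun x => ¬ IsEven x).card = n ^ 3 := by
    intro n
    rw [Finset.card_filter_add_card_filter_not, card_box]
  have hsh : ∀ n (x : V 3), x ∈ box 3 n → x + ![1, 0, 0] ∈ box 3 (n + 1) := by
    intro n x hx
    rw [mem_box] at hx ⊢
    intro i
    have := hx i
    fin_cases i <;> simp at this ⊢ <;> omega
  have hpar : ∀ x : V 3, IsEven (x + ![1, 0, 0]) ↔ ¬ IsEven x := by
    intro x
    unfold IsEven
    have h1 : (x + ![1, 0, 0] : V 3) 0 + (x + ![1, 0, 0] : V 3) 1 + (x + ![1, 0, 0] : V 3) 2 =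
        x 0 + x 1 + x 2 + 1 := by
      simp
      ring
    rw [h1, Int.even_add_one]
  have h1 : ((box 3 n).filter fun x => IsEven x).card ≤
      ((box 3 (n + 1)).filter fun x => ¬ IsEven x).card := by
    refine Finset.card_le_card_of_injOn (fun x => x + ![1, 0, 0]) ?_ (fun a _ b _ hab => add_right_cancel hab)
    intro x hx
    rw [Finset.mem_coe, Finset.mem_filter] at hx
    rw [Finset.mem_coe, Finset.mem_filter]
    refine ⟨hsh n x hx.1, ?_⟩
    rw [hpar, not_not]
    exact hx.2
  have h2 : ((box 3 n).filter fun x => ¬ IsEven x).card ≤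
      ((box 3 (n + 1)).filter fun x => IsEven x).card := by
    refine Finset.card_le_card_of_injOn (fun x => x + ![1, 0, 0]) ?_ (fun a _ b _ hab => add_right_cancel hab)
    intro x hx
    rw [Finset.mem_coe, Finset.mem_filter] at hx
    rw [Finset.mem_coe, Finset.mem_filter]
    exact ⟨hsh n x hx.1, (hpar x).2 hx.2⟩
  have hsub : (box 3 n : Finset (V 3)) ⊆ box 3 (n + 1) := by
    intro x hx
    rw [mem_box] at hx ⊢
    intro i
    have := hx i
    push_cast
    constructor <;> omega
  have h3 : ((box 3 n).filter fun x => IsEven x).card ≤ ((box 3 (n + 1)).filter fun x => IsEven x).card :=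
    Finset.card_le_card (Finset.filter_subset_filter _ hsub)
  have h4 := card_preS_add bmap bmap_inj (box 3 n) (box 3 (n + 1)) hsub
  have h5 : ∀ n, (preS bmap bmap_inj (box 3 n)).card = ((box 3 n).filter fun x => IsEven x).card := hE
  rw [h5, h5, card_box, card_box] at h4
  have h6 := htot n
  have h7 := htot (n + 1)
  rw [hE n]
  generalize ((box 3 n).filter fun x => IsEven x).card = e at *
  generalize ((box 3 (n + 1)).filter fun x => IsEven x).card = e' at *
  generalize ((box 3 n).filter fun x => ¬ IsEven x).card = o at *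
  generalize ((box 3 (n + 1)).filter fun x => ¬ IsEven x).card = o' at *
  have h8 : ((n : ℤ) ^ 3) = ((n ^ 3 : ℕ) : ℤ) := by push_cast; ring
  have h9 : (((n : ℤ) + 1) ^ 3) = (((n + 1) ^ 3 : ℕ) : ℤ) := by push_cast; ring
  rw [h8, h9]
  constructor <;> omega

theorem card_lim : Tendsto (fun n : ℕ => ((pre bmap bmap_inj n).card : ℝ) / (n : ℝ) ^ 3) atTop
    (𝓝 (1 / 2)) := by
  have h1 := (lim_ratio 1 3).const_mul (1 / 2 : ℝ)
  have h2 : Tendsto (fun n : ℕ => 1 - 1 / 2 * (((n : ℝ) + 1) / n) ^ 3) atTop (𝓝 (1 - 1 / 2 * 1)) :=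
    tendsto_const_nhds.sub h1
  have e1 : (1 - 1 / 2 * 1 : ℝ) = 1 / 2 := by norm_num
  rw [e1] at h2
  rw [mul_one] at h1
  refine tendsto_of_tendsto_of_tendsto_of_le_of_le' h2 h1 ?_ ?_
  · filter_upwards [eventually_gt_atTop 0] with n hn
    have hn0 : (0 : ℝ) < n := by exact_mod_cast hn
    have h3 := (card_even n).1
    have h4 : 2 * (n : ℝ) ^ 3 ≤ 2 * ((pre bmap bmap_inj n).card : ℝ) + (n + 1) ^ 3 := by
      exact_mod_cast h3
    rw [div_pow, le_div_iff₀ (by positivity)]
    field_simp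
    linarith
  · filter_upwards [eventually_gt_atTop 0] with n hn
    have hn0 : (0 : ℝ) < n := by exact_mod_cast hn
    have h3 := (card_even n).2
    have h4 : 2 * ((pre bmap bmap_inj n).card : ℝ) ≤ (n + 1) ^ 3 := by
      exact_mod_cast h3
    rw [div_pow, div_le_iff₀ (by positivity)]
    field_simp
    linarith

end TEntAux

theorem hasEntropy {μ : Measure Tiling} [IsProbabilityMeasure μ] (h : IsEvenInvariant μ) :
    HasEntropy μ (hent (μ.map toCfg) / 2) := by
  have hinv := inv_toCfg h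
  have hprob := hinv.prob
  have hr : ∀ w : V 3, ∃ u, bmap u = ((2 : ℕ) : ℤ) • w := by
    intro w
    refine (even_iff _).1 ?_
    unfold IsEven
    refine ⟨w 0 + w 1 + w 2, ?_⟩
    simp only [Pi.smul_apply, smul_eq_mul]
    push_cast
    ring
  have hs := shape (by norm_num) bmap bmap_inj 2 (by norm_num) hr (μ.map toCfg) hinv.map
  have hc := TEntAux.card_lim
  have h1 : Tendsto (fun n : ℕ => HF (μ.map toCfg) (pre bmap bmap_inj n) / (n : ℝ) ^ 3) atTop
      (𝓝 (hent (μ.map toCfg) / 2)) := by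
    have h2 := hs.mul hc
    have e1 : hent (μ.map toCfg) * (1 / 2) = hent (μ.map toCfg) / 2 := by ring
    rw [e1] at h2
    refine h2.congr' ?_
    have h3 : ∀ᶠ n : ℕ in atTop, 0 < ((pre bmap bmap_inj n).card : ℝ) / (n : ℝ) ^ 3 :=
      hc.eventually_const_lt (by norm_num)
    filter_upwards [h3] with n hn
    have h4 : ((pre bmap bmap_inj n).card : ℝ) ≠ 0 := by
      intro h5
      rw [h5, zero_div] at hn
      exact lt_irrefl _ hn
    rw [div_mul_div_comm, mul_comm ((pre bmap bmap_inj n).card : ℝ), mul_div_mul_right _ _ h4]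
  have h2 : Tendsto (fun n : ℕ => HF (μ.map toCfg) (pre bmap bmap_inj (n + 4)) / (n : ℝ) ^ 3) atTop
      (𝓝 (hent (μ.map toCfg) / 2)) := by
    have h3 := (h1.comp (tendsto_add_atTop_nat 4)).mul (lim_ratio 4 3)
    rw [mul_one] at h3
    refine h3.congr' ?_
    filter_upwards [eventually_gt_atTop 0] with n hn
    have hn0 : (n : ℝ) ≠ 0 := by exact_mod_cast hn.ne'
    have hn4 : ((n : ℝ) + 4) ≠ 0 := by positivity
    simp only [Function.comp_apply]
    push_cast
    rw [div_pow, div_mul_div_comm, mul_comm (((n : ℝ) + 4) ^ 3),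
      mul_div_mul_right _ _ (pow_ne_zero 3 hn4)]
  unfold HasEntropy
  refine tendsto_of_tendsto_of_tendsto_of_le_of_le h1 h2 ?_ ?_
  · intro n
    exact div_le_div_of_nonneg_right (TEntAux.lower μ n) (by positivity)
  · intro n
    exact div_le_div_of_nonneg_right (TEntAux.upper μ h n) (by positivity)

end Helper15.DE
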