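import Pool.Agent.Helper15.DE.Defs
import Pool.Agent.Helper15.DE.PhBasic
import Pool.Agent.Helper15.DE.PhMeas
import Pool.Agent.Helper15.DE.Tiling
import Pool.Agent.Helper15.DE.TCfg
import Pool.Agent.Helper15.DE.TInv
import Pool.Agent.Helper10.DE.X.Defs
import Pool.Agent.Helper10.DE.ET.Defs

/-!
Module DE-XI5 (invariance under all pattern exchanges implies the Gibbs property).
Fix `Λ`, `σ`, `B` as in `IsGibbs`, `μ = m.map fromCfg`.  For tilings `τ, τ'` that agree outside `Λ` put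
`F = {u | bmap u ∈ Λ}` (finite) and `a = toCfg τ`, `b = toCfg τ'`.  Then `Same st3 F a b` (the maps
`mv st3 a`, `mv st3 b` are bijections which agree off `F`), and
`pswap F a b (toCfg ρ) = toCfg ρ'` where, for a tiling `ρ` with `ρ = τ` on `Λ` for which the pattern of
`τ'` is a completion, `ρ'` is `ρ` with the pattern of `τ'` on `Λ`.
For two patterns `τ, τ'` on `Λ` (finitely many patterns occur) call them equivalent if
`τ` and `τ'` map `Λ` in the same way outside: precisely, some tilings `ρ, ρ'` agree outside `Λ`, `ρ = τ` and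
`ρ' = τ'` on `Λ`; then for EVERY tiling `ρ` with `ρ = τ` on `Λ` there is `ρ'` with `ρ' = τ'` on `Λ`, `ρ' = ρ`
off `Λ` (the set of `x ∈ Λ` matched outside `Λ`, and their partners, are the same for `τ` and `τ'`:
for `x ∈ Λ` with `τ x ∉ Λ` the partner `y = τ x ∉ Λ` has `ρ y = x`, hence `ρ' y = x`, `τ' x = y`).
(1) For equivalent patterns: `μ (B ∩ {ρ = τ on Λ}) = μ (B ∩ {ρ = τ' on Λ})`, because the exchange map
preserves `μ` (`hsw`), maps one event onto the other (on admissible configurations), and `B` only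
depends on the tiling outside `Λ`.
(2) The event `{ρ | some completion of ρ has the pattern of σ on Λ}` is the disjoint union of the events
`{ρ = τ on Λ}` over the (finitely many) patterns `τ` equivalent to `σ`; on it
`Nat.card (Completions Λ ρ)` is the number `N` of the patterns equivalent to `σ`.  So the right side is
`N⁻¹ ∑_τ μ (B ∩ {ρ = τ on Λ}) = μ (B ∩ {ρ = σ on Λ})`.
-/

open MeasureTheory Filter Topology Helper15.Dimer

namespace Helper15.DE

namespace TGibbsAux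

/-- Two tilings have the same matches between `Λ` and its complement. -/
def R (Λ : Finset Z3) (τ ρ : Tiling) : Prop :=
  ∀ x ∈ Λ, ∀ y, y ∉ Λ → (τ.1 x = y ↔ ρ.1 x = y)

variable {Λ : Finset Z3}

theorem R_symm {τ ρ : Tiling} (h : R Λ τ ρ) : R Λ ρ τ := fun x hx y hy => (h x hx y hy).symm

theorem R_trans {τ ρ κ : Tiling} (h : R Λ τ ρ) (h' : R Λ ρ κ) : R Λ τ κ :=
  fun x hx y hy => (h x hx y hy).trans (h' x hx y hy)

theorem R_of_on {τ ρ : Tiling} (h : ∀ x ∈ Λ, τ.1 x = ρ.1 x) : R Λ τ ρ := by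
  intro x hx y _
  rw [h x hx]

theorem R_of_off {τ ρ : Tiling} (h : ∀ x, x ∉ Λ → τ.1 x = ρ.1 x) : R Λ τ ρ := by
  intro x _ y hy
  constructor
  · intro hxy
    have h1 : τ.1 y = x := by rw [← hxy]; exact (τ.2 x).2
    have h2 : ρ.1 y = x := by rw [← h y hy]; exact h1
    rw [← h2]
    exact (ρ.2 y).2
  · intro hxy
    have h1 : ρ.1 y = x := by rw [← hxy]; exact (ρ.2 x).2
    have h2 : τ.1 y = x := by rw [h y hy]; exact h1
    rw [← h2]
    exact (τ.2 y).2

theorem exists_glue {τ ρ : Tiling} (h : R Λ τ ρ) :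
    ∃ κ : Tiling, (∀ x ∈ Λ, κ.1 x = τ.1 x) ∧ ∀ x, x ∉ Λ → κ.1 x = ρ.1 x := by
  refine ⟨⟨fun x => if x ∈ Λ then τ.1 x else ρ.1 x, fun x => ?_⟩, ?_, ?_⟩
  · by_cases hx : x ∈ Λ
    · simp only [hx, if_true]
      refine ⟨(τ.2 x).1, ?_⟩
      by_cases hy : τ.1 x ∈ Λ
      · simp only [hy, if_true]
        exact (τ.2 x).2
      · simp only [hy, if_false]
        have h1 : ρ.1 x = τ.1 x := (h x hx _ hy).1 rfl
        rw [← h1]
        exact (ρ.2 x).2
    · simp only [hx, if_false]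
      refine ⟨(ρ.2 x).1, ?_⟩
      by_cases hy : ρ.1 x ∈ Λ
      · simp only [hy, if_true]
        exact (h _ hy x hx).2 (ρ.2 x).2
      · simp only [hy, if_false]
        exact (ρ.2 x).2
  · intro x hx
    simp only [hx, if_true]
  · intro x hx
    simp only [hx, if_false]

theorem comp_iff (σ τ : Tiling) :
    (∃ ρ ∈ Completions Λ τ, ∀ x ∈ Λ, ρ.1 x = σ.1 x) ↔ R Λ σ τ := by
  constructor
  · rintro ⟨ρ, h1, h2⟩
    exact R_trans (R_symm (R_of_on h2)) (R_of_off h1)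
  · intro h
    obtain ⟨κ, h1, h2⟩ := exists_glue h
    exact ⟨κ, h2, h1⟩

/-- The pattern on `Λ`. -/
def pt (Λ : Finset Z3) (τ : Tiling) : Λ → Z3 := fun x => τ.1 x

/-- The patterns equivalent to that of `σ`. -/
def pats (Λ : Finset Z3) (σ : Tiling) : Set (Λ → Z3) := {q | ∃ ρ : Tiling, R Λ ρ σ ∧ pt Λ ρ = q}

theorem adj_finite (x : Z3) : {y : Z3 | Adj x y}.Finite := by
  refine Set.Finite.subset
    (Fintype.piFinset fun i => Finset.Icc (x i - 1) (x i + 1)).finite_toSet ?_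
  intro y hy
  have hy' : |x 0 - y 0| + |x 1 - y 1| + |x 2 - y 2| = 1 := hy
  have h0 := abs_nonneg (x 0 - y 0)
  have h1 := abs_nonneg (x 1 - y 1)
  have h2 := abs_nonneg (x 2 - y 2)
  rw [Finset.mem_coe, Fintype.mem_piFinset]
  intro i
  have hi : |x i - y i| ≤ 1 := by
    fin_cases i
    · change |x 0 - y 0| ≤ 1
      linarith
    · change |x 1 - y 1| ≤ 1
      linarith
    · change |x 2 - y 2| ≤ 1
      linarith
  rw [Finset.mem_Icc]
  have := abs_le.1 hi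
  constructor <;> linarith [this.1, this.2]

theorem pats_finite (σ : Tiling) : (pats Λ σ).Finite := by
  refine Set.Finite.subset (Set.Finite.pi' fun x : Λ => adj_finite (x : Z3)) ?_
  rintro q ⟨ρ, _, rfl⟩ x
  exact (ρ.2 x).1

theorem card_comp {σ τ : Tiling} (h : R Λ σ τ) :
    Nat.card (Completions Λ τ) = Nat.card (pats Λ σ) := by
  refine Nat.card_congr (Equiv.ofBijective
    (fun ρ => ⟨pt Λ ρ.1, ρ.1, R_trans (R_of_off ρ.2) (R_symm h), rfl⟩) ⟨?_, ?_⟩)
  · rintro ⟨ρ, hρ⟩ ⟨κ, hκ⟩ he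
    have he' : pt Λ ρ = pt Λ κ := congrArg Subtype.val he
    refine Subtype.ext (Subtype.ext (funext fun x => ?_))
    change ρ.1 x = κ.1 x
    by_cases hx : x ∈ Λ
    · exact congrFun he' ⟨x, hx⟩
    · rw [hρ x hx, hκ x hx]
  · rintro ⟨q, ρ, hρ, rfl⟩
    obtain ⟨κ, h1, h2⟩ := exists_glue (R_trans hρ h)
    refine ⟨⟨κ, h2⟩, ?_⟩
    refine Subtype.ext (funext fun x => ?_)
    exact h1 x x.2

theorem meas_coord (x y : Z3) : MeasurableSet {τ : Tiling | τ.1 x = y} := by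
  have h : Measurable fun τ : Tiling => τ.1 x := (measurable_pi_apply x).comp measurable_subtype_coe
  exact h (measurableSet_singleton y)

theorem meas_pt (q : Λ → Z3) : MeasurableSet {τ : Tiling | pt Λ τ = q} := by
  have : {τ : Tiling | pt Λ τ = q} = ⋂ x : Λ, {τ : Tiling | τ.1 x = q x} := by
    ext τ
    simp only [Set.mem_ofPred_eq, Set.mem_iInter]
    exact funext_iff
  rw [this]
  exact MeasurableSet.iInter fun x => meas_coord _ _

theorem on_eq (σ : Tiling) : {τ : Tiling | ∀ x ∈ Λ, τ.1 x = σ.1 x} = {τ | pt Λ τ = pt Λ σ} := by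
  ext τ
  simp only [Set.mem_ofPred_eq]
  constructor
  · intro h
    exact funext fun x => h x x.2
  · intro h x hx
    exact congrFun h ⟨x, hx⟩

theorem image_eq {f g : V 3 → V 3} (hf : Function.Bijective f) (hg : Function.Bijective g)
    (F : Finset (V 3)) (h : ∀ u, u ∉ F → f u = g u) : F.image f ⊆ F.image g := by
  intro z hz
  obtain ⟨u, hu, rfl⟩ := Finset.mem_image.1 hz
  obtain ⟨w, hw⟩ := hg.2 (f u)
  refine Finset.mem_image.2 ⟨w, ?_, hw⟩
  by_contra hwF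
  have : w = u := hf.1 ((h w hwF).trans hw)
  exact hwF (this ▸ hu)

theorem toCfg_congr {τ ρ : Tiling} {u : V 3} (h : τ.1 (bmap u) = ρ.1 (bmap u)) :
    toCfg τ u = toCfg ρ u := by
  rw [toCfg_spec, h]
  exact (toCfg_spec ρ u _).1 rfl

theorem le_swap {m : Measure (V 3 → Fin 6)} (h : Inv (Cfg st3) m)
    (hsw : ∀ (F : Finset (V 3)) (a b : V 3 → Fin 6), Same st3 F a b → m.map (pswap F a b) = m)
    {B : Set Tiling} (hB : MeasurableSet B)
    (hBL : ∀ τ τ' : Tiling, (∀ x, x ∉ Λ → τ.1 x = τ'.1 x) → (τ ∈ B ↔ τ' ∈ B))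
    {τ₁ τ₂ : Tiling} (hR : R Λ τ₁ τ₂) :
    m.map fromCfg (B ∩ {τ | pt Λ τ = pt Λ τ₁}) ≤ m.map fromCfg (B ∩ {τ | pt Λ τ = pt Λ τ₂}) := by
  classical
  obtain ⟨τ₃, h3on, h3off⟩ := exists_glue (R_symm hR)
  have hprob := h.prob
  set F : Finset (V 3) := Λ.preimage bmap bmap_inj.injOn with hF
  have hmem : ∀ u, u ∈ F ↔ bmap u ∈ Λ := fun u => Finset.mem_preimage
  have hab : ∀ u, u ∉ F → toCfg τ₁ u = toCfg τ₃ u := by
    intro u hu
    exact toCfg_congr (h3off _ (fun hh => hu ((hmem u).2 hh))).symm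
  have hbij1 : Function.Bijective (mv st3 (toCfg τ₁)) := toCfg_mem τ₁
  have hbij3 : Function.Bijective (mv st3 (toCfg τ₃)) := toCfg_mem τ₃
  have hmv : ∀ u, u ∉ F → mv st3 (toCfg τ₁) u = mv st3 (toCfg τ₃) u := by
    intro u hu
    unfold mv
    rw [hab u hu]
  have hsame : Same st3 F (toCfg τ₁) (toCfg τ₃) :=
    ⟨hbij1.1.injOn, hbij3.1.injOn, Finset.Subset.antisymm (image_eq hbij1 hbij3 F hmv)
      (image_eq hbij3 hbij1 F fun u hu => (hmv u hu).symm)⟩
  have hm := hsw F _ _ hsame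
  have hae : AEMeasurable (pswap F (toCfg τ₁) (toCfg τ₃)) m := by
    refine AEMeasurable.of_map_ne_zero ?_
    rw [hm]
    exact IsProbabilityMeasure.ne_zero m
  have key : ∀ ω ∈ Cfg st3, fromCfg ω ∈ B ∩ {τ | pt Λ τ = pt Λ τ₁} →
      fromCfg (pswap F (toCfg τ₁) (toCfg τ₃) ω) ∈ B ∩ {τ | pt Λ τ = pt Λ τ₂} := by
    rintro ω hω ⟨hρB, hρ1⟩
    have hρ := toCfg_fromCfg hω
    have hon : ∀ x ∈ Λ, (fromCfg ω).1 x = τ₁.1 x := fun x hx => congrFun hρ1 ⟨x, hx⟩
    have hωa : ∀ u ∈ F, ω u = toCfg τ₁ u := by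
      intro u hu
      rw [← hρ]
      exact toCfg_congr (hon _ ((hmem u).1 hu))
    obtain ⟨κ, hκ1, hκ2⟩ := exists_glue (R_trans (R_symm hR) (R_symm (R_of_on hon)))
    have hκ : toCfg κ = pswap F (toCfg τ₁) (toCfg τ₃) ω := by
      unfold pswap
      rw [if_pos hωa]
      funext u
      by_cases hu : u ∈ F
      · simp only [hu, if_true]
        refine toCfg_congr ?_
        rw [hκ1 _ ((hmem u).1 hu), h3on _ ((hmem u).1 hu)]
      · simp only [hu, if_false]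
        have h5 : toCfg κ u = toCfg (fromCfg ω) u :=
          toCfg_congr (hκ2 _ fun hh => hu ((hmem u).2 hh))
        rw [h5, hρ]
    rw [← hκ, fromCfg_toCfg]
    exact ⟨(hBL κ _ hκ2).2 hρB, funext fun x => hκ1 x x.2⟩
  have hE1 : MeasurableSet (B ∩ {τ : Tiling | pt Λ τ = pt Λ τ₁}) := hB.inter (meas_pt _)
  have hE2 : MeasurableSet (B ∩ {τ : Tiling | pt Λ τ = pt Λ τ₂}) := hB.inter (meas_pt _)
  rw [Measure.map_apply measurable_fromCfg hE1, Measure.map_apply measurable_fromCfg hE2]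
  calc m (fromCfg ⁻¹' (B ∩ {τ | pt Λ τ = pt Λ τ₁}))
      ≤ m (pswap F (toCfg τ₁) (toCfg τ₃) ⁻¹' (fromCfg ⁻¹' (B ∩ {τ | pt Λ τ = pt Λ τ₂}))) := by
        refine measure_mono_ae ?_
        filter_upwards [h.supp] with ω hω h1
        exact key ω hω h1
    _ = (m.map (pswap F (toCfg τ₁) (toCfg τ₃))) (fromCfg ⁻¹' (B ∩ {τ | pt Λ τ = pt Λ τ₂})) :=
        (Measure.map_apply_of_aemeasurable hae (measurable_fromCfg hE2)).symm
    _ = m (fromCfg ⁻¹' (B ∩ {τ | pt Λ τ = pt Λ τ₂})) := by rw [hm]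

end TGibbsAux

theorem gibbs_of_swap {m : Measure (V 3 → Fin 6)} (h : Inv (Cfg st3) m)
    (hsw : ∀ (F : Finset (V 3)) (a b : V 3 → Fin 6), Same st3 F a b → m.map (pswap F a b) = m) :
    IsGibbs (m.map fromCfg) := by
  classical
  intro Λ σ B hB hBL
  set μ := m.map fromCfg with hμ
  have hfin : (TGibbsAux.pats Λ σ).Finite := TGibbsAux.pats_finite σ
  set N : ℕ := Nat.card (TGibbsAux.pats Λ σ) with hN
  have hself : TGibbsAux.pt Λ σ ∈ TGibbsAux.pats Λ σ :=
    ⟨σ, TGibbsAux.R_of_on fun _ _ => rfl, rfl⟩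
  have hN0 : N ≠ 0 := by
    have := hfin.to_subtype
    have : Nonempty (TGibbsAux.pats Λ σ) := ⟨⟨_, hself⟩⟩
    exact Nat.card_pos.ne'
  have hunif : ∀ τ, uniformCompletion Λ σ τ =
      Set.indicator {τ | TGibbsAux.R Λ σ τ} (fun _ => (N : ENNReal)⁻¹) τ := by
    intro τ
    unfold uniformCompletion
    by_cases hR : TGibbsAux.R Λ σ τ
    · rw [if_pos ((TGibbsAux.comp_iff σ τ).2 hR), Set.indicator_of_mem (by exact hR),
        TGibbsAux.card_comp hR]
    · rw [if_neg (fun hh => hR ((TGibbsAux.comp_iff σ τ).1 hh)),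
        Set.indicator_of_notMem (by exact hR)]
  have hset : {τ | TGibbsAux.R Λ σ τ} =
      ⋃ q ∈ hfin.toFinset, {τ : Tiling | TGibbsAux.pt Λ τ = q} := by
    ext τ
    simp only [Set.mem_ofPred_eq, Set.mem_iUnion, Set.Finite.mem_toFinset, exists_prop]
    constructor
    · intro hR
      exact ⟨_, ⟨τ, TGibbsAux.R_symm hR, rfl⟩, rfl⟩
    · rintro ⟨q, ⟨ρ, hρ, hρq⟩, hq⟩
      have h1 : TGibbsAux.R Λ τ ρ := TGibbsAux.R_of_on fun x hx =>
        congrFun (hq.trans hρq.symm) ⟨x, hx⟩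
      exact TGibbsAux.R_symm (TGibbsAux.R_trans h1 hρ)
  have hms : MeasurableSet {τ | TGibbsAux.R Λ σ τ} := by
    rw [hset]
    exact Finset.measurableSet_biUnion _ fun q _ => TGibbsAux.meas_pt q
  have hR : ∫⁻ τ in B, uniformCompletion Λ σ τ ∂μ =
      (N : ENNReal)⁻¹ * μ (B ∩ {τ | TGibbsAux.R Λ σ τ}) := by
    simp_rw [hunif]
    rw [lintegral_indicator_const hms, Measure.restrict_apply hms, Set.inter_comm]
  have hsum : μ (B ∩ {τ | TGibbsAux.R Λ σ τ}) =
      ∑ q ∈ hfin.toFinset, μ (B ∩ {τ : Tiling | TGibbsAux.pt Λ τ = q}) := by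
    rw [hset, Set.inter_iUnion₂, measure_biUnion_finset]
    · intro q _ q' _ hqq
      rw [Function.onFun, Set.disjoint_left]
      rintro τ ⟨_, h1⟩ ⟨_, h2⟩
      exact hqq (h1.symm.trans h2)
    · exact fun q _ => hB.inter (TGibbsAux.meas_pt q)
  have hterm : ∀ q ∈ hfin.toFinset, μ (B ∩ {τ : Tiling | TGibbsAux.pt Λ τ = q}) =
      μ (B ∩ {τ : Tiling | TGibbsAux.pt Λ τ = TGibbsAux.pt Λ σ}) := by
    intro q hq
    obtain ⟨ρ, hρ, rfl⟩ := hfin.mem_toFinset.1 hq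
    exact le_antisymm (TGibbsAux.le_swap h hsw hB hBL hρ)
      (TGibbsAux.le_swap h hsw hB hBL (TGibbsAux.R_symm hρ))
  have hcard : hfin.toFinset.card = N := by
    rw [hN, Nat.card_coe_set_eq, Set.ncard_eq_toFinset_card _ hfin]
  rw [hR, hsum, Finset.sum_congr rfl hterm, Finset.sum_const, hcard, nsmul_eq_mul, ← mul_assoc,
    ENNReal.inv_mul_cancel (by exact_mod_cast hN0) (ENNReal.natCast_ne_top N), one_mul,
    TGibbsAux.on_eq]

end Helper15.DE
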