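import Pool.Agent.Helper15.DE.Defs
import Pool.Agent.Helper15.DE.PhBasic
import Pool.Agent.Helper15.DE.PhMeas
import Pool.Agent.Helper15.DE.FlipsDet

/-!
Module DE-VI5 (decoding; deterministic).  Let `χ x` say that `x` is swapped in `flips st ω κ`, i.e.
`InfOrb (ph st ω) x ∧ κ (rep (ph st ω) x) = true`, and `χ'` the same for `(ω', κ')`.
Let `η = flips st ω κ`, `η' = flips st ω' κ'`, `ψ = ph st η`, `ψ' = ph st η'`; `η = η'` on the box.
Claim `χ x ↔ χ' x` for `x ∈ box d n`.  By symmetry assume `χ x`.  The orbit of `x` under `ψ` is infinite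
(`infOrb_flips`), so it leaves the finite box; let `k` be least with `(ψ^(k+1)) x ∉ box` and
`y = (ψ^k) x ∈ box`.  As `|ψ y i - y i| ≤ R` for all `i`, `y` is in the layer.  For `j ≤ k`,
`(ψ'^j) x = (ψ^j) x`: if `z, ψ z ∈ box` then `mv st (c1 η) z = mv st (c2 η) (ψ z)` (`ph_eq_iff`), the same
holds for `η'`, so `ψ' z = ψ z`.  So `SameCycle ψ x y` and `SameCycle ψ' x y`; by `sameCycle_flips` these
are cycles of `ph st ω`, `ph st ω'`, and `χ`, `χ'` are constant on cycles (`rep_eq_iff`, an element of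
the cycle of `x` is infinite if `x` is).  `χ y ↔ χ' y` by hypothesis, so `χ' x`.
Then `ω x` is `η x` or its swap according to `χ x`, the same for `ω'`.
`card_layer`: the layer is covered by `2 d` slabs of at most `R n^(d-1)` points.
-/

open MeasureTheory Filter Topology

namespace Helper15.DE

variable {d : ℕ} {A : Type}

open Classical in
/-- the points of `[0,n)^d` at distance at most `R` from the complement -/
noncomputable def layer (d n : ℕ) (R : ℤ) : Finset (V d) :=
  (box d n).filter fun x => ∃ i, x i < R ∨ (n : ℤ) - R ≤ x i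

private theorem card_slab (n R : ℕ) (i : Fin d) (S : Finset ℤ) (hS : S.card ≤ R) :
    ((box d n).filter fun x => x i ∈ S).card ≤ R * n ^ (d - 1) := by
  classical
  have h1 : ((box d n).filter fun x => x i ∈ S) ⊆
      Fintype.piFinset fun j => if j = i then S else Finset.Ico (0 : ℤ) n := by
    intro x hx
    rw [Finset.mem_filter, box, Fintype.mem_piFinset] at hx
    rw [Fintype.mem_piFinset]
    intro j
    by_cases hj : j = i
    · rw [if_pos hj, hj]
      exact hx.2
    · rw [if_neg hj]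
      exact hx.1 j
  refine (Finset.card_le_card h1).trans ?_
  rw [Fintype.card_piFinset, ← Finset.mul_prod_erase Finset.univ _ (Finset.mem_univ i), if_pos rfl]
  have h2 : ∏ j ∈ Finset.univ.erase i, (if j = i then S else Finset.Ico (0 : ℤ) n).card =
      n ^ (d - 1) := by
    rw [Finset.prod_congr rfl (g := fun _ => n) fun j hj => by
      rw [if_neg (Finset.ne_of_mem_erase hj), Int.card_Ico]
      simp]
    rw [Finset.prod_const, Finset.card_erase_of_mem (Finset.mem_univ i), Finset.card_univ,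
      Fintype.card_fin]
  rw [h2]
  exact Nat.mul_le_mul_right _ hS

theorem card_layer (hd : 1 ≤ d) (n : ℕ) (R : ℕ) :
    (layer d n R).card ≤ 2 * d * R * n ^ (d - 1) := by
  classical
  have h1 : layer d n R ⊆ Finset.univ.biUnion fun i : Fin d =>
      ((box d n).filter fun x => x i ∈ Finset.Ico (0 : ℤ) R) ∪
        ((box d n).filter fun x => x i ∈ Finset.Ico ((n : ℤ) - R) n) := by
    intro x hx
    rw [layer, Finset.mem_filter] at hx
    obtain ⟨hx, i, hi⟩ := hx
    rw [Finset.mem_biUnion]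
    refine ⟨i, Finset.mem_univ i, ?_⟩
    have hxi : x i ∈ Finset.Ico (0 : ℤ) n := by
      rw [box, Fintype.mem_piFinset] at hx
      exact hx i
    rw [Finset.mem_Ico] at hxi
    rw [Finset.mem_union, Finset.mem_filter, Finset.mem_filter, Finset.mem_Ico, Finset.mem_Ico]
    rcases hi with hi | hi
    · exact Or.inl ⟨hx, hxi.1, hi⟩
    · exact Or.inr ⟨hx, hi, hxi.2⟩
  refine (Finset.card_le_card h1).trans (Finset.card_biUnion_le.trans ?_)
  have h2 : ∀ i : Fin d, (((box d n).filter fun x => x i ∈ Finset.Ico (0 : ℤ) R) ∪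
      ((box d n).filter fun x => x i ∈ Finset.Ico ((n : ℤ) - R) n)).card ≤
      2 * (R * n ^ (d - 1)) := by
    intro i
    refine (Finset.card_union_le _ _).trans ?_
    have h3 := card_slab n R i (Finset.Ico (0 : ℤ) R) (by rw [Int.card_Ico]; simp)
    have h4 := card_slab n R i (Finset.Ico ((n : ℤ) - R) n) (by rw [Int.card_Ico]; simp)
    omega
  refine (Finset.sum_le_sum fun i _ => h2 i).trans ?_
  rw [Finset.sum_const, Finset.card_univ, Fintype.card_fin, smul_eq_mul]
  apply le_of_eq
  ring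

private theorem infOrb_cyc (φ : Equiv.Perm (V d)) {x y : V d} (h : φ.SameCycle x y) :
    InfOrb φ y ↔ InfOrb φ x := by
  obtain ⟨n, rfl⟩ := h
  unfold InfOrb
  refine forall_congr' fun k => imp_congr_right fun _ => not_congr ?_
  have h1 : (φ ^ k) ((φ ^ n) x) = (φ ^ n) ((φ ^ k) x) := by
    rw [← Equiv.Perm.mul_apply, ← Equiv.Perm.mul_apply, ← zpow_natCast, ← zpow_add, ← zpow_add,
      add_comm]
  rw [h1]
  exact (φ ^ n).injective.eq_iff

private theorem orb_leaves (ψ : Equiv.Perm (V d)) {x : V d} (h : InfOrb ψ x)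
    (F : Finset (V d)) : ∃ m : ℕ, (ψ ^ m) x ∉ F := by
  by_contra hno
  push Not at hno
  obtain ⟨a, ha, b, hb, hab, he⟩ := Set.infinite_univ.exists_ne_map_eq_of_mapsTo
    (s := (Set.univ : Set ℕ)) (t := (F : Set (V d))) (f := fun m : ℕ => (ψ ^ m) x)
    (fun m _ => hno m) F.finite_toSet
  wlog hlt : a < b generalizing a b
  · exact this b hb a ha hab.symm he.symm (by omega)
  apply h (b - a) (by omega)
  have h1 : (ψ ^ b) x = (ψ ^ a) ((ψ ^ (b - a)) x) := by
    rw [← Equiv.Perm.mul_apply, ← pow_add]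
    congr 2
    omega
  have h2 : (ψ ^ a) x = (ψ ^ b) x := he
  rw [h1] at h2
  exact ((ψ ^ a).injective h2).symm

private theorem decode_half (st : A → V d) (n : ℕ) (R : ℤ)
    (hR : ∀ (ω : V d → A × A) (x : V d) (i : Fin d), |ph st ω x i - x i| ≤ R)
    {ω ω' : V d → A × A} (h : ω ∈ Cfg2 st) (h' : ω' ∈ Cfg2 st) (κ κ' : V d → Bool)
    (hY : ∀ x ∈ box d n, flips st ω κ x = flips st ω' κ' x)
    (hZ : ∀ x ∈ layer d n R, (InfOrb (ph st ω) x ∧ κ (rep (ph st ω) x) = true) →
      (InfOrb (ph st ω') x ∧ κ' (rep (ph st ω') x) = true)) {x : V d} (hx : x ∈ box d n)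
    (hc : InfOrb (ph st ω) x ∧ κ (rep (ph st ω) x) = true) :
    InfOrb (ph st ω') x ∧ κ' (rep (ph st ω') x) = true := by
  classical
  set η := flips st ω κ with hη
  set η' := flips st ω' κ' with hη'
  have hm : η ∈ Cfg2 st := flips_mem st h κ
  have hm' : η' ∈ Cfg2 st := flips_mem st h' κ'
  have hstep : ∀ z ∈ box d n, ph st η z ∈ box d n → ph st η' z = ph st η z := by
    intro z hz hz'
    rw [ph_eq_iff st hm']
    have h1 := (ph_eq_iff st hm z (ph st η z)).1 rfl
    have h2 : mv st (c1 η') z = mv st (c1 η) z := by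
      unfold mv c1
      rw [hY z hz]
    have h3 : mv st (c2 η') (ph st η z) = mv st (c2 η) (ph st η z) := by
      have h4 := hY _ hz'
      unfold mv c2
      rw [h4]
    rw [h2, h3, h1]
  have hinf : InfOrb (ph st η) x := (infOrb_flips st ω κ x).2 hc.1
  have hex := orb_leaves (ph st η) hinf (box d n)
  obtain ⟨k, hk⟩ : ∃ k, Nat.find hex = k + 1 := by
    refine Nat.exists_eq_succ_of_ne_zero fun h0 => ?_
    have h1 := Nat.find_spec hex
    rw [h0, pow_zero, Equiv.Perm.one_apply] at h1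
    exact h1 hx
  have hin : ∀ j ≤ k, (ph st η ^ j) x ∈ box d n := by
    intro j hj
    have h1 := Nat.find_min hex (m := j) (by omega)
    exact not_not.1 h1
  have hout : (ph st η ^ (k + 1)) x ∉ box d n := by
    have h1 := Nat.find_spec hex
    rw [hk] at h1
    exact h1
  have hsame : ∀ j ≤ k, (ph st η' ^ j) x = (ph st η ^ j) x := by
    intro j
    induction j with
    | zero =>
      intro _
      rw [pow_zero, pow_zero]
    | succ j ih =>
      intro hj
      have h1 := hin (j + 1) hj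
      rw [pow_succ', Equiv.Perm.mul_apply] at h1
      rw [pow_succ', pow_succ', Equiv.Perm.mul_apply, Equiv.Perm.mul_apply, ih (by omega),
        hstep _ (hin j (by omega)) h1]
  set y := (ph st η ^ k) x with hy
  have hyb : y ∈ box d n := hin k le_rfl
  have hyl : y ∈ layer d n R := by
    rw [layer, Finset.mem_filter]
    refine ⟨hyb, ?_⟩
    rw [pow_succ', Equiv.Perm.mul_apply, ← hy, box, Fintype.mem_piFinset] at hout
    push Not at hout
    obtain ⟨i, hi⟩ := hout
    rw [Finset.mem_Ico, not_and_or] at hi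
    have h1 := abs_le.1 (hR η y i)
    refine ⟨i, ?_⟩
    rcases hi with hi | hi
    · left
      omega
    · right
      omega
  have hcyc : (ph st ω).SameCycle x y := by
    rw [← sameCycle_flips st ω κ]
    exact ⟨k, by rw [zpow_natCast]⟩
  have hcyc' : (ph st ω').SameCycle x y := by
    rw [← sameCycle_flips st ω' κ']
    exact ⟨k, by rw [zpow_natCast, ← hη', hsame k le_rfl]⟩
  have h1 := hZ y hyl ⟨(infOrb_cyc _ hcyc).2 hc.1, by rw [← (rep_eq_iff _ _ _).2 hcyc]; exact hc.2⟩
  exact ⟨(infOrb_cyc _ hcyc').1 h1.1, by rw [(rep_eq_iff _ _ _).2 hcyc']; exact h1.2⟩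

theorem decode_det (st : A → V d) (n : ℕ) (R : ℤ)
    (hR : ∀ (ω : V d → A × A) (x : V d) (i : Fin d), |ph st ω x i - x i| ≤ R)
    {ω ω' : V d → A × A} (h : ω ∈ Cfg2 st) (h' : ω' ∈ Cfg2 st) (κ κ' : V d → Bool)
    (hY : ∀ x ∈ box d n, flips st ω κ x = flips st ω' κ' x)
    (hZ : ∀ x ∈ layer d n R, (InfOrb (ph st ω) x ∧ κ (rep (ph st ω) x) = true) ↔
      (InfOrb (ph st ω') x ∧ κ' (rep (ph st ω') x) = true)) :
    ∀ x ∈ box d n, ω x = ω' x := by
  intro x hx
  have h1 : (InfOrb (ph st ω) x ∧ κ (rep (ph st ω) x) = true) ↔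
      (InfOrb (ph st ω') x ∧ κ' (rep (ph st ω') x) = true) :=
    ⟨fun hc => decode_half st n R hR h h' κ κ' hY (fun y hy => (hZ y hy).1) hx hc,
      fun hc => decode_half st n R hR h' h κ' κ (fun y hy => (hY y hy).symm)
        (fun y hy => (hZ y hy).2) hx hc⟩
  have h2 := hY x hx
  unfold flips at h2
  by_cases hc : InfOrb (ph st ω) x ∧ κ (rep (ph st ω) x) = true
  · rw [if_pos hc, if_pos (h1.1 hc)] at h2
    exact Prod.swap_injective h2
  · rw [if_neg hc, if_neg (fun hc' => hc (h1.2 hc'))] at h2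
    exact h2

end Helper15.DE
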