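import Pool.Agent.Helper15.DE.Defs
import Pool.Agent.Helper15.DE.PhBasic
import Pool.Agent.Helper15.DE.PhMeas
import Pool.Agent.Helper15.DE.Coins
import Pool.Agent.Helper15.DE.FlipsDet

/-!
Module DE-VI4 (the law after swapping).  `swLaw st m` is the law of `flips st ω κ`, `(ω, κ)` with law
`m.prod (coins d)`.
`swLaw_inv`: probability measure, carried by `Cfg2 st` (`flips_mem`).  Shift invariance: for
measurable `B`, `swLaw st m (shift v ⁻¹ B) = ∫⁻ ω, coins {κ | shift v (flips st ω κ) ∈ B} ∂m`.  For fixed
`ω` put `G χ x = if InfOrb (ph st (shift v ω)) x ∧ χ x = true then (shift v ω x).swap else shift v ω x`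
(measurable in `χ`).  By `shift_flips`, `shift v (flips st ω κ) = G (κ ∘ r')` with
`r' y = rep (ph st ω) (y + v)`, and `flips st (shift v ω) κ = G (κ ∘ r)` with
`r = rep (ph st (shift v ω))`.  By `rep_eq_iff` and `sameCycle_shift`, `r y = r z ↔ r' y = r' z`, so
`coins_comp` gives `coins {κ | shift v (flips st ω κ) ∈ B} = coins {κ | flips st (shift v ω) κ ∈ B}`.
Integrate and use the invariance of `m`.
`swLaw_rev`: for fixed `ω`, by `rev_flips`, `coins {κ | rev st x (flips st ω κ) ∈ B} =
coins {κ | flips st ω (update κ z (!κ z)) ∈ B} = coins {κ | flips st ω κ ∈ B}` (`coins_flip`).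
`mean_swLaw`, `DC_swLaw`: by `chg2_flips` the integrands are functions of `ω` only (`integral_map`,
`integral_prod`).  `vel_swLaw`: `hasVel_flips_zero`.
-/

open MeasureTheory Filter Topology

namespace Helper15.DE

variable {d : ℕ} {A : Type} [Finite A] [MeasurableSpace A] [MeasurableSingletonClass A]

private theorem swLaw_apply (st : A → V d) {m : Measure (V d → A × A)} [IsProbabilityMeasure m]
    {B : Set (V d → A × A)} (hB : MeasurableSet B) :
    swLaw st m B = ∫⁻ ω, (coins d) {κ | flips st ω κ ∈ B} ∂m := by
  unfold swLaw
  rw [Measure.map_apply (measurable_flips st) hB]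
  rw [Measure.prod_apply (measurable_flips st hB)]
  rfl

private theorem measurable_flips_snd (st : A → V d) (ω : V d → A × A) :
    Measurable (fun κ : V d → Bool => flips st ω κ) :=
  (measurable_flips st).comp measurable_prodMk_left

open Classical in
omit [Finite A] [MeasurableSingletonClass A] in
private theorem shift_coins (st : A → V d) (v : V d) (ω : V d → A × A) :
    (coins d).map (fun κ => shift v (flips st ω κ)) =
      (coins d).map (fun κ => flips st (shift v ω) κ) := by
  set G : (V d → Bool) → V d → A × A := fun χ x =>
    if InfOrb (ph st (shift v ω)) x ∧ χ x = true then (shift v ω x).swap else shift v ω x with hG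
  have hGm : Measurable G := by
    refine measurable_pi_lambda _ fun x => ?_
    have : (fun χ : V d → Bool => G χ x) = (fun b : Bool =>
        if InfOrb (ph st (shift v ω)) x ∧ b = true then (shift v ω x).swap else shift v ω x) ∘
        (fun χ : V d → Bool => χ x) := rfl
    rw [this]
    exact (measurable_of_countable _).comp (measurable_pi_apply x)
  have h1 : (fun κ => shift v (flips st ω κ)) =
      G ∘ (fun κ : V d → Bool => κ ∘ fun y => rep (ph st ω) (y + v)) := by
    funext κ
    rw [shift_flips]
    rfl
  have h2 : (fun κ => flips st (shift v ω) κ) =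
      G ∘ (fun κ : V d → Bool => κ ∘ fun y => rep (ph st (shift v ω)) y) := by
    funext κ
    rfl
  have hm : ∀ r : V d → V d, Measurable (fun κ : V d → Bool => κ ∘ r) := fun r =>
    measurable_pi_lambda _ fun x => measurable_pi_apply (r x)
  rw [h1, h2, ← Measure.map_map hGm (hm _), ← Measure.map_map hGm (hm _)]
  rw [coins_comp (fun y => rep (ph st ω) (y + v)) (fun y => rep (ph st (shift v ω)) y)]
  intro x y
  rw [rep_eq_iff, rep_eq_iff, sameCycle_shift]

private theorem integral_swLaw (st : A → V d) {m : Measure (V d → A × A)} [IsProbabilityMeasure m]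
    {f : (V d → A × A) → ℝ} (hf : Measurable f) (hc : ∀ ω κ, f (flips st ω κ) = f ω) :
    ∫ ω, f ω ∂(swLaw st m) = ∫ ω, f ω ∂m := by
  unfold swLaw
  rw [integral_map (measurable_flips st).aemeasurable hf.aestronglyMeasurable]
  simp only [hc]
  rw [integral_fun_fst]
  simp

private theorem measurable_chg2_apply (st : A → V d) (x : V d) (i : Fin d) :
    Measurable (fun ω : V d → A × A => chg2 st (ω x) i) := by
  have h : Measurable (fun a : A × A => chg2 st a i) := measurable_of_countable _
  exact h.comp (measurable_pi_apply x)

theorem swLaw_inv (st : A → V d) {m : Measure (V d → A × A)} (hm : Inv (Cfg2 st) m) :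
    Inv (Cfg2 st) (swLaw st m) := by
  have := hm.prob
  refine ⟨?_, ?_, ?_⟩
  · unfold swLaw
    exact Measure.isProbabilityMeasure_map (measurable_flips st).aemeasurable
  · intro v
    ext B hB
    rw [Measure.map_apply (measurable_shift v) hB, swLaw_apply st (measurable_shift v hB),
      swLaw_apply st hB]
    have hF : Measurable (fun ω : V d → A × A => (coins d) {κ | flips st ω κ ∈ B}) :=
      measurable_measure_prodMk_left (measurable_flips st hB)
    have h1 : ∀ ω : V d → A × A, (coins d) {κ | flips st ω κ ∈ shift v ⁻¹' B} =
        (coins d) {κ | flips st (shift v ω) κ ∈ B} := by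
      intro ω
      have := congrArg (fun μ : Measure (V d → A × A) => μ B) (shift_coins st v ω)
      change (coins d).map (fun κ => shift v (flips st ω κ)) B =
        (coins d).map (fun κ => flips st (shift v ω) κ) B at this
      have hsm : Measurable (fun κ : V d → Bool => shift v (flips st ω κ)) :=
        (measurable_shift v).comp (measurable_flips_snd st ω)
      rw [Measure.map_apply hsm hB, Measure.map_apply (measurable_flips_snd st _) hB] at this
      exact this
    simp only [h1]
    conv_rhs => rw [← hm.map v]
    rw [lintegral_map hF (measurable_shift v)]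
  · unfold swLaw
    refine (ae_map_iff (measurable_flips st).aemeasurable (measurableSet_Cfg2 st)).2 ?_
    have h1 : ∀ᵐ p ∂(m.prod (coins d)), p.1 ∈ Cfg2 st :=
      Measure.quasiMeasurePreserving_fst.ae hm.supp
    filter_upwards [h1] with p hp using flips_mem st hp p.2

theorem swLaw_rev (st : A → V d) {m : Measure (V d → A × A)} (hm : Inv (Cfg2 st) m) (x : V d) :
    (swLaw st m).map (rev st x) = swLaw st m := by
  have := hm.prob
  ext B hB
  rw [Measure.map_apply (measurable_rev st x) hB, swLaw_apply st (measurable_rev st x hB),
    swLaw_apply st hB]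
  refine lintegral_congr fun ω => ?_
  have hu : ∀ z : V d, Measurable (fun κ : V d → Bool => Function.update κ z (!κ z)) := by
    intro z
    refine measurable_pi_lambda _ fun y => ?_
    by_cases hy : y = z
    · subst hy
      simp only [Function.update_self]
      exact (measurable_of_countable (fun b : Bool => !b)).comp (measurable_pi_apply y)
    · simp only [Function.update_of_ne hy]
      exact measurable_pi_apply y
  have h1 : {κ : V d → Bool | flips st ω κ ∈ rev st x ⁻¹' B} =
      (fun κ : V d → Bool => Function.update κ (rep (ph st ω) x) (!κ (rep (ph st ω) x))) ⁻¹'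
        {κ | flips st ω κ ∈ B} := by
    ext κ
    simp only [Set.mem_ofPred_eq, Set.mem_preimage, rev_flips]
  have hS : MeasurableSet {κ : V d → Bool | flips st ω κ ∈ B} := measurable_flips_snd st ω hB
  rw [h1, ← Measure.map_apply (hu _) hS, coins_flip]

theorem mean_swLaw (st : A → V d) {m : Measure (V d → A × A)} (hm : Inv (Cfg2 st) m) :
    mean (chg2 st) (swLaw st m) = mean (chg2 st) m := by
  have := hm.prob
  funext i
  unfold mean
  exact integral_swLaw st (measurable_chg2_apply st 0 i) fun ω κ => by rw [chg2_flips]

theorem DC_swLaw (st : A → V d) {m : Measure (V d → A × A)} (hm : Inv (Cfg2 st) m)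
    {s : Fin d → ℝ} (h : DC (chg2 st) m s) : DC (chg2 st) (swLaw st m) s := by
  have := hm.prob
  intro i
  refine (h i).congr fun n => ?_
  refine (integral_swLaw st ?_ fun ω κ => ?_).symm
  · exact ((Finset.measurable_fun_sum _ fun x _ =>
      measurable_chg2_apply st x i).div_const _ |>.sub_const _).abs
  · simp only [chg2_flips]

theorem vel_swLaw (st : A → V d) {m : Measure (V d → A × A)} (hm : Inv (Cfg2 st) m)
    (h : ¬ ∀ᵐ ω ∂m, HasVel (ph st ω) 0 0) : ¬ ∀ᵐ ω ∂(swLaw st m), HasVel (ph st ω) 0 0 := by
  have := hm.prob
  intro hs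
  apply h
  unfold swLaw at hs
  have h1 := ae_of_ae_map (measurable_flips st).aemeasurable hs
  simp only [hasVel_flips_zero] at h1
  have h2 := Measure.ae_ae_of_ae_prod h1
  filter_upwards [h2] with ω hω
  exact hω.exists.choose_spec

end Helper15.DE
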