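import Pool.Agent.Helper15.DE.Defs
import Pool.Agent.Helper15.DE.PhBasic
import Pool.Agent.Helper15.DE.PhMeas
import Pool.Agent.Helper15.DE.Coins
import Pool.Agent.Helper15.DE.FlipsDet
import Pool.Agent.Helper15.DE.SwLaw
import Pool.Agent.Helper15.DE.SwDecode
import Pool.Agent.Helper10.DE.ET.Ent
import Pool.Agent.Helper10.DE.ET.HFBasic
import Pool.Agent.Helper10.DE.ET.Hent

/-!
Module DE-VI6 (the coin swaps do not decrease the entropy).
Let `P = m.prod (coins d)` and, on pairs `(ω, κ)`, `X = ω` on `box d n`, `Y = flips st ω κ` on `box d n`,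
`Z = ` the function `layer d n R → Bool` telling which points are swapped.  By `decode_det`, `X` is a
function of `(Y, Z)` for `ω ∈ Cfg2 st` (choose a preimage), so `ent_decode`:
`ent P X ≤ ent P Y + log (2 ^ |layer|)`.  `ent P X = HF m (box d n)` and
`ent P Y = HF (swLaw st m) (box d n)` (`HF_eq_ent`, `ent_map`, the first marginal of `P` is `m`).  So
`HF m (box d n) ≤ HF (swLaw st m) (box d n) + 2 d R n^(d-1) log 2`; divide by `n^d`, `hent_tendsto` on both
sides (`d ≥ 1`).
-/

open MeasureTheory Filter Topology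

namespace Helper15.DE

variable {d : ℕ} {A : Type} [Fintype A] [MeasurableSpace A] [MeasurableSingletonClass A]

open Classical in
/-- which points are swapped -/
private noncomputable def zz (st : A → V d) (F : Finset (V d))
    (p : (V d → A × A) × (V d → Bool)) : F → Bool :=
  fun x => decide (InfOrb (ph st p.1) x ∧ p.2 (rep (ph st p.1) x) = true)

private theorem measurable_zz (st : A → V d) (F : Finset (V d)) :
    Measurable (zz st F) := by
  refine measurable_pi_lambda _ fun x => ?_
  refine measurable_to_bool ?_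
  have h1 : (fun p : (V d → A × A) × (V d → Bool) => zz st F p x) ⁻¹' {true} =
      (Prod.fst ⁻¹' {ω | InfOrb (ph st ω) x}) ∩
        ⋃ y : V d, ((Prod.fst ⁻¹' {ω | rep (ph st ω) x = y}) ∩
          {p : (V d → A × A) × (V d → Bool) | p.2 y = true}) := by
    ext p
    simp only [zz, Set.mem_preimage, Set.mem_singleton_iff, decide_eq_true_eq, Set.mem_inter_iff,
      Set.mem_iUnion]
    constructor
    · rintro ⟨h1, h2⟩
      exact ⟨h1, _, rfl, h2⟩
    · rintro ⟨h1, y, h2, h3⟩
      refine ⟨h1, ?_⟩
      have h4 : rep (ph st p.1) x = y := h2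
      rw [h4]
      exact h3
  rw [h1]
  refine (measurable_fst (measurableSet_infOrb st x)).inter (MeasurableSet.iUnion fun y => ?_)
  refine (measurable_fst (measurableSet_rep st x y)).inter ?_
  have h2 : Measurable (fun p : (V d → A × A) × (V d → Bool) => p.2 y) :=
    (measurable_pi_apply y).comp measurable_snd
  exact h2 (measurableSet_singleton true)

private theorem HF_swLaw_le (hd : 1 ≤ d) (st : A → V d) {m : Measure (V d → A × A)}
    (hm : Inv (Cfg2 st) m) (R : ℕ)
    (hR : ∀ (ω : V d → A × A) (x : V d) (i : Fin d), |ph st ω x i - x i| ≤ (R : ℤ)) (n : ℕ) :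
    HF m (box d n) ≤ HF (swLaw st m) (box d n) +
      (2 * d * R * n ^ (d - 1) : ℕ) * Real.log 2 := by
  classical
  have := hm.prob
  set P := m.prod (coins d) with hP
  have hprob : IsProbabilityMeasure P := by rw [hP]; infer_instance
  obtain ⟨p0⟩ : Nonempty ((V d → A × A) × (V d → Bool)) := nonempty_of_isProbabilityMeasure P
  set X : (V d → A × A) × (V d → Bool) → (box d n → A × A) := fun p x => p.1 x with hX
  set Y : (V d → A × A) × (V d → Bool) → (box d n → A × A) := fun p x => flips st p.1 p.2 x with hY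
  have hYm : Measurable Y :=
    (measurable_restr (A := A × A) (box d n)).comp (measurable_flips st)
  have hZm := measurable_zz (A := A) st (layer d n R)
  set g : (box d n → A × A) × (layer d n R → Bool) → (box d n → A × A) := fun q =>
    if h : ∃ p : (V d → A × A) × (V d → Bool), p.1 ∈ Cfg2 st ∧ (Y p, zz st (layer d n R) p) = q
    then X h.choose else X p0 with hg
  have hae : ∀ᵐ p ∂P, X p = g (Y p, zz st (layer d n R) p) := by
    have h1 : ∀ᵐ p ∂P, p.1 ∈ Cfg2 st := Measure.quasiMeasurePreserving_fst.ae hm.supp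
    filter_upwards [h1] with p hp
    have hex : ∃ p' : (V d → A × A) × (V d → Bool), p'.1 ∈ Cfg2 st ∧
      (Y p', zz st (layer d n R) p') = (Y p, zz st (layer d n R) p) := ⟨p, hp, rfl⟩
    simp only [hg]
    rw [dif_pos hex]
    obtain ⟨h2, h3⟩ := hex.choose_spec
    set p' := hex.choose
    have h4 : Y p' = Y p := (Prod.ext_iff.1 h3).1
    have h5 : zz st (layer d n R) p' = zz st (layer d n R) p := (Prod.ext_iff.1 h3).2
    funext x
    refine decode_det st n R hR hp h2 p.2 p'.2 (fun y hy => ?_) (fun y hy => ?_) x x.2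
    · have h6 := congrFun h4 ⟨y, hy⟩
      exact h6.symm
    · have h6 := congrFun h5 ⟨y, hy⟩
      simp only [zz] at h6
      have h7 := decide_eq_decide.1 h6
      exact h7.symm
  have hmain := ent_decode P X Y hYm (zz st (layer d n R)) hZm g hae
  have hXe : ent P X = HF m (box d n) := by
    rw [HF_eq_ent]
    have h1 : P.map Prod.fst = m := by
      rw [hP, Measure.map_fst_prod]
      simp
    have h2 := ent_map P Prod.fst measurable_fst
      (fun (ω : V d → A × A) (x : box d n) => ω x) (measurable_restr (A := A × A) (box d n))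
    rw [h1] at h2
    rw [h2]
    rfl
  have hYe : ent P Y = HF (swLaw st m) (box d n) := by
    rw [HF_eq_ent]
    have h2 := ent_map P (fun p : (V d → A × A) × (V d → Bool) => flips st p.1 p.2)
      (measurable_flips st)
      (fun (ω : V d → A × A) (x : box d n) => ω x) (measurable_restr (A := A × A) (box d n))
    exact h2.symm
  rw [hXe, hYe, Fintype.card_fun, Fintype.card_bool, Fintype.card_coe] at hmain
  have hlog : Real.log ((2 ^ (layer d n R).card : ℕ) : ℝ) ≤
      (2 * d * R * n ^ (d - 1) : ℕ) * Real.log 2 := by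
    push_cast
    rw [Real.log_pow]
    have h1 := card_layer (d := d) hd n R
    have h2 : ((layer d n R).card : ℝ) ≤ ((2 * d * R * n ^ (d - 1) : ℕ) : ℝ) := by
      exact_mod_cast h1
    have h3 := mul_le_mul_of_nonneg_right h2 (Real.log_nonneg (by norm_num : (1 : ℝ) ≤ 2))
    push_cast at h3
    exact h3
  linarith

theorem hent_swLaw (hd : 1 ≤ d) (st : A → V d) {m : Measure (V d → A × A)}
    (hm : Inv (Cfg2 st) m) : hent m ≤ hent (swLaw st m) := by
  have := hm.prob
  have hs := swLaw_inv st hm
  have := hs.prob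
  obtain ⟨R', hR0, hR'⟩ := ph_bdd st
  obtain ⟨R, rfl⟩ := Int.eq_ofNat_of_zero_le hR0
  have h1 := hent_tendsto m hm.map
  have h2 := hent_tendsto (swLaw st m) hs.map
  have h3 : Tendsto (fun n : ℕ => ((2 * d * R : ℕ) * Real.log 2) / (n : ℝ)) atTop (𝓝 0) :=
    tendsto_const_div_atTop_nhds_zero_nat _
  have h4 := h2.add h3
  rw [add_zero] at h4
  refine le_of_tendsto_of_tendsto h1 h4 ?_
  filter_upwards [eventually_ge_atTop 1] with n hn
  have hn0 : (0 : ℝ) < n := by exact_mod_cast hn
  have h5 := HF_swLaw_le hd st hm R hR' n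
  have h6 : (0 : ℝ) < (n : ℝ) ^ d := by positivity
  rw [div_add_div _ _ h6.ne' hn0.ne', div_le_div_iff₀ h6 (by positivity)]
  have h7 : (n : ℝ) ^ d = (n : ℝ) ^ (d - 1) * n := by
    rw [← pow_succ]
    congr 1
    omega
  have h8 := mul_le_mul_of_nonneg_right h5 (by positivity : (0 : ℝ) ≤ (n : ℝ) ^ d * n)
  push_cast at h8 ⊢
  refine h8.trans (le_of_eq ?_)
  rw [h7]
  ring

end Helper15.DE
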