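import Pool.Agent.Helper15.DE.Defs
import Pool.Agent.Helper15.DE.PhBasic
import Pool.Agent.Helper15.DE.PhMeas
import Pool.Agent.Helper15.DE.GoodAE

/-!
Module DE-VII3 (two different orbits with nearly equal nonzero velocities, with positive probability).
Almost surely `0` has a two-sided velocity (`good_ae`), and with positive probability it is not `0`.
Every `V ≠ 0` has a rational `w ≠ 0` with `‖V - w‖ ≤ c ‖w‖`, so for some rational `w ≠ 0` the event
`{∃ V, HasVel (ph st ω) 0 V ∧ ‖V - w‖ ≤ c ‖w‖}` has positive (outer) measure `q`; (it is a.e. equal to the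
measurable event for `V i = limsup_k (φ^k 0 i / k)`).  Call `x` of type `w` if it has such a velocity
(`< c ‖w‖ ≤ ‖w‖`, so `V ≠ 0` and the orbit is infinite).  By invariance (`ph_zpow_shift`) every `x` is of
type `w` with probability `q`, so the expected number of `x ∈ box d n` of type `w` is `q n^d`.
Suppose the claim fails for this `w`: a.s. all points of type `w` lie in one orbit
`{(φ^k) x0 | k : ℤ}`, with velocity `V ≠ 0`, `|V i| > 0`; for `|k| ≥ k0(ω)`:
`|(φ^k) x0 i| ≥ |k| |V i| / 2`, so the number of `k` with `(φ^k) x0 ∈ box d n` is at most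
`2 k0 + 1 + 4 n / |V i|`, which divided by `n^d` tends to `0` (`d ≥ 2`).  By dominated convergence
(`number / n^d ≤ 1`) the expectations divided by `n^d` tend to `0`, contradiction with `q > 0`.
-/

open MeasureTheory Filter Topology

namespace Helper15.DE

variable {d : ℕ} {A : Type} [Finite A] [MeasurableSpace A] [MeasurableSingletonClass A]

omit [Finite A] [MeasurableSpace A] [MeasurableSingletonClass A] in
private theorem tend_add_const' (a : ℕ → ℝ) (c l : ℝ)
    (h : Tendsto (fun k : ℕ => a k / k) atTop (𝓝 l)) :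
    Tendsto (fun k : ℕ => (a k + c) / k) atTop (𝓝 l) := by
  have h1 : Tendsto (fun k : ℕ => c / (k : ℝ)) atTop (𝓝 0) :=
    tendsto_const_div_atTop_nhds_zero_nat c
  have h2 := h.add h1
  rw [add_zero] at h2
  refine h2.congr fun k => ?_
  rw [add_div]

omit [Finite A] [MeasurableSpace A] [MeasurableSingletonClass A] in
private theorem hasVel_of_shift' (st : A → V d) (ω : V d → A × A) (x : V d) (w : Fin d → ℝ)
    (h : HasVel (ph st (shift x ω)) 0 w) : HasVel (ph st ω) x w := by
  have hp : ∀ k : ℕ, (ph st ω ^ k) x = (ph st (shift x ω) ^ k) 0 + x := by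
    intro k
    have h1 := ph_zpow_shift st x ω k 0
    rw [zpow_natCast, zpow_natCast, zero_add] at h1
    rw [h1, sub_add_cancel]
  have hn : ∀ k : ℕ, ((ph st ω)⁻¹ ^ k) x = ((ph st (shift x ω))⁻¹ ^ k) 0 + x := by
    intro k
    have h1 := ph_zpow_shift st x ω (-(k : ℤ)) 0
    rw [zpow_neg, zpow_neg, zpow_natCast, zpow_natCast, ← inv_pow, ← inv_pow, zero_add] at h1
    rw [h1, sub_add_cancel]
  refine ⟨?_, ?_⟩
  · rw [tendsto_pi_nhds]
    intro i
    have h1 := (tendsto_pi_nhds.1 h.1) i
    refine (tend_add_const' _ (x i : ℝ) _ h1).congr fun k => ?_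
    rw [hp k, Pi.add_apply]
    push_cast
    ring
  · rw [tendsto_pi_nhds]
    intro i
    have h1 := (tendsto_pi_nhds.1 h.2) i
    refine (tend_add_const' _ (x i : ℝ) _ h1).congr fun k => ?_
    rw [hn k, Pi.add_apply]
    push_cast
    ring

private theorem box_card' (n : ℕ) : (box d n).card = n ^ d := by
  unfold box
  rw [Fintype.card_piFinset]
  simp

/-- a nonzero velocity forces an infinite orbit -/
private theorem infOrb_of_vel (φ : Equiv.Perm (V d)) (x : V d) (w : Fin d → ℝ)
    (h : HasVel φ x w) (hw : w ≠ 0) : InfOrb φ x := by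
  intro k hk hx
  apply hw
  have hk1 : Tendsto (fun m : ℕ => k * m) atTop atTop :=
    tendsto_id.const_mul_atTop' hk
  have h1 := h.1.comp hk1
  have h2 : ∀ m : ℕ, (φ ^ (k * m)) x = x := by
    intro m
    induction m with
    | zero => simp
    | succ m ih =>
      rw [Nat.mul_succ, pow_add, Equiv.Perm.mul_apply, hx, ih]
  funext i
  have h3 := (tendsto_pi_nhds.1 h1) i
  refine tendsto_nhds_unique h3 ?_
  have h4 : Tendsto (fun m : ℕ => (x i : ℝ) / (m : ℝ)) atTop (𝓝 0) :=
    tendsto_const_div_atTop_nhds_zero_nat _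
  have h5 := h4.comp hk1
  refine h5.congr fun m => ?_
  simp only [Function.comp_apply]
  rw [h2 m]

/-- number of points of an orbit with nonzero velocity in a cube -/
private theorem count_le (φ : Equiv.Perm (V d)) (x0 : V d) (w : Fin d → ℝ)
    (h : HasVel φ x0 w) (hw : w ≠ 0) : ∃ C : ℝ, 0 ≤ C ∧ ∀ n : ℕ, 0 < n → ∀ S : Finset (V d),
      S ⊆ box d n → (∀ x ∈ S, φ.SameCycle x0 x) → (S.card : ℝ) ≤ C * n := by
  obtain ⟨i, hi⟩ : ∃ i, w i ≠ 0 := by
    by_contra hcon
    push Not at hcon
    exact hw (funext hcon)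
  have ha : 0 < |w i| := abs_pos.2 hi
  have key : ∀ (f : ℕ → ℝ) (v : ℝ), |v| = |w i| → Tendsto (fun k : ℕ => f k / k) atTop (𝓝 v) →
      ∀ᶠ k : ℕ in atTop, (k : ℝ) * (|w i| / 2) ≤ |f k| := by
    intro f v hv hf
    have h1 : Tendsto (fun k : ℕ => |f k / k|) atTop (𝓝 |v|) := hf.abs
    have h2 : |w i| / 2 < |v| := by rw [hv]; linarith
    filter_upwards [h1.eventually (lt_mem_nhds h2), eventually_gt_atTop 0] with k hk hk0
    have hk0' : (0 : ℝ) < k := by exact_mod_cast hk0
    rw [abs_div, abs_of_pos hk0', lt_div_iff₀ hk0'] at hk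
    linarith
  have e1 := key (fun k => (((φ ^ k) x0 i : ℤ) : ℝ)) (w i) rfl ((tendsto_pi_nhds.1 h.1) i)
  have e2 := key (fun k => (((φ⁻¹ ^ k) x0 i : ℤ) : ℝ)) (-(w i)) (abs_neg _)
    ((tendsto_pi_nhds.1 h.2) i)
  obtain ⟨k0, hk0⟩ := eventually_atTop.1 (e1.and e2)
  refine ⟨2 * k0 + 1 + 4 / |w i|, by positivity, ?_⟩
  intro n hn S hS hc
  have hn' : (1 : ℝ) ≤ n := by exact_mod_cast hn
  choose! κ hκ using hc
  have hb : ∀ x ∈ S, |((κ x : ℤ) : ℝ)| ≤ k0 + 2 * n / |w i| := by
    intro x hx
    have hpos : (0 : ℝ) ≤ 2 * n / |w i| := by positivity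
    by_cases hlt : (κ x).natAbs < k0
    · have h1 : |((κ x : ℤ) : ℝ)| = ((κ x).natAbs : ℝ) := by
        rw [Nat.cast_natAbs, Int.cast_abs]
      rw [h1]
      have h2 : ((κ x).natAbs : ℝ) ≤ k0 := by exact_mod_cast hlt.le
      linarith
    · push Not at hlt
      have h1 : |((κ x : ℤ) : ℝ)| = ((κ x).natAbs : ℝ) := by
        rw [Nat.cast_natAbs, Int.cast_abs]
      have hxb := hS hx
      unfold box at hxb
      rw [Fintype.mem_piFinset] at hxb
      have hxi := Finset.mem_Ico.1 (hxb i)
      have hxa : |(x i : ℝ)| ≤ n := by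
        have h3 : (0 : ℝ) ≤ (x i : ℝ) := by exact_mod_cast hxi.1
        have h4 : (x i : ℝ) ≤ n := by exact_mod_cast hxi.2.le
        rw [abs_of_nonneg h3]
        exact h4
      have hval : (((κ x).natAbs : ℕ) : ℝ) * (|w i| / 2) ≤ |(x i : ℝ)| := by
        rcases Int.natAbs_eq (κ x) with he | he
        · have h5 := (hk0 _ hlt).1
          have h6 : (φ ^ (κ x).natAbs) x0 = x := by
            have h7 := hκ x hx
            rw [he, zpow_natCast] at h7
            exact h7
          rw [h6] at h5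
          exact h5
        · have h5 := (hk0 _ hlt).2
          have h6 : (φ⁻¹ ^ (κ x).natAbs) x0 = x := by
            have h7 := hκ x hx
            rw [he, zpow_neg, zpow_natCast, ← inv_pow] at h7
            exact h7
          rw [h6] at h5
          exact h5
      rw [h1]
      have h7 : (((κ x).natAbs : ℕ) : ℝ) * |w i| ≤ 2 * n := by linarith
      have h8 : (((κ x).natAbs : ℕ) : ℝ) ≤ 2 * n / |w i| := by
        rw [le_div_iff₀ ha]
        exact h7
      have h9 : (0 : ℝ) ≤ k0 := Nat.cast_nonneg _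
      linarith
  set M : ℕ := ⌊(k0 : ℝ) + 2 * n / |w i|⌋₊ with hM
  have hMle : (M : ℝ) ≤ k0 + 2 * n / |w i| := Nat.floor_le (by positivity)
  have hmaps : ∀ x ∈ S, κ x ∈ Finset.Icc (-(M : ℤ)) M := by
    intro x hx
    have h1 : |((κ x : ℤ) : ℝ)| = ((κ x).natAbs : ℝ) := by
      rw [Nat.cast_natAbs, Int.cast_abs]
    have h2 := hb x hx
    rw [h1] at h2
    have h3 : (κ x).natAbs ≤ M := Nat.le_floor h2
    rw [Finset.mem_Icc]
    omega
  have hinj : Set.InjOn κ S := by
    intro x hx y hy hxy
    rw [← hκ x hx, ← hκ y hy, hxy]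
  have hcard := Finset.card_le_card_of_injOn κ hmaps hinj
  rw [Int.card_Icc] at hcard
  have hcard2 : S.card ≤ 2 * M + 1 := by omega
  have hcard3 : (S.card : ℝ) ≤ 2 * M + 1 := by exact_mod_cast hcard2
  have e3 : 2 * (n : ℝ) / |w i| = 2 / |w i| * n := by ring
  have e4 : 4 / |w i| = 2 * (2 / |w i|) := by ring
  have e5 : (0 : ℝ) ≤ k0 := Nat.cast_nonneg _
  rw [e3] at hMle
  rw [e4]
  nlinarith

theorem two_orbits (hd : 2 ≤ d) (st : A → V d) {μ : Measure (V d → A × A)}
    (hμ : Inv (Cfg2 st) μ) (h : ¬ ∀ᵐ ω ∂μ, HasVel (ph st ω) 0 0) (c : ℝ) (hc : 0 < c)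
    (hc1 : c < 1) : ∃ w : Fin d → ℝ, w ≠ 0 ∧
      ¬ ∀ᵐ ω ∂μ, ¬ ∃ (x y : V d) (Vx Vy : Fin d → ℝ), HasVel (ph st ω) x Vx ∧
        HasVel (ph st ω) y Vy ∧ ‖Vx - w‖ ≤ c * ‖w‖ ∧ ‖Vy - w‖ ≤ c * ‖w‖ ∧
        InfOrb (ph st ω) x ∧ InfOrb (ph st ω) y ∧ ¬ (ph st ω).SameCycle x y := by
  classical
  have hprob := hμ.prob
  have hgood := good_ae st hμ
  -- the measurable velocity of the origin
  have hmeas : ∀ k : ℕ, Measurable
      (fun ω : V d → A × A => fun i : Fin d => (((ph st ω ^ k) 0 i : ℤ) : ℝ) / k) := by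
    intro k
    have h1 : Measurable (fun ω : V d → A × A => (ph st ω ^ k) 0) := by
      refine measurable_to_countable' fun y => ?_
      have h2 := measurableSet_ph_zpow st (k : ℤ) 0 y
      simp only [zpow_natCast] at h2
      exact h2
    have h2 : Measurable (fun v : V d => fun i : Fin d => ((v i : ℤ) : ℝ) / k) :=
      measurable_of_countable _
    exact h2.comp h1
  obtain ⟨U, hU, hUlim⟩ := measurable_limit_of_tendsto_metrizable_ae (μ := μ)
    (f := fun (k : ℕ) (ω : V d → A × A) => fun i : Fin d => (((ph st ω ^ k) 0 i : ℤ) : ℝ) / k)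
    (L := atTop) (fun k => (hmeas k).aemeasurable)
    (by
      filter_upwards [hgood] with ω hω
      obtain ⟨v, hv⟩ := hω 0
      exact ⟨v, hv.1⟩)
  have hvel0 : ∀ᵐ ω ∂μ, HasVel (ph st ω) 0 (U ω) := by
    filter_upwards [hgood, hUlim] with ω hω hω2
    obtain ⟨v, hv⟩ := hω 0
    have : v = U ω := tendsto_nhds_unique hv.1 hω2
    rwa [this] at hv
  have hvel : ∀ᵐ ω ∂μ, ∀ x, HasVel (ph st ω) x (U (shift x ω)) := by
    rw [ae_all_iff]
    intro x
    have h0 := hvel0
    rw [← hμ.map x] at h0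
    have h1 := ae_of_ae_map (measurable_shift x).aemeasurable h0
    filter_upwards [h1] with ω hω
    exact hasVel_of_shift' st ω x _ hω
  -- choice of the vector
  have hpos : (μ.map U) {(0 : Fin d → ℝ)}ᶜ ≠ 0 := by
    intro h0
    apply h
    rw [Measure.map_apply hU (measurableSet_singleton _).compl] at h0
    have h1 : ∀ᵐ ω ∂μ, U ω = 0 := by
      rw [ae_iff]
      exact h0
    filter_upwards [h1, hvel0] with ω hω hω2
    rwa [hω] at hω2
  obtain ⟨w, hw, hwpos⟩ := exists_mem_forall_mem_nhdsWithin_pos_measure hpos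
  have hw0 : w ≠ 0 := hw
  have hnw : 0 < ‖w‖ := norm_pos_iff.2 hw0
  refine ⟨w, hw0, ?_⟩
  intro hcon
  have hball : Metric.closedBall w (c * ‖w‖) ∈ 𝓝[{(0 : Fin d → ℝ)}ᶜ] w :=
    mem_nhdsWithin_of_mem_nhds (Metric.closedBall_mem_nhds w (by positivity))
  have hq := hwpos _ hball
  set B : Set (V d → A × A) := U ⁻¹' Metric.closedBall w (c * ‖w‖) with hB
  have hBm : MeasurableSet B := hU Metric.isClosed_closedBall.measurableSet
  rw [Measure.map_apply hU Metric.isClosed_closedBall.measurableSet] at hq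
  have hq' : 0 < μ.real B := by
    rw [Measure.real, ENNReal.toReal_pos_iff]
    exact ⟨hq, measure_lt_top _ _⟩
  -- the averaged number of points
  set F : ℕ → (V d → A × A) → ℝ := fun n ω =>
    (∑ x ∈ box d n, B.indicator (fun _ => (1 : ℝ)) (shift x ω)) / (n : ℝ) ^ d with hF
  have hind : Measurable (B.indicator (fun _ : V d → A × A => (1 : ℝ))) :=
    measurable_const.indicator hBm
  have hindint : ∀ x : V d, Integrable (fun ω => B.indicator (fun _ => (1 : ℝ)) (shift x ω)) μ := by
    intro x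
    refine Integrable.of_bound (hind.comp (measurable_shift x)).aestronglyMeasurable 1
      (Eventually.of_forall fun ω => ?_)
    rw [Real.norm_eq_abs]
    by_cases hx : shift x ω ∈ B
    · simp [hx]
    · simp [hx]
  have hindval : ∀ x : V d, ∫ ω, B.indicator (fun _ => (1 : ℝ)) (shift x ω) ∂μ = μ.real B := by
    intro x
    have h2 := integral_map (μ := μ) (φ := shift x) (f := B.indicator (fun _ => (1 : ℝ)))
      (measurable_shift x).aemeasurable hind.aestronglyMeasurable
    rw [hμ.map x] at h2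
    rw [← h2, integral_indicator hBm]
    simp
  have hFint : ∀ n : ℕ, 0 < n → ∫ ω, F n ω ∂μ = μ.real B := by
    intro n hn
    have hn' : (n : ℝ) ≠ 0 := by exact_mod_cast hn.ne'
    simp only [hF]
    rw [integral_div, integral_finsetSum _ fun x _ => hindint x]
    simp only [hindval]
    rw [Finset.sum_const, box_card', nsmul_eq_mul]
    push_cast
    field_simp
  have hcount : ∀ (n : ℕ) (ω : V d → A × A),
      (∑ x ∈ box d n, B.indicator (fun _ => (1 : ℝ)) (shift x ω))
        = (((box d n).filter (fun x => shift x ω ∈ B)).card : ℝ) := by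
    intro n ω
    rw [Finset.card_filter]
    push_cast
    refine Finset.sum_congr rfl fun x _ => ?_
    by_cases hx : shift x ω ∈ B
    · simp [hx]
    · simp [hx]
  have hFlim : ∀ᵐ ω ∂μ, Tendsto (fun n : ℕ => F n ω) atTop (𝓝 0) := by
    filter_upwards [hvel, hcon] with ω hω hω2
    have hUne : ∀ x : V d, shift x ω ∈ B → U (shift x ω) ≠ 0 := by
      intro x hx h0
      have h1 : dist (U (shift x ω)) w ≤ c * ‖w‖ := hx
      rw [h0, dist_zero_left] at h1
      nlinarith
    by_cases hex : ∃ x0 : V d, shift x0 ω ∈ B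
    · obtain ⟨x0, hx0⟩ := hex
      obtain ⟨C, hC0, hC⟩ := count_le (ph st ω) x0 _ (hω x0) (hUne x0 hx0)
      have hsame : ∀ x : V d, shift x ω ∈ B → (ph st ω).SameCycle x0 x := by
        intro x hx
        by_contra hns
        apply hω2
        refine ⟨x0, x, U (shift x0 ω), U (shift x ω), hω x0, hω x, ?_, ?_, ?_, ?_, hns⟩
        · have h1 : dist (U (shift x0 ω)) w ≤ c * ‖w‖ := hx0
          rwa [dist_eq_norm] at h1
        · have h1 : dist (U (shift x ω)) w ≤ c * ‖w‖ := hx
          rwa [dist_eq_norm] at h1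
        · exact infOrb_of_vel _ _ _ (hω x0) (hUne x0 hx0)
        · exact infOrb_of_vel _ _ _ (hω x) (hUne x hx)
      have hlim : Tendsto (fun n : ℕ => C / (n : ℝ)) atTop (𝓝 0) :=
        tendsto_const_div_atTop_nhds_zero_nat C
      refine squeeze_zero' (Eventually.of_forall fun n => ?_) ?_ hlim
      · simp only [hF]
        rw [hcount]
        positivity
      · filter_upwards [eventually_gt_atTop 0] with n hn
        simp only [hF]
        rw [hcount]
        have hn' : (0 : ℝ) < n := by exact_mod_cast hn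
        have hn1 : (1 : ℝ) ≤ n := by exact_mod_cast hn
        have h1 := hC n hn ((box d n).filter (fun x => shift x ω ∈ B))
          (Finset.filter_subset _ _)
          (fun x hx => hsame x (Finset.mem_filter.1 hx).2)
        rw [div_le_div_iff₀ (by positivity) hn']
        have h2 : (n : ℝ) ^ 2 ≤ (n : ℝ) ^ d := pow_le_pow_right₀ hn1 hd
        calc (((box d n).filter (fun x => shift x ω ∈ B)).card : ℝ) * n
            ≤ C * n * n := by
              exact mul_le_mul_of_nonneg_right h1 hn'.le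
          _ = C * (n : ℝ) ^ 2 := by ring
          _ ≤ C * (n : ℝ) ^ d := mul_le_mul_of_nonneg_left h2 hC0
    · push Not at hex
      have h0 : ∀ n : ℕ, F n ω = 0 := by
        intro n
        simp only [hF]
        rw [Finset.sum_eq_zero, zero_div]
        intro x _
        simp [hex x]
      simp only [h0]
      exact tendsto_const_nhds
  have hDCT : Tendsto (fun n : ℕ => ∫ ω, F n ω ∂μ) atTop (𝓝 (∫ _ω : V d → A × A, (0 : ℝ) ∂μ)) := by
    refine tendsto_integral_of_dominated_convergence (fun _ => 1) ?_ ?_ ?_ hFlim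
    · intro n
      exact ((integrable_finsetSum _ fun x _ => hindint x).div_const _).aestronglyMeasurable
    · exact integrable_const 1
    · intro n
      refine Eventually.of_forall fun ω => ?_
      simp only [hF]
      rw [hcount, Real.norm_eq_abs, abs_of_nonneg (by positivity)]
      refine div_le_one_of_le₀ ?_ (by positivity)
      have h1 : ((box d n).filter (fun x => shift x ω ∈ B)).card ≤ n ^ d := by
        rw [← box_card']
        exact Finset.card_filter_le _ _
      exact_mod_cast h1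
  rw [integral_zero] at hDCT
  have hconst : Tendsto (fun n : ℕ => ∫ ω, F n ω ∂μ) atTop (𝓝 (μ.real B)) := by
    refine tendsto_const_nhds.congr' ?_
    filter_upwards [eventually_gt_atTop 0] with n hn
    exact (hFint n hn).symm
  have := tendsto_nhds_unique hconst hDCT
  linarith

end Helper15.DE
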