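import Pool.Agent.Helper15.DE.Defs
import Pool.Agent.Helper15.DE.PhBasic
import Pool.Agent.Helper15.DE.PhMeas
import Pool.Agent.Helper15.DE.Bridge

/-!
Module DE-VII1 (typicality of the union, almost surely).
For `ω ∈ Cfg2 st`: `rv (f₁ a - a) + rv (f₂ a - a) - 2 • s = chg2 st (ω a) - 2 s` with `f = pr st ω`, so
`defect f₁ f₂ s m x = ∑ a ∈ cube x m, (chg2 st (ω a) - 2 s)`, and this is the same sum over `box d m` for
`shift x ω`.  Let `δ m = μ {ω | ε m^d < ‖∑ a ∈ box d m, (chg2 st (ω a) - 2 s)‖}`; the sup norm is at most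
the sum of the coordinates, so `DC` and Markov give `δ m → 0`.
For fixed `ε > 0` and `m ≥ 1` let `N R ω = #{x ∈ bx 0 R | ε m^d < ‖defect m x‖}`.  By invariance
`∫ N R = (2R+1)^d δ m`, so by Markov `μ {N R > ε R^d} ≤ 3^d δ m / ε` for `R ≥ 1`, and
`μ (⋂ R₀, ⋃ R ≥ R₀, {N R ≤ ε R^d}) ≥ 1 - 3^d δ m / ε` (decreasing intersection of sets of measure at
least `1 - 3^d δ m / ε`).  Let `m → ∞`: almost surely there is an `m` as in `Typ`.  Do it for
`ε = 1/(k+1)`, `k : ℕ`; the condition for `ε' ≤ ε` (with its `m`) implies the one for `ε`.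
-/

open MeasureTheory Filter Topology

namespace Helper15.DE

variable {d : ℕ} {A : Type} [Fintype A] [MeasurableSpace A] [MeasurableSingletonClass A]

namespace TypAux

/-- the normalised defect of the box `[0,m)^d` -/
noncomputable def g (st : A → V d) (s : Fin d → ℝ) (m : ℕ) (ω : V d → A × A) : ℝ :=
  ∑ i : Fin d, |(∑ b ∈ box d m, chg2 st (ω b) i) / (m : ℝ) ^ d - 2 * s i|

omit [Fintype A] [MeasurableSpace A] [MeasurableSingletonClass A] in
theorem g_nonneg (st : A → V d) (s : Fin d → ℝ) (m : ℕ) (ω : V d → A × A) : 0 ≤ g st s m ω :=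
  Finset.sum_nonneg fun _ _ => abs_nonneg _

theorem card_box (d m : ℕ) : ((box d m).card : ℝ) = (m : ℝ) ^ d := by
  unfold box
  rw [Fintype.card_piFinset]
  simp

omit [Fintype A] [MeasurableSpace A] [MeasurableSingletonClass A] in
theorem defect_apply (st : A → V d) {ω : V d → A × A} (h : ω ∈ Cfg2 st) (s : Fin d → ℝ) (m : ℕ)
    (x : V d) (i : Fin d) :
    _root_.DE.defect (pr st ω).1 (pr st ω).2 s m x i
      = ∑ b ∈ box d m, (chg2 st (shift x ω b) i - 2 * s i) := by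
  unfold _root_.DE.defect
  rw [Finset.sum_apply]
  refine Finset.sum_nbij' (fun a => a - x) (fun b => b + x) ?_ ?_ ?_ ?_ ?_
  · intro a ha
    unfold _root_.DE.cube at ha
    unfold box
    rw [Fintype.mem_piFinset] at ha ⊢
    intro j
    have := ha j
    rw [Finset.mem_Ico] at this ⊢
    rw [Pi.sub_apply]
    omega
  · intro b hb
    unfold box at hb
    unfold _root_.DE.cube
    rw [Fintype.mem_piFinset] at hb ⊢
    intro j
    have := hb j
    rw [Finset.mem_Ico] at this ⊢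
    rw [Pi.add_apply]
    omega
  · intro a _
    exact sub_add_cancel a x
  · intro b _
    exact add_sub_cancel_right b x
  · intro a _
    have h1 := (pr_apply st h a).1
    have h2 := (pr_apply st h a).2
    rw [h1, h2]
    simp only [Pi.sub_apply, Pi.add_apply, Pi.smul_apply, smul_eq_mul, _root_.DE.rv, mv, chg2,
      shift, sub_add_cancel, c1, c2, add_sub_cancel_left]

omit [Fintype A] [MeasurableSpace A] [MeasurableSingletonClass A] in
theorem norm_defect_le (st : A → V d) {ω : V d → A × A} (h : ω ∈ Cfg2 st) (s : Fin d → ℝ) {m : ℕ}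
    (hm : 1 ≤ m) (x : V d) :
    ‖_root_.DE.defect (pr st ω).1 (pr st ω).2 s m x‖ ≤ (m : ℝ) ^ d * g st s m (shift x ω) := by
  have hm0 : (0 : ℝ) < (m : ℝ) ^ d := by
    have : (0 : ℝ) < m := by exact_mod_cast hm
    positivity
  have hterm : ∀ i, ‖_root_.DE.defect (pr st ω).1 (pr st ω).2 s m x i‖
      = (m : ℝ) ^ d * |(∑ b ∈ box d m, chg2 st (shift x ω b) i) / (m : ℝ) ^ d - 2 * s i| := by
    intro i
    rw [defect_apply st h, Finset.sum_sub_distrib, Finset.sum_const, nsmul_eq_mul, card_box,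
      Real.norm_eq_abs]
    rw [← abs_of_pos hm0, ← abs_mul, abs_of_pos hm0]
    congr 1
    field_simp
  rw [pi_norm_le_iff_of_nonneg (mul_nonneg hm0.le (g_nonneg _ _ _ _))]
  intro i
  rw [hterm i]
  refine mul_le_mul_of_nonneg_left ?_ hm0.le
  exact Finset.single_le_sum
    (f := fun i => |(∑ b ∈ box d m, chg2 st (shift x ω b) i) / (m : ℝ) ^ d - 2 * s i|)
    (fun _ _ => abs_nonneg _) (Finset.mem_univ i)

theorem integrable_coord (st : A → V d) {μ : Measure (V d → A × A)} [IsProbabilityMeasure μ]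
    (b : V d) (i : Fin d) : Integrable (fun ω => chg2 st (ω b) i) μ := by
  have hmeas : Measurable (fun ω : V d → A × A => chg2 st (ω b) i) := by
    have h1 : Measurable (fun a : A × A => chg2 st a i) := measurable_of_countable _
    exact h1.comp (measurable_pi_apply b)
  refine Integrable.of_bound hmeas.aestronglyMeasurable (∑ a : A × A, ‖chg2 st a i‖)
    (Filter.Eventually.of_forall fun ω => ?_)
  exact Finset.single_le_sum (f := fun a : A × A => ‖chg2 st a i‖) (fun _ _ => norm_nonneg _)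
    (Finset.mem_univ (ω b))

theorem integrable_term (st : A → V d) {μ : Measure (V d → A × A)} [IsProbabilityMeasure μ]
    (s : Fin d → ℝ) (m : ℕ) (i : Fin d) :
    Integrable (fun ω => |(∑ b ∈ box d m, chg2 st (ω b) i) / (m : ℝ) ^ d - 2 * s i|) μ :=
  (((integrable_finsetSum _ fun b _ => integrable_coord st b i).div_const _).sub
    (integrable_const _)).abs

theorem integrable_g (st : A → V d) {μ : Measure (V d → A × A)} [IsProbabilityMeasure μ]
    (s : Fin d → ℝ) (m : ℕ) : Integrable (g st s m) μ :=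
  integrable_finsetSum _ fun i _ => integrable_term st s m i

theorem tendsto_integral_g (st : A → V d) {μ : Measure (V d → A × A)} [IsProbabilityMeasure μ]
    (s : Fin d → ℝ) (hDC : DC (chg2 st) μ (fun i => 2 * s i)) :
    Tendsto (fun m : ℕ => ∫ ω, g st s m ω ∂μ) atTop (𝓝 0) := by
  have h1 : ∀ m : ℕ, ∫ ω, g st s m ω ∂μ
      = ∑ i, ∫ ω, |(∑ b ∈ box d m, chg2 st (ω b) i) / (m : ℝ) ^ d - 2 * s i| ∂μ := by
    intro m
    unfold g
    exact integral_finsetSum _ fun i _ => integrable_term st s m i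
  simp only [h1]
  have h2 := tendsto_finsetSum (Finset.univ : Finset (Fin d)) (fun i _ => hDC i)
  simpa using h2

theorem integral_g_shift (st : A → V d) {μ : Measure (V d → A × A)} [IsProbabilityMeasure μ]
    (hmap : ∀ v, μ.map (shift v) = μ) (s : Fin d → ℝ) (m : ℕ) (x : V d) :
    Integrable (fun ω => g st s m (shift x ω)) μ ∧
      ∫ ω, g st s m (shift x ω) ∂μ = ∫ ω, g st s m ω ∂μ := by
  have hint : Integrable (g st s m) (μ.map (shift x)) := by
    rw [hmap x]; exact integrable_g st s m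
  refine ⟨hint.comp_measurable (measurable_shift x), ?_⟩
  conv_rhs => rw [← hmap x]
  rw [integral_map (measurable_shift x).aemeasurable hint.aestronglyMeasurable]

theorem card_bx (d R : ℕ) : ((_root_.DE.bx (0 : V d) R).card : ℝ) = (2 * (R : ℝ) + 1) ^ d := by
  unfold _root_.DE.bx
  rw [Fintype.card_piFinset]
  simp only [Pi.zero_apply, zero_sub, zero_add, Int.card_Icc, sub_neg_eq_add, Finset.prod_const,
    Finset.card_univ, Fintype.card_fin]
  have h : ((R : ℤ) + 1 + R).toNat = 2 * R + 1 := by omega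
  rw [h]
  push_cast
  ring

/-- the bad event for the scale `m` and the radius `R` -/
def bad (st : A → V d) (s : Fin d → ℝ) (ε : ℝ) (m R : ℕ) : Set (V d → A × A) :=
  {ω | ε * (ε * (R : ℝ) ^ d) < ∑ x ∈ _root_.DE.bx (0 : V d) R, g st s m (shift x ω)}

theorem bad_le (st : A → V d) {μ : Measure (V d → A × A)} [IsProbabilityMeasure μ]
    (hmap : ∀ v, μ.map (shift v) = μ) (s : Fin d → ℝ) {ε : ℝ} (hε : 0 < ε) (m : ℕ) {R : ℕ}
    (hR : 1 ≤ R) :
    μ (bad st s ε m R) ≤ ENNReal.ofReal (3 ^ d / (ε * ε) * ∫ ω, g st s m ω ∂μ) := by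
  have hR0 : (0 : ℝ) < R := by exact_mod_cast hR
  have hRd : (0 : ℝ) < (R : ℝ) ^ d := by positivity
  set f : (V d → A × A) → ℝ := fun ω => ∑ x ∈ _root_.DE.bx (0 : V d) R, g st s m (shift x ω)
    with hf
  have hfi : Integrable f μ := integrable_finsetSum _ fun x _ => (integral_g_shift st hmap s m x).1
  have hf0 : 0 ≤ᵐ[μ] f := Filter.Eventually.of_forall fun ω =>
    Finset.sum_nonneg fun x _ => g_nonneg _ _ _ _
  have hE : ∫ ω, f ω ∂μ = (2 * (R : ℝ) + 1) ^ d * ∫ ω, g st s m ω ∂μ := by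
    rw [hf, integral_finsetSum _ fun x _ => (integral_g_shift st hmap s m x).1,
      Finset.sum_congr rfl fun x _ => (integral_g_shift st hmap s m x).2, Finset.sum_const,
      nsmul_eq_mul, card_bx]
  have hmk := mul_meas_ge_le_integral_of_nonneg hf0 hfi (ε * (ε * (R : ℝ) ^ d))
  rw [hE] at hmk
  have hg0 : 0 ≤ ∫ ω, g st s m ω ∂μ := integral_nonneg fun ω => g_nonneg _ _ _ _
  have hpos : 0 < ε * (ε * (R : ℝ) ^ d) := by positivity
  have h3 : (2 * (R : ℝ) + 1) ^ d ≤ 3 ^ d * (R : ℝ) ^ d := by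
    rw [← mul_pow]
    refine pow_le_pow_left₀ (by positivity) ?_ d
    have : (1 : ℝ) ≤ R := by exact_mod_cast hR
    linarith
  have h4 : μ.real {ω | ε * (ε * (R : ℝ) ^ d) ≤ f ω} ≤ 3 ^ d / (ε * ε) * ∫ ω, g st s m ω ∂μ := by
    have h5 : ε * (ε * (R : ℝ) ^ d) * μ.real {ω | ε * (ε * (R : ℝ) ^ d) ≤ f ω}
        ≤ ε * (ε * (R : ℝ) ^ d) * (3 ^ d / (ε * ε) * ∫ ω, g st s m ω ∂μ) := by
      refine hmk.trans ?_
      refine (mul_le_mul_of_nonneg_right h3 hg0).trans (le_of_eq ?_)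
      field_simp
    exact le_of_mul_le_mul_left h5 hpos
  have h6 : bad st s ε m R ⊆ {ω | ε * (ε * (R : ℝ) ^ d) ≤ f ω} := by
    intro ω hω
    unfold bad at hω
    rw [Set.mem_ofPred_eq] at hω ⊢
    exact hω.le
  calc μ (bad st s ε m R) ≤ μ {ω | ε * (ε * (R : ℝ) ^ d) ≤ f ω} := measure_mono h6
    _ = ENNReal.ofReal (μ.real {ω | ε * (ε * (R : ℝ) ^ d) ≤ f ω}) := by
        rw [Measure.real, ENNReal.ofReal_toReal (measure_ne_top _ _)]
    _ ≤ _ := ENNReal.ofReal_le_ofReal h4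

theorem null_bad (st : A → V d) {μ : Measure (V d → A × A)} [IsProbabilityMeasure μ]
    (hmap : ∀ v, μ.map (shift v) = μ) (s : Fin d → ℝ)
    (hDC : DC (chg2 st) μ (fun i => 2 * s i)) {ε : ℝ} (hε : 0 < ε) :
    μ {ω | ∀ m : ℕ, 1 ≤ m → ∃ R₀ : ℕ, ∀ R : ℕ, R₀ ≤ R → 1 ≤ R → ω ∈ bad st s ε m R} = 0 := by
  have h1 : ∀ m : ℕ, 1 ≤ m →
      μ {ω | ∀ m : ℕ, 1 ≤ m → ∃ R₀ : ℕ, ∀ R : ℕ, R₀ ≤ R → 1 ≤ R → ω ∈ bad st s ε m R}
        ≤ ENNReal.ofReal (3 ^ d / (ε * ε) * ∫ ω, g st s m ω ∂μ) := by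
    intro m hm
    set S : ℕ → Set (V d → A × A) := fun R₀ =>
      {ω | ∀ R : ℕ, R₀ ≤ R → 1 ≤ R → ω ∈ bad st s ε m R} with hS
    have hmono : Monotone S := by
      intro a b hab ω hω R hR
      exact hω R (hab.trans hR)
    have hsub : {ω | ∀ m : ℕ, 1 ≤ m → ∃ R₀ : ℕ, ∀ R : ℕ, R₀ ≤ R → 1 ≤ R →
        ω ∈ bad st s ε m R} ⊆ ⋃ R₀, S R₀ := by
      intro ω hω
      obtain ⟨R₀, h⟩ := hω m hm
      exact Set.mem_iUnion.2 ⟨R₀, h⟩
    refine (measure_mono hsub).trans ?_
    rw [hmono.measure_iUnion]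
    refine iSup_le fun R₀ => ?_
    refine (measure_mono ?_).trans (bad_le st hmap s hε m (le_max_right R₀ 1))
    intro ω hω
    exact hω (max R₀ 1) (le_max_left _ _) (le_max_right _ _)
  have h2 : Tendsto (fun m : ℕ => ENNReal.ofReal (3 ^ d / (ε * ε) * ∫ ω, g st s m ω ∂μ)) atTop
      (𝓝 0) := by
    have h3 := (tendsto_integral_g st s hDC).const_mul (3 ^ d / (ε * ε))
    rw [mul_zero] at h3
    have h4 := (ENNReal.continuous_ofReal.tendsto 0).comp h3
    rw [ENNReal.ofReal_zero] at h4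
    exact h4
  refine le_antisymm (ge_of_tendsto h2 ?_) zero_le
  filter_upwards [eventually_ge_atTop 1] with m hm using h1 m hm

end TypAux

theorem typ_ae (st : A → V d) {μ : Measure (V d → A × A)} (hμ : Inv (Cfg2 st) μ)
    (s : Fin d → ℝ) (hDC : DC (chg2 st) μ (fun i => 2 * s i)) :
    ∀ᵐ ω ∂μ, _root_.DE.Typ s (pr st ω).1 (pr st ω).2 := by
  have := hμ.prob
  have h1 : ∀ k : ℕ, ∀ᵐ ω ∂μ, ¬ ∀ m : ℕ, 1 ≤ m → ∃ R₀ : ℕ, ∀ R : ℕ, R₀ ≤ R → 1 ≤ R →
      ω ∈ TypAux.bad st s (1 / ((k : ℝ) + 1)) m R := by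
    intro k
    have h := TypAux.null_bad st hμ.map s hDC (ε := 1 / ((k : ℝ) + 1)) (by positivity)
    exact (measure_eq_zero_iff_ae_notMem).1 h
  filter_upwards [hμ.supp, ae_all_iff.2 h1] with ω hω hk
  intro ε hε
  obtain ⟨k, hkε⟩ := exists_nat_one_div_lt hε
  set ε' : ℝ := 1 / ((k : ℝ) + 1) with hε'
  have hε'0 : 0 < ε' := by positivity
  have h2 := hk k
  push Not at h2
  obtain ⟨m, hm, hR⟩ := h2
  refine ⟨m, hm, fun R₀ => ?_⟩
  obtain ⟨R, hR0, hR1, hbad⟩ := hR R₀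
  refine ⟨R, hR0, ?_⟩
  have hm0 : (0 : ℝ) < (m : ℝ) ^ d := by
    have : (0 : ℝ) < m := by exact_mod_cast hm
    positivity
  unfold TypAux.bad at hbad
  rw [Set.mem_ofPred_eq, not_lt] at hbad
  have h3 : (((_root_.DE.bx (0 : _root_.DE.Site d) R).filter fun x => ε * (m : ℝ) ^ d <
      ‖_root_.DE.defect (pr st ω).1 (pr st ω).2 s m x‖).card : ℝ) * ε'
      ≤ ∑ x ∈ _root_.DE.bx (0 : V d) R, TypAux.g st s m (shift x ω) := by
    rw [← nsmul_eq_mul, ← Finset.sum_const]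
    refine (Finset.sum_le_sum (g := fun x => TypAux.g st s m (shift x ω)) ?_).trans ?_
    · intro x hx
      rw [Finset.mem_filter] at hx
      have h4 := hx.2.trans_le (TypAux.norm_defect_le st hω s hm x)
      rw [mul_comm] at h4
      have h5 := lt_of_mul_lt_mul_left h4 hm0.le
      exact (hkε.trans h5).le
    · exact Finset.sum_le_sum_of_subset_of_nonneg (Finset.filter_subset _ _)
        fun x _ _ => TypAux.g_nonneg _ _ _ _
  have h6 := h3.trans hbad
  rw [mul_comm] at h6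
  have h7 := le_of_mul_le_mul_left h6 hε'0
  refine h7.trans ?_
  exact mul_le_mul_of_nonneg_right hkε.le (by positivity)

end Helper15.DE
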