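import Pool.Agent.Helper15.DE.Defs
import Pool.Agent.Helper15.DE.PhBasic
import Pool.Agent.Helper15.DE.PhMeas
import Pool.Agent.Helper15.DE.GoodAE
import Pool.Agent.Helper15.DE.SwLaw
import Pool.Agent.Helper15.DE.SwEnt
import Pool.Agent.Helper15.DE.Bridge
import Pool.Agent.Helper15.DE.TypAE
import Pool.Agent.Helper15.DE.ClAE
import Pool.Agent.Helper15.DE.TwoOrb
import Pool.Agent.Helper15.DE.DCInv
import Pool.Agent.Helper15.DE.EndLemma
import Pool.Agent.Helper10.DE.ET.Affine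
import Pool.Agent.Helper10.DE.CP.Emax
import Pool.Agent.Helper10.DE.VP.CfgSwap
import Pool.Agent.Helper10.DE.RC.RCFinal

/-!
Theorem G: two invariant measures with constant asymptotic currents `a₁ ≠ a₂` whose midpoint `s` is
an interior point satisfy `hent μ₁ + hent μ₂ < 2 Emax s`.
-/

open MeasureTheory Filter Topology

namespace Helper15.DE

variable {d : ℕ} {A : Type} [Fintype A] [MeasurableSpace A] [MeasurableSingletonClass A]

theorem thmG (hd : 2 ≤ d) (st : A → V d) (hinj : Function.Injective st) (hgen : Gen st)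
    (μ₁ μ₂ : Measure (V d → A)) (h1 : Inv (Cfg st) μ₁) (h2 : Inv (Cfg st) μ₂)
    (a₁ a₂ s : Fin d → ℝ) (hD1 : DC (chg st) μ₁ a₁) (hD2 : DC (chg st) μ₂ a₂) (hne : a₁ ≠ a₂)
    (hs : ∀ i, s i = (a₁ i + a₂ i) / 2) (hint : IntPt st s) :
    hent μ₁ + hent μ₂ < 2 * Emax st s := by
  by_contra hcon
  push Not at hcon
  haveI := h1.prob
  haveI := h2.prob
  obtain ⟨hm, hmean⟩ := pairLaw_inv st μ₁ μ₂ h1 h2
  haveI := hm.prob
  have hentm : hent (pairLaw μ₁ μ₂) = hent μ₁ + hent μ₂ := hent_pairLaw _ _ h1.map h2.map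
  have hm1 : mean (chg st) μ₁ = a₁ := dc_mean _ h1.map _ hD1
  have hm2 : mean (chg st) μ₂ = a₂ := dc_mean _ h2.map _ hD2
  obtain ⟨hc1, hc2⟩ := pairLaw_c μ₁ μ₂
  have hm' := swLaw_inv st hm
  haveI := hm'.prob
  have hge : hent (pairLaw μ₁ μ₂) ≤ hent (swLaw st (pairLaw μ₁ μ₂)) :=
    hent_swLaw (by omega) st hm
  have hmean' : mean (chg2 st) (swLaw st (pairLaw μ₁ μ₂)) = mean (chg2 st) (pairLaw μ₁ μ₂) :=
    mean_swLaw st hm
  have h2s : ∀ i, mean (chg2 st) (pairLaw μ₁ μ₂) i = 2 * s i := by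
    intro i
    rw [hmean i, hm1, hm2, hs i]
    ring
  have hmax : ∀ ν, Inv (Cfg2 st) ν →
      mean (chg2 st) ν = mean (chg2 st) (swLaw st (pairLaw μ₁ μ₂)) →
      hent ν ≤ hent (swLaw st (pairLaw μ₁ μ₂)) := by
    intro ν hν hνm
    have := pair_emax (by omega) st ν hν s (fun i => by rw [hνm, hmean', h2s i])
    linarith
  have hvp := vp_cfg2 st _ hm' hmax
  have hcl := cl_ae st hinj hm' (swLaw_rev st hm) (fun F a b h h' => hvp F a b h h')
  have hDC : DC (chg2 st) (swLaw st (pairLaw μ₁ μ₂)) (fun i => 2 * s i) := by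
    apply DC_swLaw st hm
    have := dc_pair st (m := pairLaw μ₁ μ₂) a₁ a₂ (by rw [hc1]; exact hD1)
      (by rw [hc2]; exact hD2)
    have h3 : (fun i => a₁ i + a₂ i) = fun i => 2 * s i := by
      funext i
      rw [hs i]
      ring
    rw [h3] at this
    exact this
  have htyp := typ_ae st hm' s hDC
  obtain ⟨L, hL⟩ := gen_stepSet st hgen
  obtain ⟨K, hK⟩ := bdK_stepSet st
  obtain ⟨K', hK', hrc⟩ := _root_.DE.rc hd K L (stepSet st) hL hK s (intPt_stepSet st hinj hint)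
  have hmm1 : mean (fun a : A × A => chg st a.1) (pairLaw μ₁ μ₂) = a₁ := by
    rw [← hm1]
    conv_rhs => rw [← hc1]
    funext i
    unfold mean
    rw [integral_map (measurable_c1.aemeasurable)]
    · rfl
    · exact (measurable_of_countable (fun a : A => chg st a i)).comp
        (measurable_pi_apply 0) |>.aestronglyMeasurable
  have hmm2 : mean (fun a : A × A => chg st a.2) (pairLaw μ₁ μ₂) = a₂ := by
    rw [← hm2]
    conv_rhs => rw [← hc2]
    funext i
    unfold mean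
    rw [integral_map (measurable_c2.aemeasurable)]
    · rfl
    · exact (measurable_of_countable (fun a : A => chg st a i)).comp
        (measurable_pi_apply 0) |>.aestronglyMeasurable
  have hvel : ¬ ∀ᵐ ω ∂(pairLaw μ₁ μ₂), HasVel (ph st ω) 0 0 := by
    apply vel_nonzero st hm
    rw [hmm1, hmm2]
    exact hne
  have hvel' := vel_swLaw st hm hvel
  have hKr : (1 : ℝ) ≤ K' := by exact_mod_cast hK'
  obtain ⟨w, hw, hbad⟩ := two_orbits hd st hm' hvel' (1 / (8 * K'))
    (by positivity) (by rw [div_lt_one (by positivity)]; linarith)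
  apply hbad
  filter_upwards [hcl, htyp, hm'.supp] with ω hCC hty hsupp
  obtain ⟨C, hC, hfC⟩ := hCC
  rintro ⟨x, y, Vx, Vy, hx, hy, h4, h5, h6, h7, h8⟩
  have hD := isD_pr st hsupp
  have hRC := hrc (pr st ω).1 (pr st ω).2 hD.1 hD.2 hty
  refine _root_.DE.end_lemma (stepSet st) K' hK' C hC (pr st ω) hfC hRC w hw x y
    ((isInf_pr st ω x).2 h6) ((isInf_pr st ω y).2 h7)
    (fun h => h8 ((sc_pr st ω x y).1 h)) Vx Vy ?_ ?_ ?_ ?_
  · rw [F_pr]; exact ((hasVel_iff _ _ _).1 hx).1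
  · rw [F_pr]; exact ((hasVel_iff _ _ _).1 hy).1
  · rw [div_eq_mul_inv, mul_comm, ← one_div]; exact h4
  · rw [div_eq_mul_inv, mul_comm, ← one_div]; exact h5

end Helper15.DE
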