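import Pool.Agent.Helper15.DE.Tiling
import Pool.Agent.Helper15.DE.TCfg
import Pool.Agent.Helper15.DE.TInv
import Pool.Agent.Helper15.DE.TEnt
import Pool.Agent.Helper15.DE.TGibbs
import Pool.Agent.Helper15.DE.ThmG
import Pool.Agent.Helper15.DE.DCInv
import Pool.Agent.Helper10.DE.X.Strict3
import Pool.Agent.Helper10.DE.X.Cont
import Pool.Agent.Helper10.DE.X.EdgeZero
import Pool.Agent.Helper10.DE.VP.CfgSwap
import Pool.Agent.Helper10.DE.Y.ErgGibbs

/-!
# DE: final assembly: continuity and strict concavity of `dimerEnt`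
-/

open MeasureTheory Filter Topology Helper15.Dimer

namespace Helper15.DE

theorem st3_inj : Function.Injective st3 := by decide

theorem st2_inj : Function.Injective st2 := by decide

theorem gen3 : Gen st3 := by
  unfold Gen
  rw [eq_top_iff]
  rintro v -
  set G := AddSubgroup.closure {v : V 3 | ∃ a b, v = st3 a - st3 b} with hG
  have h0 : (![1, 0, 0] : V 3) ∈ G := AddSubgroup.subset_closure ⟨2, 0, by decide⟩
  have h1 : (![0, 1, 0] : V 3) ∈ G := AddSubgroup.subset_closure ⟨3, 0, by decide⟩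
  have h2 : (![0, 0, 1] : V 3) ∈ G := AddSubgroup.subset_closure ⟨4, 0, by decide⟩
  have : v = v 0 • (![1, 0, 0] : V 3) + v 1 • (![0, 1, 0] : V 3) + v 2 • (![0, 0, 1] : V 3) := by
    ext i
    fin_cases i <;> simp
  rw [this]
  exact G.add_mem (G.add_mem (G.zsmul_mem h0 _) (G.zsmul_mem h1 _)) (G.zsmul_mem h2 _)

theorem gen2 : Gen st2 := by
  unfold Gen
  rw [eq_top_iff]
  rintro v -
  set G := AddSubgroup.closure {v : V 2 | ∃ a b, v = st2 a - st2 b} with hG
  have h0 : (![1, 0] : V 2) ∈ G := AddSubgroup.subset_closure ⟨1, 0, by decide⟩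
  have h1 : (![0, 1] : V 2) ∈ G := AddSubgroup.subset_closure ⟨2, 0, by decide⟩
  have : v = v 0 • (![1, 0] : V 2) + v 1 • (![0, 1] : V 2) := by
    ext i
    fin_cases i <;> simp
  rw [this]
  exact G.add_mem (G.zsmul_mem h0 _) (G.zsmul_mem h1 _)

theorem thmG3 : ThmG st3 := fun μ₁ μ₂ h1 h2 a₁ a₂ s hD1 hD2 hne hs hint =>
  thmG (by norm_num) st3 st3_inj gen3 μ₁ μ₂ h1 h2 a₁ a₂ s hD1 hD2 hne hs hint

theorem thmG2 : ThmG st2 := fun μ₁ μ₂ h1 h2 a₁ a₂ s hD1 hD2 hne hs hint =>
  thmG (by norm_num) st2 st2_inj gen2 μ₁ μ₂ h1 h2 a₁ a₂ s hD1 hD2 hne hs hint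

theorem dcinv3 : DCofInv st3 := fun μ hμ a h => by
  haveI := hμ.prob
  exact dc_of_inv_sets (chg st3) hμ.map a h

theorem dcinv2 : DCofInv st2 := fun μ hμ a h => by
  haveI := hμ.prob
  exact dc_of_inv_sets (chg st2) hμ.map a h

theorem ethree_strict : StrictConcaveOn ℝ (octa \ octaEdges) Ethree :=
  strict3 dcinv2 thmG2 dcinv3 thmG3

theorem ethree_nonneg (s : Fin 3 → ℝ) : 0 ≤ Ethree s := emax_nonneg st3 _

theorem ent_upper (s : E3) (h : ℝ) (hh : ∃ μ : Measure Tiling, IsProbabilityMeasure μ ∧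
    IsGibbs μ ∧ IsEvenInvariant μ ∧ IsEvenErgodic μ ∧ HasCurrent μ s ∧ HasEntropy μ h) :
    0 ≤ h ∧ h ≤ Ethree (fun i => s i) / 2 := by
  obtain ⟨μ, hp, -, hinv, -, hc, he⟩ := hh
  have h1 := inv_toCfg hinv
  haveI := h1.prob
  have h2 := tendsto_nhds_unique he (hasEntropy hinv)
  have h3 := (current_toCfg s).1 hc
  have h4 := le_emax st3 _ h1
  rw [h3] at h4
  subst h2
  refine ⟨?_, ?_⟩
  · have := hent_nonneg (μ.map toCfg)
    linarith
  · unfold Ethree
    linarith

/-- the maximum in the definition of `dimerEnt` is attained, for every current in the octahedron -/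
theorem dimerEnt_isGreatest (s : E3) (hs : s ∈ octahedron) :
    IsGreatest {h | ∃ μ : Measure Tiling, IsProbabilityMeasure μ ∧ IsGibbs μ ∧
      IsEvenInvariant μ ∧ IsEvenErgodic μ ∧ HasCurrent μ s ∧ HasEntropy μ h}
      (Ethree (fun i => s i) / 2) := by
  obtain ⟨m, hm, hmean, hent, herg, hsw⟩ :=
    exists_erg_gibbs dcinv2 thmG2 dcinv3 thmG3 (fun i => s i) hs
  obtain ⟨hprob, hback⟩ := fromCfg_map hm
  haveI := hprob
  have hinv := inv_fromCfg hm
  refine ⟨⟨m.map fromCfg, hprob, gibbs_of_swap hm hsw, hinv, erg_fromCfg hm herg, ?_, ?_⟩,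
    fun h hh => (ent_upper s h hh).2⟩
  · rw [current_toCfg, hback]
    exact hmean
  · have := hasEntropy hinv
    rw [hback, hent] at this
    exact this

theorem dimerEnt_eq (s : E3) (hs : s ∈ octahedron) :
    dimerEnt s = Ethree (fun i => s i) / 2 :=
  (dimerEnt_isGreatest s hs).csSup_eq

theorem dimerEnt_continuousOn : ContinuousOn dimerEnt octahedron := by
  have h1 : ContinuousOn (fun s : E3 => Ethree (fun i => s i) / 2) octahedron := by
    refine ContinuousOn.div_const ?_ 2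
    have hc : Continuous (fun s : E3 => (fun i => s i : Fin 3 → ℝ)) := by fun_prop
    exact ContinuousOn.comp (g := Ethree) (f := fun s : E3 => (fun i => s i : Fin 3 → ℝ))
      (t := octa) cont3 hc.continuousOn (fun s hs => hs)
  exact h1.congr fun s hs => dimerEnt_eq s hs

theorem dimerEnt_strictConcaveOn : StrictConcaveOn ℝ (octahedron \ edges) dimerEnt := by
  have hS := ethree_strict
  have hmem : ∀ s : E3, s ∈ octahedron \ edges ↔ (fun i => s i) ∈ octa \ octaEdges := by
    intro s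
    rfl
  have hcombo : ∀ (x y : E3) (a b : ℝ),
      (fun i => (a • x + b • y) i) = a • (fun i => x i) + b • (fun i => y i) := by
    intro x y a b
    funext i
    simp
  refine ⟨?_, ?_⟩
  · intro x hx y hy a b ha hb hab
    rw [hmem] at hx hy ⊢
    rw [hcombo]
    exact hS.1 hx hy ha hb hab
  · intro x hx y hy hxy a b ha hb hab
    have hx' := (hmem x).1 hx
    have hy' := (hmem y).1 hy
    have hz' := hS.1 hx' hy' ha.le hb.le hab
    have hne : (fun i => x i) ≠ (fun i => y i) := by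
      intro h
      apply hxy
      ext i
      exact congrFun h i
    have h := hS.2 hx' hy' hne ha hb hab
    rw [dimerEnt_eq x hx.1, dimerEnt_eq y hy.1, dimerEnt_eq (a • x + b • y)
      (by show (fun i => (a • x + b • y) i) ∈ octa; rw [hcombo]; exact hz'.1), hcombo]
    simp only [smul_eq_mul] at h ⊢
    linarith

end Helper15.DE
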